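import Mathlib

-- part MP_843cf2_an.Basic
section

set_option autoImplicit false

namespace Pool.Agent.MP_843cf2_an

open MeasureTheory TopologicalSpace

section Haar

variable (G : Type*) [CommGroup G] [TopologicalSpace G] [IsTopologicalGroup G] [CompactSpace G]
  [MeasurableSpace G] [BorelSpace G]

/-- normalised Haar measure -/
noncomputable def hp : Measure G := Measure.haarMeasure (⊤ : PositiveCompacts G)

instance hp_haar : (hp G).IsHaarMeasure := by unfold hp; infer_instance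

instance hp_prob : IsProbabilityMeasure (hp G) :=
  ⟨by have := Measure.haarMeasure_self (K₀ := (⊤ : PositiveCompacts G)); simpa [hp] using this⟩

instance hp_inv : (hp G).IsInvInvariant := by
  refine ⟨?_⟩
  have h1 : IsProbabilityMeasure (hp G).inv := by
    unfold Measure.inv
    exact Measure.isProbabilityMeasure_map measurable_inv.aemeasurable
  have h2 : (hp G).inv.IsHaarMeasure := by
    have := Measure.isHaarMeasure_map_of_isFiniteMeasure (hp G) (invMonoidHom : G →* G)
      continuous_inv inv_surjective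
    exact this
  exact Measure.isHaarMeasure_eq_of_isProbabilityMeasure _ _

variable {G}

lemma cint {E : Type*} [NormedAddCommGroup E] {f : G → E} (hf : Continuous f) :
    Integrable f (hp G) :=
  hf.integrable_of_hasCompactSupport (HasCompactSupport.of_compactSpace f)

lemma cont_int {X E : Type*} [TopologicalSpace X] [NormedAddCommGroup E] [NormedSpace ℝ E]
    {f : X → G → E} (hf : Continuous fun p : X × G => f p.1 p.2) :
    Continuous fun x => ∫ y, f x y ∂hp G := by
  rw [← continuousOn_univ]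
  exact continuousOn_integral_of_compact_support (k := Set.univ) isCompact_univ
    hf.continuousOn (fun _ _ _ h => absurd (Set.mem_univ _) h)

lemma int_swap {H E : Type*} [CommGroup H] [TopologicalSpace H] [IsTopologicalGroup H]
    [CompactSpace H] [MeasurableSpace H] [BorelSpace H] [NormedAddCommGroup E] [NormedSpace ℝ E]
    {f : G → H → E} (hf : Continuous fun p : G × H => f p.1 p.2) :
    ∫ x, (∫ y, f x y ∂hp H) ∂hp G = ∫ y, (∫ x, f x y ∂hp G) ∂hp H :=
  integral_integral_swap_of_hasCompactSupport hf (HasCompactSupport.of_compactSpace _)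

lemma int_mul_left {E : Type*} [NormedAddCommGroup E] [NormedSpace ℝ E] (f : G → E) (a : G) :
    ∫ x, f (a * x) ∂hp G = ∫ x, f x ∂hp G := integral_mul_left_eq_self f a

lemma int_mul_right {E : Type*} [NormedAddCommGroup E] [NormedSpace ℝ E] (f : G → E) (a : G) :
    ∫ x, f (x * a) ∂hp G = ∫ x, f x ∂hp G := by
  simpa only [mul_comm] using integral_mul_left_eq_self (μ := hp G) f a

lemma int_inv {E : Type*} [NormedAddCommGroup E] [NormedSpace ℝ E] (f : G → E) :
    ∫ x, f x⁻¹ ∂hp G = ∫ x, f x ∂hp G := integral_inv_eq_self f _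

lemma int_mul_inv {E : Type*} [NormedAddCommGroup E] [NormedSpace ℝ E] (f : G → E) (a : G) :
    ∫ x, f (a * x⁻¹) ∂hp G = ∫ x, f x ∂hp G := by
  rw [int_inv (fun x => f (a * x)), int_mul_left]

/-- push-forward of Haar measure under a continuous surjective homomorphism -/
lemma int_comp_hom {H E : Type*} [CommGroup H] [TopologicalSpace H] [IsTopologicalGroup H]
    [CompactSpace H] [MeasurableSpace H] [BorelSpace H] [NormedAddCommGroup E] [NormedSpace ℝ E]
    (π : H →* G) (hc : Continuous π) (hs : Function.Surjective π) {f : G → E}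
    (hf : Continuous f) : ∫ y, f (π y) ∂hp H = ∫ x, f x ∂hp G := by
  have h1 : IsProbabilityMeasure ((hp H).map π) :=
    Measure.isProbabilityMeasure_map hc.measurable.aemeasurable
  have h2 := Measure.isHaarMeasure_map_of_isFiniteMeasure (hp H) π hc hs
  have h3 : (hp H).map π = hp G := Measure.isHaarMeasure_eq_of_isProbabilityMeasure _ _
  rw [← h3, integral_map hc.measurable.aemeasurable]
  rw [h3]
  exact (cint hf).aestronglyMeasurable

lemma int_pos {f : G → ℝ} (hf : Continuous f) (h0 : ∀ x, 0 < f x) : 0 < ∫ x, f x ∂hp G := by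
  obtain ⟨x, hx⟩ := exists_le_integral (cint hf)
  exact (h0 x).trans_le hx

/-- Jensen's inequality for the logarithm, for a continuous probability density `p`. -/
lemma jensen_log {p F : G → ℝ} (hp' : Continuous p) (hF : Continuous F) (h0 : ∀ x, 0 ≤ p x)
    (h1 : ∫ x, p x ∂hp G = 1) :
    ∫ x, p x * F x ∂hp G ≤ Real.log (∫ x, p x * Real.exp (F x) ∂hp G) := by
  set Z := ∫ x, p x * Real.exp (F x) ∂hp G with hZ
  set L := ∫ x, p x * F x ∂hp G with hL
  have i1 := cint hp'
  have i2 : Integrable (fun x => p x * F x) (hp G) := cint (hp'.mul hF)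
  have i3 : Integrable (fun x => p x * Real.exp (F x)) (hp G) :=
    cint (hp'.mul (Real.continuous_exp.comp hF))
  have i4 : Integrable (fun x => p x * F x - L * p x) (hp G) := i2.sub (i1.const_mul L)
  have key : ∫ x, (p x * F x - L * p x + p x) ∂hp G
      ≤ ∫ x, Real.exp (-L) * (p x * Real.exp (F x)) ∂hp G := by
    refine integral_mono (i4.add i1) (i3.const_mul _) fun x => ?_
    have h := Real.add_one_le_exp (F x - L)
    have h2 : Real.exp (F x - L) = Real.exp (-L) * Real.exp (F x) := by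
      rw [← Real.exp_add]; ring_nf
    have h3 := mul_le_mul_of_nonneg_left h (h0 x)
    simp only
    rw [h2] at h3
    nlinarith
  rw [integral_add i4 i1, integral_sub i2 (i1.const_mul L),
    integral_const_mul, integral_const_mul, h1] at key
  have h4 : 1 ≤ Real.exp (-L) * Z := by
    linarith
  have h5 : Real.exp L ≤ Z := by
    have := mul_le_mul_of_nonneg_left h4 (Real.exp_pos L).le
    rwa [mul_one, ← mul_assoc, ← Real.exp_add, add_neg_cancel, Real.exp_zero, one_mul] at this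
  exact (Real.le_log_iff_exp_le ((Real.exp_pos L).trans_le h5)).2 h5

lemma int_le_log {F : G → ℝ} (hF : Continuous F) :
    ∫ x, F x ∂hp G ≤ Real.log (∫ x, Real.exp (F x) ∂hp G) := by
  simpa using jensen_log (p := fun _ => 1) continuous_const hF (fun _ => zero_le_one) (by simp)

/-- `∫ log f ≤ log ∫ f` -/
lemma int_log_le {f : G → ℝ} (hf : Continuous f) (h0 : ∀ x, 0 < f x) :
    ∫ x, Real.log (f x) ∂hp G ≤ Real.log (∫ x, f x ∂hp G) := by
  have := int_le_log (F := fun x => Real.log (f x)) (hf.log fun x => (h0 x).ne')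
  simpa only [Real.exp_log (h0 _)] using this

/-- Gibbs variational inequality for the density `exp H / ∫ exp H`. -/
lemma gibbs {H F : G → ℝ} (hH : Continuous H) (hF : Continuous F) :
    ∫ x, Real.exp (H x) / (∫ y, Real.exp (H y) ∂hp G) * (F x - H x) ∂hp G
      ≤ Real.log (∫ x, Real.exp (F x) ∂hp G) - Real.log (∫ y, Real.exp (H y) ∂hp G) := by
  have hZ : 0 < ∫ y, Real.exp (H y) ∂hp G :=
    int_pos (Real.continuous_exp.comp hH) fun _ => Real.exp_pos _
  have hW : 0 < ∫ y, Real.exp (F y) ∂hp G :=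
    int_pos (Real.continuous_exp.comp hF) fun _ => Real.exp_pos _
  set Z := ∫ y, Real.exp (H y) ∂hp G
  have h := jensen_log (p := fun x => Real.exp (H x) / Z) (F := fun x => F x - H x)
    ((Real.continuous_exp.comp hH).div_const _) (hF.sub hH) (fun x => by positivity)
    (by rw [integral_div]; exact div_self hZ.ne')
  refine h.trans (le_of_eq ?_)
  rw [← Real.log_div hW.ne' hZ.ne', ← integral_div]
  congr 2
  funext x
  rw [Real.exp_sub]
  field_simp

end Haar

section Char

variable {G : Type*} [CommGroup G] [TopologicalSpace G] [IsTopologicalGroup G]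

/-- a character as a complex valued function -/
noncomputable def ch (γ : PontryaginDual G) (x : G) : ℂ := ((γ x : Circle) : ℂ)

omit [IsTopologicalGroup G] in
lemma ch_mul (γ : PontryaginDual G) (x y : G) : ch γ (x * y) = ch γ x * ch γ y := by
  simp [ch]

omit [IsTopologicalGroup G] in
lemma mul_ch (γ η : PontryaginDual G) (x : G) : ch (γ * η) x = ch γ x * ch η x := by
  have : (γ * η) x = γ x * η x := rfl
  simp [ch, this]

omit [IsTopologicalGroup G] in
@[simp] lemma ch_one (γ : PontryaginDual G) : ch γ 1 = 1 := by simp [ch]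

omit [IsTopologicalGroup G] in
@[simp] lemma one_ch (x : G) : ch (1 : PontryaginDual G) x = 1 := by simp [ch]

omit [IsTopologicalGroup G] in
@[simp] lemma norm_ch (γ : PontryaginDual G) (x : G) : ‖ch γ x‖ = 1 := Circle.norm_coe _

omit [IsTopologicalGroup G] in
lemma ch_inv (γ : PontryaginDual G) (x : G) : ch γ x⁻¹ = (starRingEnd ℂ) (ch γ x) := by
  simp [ch, ← Circle.coe_inv_eq_conj]

omit [IsTopologicalGroup G] in
lemma inv_ch (γ : PontryaginDual G) (x : G) : ch γ⁻¹ x = (starRingEnd ℂ) (ch γ x) := by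
  have : (γ⁻¹) x = (γ x)⁻¹ := rfl
  simp [ch, this, ← Circle.coe_inv_eq_conj]

omit [IsTopologicalGroup G] in
lemma ch_mul_conj (γ : PontryaginDual G) (x : G) :
    ch γ x * (starRingEnd ℂ) (ch γ x) = 1 := by
  rw [← ch_inv, ← ch_mul, mul_inv_cancel, ch_one]

omit [IsTopologicalGroup G] in
lemma prod_ch (S : Finset (PontryaginDual G)) (x : G) :
    ch (∏ γ ∈ S, γ) x = ∏ γ ∈ S, ch γ x := by
  classical
  induction S using Finset.induction_on with
  | empty => simp
  | insert a s ha ih => rw [Finset.prod_insert ha, Finset.prod_insert ha, mul_ch, ih]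

omit [IsTopologicalGroup G] in
@[fun_prop] lemma continuous_ch (γ : PontryaginDual G) : Continuous (ch γ) :=
  continuous_subtype_val.comp (map_continuous γ)

omit [IsTopologicalGroup G] in
lemma abs_re_ch (γ : PontryaginDual G) (x : G) : |(ch γ x).re| ≤ 1 :=
  (Complex.abs_re_le_norm _).trans (norm_ch γ x).le

omit [IsTopologicalGroup G] in
lemma abs_im_ch (γ : PontryaginDual G) (x : G) : |(ch γ x).im| ≤ 1 :=
  (Complex.abs_im_le_norm _).trans (norm_ch γ x).le

/-- trigonometric polynomial -/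
noncomputable def tp (S : Finset (PontryaginDual G)) (c : PontryaginDual G → ℂ) (x : G) : ℂ :=
  ∑ γ ∈ S, c γ * ch γ x

omit [IsTopologicalGroup G] in
lemma continuous_tp₂ {X : Type*} [TopologicalSpace X] (S : Finset (PontryaginDual G))
    {c : X → PontryaginDual G → ℂ} {y : X → G} (hc : ∀ γ, Continuous fun t => c t γ)
    (hy : Continuous y) : Continuous fun t => tp S (c t) (y t) :=
  continuous_finsetSum _ fun γ _ => (hc γ).mul ((continuous_ch γ).comp hy)

omit [IsTopologicalGroup G] in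
@[fun_prop] lemma continuous_tp (S : Finset (PontryaginDual G)) (c : PontryaginDual G → ℂ) :
    Continuous (tp S c) :=
  continuous_tp₂ S (c := fun _ => c) (fun _ => continuous_const) continuous_id

omit [IsTopologicalGroup G] in
lemma norm_tp_le (S : Finset (PontryaginDual G)) (c : PontryaginDual G → ℂ) (x : G) :
    ‖tp S c x‖ ≤ ∑ γ ∈ S, ‖c γ‖ :=
  (norm_sum_le _ _).trans (le_of_eq (by simp))

/-- quasi-independent: distinct subsets have distinct products -/
def QI (S : Finset (PontryaginDual G)) : Prop :=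
  ∀ P ⊆ S, ∀ N ⊆ S, ∏ γ ∈ P, γ = ∏ γ ∈ N, γ → P = N

omit [IsTopologicalGroup G] in
lemma QI.mono {S T : Finset (PontryaginDual G)} (h : QI T) (hST : S ⊆ T) : QI S :=
  fun P hP N hN e => h P (hP.trans hST) N (hN.trans hST) e

omit [IsTopologicalGroup G] in
lemma QI_empty : QI (∅ : Finset (PontryaginDual G)) := fun P hP N hN _ => by
  rw [Finset.subset_empty.1 hP, Finset.subset_empty.1 hN]

/-- `φ` is the transform of a finite combination of point masses of total variation `≤ r`. -/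
def IsPt (r : ℝ) (φ : PontryaginDual G → ℂ) : Prop :=
  ∃ (ι : Type) (_ : Fintype ι) (a : ι → ℂ) (x : ι → G),
    ∑ i, ‖a i‖ ≤ r ∧ ∀ γ, φ γ = ∑ i, a i * ch γ (x i)

/-- Sidon sets -/
def Sidon (Λ : Set (PontryaginDual G)) : Prop :=
  ∃ C : ℝ, ∀ s : Finset (PontryaginDual G), (↑s : Set (PontryaginDual G)) ⊆ Λ →
    ∀ (a : PontryaginDual G → ℂ) (M : ℝ), (∀ x, ‖tp s a x‖ ≤ M) → ∑ γ ∈ s, ‖a γ‖ ≤ C * M

/-- `exp (i φ)` has norm more than `R` in `A(S)`, for some finite `S ⊆ Λ` and some real `φ` of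
norm at most `r`. -/
def Big (Λ : Set (PontryaginDual G)) (r R : ℝ) : Prop :=
  ∃ (S : Finset (PontryaginDual G)) (φ : PontryaginDual G → ℝ) (σ : PontryaginDual G → ℂ) (M : ℝ),
    (↑S : Set (PontryaginDual G)) ⊆ Λ ∧ IsPt r (fun γ => (φ γ : ℂ)) ∧ (∀ x, ‖tp S σ x‖ ≤ M) ∧
    R * M < ‖∑ γ ∈ S, σ γ * Complex.exp (φ γ * Complex.I)‖

variable [CompactSpace G] [MeasurableSpace G] [BorelSpace G]

open Classical in
lemma int_ch (γ : PontryaginDual G) : ∫ x, ch γ x ∂hp G = if γ = 1 then 1 else 0 := by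
  split_ifs with h
  · subst h; simp
  · obtain ⟨a, ha⟩ : ∃ a, γ a ≠ 1 := by
      by_contra hc
      push Not at hc
      exact h (PontryaginDual.ext fun a => by simp [hc a])
    have h1 := int_mul_left (ch γ) a
    simp only [ch_mul, integral_const_mul] at h1
    have h2 : ch γ a ≠ 1 := fun e => ha (Circle.ext (by simpa [ch] using e))
    have h3 : (ch γ a - 1) * ∫ x, ch γ x ∂hp G = 0 := by rw [sub_mul, h1]; simp
    exact (mul_eq_zero.1 h3).resolve_left (sub_ne_zero.2 h2)

/-- logarithmic moment generating function -/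
noncomputable def Lam (S : Finset (PontryaginDual G)) (c : PontryaginDual G → ℂ) : ℝ :=
  Real.log (∫ x, Real.exp (tp S c x).re ∂hp G)

/-- free energy at coupling `J` -/
noncomputable def psi (J : ℝ) (S : Finset (PontryaginDual G)) : ℝ := Lam S fun _ => (J : ℂ)

/-- `φ` restricted to `Λ` belongs to `A(Λ)` -/
def InA (Λ : Set (PontryaginDual G)) (φ : PontryaginDual G → ℂ) : Prop :=
  ∃ f : G → ℂ, Integrable f (hp G) ∧
    ∀ γ ∈ Λ, φ γ = ∫ x, f x * (starRingEnd ℂ) (ch γ x) ∂hp G

/-- `F` operates on `A(Λ)` -/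
def Operates (Λ : Set (PontryaginDual G)) (F : ℝ → ℂ) : Prop :=
  ∀ φ : PontryaginDual G → ℝ, (∀ γ ∈ Λ, φ γ ∈ Set.Ioo (-1 : ℝ) 1) →
    InA Λ (fun γ => (φ γ : ℂ)) → InA Λ fun γ => F (φ γ)

end Char

end Pool.Agent.MP_843cf2_an

end

-- part MP_843cf2_an.Lab
section

set_option autoImplicit false

namespace Pool.Agent.MP_843cf2_an

variable {G : Type*} [CommGroup G] [TopologicalSpace G]

/-- a label: a point of the group, a choice of real or imaginary part, and a threshold -/
structure Lab (G : Type*) where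
  b : G
  im : Bool
  τ : ℝ

/-- signed distance from the threshold -/
noncomputable def Lab.val (l : Lab G) (γ : PontryaginDual G) : ℝ :=
  (if l.im then (ch γ l.b).im else (ch γ l.b).re) - l.τ

open Classical in
/-- covered by k quasi-independent sets -/
def Cov (k : ℕ) (S : Finset (PontryaginDual G)) : Prop :=
  ∃ col : PontryaginDual G → ℕ, (∀ γ ∈ S, col γ < k) ∧ ∀ i, QI (S.filter fun γ => col γ = i)

open Classical in
/-- all elements keep a margin from the thresholds and every cell is covered by k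
quasi-independent sets -/
def Good (e : ℝ) : List (Lab G) → ℕ → Finset (PontryaginDual G) → Prop
  | [], k, S => Cov k S
  | l :: L, k, S => (∀ γ ∈ S, e ≤ |l.val γ|) ∧ Good e L k (S.filter fun γ => 0 < l.val γ) ∧
      Good e L k (S.filter fun γ => ¬ 0 < l.val γ)

end Pool.Agent.MP_843cf2_an

end

-- part MP_843cf2_an.Riesz
section

set_option autoImplicit false

namespace Pool.Agent.MP_843cf2_an

open MeasureTheory

variable {G : Type*} [CommGroup G] [TopologicalSpace G] [IsTopologicalGroup G] [CompactSpace G]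
  [MeasurableSpace G] [BorelSpace G]

lemma prod_expand {ι R : Type*} [CommRing R] [DecidableEq ι] (I : Finset ι) (a b : ι → R) :
    ∏ i ∈ I, (1 + a i + b i)
      = ∑ P ∈ I.powerset, ∑ N ∈ (I \ P).powerset, (∏ i ∈ P, a i) * ∏ i ∈ N, b i := by
  have h : ∀ i ∈ I, 1 + a i + b i = a i + (1 + b i) := fun i _ => by ring
  rw [Finset.prod_congr rfl h, Finset.prod_add]
  refine Finset.sum_congr rfl fun P _ => ?_
  rw [Finset.prod_one_add, Finset.mul_sum]

open Classical in
lemma int_expand (I : Finset (PontryaginDual G)) (u v : PontryaginDual G → ℂ) :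
    ∫ x, ∏ γ ∈ I, (1 + u γ * ch γ x + v γ * (starRingEnd ℂ) (ch γ x)) ∂hp G
      = ∑ P ∈ I.powerset, ∑ N ∈ (I \ P).powerset,
        ((∏ γ ∈ P, u γ) * ∏ γ ∈ N, v γ) * if ∏ γ ∈ P, γ = ∏ γ ∈ N, γ then 1 else 0 := by
  have h : ∀ x, ∏ γ ∈ I, (1 + u γ * ch γ x + v γ * (starRingEnd ℂ) (ch γ x))
      = ∑ P ∈ I.powerset, ∑ N ∈ (I \ P).powerset,
        ((∏ γ ∈ P, u γ) * ∏ γ ∈ N, v γ) * ch ((∏ γ ∈ P, γ) * (∏ γ ∈ N, γ)⁻¹) x := by
    intro x
    rw [prod_expand]
    refine Finset.sum_congr rfl fun P _ => Finset.sum_congr rfl fun N _ => ?_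
    rw [Finset.prod_mul_distrib, Finset.prod_mul_distrib, mul_ch, inv_ch, prod_ch, prod_ch,
      map_prod]
    ring
  simp only [h]
  rw [integral_finsetSum _ fun P _ => integrable_finsetSum _ fun N _ =>
    (cint (continuous_ch _)).const_mul _]
  refine Finset.sum_congr rfl fun P _ => ?_
  rw [integral_finsetSum _ fun N _ => (cint (continuous_ch _)).const_mul _]
  refine Finset.sum_congr rfl fun N _ => ?_
  rw [integral_const_mul, int_ch]
  simp only [mul_inv_eq_one]

lemma QI.int_riesz {I : Finset (PontryaginDual G)} (hI : QI I) (u v : PontryaginDual G → ℂ) :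
    ∫ x, ∏ γ ∈ I, (1 + u γ * ch γ x + v γ * (starRingEnd ℂ) (ch γ x)) ∂hp G = 1 := by
  classical
  rw [int_expand]
  have key : ∀ P ∈ I.powerset, ∀ N ∈ (I \ P).powerset, ∏ γ ∈ P, γ = ∏ γ ∈ N, γ →
      P = ∅ ∧ N = ∅ := by
    intro P hP N hN e
    rw [Finset.mem_powerset] at hP hN
    have h1 := hI P hP N (hN.trans Finset.sdiff_subset) e
    subst h1
    have h2 : P = ∅ := by
      refine Finset.eq_empty_of_forall_notMem fun x hx => ?_
      exact (Finset.mem_sdiff.1 (hN hx)).2 hx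
    exact ⟨h2, h2⟩
  rw [Finset.sum_eq_single ∅, Finset.sum_eq_single ∅]
  · simp
  · intro N hN hne
    rw [if_neg fun e => hne (key ∅ (Finset.empty_mem_powerset _) N hN e).2, mul_zero]
  · intro h; exact absurd (Finset.empty_mem_powerset _) h
  · intro P hP hne
    refine Finset.sum_eq_zero fun N hN => ?_
    rw [if_neg fun e => hne (key P hP N hN e).1, mul_zero]
  · intro h; exact absurd (Finset.empty_mem_powerset _) h

lemma exp_le_cosh {t y : ℝ} (h : |y| ≤ t) :
    Real.exp y ≤ Real.cosh t * (1 + Real.sinh t / (t * Real.cosh t) * y) := by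
  have ht : 0 ≤ t := (abs_nonneg y).trans h
  rcases ht.eq_or_lt with h0 | h0
  · subst h0
    have : y = 0 := abs_nonpos_iff.1 h
    simp [this]
  · obtain ⟨h1, h2⟩ := abs_le.1 h
    have hc := Real.cosh_pos t
    have a0 : 0 ≤ (t + y) / (2 * t) := div_nonneg (by linarith) (by linarith)
    have b0 : 0 ≤ (t - y) / (2 * t) := div_nonneg (by linarith) (by linarith)
    have ab : (t + y) / (2 * t) + (t - y) / (2 * t) = 1 := by field_simp; ring
    have hcv := convexOn_exp.2 (Set.mem_univ t) (Set.mem_univ (-t)) a0 b0 ab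
    simp only [smul_eq_mul] at hcv
    have e1 : (t + y) / (2 * t) * t + (t - y) / (2 * t) * -t = y := by field_simp; ring
    rw [e1] at hcv
    refine hcv.trans (le_of_eq ?_)
    have e2 : Real.cosh t * (1 + Real.sinh t / (t * Real.cosh t) * y)
        = Real.cosh t + Real.sinh t / t * y := by field_simp
    rw [e2, Real.cosh_eq, Real.sinh_eq]
    field_simp
    ring

omit [IsTopologicalGroup G] [CompactSpace G] [MeasurableSpace G] [BorelSpace G] in
lemma exp_re_tp (S : Finset (PontryaginDual G)) (c : PontryaginDual G → ℂ) (x : G) :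
    Real.exp (tp S c x).re = ∏ γ ∈ S, Real.exp (c γ * ch γ x).re := by
  rw [tp, Complex.re_sum, Real.exp_sum]

omit [IsTopologicalGroup G] [CompactSpace G] [MeasurableSpace G] [BorelSpace G] in
lemma continuous_exp_tp (S : Finset (PontryaginDual G)) (c : PontryaginDual G → ℂ) :
    Continuous fun x => Real.exp (tp S c x).re :=
  Real.continuous_exp.comp (Complex.continuous_re.comp (continuous_tp S c))

lemma Z_pos (S : Finset (PontryaginDual G)) (c : PontryaginDual G → ℂ) :
    0 < ∫ x, Real.exp (tp S c x).re ∂hp G :=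
  int_pos (continuous_exp_tp S c) fun _ => Real.exp_pos _

/-- a real Riesz product as a complex integral -/
lemma int_real_prod (I : Finset (PontryaginDual G)) (u : PontryaginDual G → ℂ) :
    ((∫ x, ∏ γ ∈ I, (1 + 2 * (u γ * ch γ x).re) ∂hp G : ℝ) : ℂ)
      = ∫ x, ∏ γ ∈ I, (1 + u γ * ch γ x
          + (starRingEnd ℂ) (u γ) * (starRingEnd ℂ) (ch γ x)) ∂hp G := by
  rw [← integral_complex_ofReal]
  congr 1
  funext x
  show ((∏ γ ∈ I, (1 + 2 * (u γ * ch γ x).re) : ℝ) : ℂ) = _
  rw [Complex.ofReal_prod]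
  refine Finset.prod_congr rfl fun γ _ => ?_
  rw [← map_mul, add_assoc, Complex.add_conj]
  push_cast
  ring

omit [IsTopologicalGroup G] [CompactSpace G] [MeasurableSpace G] [BorelSpace G] in
lemma continuous_real_prod (I : Finset (PontryaginDual G)) (u : PontryaginDual G → ℂ) :
    Continuous fun x => ∏ γ ∈ I, (1 + 2 * (u γ * ch γ x).re) :=
  continuous_finsetProd _ fun γ _ => continuous_const.add (continuous_const.mul
    (Complex.continuous_re.comp (continuous_const.mul (continuous_ch γ))))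

lemma QI.Lam_le {I : Finset (PontryaginDual G)} (hI : QI I) (c : PontryaginDual G → ℂ) :
    Lam I c ≤ (∑ γ ∈ I, ‖c γ‖ ^ 2) / 2 := by
  set u : PontryaginDual G → ℂ := fun γ =>
    ((Real.sinh ‖c γ‖ / (‖c γ‖ * Real.cosh ‖c γ‖) / 2 : ℝ) : ℂ) * c γ with hu
  have h1 : ∫ x, ∏ γ ∈ I, (1 + 2 * (u γ * ch γ x).re) ∂hp G = 1 := by
    have := int_real_prod I u
    rw [hI.int_riesz] at this
    exact_mod_cast this
  have h2 : ∀ x, Real.exp (tp I c x).re
      ≤ (∏ γ ∈ I, Real.cosh ‖c γ‖) * ∏ γ ∈ I, (1 + 2 * (u γ * ch γ x).re) := by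
    intro x
    rw [exp_re_tp, ← Finset.prod_mul_distrib]
    refine Finset.prod_le_prod (fun _ _ => (Real.exp_pos _).le) fun γ _ => ?_
    have h3 : |(c γ * ch γ x).re| ≤ ‖c γ‖ := (Complex.abs_re_le_norm _).trans (by simp)
    refine (exp_le_cosh h3).trans (le_of_eq ?_)
    simp only [hu, mul_assoc, Complex.re_ofReal_mul]
    ring
  have h4 : ∫ x, Real.exp (tp I c x).re ∂hp G ≤ ∏ γ ∈ I, Real.cosh ‖c γ‖ := by
    refine (integral_mono (cint (continuous_exp_tp I c))
      ((cint (continuous_real_prod I u)).const_mul _) h2).trans (le_of_eq ?_)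
    rw [integral_const_mul, h1, mul_one]
  unfold Lam
  rw [Real.log_le_iff_le_exp (Z_pos I c)]
  refine h4.trans ?_
  rw [Finset.sum_div, Real.exp_sum]
  exact Finset.prod_le_prod (fun _ _ => (Real.cosh_pos _).le) fun γ _ =>
    Real.cosh_le_exp_half_sq _

lemma psi_nonneg {J : ℝ} (hJ : 0 ≤ J) (S : Finset (PontryaginDual G)) : 0 ≤ psi J S := by
  classical
  refine le_trans ?_ (int_le_log (F := fun x => (tp S (fun _ => (J : ℂ)) x).re)
    (Complex.continuous_re.comp (continuous_tp _ _)))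
  have h : ∀ x, (tp S (fun _ => (J : ℂ)) x).re = ∑ γ ∈ S, J * (ch γ x).re := by
    intro x
    simp [tp, Complex.re_sum]
  simp only [h]
  rw [integral_finsetSum (f := fun γ x => J * (ch γ x).re) _ fun γ _ =>
    (cint (Complex.continuous_re.comp (continuous_ch γ))).const_mul J]
  refine Finset.sum_nonneg fun γ _ => ?_
  rw [integral_const_mul]
  refine mul_nonneg hJ ?_
  have h2 := integral_re (μ := hp G) (cint (continuous_ch γ))
  rw [int_ch] at h2
  have h3 : ∫ x, (ch γ x).re ∂hp G = RCLike.re (if γ = 1 then (1 : ℂ) else 0) := h2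
  rw [h3]
  split_ifs <;> simp

lemma psi_le {J : ℝ} (hJ : 0 ≤ J) (S : Finset (PontryaginDual G)) : psi J S ≤ J * S.card := by
  unfold psi Lam
  rw [Real.log_le_iff_le_exp (Z_pos S _)]
  have h : ∀ x, Real.exp (tp S (fun _ => (J : ℂ)) x).re ≤ Real.exp (J * S.card) := by
    intro x
    refine Real.exp_le_exp.2 ((Complex.re_le_norm _).trans ((norm_tp_le _ _ _).trans ?_))
    simp [abs_of_nonneg hJ, mul_comm]
  refine (integral_mono (cint (continuous_exp_tp S _)) (integrable_const _) h).trans ?_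
  simp

lemma psi_empty (J : ℝ) : psi J (∅ : Finset (PontryaginDual G)) = 0 := by
  simp [psi, Lam, tp]

omit [IsTopologicalGroup G] [CompactSpace G] [MeasurableSpace G] [BorelSpace G] in
open Classical in
/-- a maximal relation leaves a quasi-independent set -/
lemma exists_relation (R : Finset (PontryaginDual G)) :
    ∃ P ∈ R.powerset, ∃ N ∈ (R \ P).powerset, ∏ γ ∈ P, γ = ∏ γ ∈ N, γ ∧ QI (R \ (P ∪ N)) := by
  obtain ⟨⟨P, N⟩, hm, hmax⟩ := Finset.exists_max_image
    ((R.powerset ×ˢ R.powerset).filter fun q => Disjoint q.1 q.2 ∧ ∏ γ ∈ q.1, γ = ∏ γ ∈ q.2, γ)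
    (fun q => q.1.card + q.2.card) ⟨(∅, ∅), by simp⟩
  simp only [Finset.mem_filter, Finset.mem_product, Finset.mem_powerset] at hm hmax
  obtain ⟨⟨hP, hN⟩, hd, he⟩ := hm
  refine ⟨P, Finset.mem_powerset.2 hP, N, Finset.mem_powerset.2
    (Finset.subset_sdiff.2 ⟨hN, hd.symm⟩), he, ?_⟩
  intro P2 hP2 N2 hN2 e
  have hP3 := Finset.subset_sdiff.1 hP2
  have hN3 := Finset.subset_sdiff.1 hN2
  rw [Finset.disjoint_union_right] at hP3 hN3
  have e1 : ∏ γ ∈ P2 \ N2, γ = ∏ γ ∈ N2 \ P2, γ := by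
    have a1 := Finset.prod_inter_mul_prod_sdiff P2 N2 (fun γ => γ)
    have a2 := Finset.prod_inter_mul_prod_sdiff N2 P2 (fun γ => γ)
    rw [Finset.inter_comm N2 P2, ← e, ← a1] at a2
    exact (mul_left_cancel a2).symm
  have d1 : Disjoint P (P2 \ N2) := (hP3.2.1.mono_left Finset.sdiff_subset).symm
  have d2 : Disjoint N (N2 \ P2) := (hN3.2.2.mono_left Finset.sdiff_subset).symm
  have h := hmax (P ∪ (P2 \ N2), N ∪ (N2 \ P2)) ⟨⟨Finset.union_subset hP
    (Finset.sdiff_subset.trans hP3.1), Finset.union_subset hN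
    (Finset.sdiff_subset.trans hN3.1)⟩, by
      rw [Finset.disjoint_union_left, Finset.disjoint_union_right, Finset.disjoint_union_right]
      exact ⟨⟨hd, (hN3.2.1.mono_left Finset.sdiff_subset).symm⟩,
        hP3.2.2.mono_left Finset.sdiff_subset, disjoint_sdiff_sdiff⟩, by
      rw [Finset.prod_union d1, Finset.prod_union d2, he, e1]⟩
  simp only [Finset.card_union_of_disjoint d1, Finset.card_union_of_disjoint d2] at h
  have z1 : P2 \ N2 = ∅ := Finset.card_eq_zero.1 (by omega)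
  have z2 : N2 \ P2 = ∅ := Finset.card_eq_zero.1 (by omega)
  exact Finset.Subset.antisymm (Finset.sdiff_eq_empty_iff_subset.1 z1)
    (Finset.sdiff_eq_empty_iff_subset.1 z2)

lemma W_ge (R : Finset (PontryaginDual G)) (m : ℕ) (hm : ∀ B ⊆ R, QI B → B.card ≤ m) :
    (2 : ℝ) ^ R.card / 2 ^ m ≤ ∫ x, ∏ γ ∈ R, (1 + 2 * (2 * ch γ x).re) ∂hp G := by
  classical
  have h1 := int_real_prod R (fun _ => 2)
  rw [int_expand] at h1
  have h2 : ∫ x, ∏ γ ∈ R, (1 + 2 * (2 * ch γ x).re) ∂hp G
      = ∑ P ∈ R.powerset, ∑ N ∈ (R \ P).powerset,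
        (2 : ℝ) ^ (P.card + N.card) * if ∏ γ ∈ P, γ = ∏ γ ∈ N, γ then 1 else 0 := by
    apply Complex.ofReal_injective
    rw [h1]
    push_cast
    refine Finset.sum_congr rfl fun P _ => Finset.sum_congr rfl fun N _ => ?_
    have : (starRingEnd ℂ) 2 = 2 := Complex.conj_ofNat 2
    rw [Finset.prod_const, Finset.prod_const, this, pow_add]
    split_ifs <;> simp
  rw [h2]
  obtain ⟨P, hP, N, hN, e, hq⟩ := exists_relation R
  have h3 := hm _ Finset.sdiff_subset hq
  have h4 : R.card ≤ m + (P.card + N.card) := by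
    have a1 := Finset.card_sdiff_add_card R (P ∪ N)
    have a2 := Finset.card_union_le P N
    have a3 : R.card ≤ (R ∪ (P ∪ N)).card := Finset.card_le_card Finset.subset_union_left
    omega
  have nn : ∀ P N : Finset (PontryaginDual G),
      0 ≤ (2 : ℝ) ^ (P.card + N.card) * if ∏ γ ∈ P, γ = ∏ γ ∈ N, γ then 1 else 0 := by
    intro P N
    split_ifs <;> positivity
  refine le_trans ?_ (Finset.single_le_sum (f := fun P => ∑ N ∈ (R \ P).powerset,
    (2 : ℝ) ^ (P.card + N.card) * if ∏ γ ∈ P, γ = ∏ γ ∈ N, γ then 1 else 0)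
    (fun P _ => Finset.sum_nonneg fun N _ => nn P N) hP)
  refine le_trans ?_ (Finset.single_le_sum (f := fun N =>
    (2 : ℝ) ^ (P.card + N.card) * if ∏ γ ∈ P, γ = ∏ γ ∈ N, γ then 1 else 0)
    (fun N _ => nn P N) hN)
  simp only [if_pos e, mul_one]
  rw [div_le_iff₀ (by positivity), ← pow_add]
  exact pow_le_pow_right₀ one_le_two (by omega)

/-- extraction of a quasi-independent subset -/
lemma extract (S : Finset (PontryaginDual G)) {J : ℝ} (h0 : 0 ≤ J) (h1 : J ≤ 1) :
    ∃ B ⊆ S, QI B ∧ J * S.card / 8 - psi J S ≤ B.card := by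
  classical
  obtain ⟨B, hB, hmax⟩ := Finset.exists_max_image (S.powerset.filter fun B => QI B)
    Finset.card ⟨∅, by simp [QI_empty]⟩
  simp only [Finset.mem_filter, Finset.mem_powerset] at hB hmax
  refine ⟨B, hB.1, hB.2, ?_⟩
  set m := B.card
  set p : ℝ := J / 4 with hp'
  have p0 : 0 ≤ p := by positivity
  have p1 : 0 ≤ 1 - p := by linarith
  have e1 : ∀ x, ∏ γ ∈ S, (1 + J * (ch γ x).re) = ∑ R ∈ S.powerset,
      p ^ R.card * (1 - p) ^ (S \ R).card * ∏ γ ∈ R, (1 + 2 * (2 * ch γ x).re) := by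
    intro x
    have : ∀ γ ∈ S, 1 + J * (ch γ x).re = p * (1 + 2 * (2 * ch γ x).re) + (1 - p) := by
      intro γ _
      have : (2 * ch γ x).re = 2 * (ch γ x).re := by simp
      rw [this, hp']; ring
    rw [Finset.prod_congr rfl this, Finset.prod_add]
    refine Finset.sum_congr rfl fun R _ => ?_
    rw [Finset.prod_mul_distrib, Finset.prod_const, Finset.prod_const]
    ring
  have e2 : (1 + p) ^ S.card / 2 ^ m ≤ ∫ x, ∏ γ ∈ S, (1 + J * (ch γ x).re) ∂hp G := by
    simp only [e1]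
    rw [integral_finsetSum _ fun R _ => (cint (continuous_real_prod R fun _ => 2)).const_mul _]
    have : (1 + p) ^ S.card = ∑ R ∈ S.powerset, (2 * p) ^ R.card * (1 - p) ^ (S \ R).card := by
      have h := Finset.prod_add (fun _ : PontryaginDual G => 2 * p) (fun _ => 1 - p) S
      simp only [Finset.prod_const] at h
      rw [← h]; congr 1; ring
    rw [this, Finset.sum_div]
    refine Finset.sum_le_sum fun R hR => ?_
    rw [integral_const_mul]
    have hW := W_ge R m fun B' hB' hq => hmax B' ⟨hB'.trans (Finset.mem_powerset.1 hR), hq⟩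
    refine le_trans (le_of_eq ?_) (mul_le_mul_of_nonneg_left hW (by positivity))
    rw [mul_pow]; ring
  have e3 : ∫ x, ∏ γ ∈ S, (1 + J * (ch γ x).re) ∂hp G
      ≤ ∫ x, Real.exp (tp S (fun _ => (J : ℂ)) x).re ∂hp G := by
    refine integral_mono (cint (continuous_finsetProd _ fun γ _ => continuous_const.add
      (continuous_const.mul (Complex.continuous_re.comp (continuous_ch γ)))))
      (cint (continuous_exp_tp S _)) fun x => ?_
    simp only [exp_re_tp]
    refine Finset.prod_le_prod (fun γ _ => ?_) fun γ _ => ?_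
    · have := (abs_le.1 (abs_re_ch γ x)).1
      nlinarith
    · rw [Complex.re_ofReal_mul, add_comm]
      exact Real.add_one_le_exp _
  have e4 : Real.log ((1 + p) ^ S.card / 2 ^ m) ≤ psi J S :=
    Real.log_le_log (by positivity) (e2.trans e3)
  rw [Real.log_div (by positivity) (by positivity), Real.log_pow, Real.log_pow] at e4
  have l1 : p / 2 ≤ Real.log (1 + p) := by
    refine le_trans ?_ (Real.one_sub_inv_le_log_of_pos (by positivity))
    have : (1 + p)⁻¹ ≤ 1 - p / 2 := by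
      rw [inv_le_iff_one_le_mul₀ (by positivity)]
      nlinarith
    linarith
  have l2 : Real.log 2 ≤ 1 := by
    have := Real.log_le_sub_one_of_pos (show (0 : ℝ) < 2 by norm_num)
    linarith
  have l3 : (S.card : ℝ) * (p / 2) ≤ S.card * Real.log (1 + p) := by gcongr
  have l4 : (m : ℝ) * Real.log 2 ≤ m * 1 := by gcongr
  have l5 : J * S.card / 8 = S.card * (p / 2) := by rw [hp']; ring
  linarith

/-- the average of the phases -/
noncomputable def avgPhase (a b : ℕ) : ℂ :=
  (1 / 4 : ℂ) * ∑ k ∈ Finset.range 4,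
    (-Complex.I) ^ k * ((Complex.I ^ k) ^ a * ((-Complex.I) ^ k) ^ b)

lemma norm_avgPhase (a b : ℕ) : ‖avgPhase a b‖ ≤ 1 := by
  unfold avgPhase
  rw [norm_mul]
  have : ‖∑ k ∈ Finset.range 4,
      (-Complex.I) ^ k * ((Complex.I ^ k) ^ a * ((-Complex.I) ^ k) ^ b)‖ ≤ 4 :=
    (norm_sum_le _ _).trans (by simp)
  have h4 : ‖(1 / 4 : ℂ)‖ = 1 / 4 := by simp
  rw [h4]
  linarith

lemma avgPhase_00 : avgPhase 0 0 = 0 := by
  simp [avgPhase, Finset.sum_range_succ, pow_succ]

lemma avgPhase_10 : avgPhase 1 0 = 1 := by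
  simp [avgPhase, Finset.sum_range_succ, pow_succ]
  norm_num

lemma avgPhase_01 : avgPhase 0 1 = 0 := by
  simp [avgPhase, Finset.sum_range_succ, pow_succ]

/-- the first order term of a Riesz product, isolated by averaging over four phases -/
lemma first_order {ι : Type*} [DecidableEq ι] (I : Finset ι) (w : Finset ι → Finset ι → ℝ)
    (hw : ∀ P N, 0 ≤ w P N)
    (h1 : ∑ P ∈ I.powerset, ∑ N ∈ (I \ P).powerset, (1 / 2 : ℝ) ^ (P.card + N.card) * w P N ≤ 1)
    (θ : ι → ℂ) (hθ : ∀ i, ‖θ i‖ ≤ 1) {δ : ℝ} (hδ0 : 0 ≤ δ) (hδ1 : δ ≤ 1) :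
    ‖(1 / 4 : ℂ) * ∑ k ∈ Finset.range 4, (-Complex.I) ^ k *
        ∑ P ∈ I.powerset, ∑ N ∈ (I \ P).powerset,
          ((∏ i ∈ P, ((δ / 2 : ℂ) * (Complex.I ^ k * θ i))) *
            ∏ i ∈ N, ((δ / 2 : ℂ) * (starRingEnd ℂ) (Complex.I ^ k * θ i))) * (w P N : ℂ)
      - (δ / 2 : ℂ) * ∑ i ∈ I, θ i * (w {i} ∅ : ℂ)‖ ≤ δ ^ 2 := by
  set T : Finset ι → Finset ι → ℂ := fun P N => (δ / 2 : ℂ) ^ (P.card + N.card) *
    ((∏ i ∈ P, θ i) * ∏ i ∈ N, (starRingEnd ℂ) (θ i)) * (w P N : ℂ) with hT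
  have e1 : (1 / 4 : ℂ) * ∑ k ∈ Finset.range 4, (-Complex.I) ^ k *
        ∑ P ∈ I.powerset, ∑ N ∈ (I \ P).powerset,
          ((∏ i ∈ P, ((δ / 2 : ℂ) * (Complex.I ^ k * θ i))) *
            ∏ i ∈ N, ((δ / 2 : ℂ) * (starRingEnd ℂ) (Complex.I ^ k * θ i))) * (w P N : ℂ)
      = ∑ P ∈ I.powerset, ∑ N ∈ (I \ P).powerset, avgPhase P.card N.card * T P N := by
    simp only [Finset.mul_sum]
    rw [Finset.sum_comm]
    refine Finset.sum_congr rfl fun P _ => ?_
    rw [Finset.sum_comm]
    refine Finset.sum_congr rfl fun N _ => ?_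
    unfold avgPhase
    rw [Finset.mul_sum, Finset.sum_mul]
    refine Finset.sum_congr rfl fun k _ => ?_
    simp only [hT, map_mul, map_pow, Complex.conj_I, Finset.prod_mul_distrib, Finset.prod_const,
      pow_add]
    ring
  have e2 : (δ / 2 : ℂ) * ∑ i ∈ I, θ i * (w {i} ∅ : ℂ)
      = ∑ P ∈ I.powerset, ∑ N ∈ (I \ P).powerset,
        if P.card = 1 ∧ N = ∅ then T P N else 0 := by
    have a1 : ∀ P ∈ I.powerset, (∑ N ∈ (I \ P).powerset,
        if P.card = 1 ∧ N = ∅ then T P N else 0) = if P.card = 1 then T P ∅ else 0 := by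
      intro P _
      rw [Finset.sum_eq_single ∅]
      · simp
      · intro N _ hne; simp [hne]
      · intro h; exact absurd (Finset.empty_mem_powerset _) h
    rw [Finset.sum_congr rfl a1, ← Finset.sum_filter, ← Finset.powersetCard_eq_filter,
      Finset.powersetCard_one, Finset.sum_map, Finset.mul_sum]
    refine Finset.sum_congr rfl fun i _ => ?_
    simp [hT, mul_assoc]
  have nT : ∀ P N, ‖T P N‖ ≤ δ ^ (P.card + N.card) * ((1 / 2 : ℝ) ^ (P.card + N.card) * w P N) := by
    intro P N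
    have b1 : ‖∏ i ∈ P, θ i‖ ≤ 1 := by
      rw [norm_prod]; exact Finset.prod_le_one (fun _ _ => norm_nonneg _) fun i _ => hθ i
    have b2 : ‖∏ i ∈ N, (starRingEnd ℂ) (θ i)‖ ≤ 1 := by
      rw [norm_prod]
      exact Finset.prod_le_one (fun _ _ => norm_nonneg _) fun i _ => by simpa using hθ i
    have b3 : ‖(δ / 2 : ℂ)‖ = δ * (1 / 2) := by
      simp [abs_of_nonneg hδ0, div_eq_mul_inv]
    have b4 : ‖(w P N : ℂ)‖ = w P N := by simp [abs_of_nonneg (hw P N)]
    have b5 : ‖∏ i ∈ P, θ i‖ * ‖∏ i ∈ N, (starRingEnd ℂ) (θ i)‖ ≤ 1 :=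
      mul_le_one₀ b1 (norm_nonneg _) b2
    simp only [hT, norm_mul, norm_pow, b3, b4]
    have := hw P N
    calc (δ * (1 / 2)) ^ (P.card + N.card) *
          (‖∏ i ∈ P, θ i‖ * ‖∏ i ∈ N, (starRingEnd ℂ) (θ i)‖) * w P N
        ≤ (δ * (1 / 2)) ^ (P.card + N.card) * 1 * w P N := by gcongr
      _ = _ := by rw [mul_pow]; ring
  rw [e1, e2, ← Finset.sum_sub_distrib]
  have e3 : ∀ P N : Finset ι,
      ‖avgPhase P.card N.card * T P N - if P.card = 1 ∧ N = ∅ then T P N else 0‖
        ≤ δ ^ 2 * ((1 / 2 : ℝ) ^ (P.card + N.card) * w P N) := by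
    intro P N
    have hn : 0 ≤ (1 / 2 : ℝ) ^ (P.card + N.card) * w P N := mul_nonneg (by positivity) (hw P N)
    have h0 : 0 ≤ δ ^ 2 * ((1 / 2 : ℝ) ^ (P.card + N.card) * w P N) := by positivity
    by_cases hc : P.card = 1 ∧ N = ∅
    · rw [if_pos hc]
      have : avgPhase P.card N.card = 1 := by rw [hc.1, hc.2]; exact avgPhase_10
      rw [this, one_mul, sub_self, norm_zero]
      exact h0
    · rw [if_neg hc, sub_zero]
      by_cases h2 : 2 ≤ P.card + N.card
      · rw [norm_mul]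
        refine (mul_le_of_le_one_left (norm_nonneg _) (norm_avgPhase _ _)).trans
          ((nT P N).trans ?_)
        exact mul_le_mul_of_nonneg_right (pow_le_pow_of_le_one hδ0 hδ1 h2) hn
      · have : avgPhase P.card N.card = 0 := by
          rw [← Finset.card_eq_zero] at hc
          have h3 : P.card = 0 := by omega
          rcases (by omega : N.card = 0 ∨ N.card = 1) with h4 | h4
          · rw [h3, h4]; exact avgPhase_00
          · rw [h3, h4]; exact avgPhase_01
        rw [this, zero_mul, norm_zero]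
        exact h0
  refine (norm_sum_le _ _).trans ?_
  refine le_trans (Finset.sum_le_sum fun P _ => ?_ : _ ≤ ∑ P ∈ I.powerset, δ ^ 2 *
    ∑ N ∈ (I \ P).powerset, (1 / 2 : ℝ) ^ (P.card + N.card) * w P N) ?_
  · rw [← Finset.sum_sub_distrib, Finset.mul_sum]
    exact (norm_sum_le _ _).trans (Finset.sum_le_sum fun N _ => e3 P N)
  · rw [← Finset.mul_sum]
    exact mul_le_of_le_one_right (by positivity) h1

lemma continuous_Lam (S : Finset (PontryaginDual G)) : Continuous (Lam S) := by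
  refine Continuous.log ?_ fun c => (Z_pos S c).ne'
  refine cont_int (f := fun (c : PontryaginDual G → ℂ) x => Real.exp (tp S c x).re) ?_
  exact Real.continuous_exp.comp (Complex.continuous_re.comp
    (continuous_tp₂ S (fun γ => (continuous_apply γ).comp continuous_fst) continuous_snd))

lemma convexOn_Lam (S : Finset (PontryaginDual G)) : ConvexOn ℝ Set.univ (Lam S) := by
  refine ⟨convex_univ, fun c _ d _ s t hs ht hst => ?_⟩
  simp only [smul_eq_mul]
  set a := Lam S c
  set b := Lam S d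
  have ha : Real.exp a = ∫ x, Real.exp (tp S c x).re ∂hp G := Real.exp_log (Z_pos S c)
  have hb : Real.exp b = ∫ x, Real.exp (tp S d x).re ∂hp G := Real.exp_log (Z_pos S d)
  have e : ∀ x, (tp S (s • c + t • d) x).re = s * (tp S c x).re + t * (tp S d x).re := by
    intro x
    simp only [tp, Complex.re_sum, Finset.mul_sum, ← Finset.sum_add_distrib, Pi.add_apply,
      Pi.smul_apply, Complex.real_smul, add_mul, mul_assoc, Complex.add_re, Complex.re_ofReal_mul]
  have h : ∀ x, Real.exp (tp S (s • c + t • d) x).re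
      ≤ Real.exp (s * a + t * b) * (s * Real.exp (-a)) * Real.exp (tp S c x).re
        + Real.exp (s * a + t * b) * (t * Real.exp (-b)) * Real.exp (tp S d x).re := by
    intro x
    have h1 := convexOn_exp.2 (Set.mem_univ ((tp S c x).re - a))
      (Set.mem_univ ((tp S d x).re - b)) hs ht hst
    simp only [smul_eq_mul] at h1
    have h2 : (tp S (s • c + t • d) x).re
        = (s * a + t * b) + (s * ((tp S c x).re - a) + t * ((tp S d x).re - b)) := by
      rw [e]; ring
    rw [h2, Real.exp_add]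
    refine (mul_le_mul_of_nonneg_left h1 (Real.exp_pos _).le).trans (le_of_eq ?_)
    rw [sub_eq_add_neg, sub_eq_add_neg, Real.exp_add _ (-a), Real.exp_add _ (-b)]
    ring
  unfold Lam
  rw [Real.log_le_iff_le_exp (Z_pos S _)]
  refine (integral_mono (cint (continuous_exp_tp S _))
    (((cint (continuous_exp_tp S c)).const_mul _).add
      ((cint (continuous_exp_tp S d)).const_mul _)) h).trans (le_of_eq ?_)
  rw [integral_add' ((cint (continuous_exp_tp S c)).const_mul _)
    ((cint (continuous_exp_tp S d)).const_mul _), integral_const_mul, integral_const_mul,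
    ← ha, ← hb]
  have x1 : Real.exp (-a) * Real.exp a = 1 := by rw [← Real.exp_add]; simp
  have x2 : Real.exp (-b) * Real.exp b = 1 := by rw [← Real.exp_add]; simp
  calc Real.exp (s * a + t * b) * (s * Real.exp (-a)) * Real.exp a
        + Real.exp (s * a + t * b) * (t * Real.exp (-b)) * Real.exp b
      = Real.exp (s * a + t * b) * (s * (Real.exp (-a) * Real.exp a)
        + t * (Real.exp (-b) * Real.exp b)) := by ring
    _ = Real.exp (s * a + t * b) := by rw [x1, x2, mul_one, mul_one, hst, mul_one]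

/-- the basic subadditivity: a random translate decouples two polynomials -/
lemma Lam_shift (S : Finset (PontryaginDual G)) (c d : PontryaginDual G → ℂ) :
    ∫ a, Lam S (fun γ => c γ + d γ * ch γ a) ∂hp G ≤ Lam S c + Lam S d := by
  have e : ∀ a x, Real.exp (tp S (fun γ => c γ + d γ * ch γ a) x).re
      = Real.exp (tp S c x).re * Real.exp (tp S d (a * x)).re := by
    intro a x
    rw [← Real.exp_add, ← Complex.add_re]
    simp only [tp, ← Finset.sum_add_distrib, ch_mul, add_mul, mul_assoc]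
  have hc : Continuous fun p : G × G => Real.exp (tp S (fun γ => c γ + d γ * ch γ p.1) p.2).re :=
    Real.continuous_exp.comp (Complex.continuous_re.comp (continuous_tp₂ S
      (fun γ => continuous_const.add (continuous_const.mul
        ((continuous_ch γ).comp continuous_fst))) continuous_snd))
  refine (int_log_le (f := fun a => ∫ x, Real.exp (tp S (fun γ => c γ + d γ * ch γ a) x).re ∂hp G)
    (cont_int hc) fun a => Z_pos S _).trans (le_of_eq ?_)
  rw [int_swap hc]
  simp only [e, integral_const_mul]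
  have e2 : ∀ x, ∫ a, Real.exp (tp S d (a * x)).re ∂hp G = ∫ a, Real.exp (tp S d a).re ∂hp G :=
    fun x => int_mul_right (fun a => Real.exp (tp S d a).re) x
  simp only [e2, integral_mul_const]
  exact Real.log_mul (Z_pos S c).ne' (Z_pos S d).ne'

end Pool.Agent.MP_843cf2_an

end

-- part MP_843cf2_an.Pt
section

set_option autoImplicit false

namespace Pool.Agent.MP_843cf2_an

open MeasureTheory

variable {G : Type*} [CommGroup G] [TopologicalSpace G]

lemma IsPt.nonneg {r : ℝ} {φ : PontryaginDual G → ℂ} (h : IsPt r φ) : 0 ≤ r := by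
  obtain ⟨ι, _, a, x, h1, _⟩ := h
  exact (Finset.sum_nonneg fun _ _ => norm_nonneg _).trans h1

lemma IsPt.mono {r r' : ℝ} {φ : PontryaginDual G → ℂ} (h : IsPt r φ) (hr : r ≤ r') :
    IsPt r' φ := by
  obtain ⟨ι, _, a, x, h1, h2⟩ := h
  exact ⟨ι, inferInstance, a, x, h1.trans hr, h2⟩

lemma IsPt.norm_le {r : ℝ} {φ : PontryaginDual G → ℂ} (h : IsPt r φ) (γ : PontryaginDual G) :
    ‖φ γ‖ ≤ r := by
  obtain ⟨ι, _, a, x, h1, h2⟩ := h
  rw [h2]
  exact (norm_sum_le _ _).trans (le_trans (le_of_eq (by simp)) h1)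

lemma isPt_ch (x : G) : IsPt 1 fun γ => ch γ x :=
  ⟨Unit, inferInstance, fun _ => 1, fun _ => x, by simp, by simp⟩

lemma isPt_const (c : ℂ) : IsPt ‖c‖ fun _ : PontryaginDual G => c :=
  ⟨Unit, inferInstance, fun _ => c, fun _ => 1, by simp, by simp⟩

lemma IsPt.add {r r' : ℝ} {φ ψ : PontryaginDual G → ℂ} (h : IsPt r φ) (h' : IsPt r' ψ) :
    IsPt (r + r') fun γ => φ γ + ψ γ := by
  obtain ⟨ι, _, a, x, h1, h2⟩ := h
  obtain ⟨κ, _, b, y, h3, h4⟩ := h'
  refine ⟨ι ⊕ κ, inferInstance, Sum.elim a b, Sum.elim x y, ?_, fun γ => ?_⟩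
  · simpa using add_le_add h1 h3
  · simp [h2, h4]

lemma IsPt.mul {r r' : ℝ} {φ ψ : PontryaginDual G → ℂ} (h : IsPt r φ) (h' : IsPt r' ψ) :
    IsPt (r * r') fun γ => φ γ * ψ γ := by
  have h0 := h.nonneg
  obtain ⟨ι, _, a, x, h1, h2⟩ := h
  obtain ⟨κ, _, b, y, h3, h4⟩ := h'
  refine ⟨ι × κ, inferInstance, fun p => a p.1 * b p.2, fun p => x p.1 * y p.2, ?_, fun γ => ?_⟩
  · simp only [norm_mul, Fintype.sum_prod_type, ← Finset.sum_mul_sum]
    exact mul_le_mul h1 h3 (Finset.sum_nonneg fun _ _ => norm_nonneg _) h0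
  · simp only [h2, h4, Fintype.sum_prod_type, Finset.sum_mul_sum, ch_mul]
    refine Finset.sum_congr rfl fun i _ => Finset.sum_congr rfl fun j _ => by ring

lemma IsPt.smul {r : ℝ} {φ : PontryaginDual G → ℂ} (h : IsPt r φ) (c : ℂ) :
    IsPt (‖c‖ * r) fun γ => c * φ γ := (isPt_const c).mul h

lemma IsPt.neg {r : ℝ} {φ : PontryaginDual G → ℂ} (h : IsPt r φ) : IsPt r fun γ => -φ γ := by
  simpa using h.smul (-1)

lemma IsPt.conj {r : ℝ} {φ : PontryaginDual G → ℂ} (h : IsPt r φ) :
    IsPt r fun γ => (starRingEnd ℂ) (φ γ) := by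
  obtain ⟨ι, _, a, x, h1, h2⟩ := h
  refine ⟨ι, inferInstance, fun i => (starRingEnd ℂ) (a i), fun i => (x i)⁻¹, by simpa using h1,
    fun γ => ?_⟩
  simp [h2, ch_inv]

lemma IsPt.re {r : ℝ} {φ : PontryaginDual G → ℂ} (h : IsPt r φ) :
    IsPt r fun γ => ((φ γ).re : ℂ) := by
  have := (h.add h.conj).smul (1 / 2)
  have e : ‖(1 / 2 : ℂ)‖ * (r + r) = r := by simp; ring
  rw [e] at this
  have e2 : (fun γ => ((φ γ).re : ℂ)) = fun γ => 1 / 2 * (φ γ + (starRingEnd ℂ) (φ γ)) := by
    funext γ; rw [Complex.add_conj]; push_cast; ring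
  rw [e2]; exact this

lemma IsPt.im {r : ℝ} {φ : PontryaginDual G → ℂ} (h : IsPt r φ) :
    IsPt r fun γ => ((φ γ).im : ℂ) := by
  have := (h.smul (-Complex.I)).re
  simpa using this

lemma IsPt.pow {r : ℝ} {φ : PontryaginDual G → ℂ} (h : IsPt r φ) (n : ℕ) :
    IsPt (r ^ n) fun γ => φ γ ^ n := by
  induction n with
  | zero => simpa using isPt_const (G := G) 1
  | succ n ih => simpa only [pow_succ] using ih.mul h

lemma isPt_sum {ι : Type*} (s : Finset ι) {r : ι → ℝ} {φ : ι → PontryaginDual G → ℂ}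
    (h : ∀ i ∈ s, IsPt (r i) (φ i)) : IsPt (∑ i ∈ s, r i) fun γ => ∑ i ∈ s, φ i γ := by
  classical
  induction s using Finset.induction_on with
  | empty => simpa using isPt_const (G := G) 0
  | insert a s ha ih =>
    simp only [Finset.sum_insert ha]
    exact (h a (Finset.mem_insert_self _ _)).add (ih fun i hi => h i (Finset.mem_insert_of_mem hi))

lemma isPt_poly (p : Polynomial ℝ) (r : ℝ) : ∃ C : ℝ, 0 ≤ C ∧ ∀ φ : PontryaginDual G → ℝ,
    IsPt r (fun γ => (φ γ : ℂ)) → IsPt C fun γ => ((p.eval (φ γ) : ℝ) : ℂ) := by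
  refine ⟨∑ i ∈ Finset.range (p.natDegree + 1), ‖(p.coeff i : ℂ)‖ * |r| ^ i, by positivity,
    fun φ h => ?_⟩
  have := isPt_sum (Finset.range (p.natDegree + 1))
    (fun i _ => ((h.mono (le_abs_self r)).pow i).smul (p.coeff i : ℂ))
  have e : (fun γ => ((p.eval (φ γ) : ℝ) : ℂ))
      = fun γ => ∑ i ∈ Finset.range (p.natDegree + 1), (p.coeff i : ℂ) * (φ γ : ℂ) ^ i := by
    funext γ; rw [Polynomial.eval_eq_sum_range]; push_cast; rfl
  rw [e]; exact this

/-- approximate representation on a finite set -/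
def Rep (S : Finset (PontryaginDual G)) (r : ℝ) (φ : PontryaginDual G → ℂ) : Prop :=
  ∀ η : ℝ, 0 < η → ∃ ψ, IsPt r ψ ∧ ∀ γ ∈ S, ‖ψ γ - φ γ‖ ≤ η

/-- bound for the norm in the restriction algebra of a finite set, in dual form -/
def Bd (S : Finset (PontryaginDual G)) (h : PontryaginDual G → ℂ) (C : ℝ) : Prop :=
  ∀ (σ : PontryaginDual G → ℂ) (M : ℝ), (∀ x, ‖tp S σ x‖ ≤ M) → ‖∑ γ ∈ S, σ γ * h γ‖ ≤ C * M

end Pool.Agent.MP_843cf2_an

end

-- part MP_843cf2_an.MultA
section

set_option autoImplicit false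

namespace Pool.Agent.MP_843cf2_an

open Complex

lemma mA_exp_lip (x y : ℝ) : ‖exp (x * I) - exp (y * I)‖ ≤ |x - y| := by
  have h : exp (x * I) - exp (y * I) = exp (y * I) * (exp (I * ((x - y : ℝ) : ℂ)) - 1) := by
    rw [mul_sub, mul_one, ← exp_add]
    congr 2
    push_cast
    ring
  rw [h, norm_mul, norm_exp_ofReal_mul_I, one_mul]
  exact Real.norm_exp_I_mul_ofReal_sub_one_le

lemma mA_polar {u : ℂ} (hu : ‖u‖ = 1) {s : ℝ} (hs : s = 1 ∧ 0 ≤ u.im ∨ s = -1 ∧ u.im ≤ 0) :
    exp (((s * Real.arccos u.re : ℝ) : ℂ) * I) = u := by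
  have h1 : |u.re| ≤ 1 := (abs_re_le_norm u).trans hu.le
  have h2 : u.re ^ 2 + u.im ^ 2 = 1 := by
    have := Complex.sq_norm u
    rw [hu, Complex.normSq_apply] at this
    nlinarith
  have hc : Real.cos (Real.arccos u.re) = u.re :=
    Real.cos_arccos (abs_le.1 h1).1 (abs_le.1 h1).2
  have hsin : Real.sin (Real.arccos u.re) = |u.im| := by
    rw [Real.sin_arccos, show 1 - u.re ^ 2 = u.im ^ 2 by linarith, Real.sqrt_sq_eq_abs]
  apply Complex.ext
  · rw [exp_ofReal_mul_I_re]
    rcases hs with ⟨rfl, _⟩ | ⟨rfl, _⟩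
    · simpa using hc
    · simpa using hc
  · rw [exp_ofReal_mul_I_im]
    rcases hs with ⟨rfl, h⟩ | ⟨rfl, h⟩
    · rw [one_mul, hsin, abs_of_nonneg h]
    · rw [neg_one_mul, Real.sin_neg, hsin, abs_of_nonpos h, neg_neg]

/-- the rotations -/
noncomputable def mA_w (N : ℕ) (k : Fin N) : ℂ := exp ((((k : ℝ) / N : ℝ) : ℂ) * I)

lemma mA_w_norm (N : ℕ) (k : Fin N) : ‖mA_w N k‖ = 1 := norm_exp_ofReal_mul_I _

lemma mA_one_bad {N : ℕ} {z : ℂ} (hz : ‖z‖ = 1) {j k : Fin N}
    (hj : |(mA_w N j * z).im| < 1 / (4 * N)) (hk : |(mA_w N k * z).im| < 1 / (4 * N)) : j = k := by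
  by_contra hne
  have hN : (0 : ℝ) < N := by exact_mod_cast j.pos
  set u := mA_w N j * z with hu
  set v := mA_w N k * z with hv
  have hu1 : ‖u‖ = 1 := by rw [hu, norm_mul, mA_w_norm, hz, one_mul]
  have hv1 : ‖v‖ = 1 := by rw [hv, norm_mul, mA_w_norm, hz, one_mul]
  have hzz : z * (starRingEnd ℂ) z = 1 := by
    rw [Complex.mul_conj, Complex.normSq_eq_norm_sq, hz]; simp
  have e1 : u * (starRingEnd ℂ) v = exp (((((j : ℝ) - k) / N : ℝ) : ℂ) * I) := by
    rw [hu, hv, map_mul]
    have : mA_w N j * z * ((starRingEnd ℂ) (mA_w N k) * (starRingEnd ℂ) z)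
        = mA_w N j * (starRingEnd ℂ) (mA_w N k) * (z * (starRingEnd ℂ) z) := by ring
    rw [this, hzz, mul_one, mA_w, mA_w, ← exp_conj, ← exp_add]
    congr 1
    simp only [map_mul, conj_ofReal, conj_I]
    push_cast
    ring
  have e2 : Real.sin (((j : ℝ) - k) / N) = u.im * v.re - u.re * v.im := by
    have := congrArg Complex.im e1
    rw [exp_ofReal_mul_I_im] at this
    rw [← this]
    simp
    ring
  have hre1 : |u.re| ≤ 1 := (abs_re_le_norm u).trans hu1.le
  have hre2 : |v.re| ≤ 1 := (abs_re_le_norm v).trans hv1.le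
  have b1 : |Real.sin (((j : ℝ) - k) / N)| < 1 / (2 * N) := by
    rw [e2]
    have t1 : |u.im * v.re| ≤ |u.im| := by
      rw [abs_mul]; exact mul_le_of_le_one_right (abs_nonneg _) hre2
    have t2 : |u.re * v.im| ≤ |v.im| := by
      rw [abs_mul]; exact mul_le_of_le_one_left (abs_nonneg _) hre1
    have t3 := abs_sub (u.im * v.re) (u.re * v.im)
    have t4 : (1 : ℝ) / (2 * N) = 1 / (4 * N) + 1 / (4 * N) := by field_simp; ring
    linarith
  have hj' : (j : ℝ) < N := by exact_mod_cast j.2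
  have hk' : (k : ℝ) < N := by exact_mod_cast k.2
  have hj0 : (0 : ℝ) ≤ j := Nat.cast_nonneg _
  have hk0 : (0 : ℝ) ≤ k := Nat.cast_nonneg _
  have hd : (1 : ℝ) ≤ |(j : ℝ) - k| := by
    have : (j : ℕ) ≠ k := fun h => hne (Fin.ext h)
    rcases lt_or_gt_of_ne this with h | h
    · have : (j : ℝ) + 1 ≤ k := by exact_mod_cast h
      rw [abs_sub_comm, abs_of_nonneg (by linarith)]; linarith
    · have : (k : ℝ) + 1 ≤ j := by exact_mod_cast h
      rw [abs_of_nonneg (by linarith)]; linarith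
  have hd2 : |(j : ℝ) - k| ≤ N := abs_le.2 ⟨by linarith, by linarith⟩
  have hx : |((j : ℝ) - k) / N| ≤ Real.pi / 2 := by
    rw [abs_div, abs_of_pos hN]
    have : |(j : ℝ) - k| / N ≤ 1 := (div_le_one hN).2 hd2
    linarith [Real.pi_gt_three]
  have b2 := Real.mul_abs_le_abs_sin hx
  rw [abs_div, abs_of_pos hN] at b2
  have b3 : (1 : ℝ) / 2 ≤ 2 / Real.pi := by
    rw [div_le_div_iff₀ two_pos Real.pi_pos]; linarith [Real.pi_lt_four]
  have b4 : 1 / (N : ℝ) ≤ |(j : ℝ) - k| / N := div_le_div_of_nonneg_right hd hN.le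
  have b5 : (1 : ℝ) / 2 * (1 / N) ≤ 2 / Real.pi * (|(j : ℝ) - k| / N) :=
    mul_le_mul b3 b4 (by positivity) (by positivity)
  have b6 : (1 : ℝ) / 2 * (1 / N) = 1 / (2 * N) := by field_simp
  linarith

lemma mA_prod_est {a b c s A η : ℝ} (hη : η ≤ 1) (ha : |a - 1| < η) (hb : |b - s| < η)
    (hc : |c - A| < η) (hs : |s| ≤ 1) (hA : |A| ≤ 4) : |a * (b * c) - s * A| ≤ 16 * η := by
  have h0 : 0 ≤ η := (abs_nonneg _).trans ha.le
  have hb2 : |b| ≤ 2 := by
    have := abs_sub_abs_le_abs_sub b s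
    linarith
  have hc2 : |c| ≤ 5 := by
    have := abs_sub_abs_le_abs_sub c A
    linarith
  have e : a * (b * c) - s * A = (a - 1) * (b * c) + ((b - s) * c + s * (c - A)) := by ring
  rw [e]
  have t1 : |(a - 1) * (b * c)| ≤ η * (2 * 5) := by
    rw [abs_mul, abs_mul]
    exact mul_le_mul ha.le (mul_le_mul hb2 hc2 (abs_nonneg _) two_pos.le) (by positivity) h0
  have t2 : |(b - s) * c| ≤ η * 5 := by
    rw [abs_mul]; exact mul_le_mul hb.le hc2 (abs_nonneg _) h0
  have t3 : |s * (c - A)| ≤ 1 * η := by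
    rw [abs_mul]; exact mul_le_mul hs hc.le (abs_nonneg _) one_pos.le
  have t4 := abs_add_le ((a - 1) * (b * c)) ((b - s) * c + s * (c - A))
  have t5 := abs_add_le ((b - s) * c) (s * (c - A))
  linarith

theorem mA_approx {e ε : ℝ} (he : 0 < e) (hε : 0 < ε) :
    ∃ (N : ℕ) (w : Fin N → ℂ) (p0 p1 p2 : Polynomial ℝ), 0 < N ∧ (∀ k, ‖w k‖ = 1) ∧
      ∀ x : ℝ, e ≤ |x| → |x| ≤ 3 → ∀ z : ℂ, ‖z‖ = 1 →
        ∑ k, ‖exp (((p0.eval x * (p1.eval (w k * z).im * p2.eval (w k * z).re) : ℝ) : ℂ) * I)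
          - (if 0 < x then w k * z else 1)‖ ^ 2 ≤ ε * N := by
  obtain ⟨N, hN⟩ := exists_nat_gt (8 / ε)
  have hN0 : (0 : ℝ) < N := lt_trans (by positivity) hN
  have hNε : 4 ≤ ε / 2 * N := by
    rw [div_lt_iff₀ hε] at hN
    linarith
  set η : ℝ := min 1 (ε / 512) with hηdef
  have hη0 : 0 < η := lt_min one_pos (by positivity)
  have hη1 : η ≤ 1 := min_le_left _ _
  have hη2 : η ≤ ε / 512 := min_le_right _ _
  have hη3 : (16 * η) ^ 2 ≤ ε / 2 := by nlinarith
  set e2 : ℝ := 1 / (4 * N) with he2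
  have he20 : 0 < e2 := by positivity
  obtain ⟨p0, hp0⟩ := exists_polynomial_near_of_continuousOn (-3) 3
    (fun x => max 0 (min 1 (x / e))) (by fun_prop) η hη0
  obtain ⟨p1, hp1⟩ := exists_polynomial_near_of_continuousOn (-1) 1
    (fun x => max (-1) (min 1 (x / e2))) (by fun_prop) η hη0
  obtain ⟨p2, hp2⟩ := exists_polynomial_near_of_continuousOn (-1) 1
    Real.arccos Real.continuous_arccos.continuousOn η hη0
  refine ⟨N, mA_w N, p0, p1, p2, by exact_mod_cast hN0, mA_w_norm N, fun x hx1 hx2 z hz => ?_⟩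
  have hu1 : ∀ k, ‖mA_w N k * z‖ = 1 := fun k => by rw [norm_mul, mA_w_norm, hz, one_mul]
  have hre : ∀ k, (mA_w N k * z).re ∈ Set.Icc (-1 : ℝ) 1 := fun k =>
    abs_le.1 ((abs_re_le_norm _).trans (hu1 k).le)
  have him : ∀ k, (mA_w N k * z).im ∈ Set.Icc (-1 : ℝ) 1 := fun k =>
    abs_le.1 ((abs_im_le_norm _).trans (hu1 k).le)
  have hA : ∀ y, |Real.arccos y| ≤ 4 := fun y => by
    rw [abs_of_nonneg (Real.arccos_nonneg y)]
    linarith [Real.arccos_le_pi y, Real.pi_lt_four]
  have hq0 := hp0 x (abs_le.1 hx2)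
  have key : ∀ k : Fin N,
      ‖exp (((p0.eval x * (p1.eval (mA_w N k * z).im * p2.eval (mA_w N k * z).re) : ℝ) : ℂ) * I)
          - (if 0 < x then mA_w N k * z else 1)‖ ^ 2
        ≤ ε / 2 + if |(mA_w N k * z).im| < e2 then 4 else 0 := by
    intro k
    have hq1 := hp1 _ (him k)
    have hq2 := hp2 _ (hre k)
    by_cases hbad : |(mA_w N k * z).im| < e2
    · rw [if_pos hbad]
      have t1 : ‖(if 0 < x then mA_w N k * z else 1)‖ = 1 := by
        split_ifs
        · exact hu1 k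
        · simp
      have t2 := norm_sub_le
        (exp (((p0.eval x * (p1.eval (mA_w N k * z).im * p2.eval (mA_w N k * z).re) : ℝ) : ℂ) * I))
        (if 0 < x then mA_w N k * z else 1)
      rw [t1, norm_exp_ofReal_mul_I] at t2
      have t3 := pow_le_pow_left₀ (norm_nonneg _) t2 2
      linarith
    · rw [if_neg hbad, add_zero]
      refine le_trans (pow_le_pow_left₀ (norm_nonneg _) ?_ 2) hη3
      by_cases hx : 0 < x
      · rw [if_pos hx]
        have hxe : 1 ≤ x / e := by
          rw [abs_of_pos hx] at hx1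
          exact (one_le_div he).2 hx1
        rw [min_eq_left hxe, max_eq_right zero_le_one] at hq0
        push Not at hbad
        rcases le_total 0 (mA_w N k * z).im with h | h
        · rw [abs_of_nonneg h] at hbad
          have h1 : 1 ≤ (mA_w N k * z).im / e2 := (one_le_div he20).2 hbad
          rw [min_eq_left h1, max_eq_right (by norm_num)] at hq1
          have t := mA_exp_lip
            (p0.eval x * (p1.eval (mA_w N k * z).im * p2.eval (mA_w N k * z).re))
            (1 * Real.arccos (mA_w N k * z).re)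
          rw [mA_polar (hu1 k) (Or.inl ⟨rfl, h⟩)] at t
          exact t.trans (mA_prod_est hη1 hq0 hq1 hq2 (by simp) (hA _))
        · rw [abs_of_nonpos h] at hbad
          have h1 : (mA_w N k * z).im / e2 ≤ -1 := by
            rw [div_le_iff₀ he20]; linarith
          rw [min_eq_right (by linarith), max_eq_left h1] at hq1
          have t := mA_exp_lip
            (p0.eval x * (p1.eval (mA_w N k * z).im * p2.eval (mA_w N k * z).re))
            (-1 * Real.arccos (mA_w N k * z).re)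
          rw [mA_polar (hu1 k) (Or.inr ⟨rfl, h⟩)] at t
          exact t.trans (mA_prod_est hη1 hq0 hq1 hq2 (by simp) (hA _))
      · rw [if_neg hx]
        have hx0 : x / e ≤ 0 := div_nonpos_of_nonpos_of_nonneg (not_lt.1 hx) he.le
        rw [min_eq_right (by linarith), max_eq_left hx0, sub_zero] at hq0
        have t := mA_exp_lip
          (p0.eval x * (p1.eval (mA_w N k * z).im * p2.eval (mA_w N k * z).re)) 0
        simp only [ofReal_zero, zero_mul, exp_zero, sub_zero] at t
        refine t.trans ?_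
        have hs : |max (-1) (min 1 ((mA_w N k * z).im / e2))| ≤ 1 :=
          abs_le.2 ⟨le_max_left _ _, max_le (by norm_num) (min_le_left _ _)⟩
        have hb2 : |p1.eval (mA_w N k * z).im| ≤ 2 := by
          have := abs_sub_abs_le_abs_sub (p1.eval (mA_w N k * z).im)
            (max (-1) (min 1 ((mA_w N k * z).im / e2)))
          linarith
        have hc2 : |p2.eval (mA_w N k * z).re| ≤ 5 := by
          have := abs_sub_abs_le_abs_sub (p2.eval (mA_w N k * z).re)
            (Real.arccos (mA_w N k * z).re)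
          linarith [hA (mA_w N k * z).re]
        rw [abs_mul, abs_mul]
        have := mul_le_mul hq0.le (mul_le_mul hb2 hc2 (abs_nonneg _) two_pos.le) (by positivity)
          hη0.le
        linarith
  refine (Finset.sum_le_sum fun k _ => key k).trans ?_
  rw [Finset.sum_add_distrib, Finset.sum_const, Finset.card_univ, Fintype.card_fin,
    ← Finset.sum_filter, Finset.sum_const]
  have hc : (Finset.univ.filter fun k : Fin N => |(mA_w N k * z).im| < e2).card ≤ 1 :=
    Finset.card_le_one.2 fun j hj k hk =>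
      mA_one_bad hz (Finset.mem_filter.1 hj).2 (Finset.mem_filter.1 hk).2
  have hc' : ((Finset.univ.filter fun k : Fin N => |(mA_w N k * z).im| < e2).card : ℝ) ≤ 1 := by
    exact_mod_cast hc
  simp only [nsmul_eq_mul]
  nlinarith

end Pool.Agent.MP_843cf2_an

end

-- part MP_843cf2_an.MultB
section

set_option autoImplicit false

namespace Pool.Agent.MP_843cf2_an

open MeasureTheory Complex

variable {G : Type*} [CommGroup G] [TopologicalSpace G] [IsTopologicalGroup G] [CompactSpace G]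
  [MeasurableSpace G] [BorelSpace G] {N : ℕ}

/-- averaging over one random multiplier -/
noncomputable def mBOp (F : G → Fin N → PontryaginDual G → ℝ)
    (Ψ : (PontryaginDual G → ℂ) → ℝ) (c : PontryaginDual G → ℂ) : ℝ :=
  ∫ a, (∑ k, Ψ fun γ => c γ * exp (F a k γ * I)) / N ∂hp G

/-- averaging over a list of random multipliers -/
noncomputable def mBOpL (F : Lab G → G → Fin N → PontryaginDual G → ℝ) :
    List (Lab G) → ((PontryaginDual G → ℂ) → ℝ) → (PontryaginDual G → ℂ) → ℝ
  | [], Ψ => Ψ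
  | l :: L, Ψ => mBOp (F l) (mBOpL F L Ψ)

/-- the class of admissible functionals -/
def mBP (Ψ : (PontryaginDual G → ℂ) → ℝ) : Prop :=
  Continuous Ψ ∧ ConvexOn ℝ Set.univ Ψ ∧
    ∀ c d : PontryaginDual G → ℂ, ∫ a, Ψ (fun γ => c γ + d γ * ch γ a) ∂hp G ≤ Ψ c + Ψ d

omit [IsTopologicalGroup G] [CompactSpace G] [MeasurableSpace G] [BorelSpace G] in
lemma mB_cont {X : Type*} [TopologicalSpace X] {F : G → Fin N → PontryaginDual G → ℝ}
    (hF : ∀ k γ, Continuous fun a => F a k γ) {Ψ : (PontryaginDual G → ℂ) → ℝ}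
    (hΨ : Continuous Ψ) {c : X → PontryaginDual G → ℂ} (hc : ∀ γ, Continuous fun t => c t γ)
    {y : X → G} (hy : Continuous y) (k : Fin N) :
    Continuous fun t => Ψ fun γ => c t γ * exp (F (y t) k γ * I) := by
  refine hΨ.comp (continuous_pi fun γ => (hc γ).mul ?_)
  exact continuous_exp.comp ((continuous_ofReal.comp ((hF k γ).comp hy)).mul continuous_const)

omit [IsTopologicalGroup G] [CompactSpace G] [MeasurableSpace G] [BorelSpace G] in
lemma mB_cont_sum {X : Type*} [TopologicalSpace X] {F : G → Fin N → PontryaginDual G → ℝ}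
    (hF : ∀ k γ, Continuous fun a => F a k γ) {Ψ : (PontryaginDual G → ℂ) → ℝ}
    (hΨ : Continuous Ψ) {c : X → PontryaginDual G → ℂ} (hc : ∀ γ, Continuous fun t => c t γ)
    {y : X → G} (hy : Continuous y) :
    Continuous fun t => (∑ k, Ψ fun γ => c t γ * exp (F (y t) k γ * I)) / N :=
  (continuous_finsetSum _ fun k _ => mB_cont hF hΨ hc hy k).div_const _

lemma mBOp_cont {F : G → Fin N → PontryaginDual G → ℝ}
    (hF : ∀ k γ, Continuous fun a => F a k γ) {Ψ : (PontryaginDual G → ℂ) → ℝ}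
    (hΨ : Continuous Ψ) : Continuous (mBOp F Ψ) :=
  cont_int (mB_cont_sum (X := (PontryaginDual G → ℂ) × G) (c := fun t => t.1) (y := fun t => t.2)
    hF hΨ (fun γ => (continuous_apply γ).comp continuous_fst) continuous_snd)

lemma mB_int {F : G → Fin N → PontryaginDual G → ℝ}
    (hF : ∀ k γ, Continuous fun a => F a k γ) {Ψ : (PontryaginDual G → ℂ) → ℝ}
    (hΨ : Continuous Ψ) (c : PontryaginDual G → ℂ) :
    Integrable (fun a => (∑ k, Ψ fun γ => c γ * exp (F a k γ * I)) / N) (hp G) :=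
  cint (mB_cont_sum (X := G) (c := fun _ => c) (y := fun t => t) hF hΨ
    (fun _ => continuous_const) continuous_id)

lemma mBP.op {F : G → Fin N → PontryaginDual G → ℝ}
    (hF : ∀ k γ, Continuous fun a => F a k γ) {Ψ : (PontryaginDual G → ℂ) → ℝ}
    (h : mBP Ψ) : mBP (mBOp F Ψ) := by
  obtain ⟨h1, h2, h3⟩ := h
  refine ⟨mBOp_cont hF h1, ⟨convex_univ, fun c _ d _ s t hs ht hst => ?_⟩, fun c d => ?_⟩
  · simp only [mBOp, smul_eq_mul]
    rw [← integral_const_mul, ← integral_const_mul,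
      ← integral_add ((mB_int hF h1 c).const_mul s) ((mB_int hF h1 d).const_mul t)]
    refine integral_mono (mB_int hF h1 _)
      (((mB_int hF h1 c).const_mul s).add ((mB_int hF h1 d).const_mul t)) fun a => ?_
    simp only
    rw [← mul_div_assoc, ← mul_div_assoc, ← add_div, Finset.mul_sum, Finset.mul_sum,
      ← Finset.sum_add_distrib]
    refine div_le_div_of_nonneg_right (Finset.sum_le_sum fun k _ => ?_) (Nat.cast_nonneg _)
    have := h2.2 (Set.mem_univ fun γ => c γ * exp (F a k γ * I))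
      (Set.mem_univ fun γ => d γ * exp (F a k γ * I)) hs ht hst
    refine le_trans (le_of_eq ?_) this
    congr 1
    funext γ
    simp only [Pi.add_apply, Pi.smul_apply, real_smul]
    ring
  · simp only [mBOp]
    have hc : ∀ γ, Continuous fun t : G × G => c γ + d γ * ch γ t.1 := fun γ =>
      continuous_const.add (continuous_const.mul ((continuous_ch γ).comp continuous_fst))
    rw [int_swap (f := fun b a => (∑ k, Ψ fun γ => (c γ + d γ * ch γ b) * exp (F a k γ * I)) / N)
      (mB_cont_sum (X := G × G) (c := fun t γ => c γ + d γ * ch γ t.1) (y := fun t => t.2)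
        hF h1 hc continuous_snd),
      ← integral_add (mB_int hF h1 c) (mB_int hF h1 d)]
    refine integral_mono (cint (cont_int ?_)) ((mB_int hF h1 c).add (mB_int hF h1 d)) fun a => ?_
    · exact mB_cont_sum (X := G × G) (c := fun t γ => c γ + d γ * ch γ t.2) (y := fun t => t.1)
        hF h1 (fun γ =>
          continuous_const.add (continuous_const.mul ((continuous_ch γ).comp continuous_snd)))
        continuous_fst
    · simp only
      rw [integral_div, ← add_div, ← Finset.sum_add_distrib, integral_finsetSum]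
      · refine div_le_div_of_nonneg_right (Finset.sum_le_sum fun k _ => ?_) (Nat.cast_nonneg _)
        refine le_trans (le_of_eq ?_)
          (h3 (fun γ => c γ * exp (F a k γ * I)) (fun γ => d γ * exp (F a k γ * I)))
        congr 1
        funext b
        congr 1
        funext γ
        ring
      · intro k _
        exact cint (mB_cont (X := G) (c := fun t γ => c γ + d γ * ch γ t) (y := fun _ => a)
          hF h1 (fun γ => continuous_const.add (continuous_const.mul (continuous_ch γ)))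
          continuous_const k)

lemma mBP.opL {F : Lab G → G → Fin N → PontryaginDual G → ℝ}
    (hF : ∀ l k γ, Continuous fun a => F l a k γ) {Ψ : (PontryaginDual G → ℂ) → ℝ}
    (h : mBP Ψ) (L : List (Lab G)) : mBP (mBOpL F L Ψ) := by
  induction L with
  | nil => exact h
  | cons l L ih => exact ih.op (hF l)

lemma mBP_Lam (U : Finset (PontryaginDual G)) : mBP (Lam U) :=
  ⟨continuous_Lam U, convexOn_Lam U, Lam_shift U⟩

lemma mB_extract (hN : 0 < N) {F : Lab G → G → Fin N → PontryaginDual G → ℝ}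
    (hF : ∀ l k γ, Continuous fun a => F l a k γ) {C : ℝ} {Ψ : (PontryaginDual G → ℂ) → ℝ}
    (h : mBP Ψ) (L : List (Lab G)) (hC : ∀ l ∈ L, ∀ a k, IsPt C fun γ => (F l a k γ : ℂ))
    (c : ℕ → PontryaginDual G → ℂ) :
    ∃ φ : PontryaginDual G → ℝ, IsPt (C * L.length) (fun γ => (φ γ : ℂ)) ∧
      ∑ j ∈ Finset.range 4, Ψ (fun γ => c j γ * exp (φ γ * I))
        ≤ ∑ j ∈ Finset.range 4, mBOpL F L Ψ (c j) := by
  induction L generalizing c with
  | nil =>
    refine ⟨fun _ => 0, ?_, ?_⟩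
    · simpa using isPt_const (G := G) 0
    · simp [mBOpL]
  | cons l L ih =>
    have hP := h.opL hF L
    have hN' : (0 : ℝ) < N := by exact_mod_cast hN
    have e1 : ∑ j ∈ Finset.range 4, mBOpL F (l :: L) Ψ (c j)
        = ∫ a, ∑ j ∈ Finset.range 4,
          (∑ k, mBOpL F L Ψ fun γ => c j γ * exp (F l a k γ * I)) / N ∂hp G := by
      rw [integral_finsetSum _ fun j _ => mB_int (hF l) hP.1 (c j)]
      rfl
    obtain ⟨a, ha⟩ := exists_le_integral
      (integrable_finsetSum (Finset.range 4) fun j _ => mB_int (hF l) hP.1 (c j))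
    rw [← e1, ← Finset.sum_div, Finset.sum_comm, div_le_iff₀ hN'] at ha
    have : Nonempty (Fin N) := ⟨⟨0, hN⟩⟩
    obtain ⟨k, _, hk⟩ := Finset.exists_le_of_sum_le (s := Finset.univ) Finset.univ_nonempty
      (f := fun k => ∑ j ∈ Finset.range 4, mBOpL F L Ψ fun γ => c j γ * exp (F l a k γ * I))
      (g := fun _ => ∑ j ∈ Finset.range 4, mBOpL F (l :: L) Ψ (c j))
      (by simpa [mul_comm] using ha)
    obtain ⟨φ, hφ1, hφ2⟩ := ih (fun l' hl' => hC l' (List.mem_cons_of_mem _ hl'))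
      fun j γ => c j γ * exp (F l a k γ * I)
    refine ⟨fun γ => F l a k γ + φ γ, ?_, le_trans (le_of_eq ?_) (hφ2.trans hk)⟩
    · have := (hC l List.mem_cons_self a k).add hφ1
      have e2 : C * ((l :: L).length : ℝ) = C + C * L.length := by
        simp only [List.length_cons]; push_cast; ring
      rw [e2]
      simpa only [ofReal_add] using this
    · refine Finset.sum_congr rfl fun j _ => ?_
      congr 1
      funext γ
      rw [ofReal_add, add_mul, exp_add, mul_assoc]

omit [IsTopologicalGroup G] [CompactSpace G] [MeasurableSpace G] [BorelSpace G] in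
lemma mB_convex3 {Ψ : (PontryaginDual G → ℂ) → ℝ} (h : ConvexOn ℝ Set.univ Ψ) {θ : ℝ}
    (h0 : 0 ≤ θ) (h1 : θ ≤ 1) (x y z : PontryaginDual G → ℂ) :
    Ψ (fun γ => ((1 - θ : ℝ) : ℂ) * x γ + ((θ / 2 : ℝ) : ℂ) * y γ + ((θ / 2 : ℝ) : ℂ) * z γ)
      ≤ (1 - θ) * Ψ x + θ / 2 * Ψ y + θ / 2 * Ψ z := by
  have t1 := h.2 (Set.mem_univ y) (Set.mem_univ z) (show (0 : ℝ) ≤ 1 / 2 by norm_num)
    (show (0 : ℝ) ≤ 1 / 2 by norm_num) (by norm_num)
  have t2 := h.2 (Set.mem_univ x) (Set.mem_univ ((1 / 2 : ℝ) • y + (1 / 2 : ℝ) • z))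
    (show 0 ≤ 1 - θ by linarith) h0 (by ring)
  have e : (fun γ => ((1 - θ : ℝ) : ℂ) * x γ + ((θ / 2 : ℝ) : ℂ) * y γ + ((θ / 2 : ℝ) : ℂ) * z γ)
      = (1 - θ) • x + θ • ((1 / 2 : ℝ) • y + (1 / 2 : ℝ) • z) := by
    funext γ
    simp only [Pi.add_apply, Pi.smul_apply, real_smul]
    push_cast
    ring
  rw [e]
  simp only [smul_eq_mul] at t1 t2
  nlinarith [mul_le_mul_of_nonneg_left t1 h0]

lemma mB_bound (hN : 0 < N) {F : Lab G → G → Fin N → PontryaginDual G → ℝ}
    (hF : ∀ l k γ, Continuous fun a => F l a k γ) {w : Fin N → ℂ} (hw : ∀ k, ‖w k‖ = 1)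
    {e ε θ κ : ℝ} (h0 : 0 < θ) (h1 : θ < 1) (hκ0 : 0 ≤ κ)
    (hκ : 1 / (1 - θ) + 2 * ε / θ ≤ κ) (U : Finset (PontryaginDual G)) (L : List (Lab G))
    (hL : ∀ l ∈ L, ∀ a γ, e ≤ |l.val γ| →
      ∑ k, ‖exp (F l a k γ * I) - (if 0 < l.val γ then w k * ch γ a else 1)‖ ^ 2 ≤ ε * N)
    (S : Finset (PontryaginDual G)) (hSU : S ⊆ U) (hS : Good e L 1 S)
    (c : PontryaginDual G → ℂ) (hc : ∀ γ ∈ U, γ ∉ S → c γ = 0) :
    mBOpL F L (Lam U) c ≤ κ ^ L.length * (∑ γ ∈ U, ‖c γ‖ ^ 2) / 2 := by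
  classical
  induction L generalizing S c with
  | nil =>
    obtain ⟨col, hcol, hq⟩ := hS
    have hQ : QI S := by
      have := hq 0
      rwa [Finset.filter_true_of_mem fun γ hγ => Nat.lt_one_iff.1 (hcol γ hγ)] at this
    have e1 : Lam U c = Lam S c := by
      unfold Lam tp
      congr 2
      funext x
      rw [Finset.sum_subset hSU fun γ hγ hγ' => by rw [hc γ hγ hγ', zero_mul]]
    have e2 : ∑ γ ∈ S, ‖c γ‖ ^ 2 = ∑ γ ∈ U, ‖c γ‖ ^ 2 :=
      Finset.sum_subset hSU fun γ hγ hγ' => by rw [hc γ hγ hγ']; simp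
    simp only [mBOpL, List.length_nil, pow_zero, one_mul]
    rw [e1, ← e2]
    exact hQ.Lam_le c
  | cons l L ih =>
    obtain ⟨hm, hS1, hS0⟩ := hS
    have ih' := ih fun l' hl' => hL l' (List.mem_cons_of_mem _ hl')
    have hP := (mBP_Lam U).opL hF L
    have hN' : (0 : ℝ) < N := by exact_mod_cast hN
    set Φ := mBOpL F L (Lam U) with hΦ
    set K := κ ^ L.length with hK
    have hK0 : 0 ≤ K := pow_nonneg hκ0 _
    set c1 : PontryaginDual G → ℂ := fun γ => if 0 < l.val γ then c γ else 0 with hc1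
    set c0 : PontryaginDual G → ℂ := fun γ => if 0 < l.val γ then 0 else c γ with hc0
    have b1 : ∀ f : PontryaginDual G → ℂ,
        Φ (fun γ => c1 γ * f γ) ≤ K * (∑ γ ∈ U, ‖c1 γ * f γ‖ ^ 2) / 2 := fun f => by
      refine ih' _ ((Finset.filter_subset _ _).trans hSU) hS1 _ fun γ hγ hγ' => ?_
      by_cases hv : 0 < l.val γ
      · have : γ ∉ S := fun h => hγ' (Finset.mem_filter.2 ⟨h, hv⟩)
        simp [hc1, hc γ hγ this]
      · simp [hc1, hv]
    have b0 : ∀ f : PontryaginDual G → ℂ,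
        Φ (fun γ => c0 γ * f γ) ≤ K * (∑ γ ∈ U, ‖c0 γ * f γ‖ ^ 2) / 2 := fun f => by
      refine ih' _ ((Finset.filter_subset _ _).trans hSU) hS0 _ fun γ hγ hγ' => ?_
      by_cases hv : 0 < l.val γ
      · simp [hc0, hv]
      · have : γ ∉ S := fun h => hγ' (Finset.mem_filter.2 ⟨h, hv⟩)
        simp [hc0, hc γ hγ this]
    have hsq : ∀ γ, ‖c0 γ‖ ^ 2 + ‖c1 γ‖ ^ 2 = ‖c γ‖ ^ 2 := fun γ => by
      by_cases hv : 0 < l.val γ <;> simp [hc0, hc1, hv]
    set T := ∑ γ ∈ U, ‖c γ‖ ^ 2 with hT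
    have hT0 : 0 ≤ T := Finset.sum_nonneg fun _ _ => by positivity
    have hθ : 0 < 1 - θ := by linarith
    set X : Fin N → G → PontryaginDual G → ℂ := fun k a γ =>
      c0 γ * ((1 / (1 - θ) : ℝ) : ℂ) + c1 γ * (w k * ((1 / (1 - θ) : ℝ) : ℂ)) * ch γ a with hX
    have hXc : ∀ k, Continuous fun a => Φ (X k a) := fun k =>
      hP.1.comp (continuous_pi fun γ =>
        continuous_const.add (continuous_const.mul (continuous_ch γ)))
    have hXi : ∀ k, ∫ a, Φ (X k a) ∂hp G ≤ K * ((1 / (1 - θ)) ^ 2 * T) / 2 := fun k => by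
      refine (hP.2.2 (fun γ => c0 γ * ((1 / (1 - θ) : ℝ) : ℂ))
        (fun γ => c1 γ * (w k * ((1 / (1 - θ) : ℝ) : ℂ)))).trans ?_
      refine (add_le_add (b0 _) (b1 _)).trans (le_of_eq ?_)
      have q : (∑ γ ∈ U, ‖c0 γ * ((1 / (1 - θ) : ℝ) : ℂ)‖ ^ 2)
          + ∑ γ ∈ U, ‖c1 γ * (w k * ((1 / (1 - θ) : ℝ) : ℂ))‖ ^ 2 = (1 / (1 - θ)) ^ 2 * T := by
        rw [← Finset.sum_add_distrib, hT, Finset.mul_sum]
        refine Finset.sum_congr rfl fun γ _ => ?_
        rw [← hsq γ]
        simp only [norm_mul, hw k, one_mul, norm_real, Real.norm_eq_abs, mul_pow, sq_abs]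
        ring
      rw [← q]
      ring
    have hpt : ∀ a, (∑ k, Φ fun γ => c γ * exp (F l a k γ * I)) / N
        ≤ (1 - θ) * (∑ k, Φ (X k a)) / N + K * (ε / θ * T) := fun a => by
      set r : Fin N → PontryaginDual G → ℂ := fun k γ =>
        exp (F l a k γ * I) - (if 0 < l.val γ then w k * ch γ a else 1) with hr
      have t1 : ∀ k, (Φ fun γ => c γ * exp (F l a k γ * I))
          ≤ (1 - θ) * Φ (X k a) + K / θ * ∑ γ ∈ U, ‖c γ‖ ^ 2 * ‖r k γ‖ ^ 2 := fun k => by
        have s1 := mB_convex3 hP.2.1 h0.le h1.le (X k a)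
          (fun γ => c0 γ * (((2 / θ : ℝ) : ℂ) * r k γ)) (fun γ => c1 γ * (((2 / θ : ℝ) : ℂ) * r k γ))
        have s2 : (fun γ => c γ * exp (F l a k γ * I))
            = fun γ => ((1 - θ : ℝ) : ℂ) * X k a γ
              + ((θ / 2 : ℝ) : ℂ) * (c0 γ * (((2 / θ : ℝ) : ℂ) * r k γ))
              + ((θ / 2 : ℝ) : ℂ) * (c1 γ * (((2 / θ : ℝ) : ℂ) * r k γ)) := by
          funext γ
          have q1 : ((1 - θ : ℝ) : ℂ) * ((1 / (1 - θ) : ℝ) : ℂ) = 1 := by
            rw [← ofReal_mul, mul_one_div_cancel hθ.ne', ofReal_one]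
          have q2 : ((θ / 2 : ℝ) : ℂ) * ((2 / θ : ℝ) : ℂ) = 1 := by
            rw [← ofReal_mul, show θ / 2 * (2 / θ) = 1 by field_simp, ofReal_one]
          simp only [hX, hr, hc0, hc1]
          split_ifs
          · linear_combination (-(c γ * w k * ch γ a)) * q1
              - (c γ * (exp (F l a k γ * I) - w k * ch γ a)) * q2
          · linear_combination (-(c γ)) * q1 - (c γ * (exp (F l a k γ * I) - 1)) * q2
        rw [s2]
        refine s1.trans ?_
        have s3 := b0 fun γ => ((2 / θ : ℝ) : ℂ) * r k γ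
        have s4 := b1 fun γ => ((2 / θ : ℝ) : ℂ) * r k γ
        have s5 : (∑ γ ∈ U, ‖c0 γ * (((2 / θ : ℝ) : ℂ) * r k γ)‖ ^ 2)
            + ∑ γ ∈ U, ‖c1 γ * (((2 / θ : ℝ) : ℂ) * r k γ)‖ ^ 2
            = (2 / θ) ^ 2 * ∑ γ ∈ U, ‖c γ‖ ^ 2 * ‖r k γ‖ ^ 2 := by
          rw [← Finset.sum_add_distrib, Finset.mul_sum]
          refine Finset.sum_congr rfl fun γ _ => ?_
          rw [← hsq γ]
          simp only [norm_mul, norm_real, Real.norm_eq_abs, mul_pow, sq_abs]
          ring
        have s6 : θ / 2 * (K * ((2 / θ) ^ 2 * ∑ γ ∈ U, ‖c γ‖ ^ 2 * ‖r k γ‖ ^ 2) / 2)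
            = K / θ * ∑ γ ∈ U, ‖c γ‖ ^ 2 * ‖r k γ‖ ^ 2 := by
          field_simp
        rw [← s5] at s6
        have s7 := mul_le_mul_of_nonneg_left (add_le_add s3 s4) (show 0 ≤ θ / 2 by positivity)
        nlinarith
      have t2 : ∑ k, ∑ γ ∈ U, ‖c γ‖ ^ 2 * ‖r k γ‖ ^ 2 ≤ ε * N * T := by
        rw [Finset.sum_comm, hT, Finset.mul_sum]
        refine Finset.sum_le_sum fun γ hγ => ?_
        rw [← Finset.mul_sum]
        by_cases hγS : γ ∈ S
        · rw [mul_comm]
          exact mul_le_mul_of_nonneg_right (hL l List.mem_cons_self a γ (hm γ hγS)) (by positivity)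
        · simp [hc γ hγ hγS]
      have t3 := Finset.sum_le_sum fun k (_ : k ∈ Finset.univ) => t1 k
      rw [Finset.sum_add_distrib, ← Finset.mul_sum, ← Finset.mul_sum] at t3
      have t4 := mul_le_mul_of_nonneg_left t2 (show 0 ≤ K / θ by positivity)
      rw [div_add' _ _ _ hN'.ne']
      refine div_le_div_of_nonneg_right (t3.trans ?_) hN'.le
      have t5 : K / θ * (ε * N * T) = K * (ε / θ * T) * N := by ring
      linarith
    have hI : Integrable (fun a => (1 - θ) * (∑ k, Φ (X k a)) / N) (hp G) :=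
      cint ((continuous_const.mul (continuous_finsetSum _ fun k _ => hXc k)).div_const _)
    have m1 : mBOpL F (l :: L) (Lam U) c
        ≤ ∫ a, ((1 - θ) * (∑ k, Φ (X k a)) / N + K * (ε / θ * T)) ∂hp G :=
      integral_mono (mB_int (hF l) hP.1 c) (hI.add (integrable_const _)) hpt
    rw [integral_add hI (integrable_const _), integral_div, integral_const_mul,
      integral_finsetSum _ fun k _ => cint (hXc k)] at m1
    simp only [integral_const, probReal_univ, one_smul] at m1
    have m2 : ∑ k, ∫ a, Φ (X k a) ∂hp G ≤ N * (K * ((1 / (1 - θ)) ^ 2 * T) / 2) := by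
      refine (Finset.sum_le_sum fun k _ => hXi k).trans (le_of_eq ?_)
      simp
    have m3 : (1 - θ) * (∑ k, ∫ a, Φ (X k a) ∂hp G) / N ≤ K * (1 / (1 - θ) * T) / 2 := by
      rw [div_le_iff₀ hN']
      refine (mul_le_mul_of_nonneg_left m2 hθ.le).trans (le_of_eq ?_)
      field_simp
    have m4 : K * (1 / (1 - θ) * T) / 2 + K * (ε / θ * T)
        = K * T * (1 / (1 - θ) + 2 * ε / θ) / 2 := by ring
    have m5 := mul_le_mul_of_nonneg_left hκ (mul_nonneg hK0 hT0)
    rw [List.length_cons, pow_succ, ← hK]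
    nlinarith

end Pool.Agent.MP_843cf2_an

end

-- part MP_843cf2_an.Mult
section

set_option autoImplicit false

namespace Pool.Agent.MP_843cf2_an

open MeasureTheory

variable {G : Type*} [CommGroup G] [TopologicalSpace G] [IsTopologicalGroup G] [CompactSpace G]
  [MeasurableSpace G] [BorelSpace G]

omit [IsTopologicalGroup G] [CompactSpace G] [MeasurableSpace G] [BorelSpace G] in
lemma mult_val_isPt (l : Lab G) (hl : |l.τ| ≤ 2) : IsPt 3 fun γ => ((l.val γ : ℝ) : ℂ) := by
  have h1 : IsPt 1 fun γ => (((if l.im then (ch γ l.b).im else (ch γ l.b).re : ℝ)) : ℂ) := by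
    cases l.im
    · simpa using (isPt_ch l.b).re
    · simpa using (isPt_ch l.b).im
  have h2 := (h1.add (isPt_const (G := G) (-(l.τ : ℂ)))).mono
    (show 1 + ‖-(l.τ : ℂ)‖ ≤ 3 by
      rw [norm_neg, Complex.norm_real, Real.norm_eq_abs]; linarith)
  have e : (fun γ => ((l.val γ : ℝ) : ℂ)) = fun γ =>
      (((if l.im then (ch γ l.b).im else (ch γ l.b).re : ℝ)) : ℂ) + -(l.τ : ℂ) := by
    funext γ
    rw [Lab.val, Complex.ofReal_sub, sub_eq_add_neg]
  rw [e]
  exact h2

theorem mult {e κ : ℝ} (he : 0 < e) (hκ : 1 < κ) : ∃ C : ℝ, 0 ≤ C ∧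
    ∀ L : List (Lab G), (∀ l ∈ L, |l.τ| ≤ 2) → ∀ U : Finset (PontryaginDual G), Good e L 1 U →
      ∀ c : PontryaginDual G → ℂ, ∃ φ : PontryaginDual G → ℝ,
        IsPt (C * L.length) (fun γ => (φ γ : ℂ)) ∧
        ∑ k ∈ Finset.range 4, Lam U (fun γ => Complex.I ^ k * c γ * Complex.exp (φ γ * Complex.I))
          ≤ 2 * κ ^ L.length * ∑ γ ∈ U, ‖c γ‖ ^ 2 := by
  set θ : ℝ := (κ - 1) / (κ + 1) with hθ
  have h0 : 0 < θ := div_pos (by linarith) (by linarith)
  have h1 : θ < 1 := (div_lt_one (by linarith)).2 (by linarith)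
  set ε : ℝ := θ * (κ - 1) / 4 with hε
  have hε0 : 0 < ε := div_pos (mul_pos h0 (by linarith)) four_pos
  have hκ' : 1 / (1 - θ) + 2 * ε / θ ≤ κ := by
    have q1 : 1 / (1 - θ) = (κ + 1) / 2 := by
      have : κ + 1 ≠ 0 := by linarith
      rw [hθ, one_sub_div this, one_div_div]
      congr 1
      ring
    have q2 : 2 * ε / θ = (κ - 1) / 2 := by
      rw [hε]
      field_simp
      ring
    rw [q1, q2]
    linarith
  obtain ⟨N, w, p0, p1, p2, hN, hw, hap⟩ := mA_approx he hε0
  obtain ⟨C0, hC0, hp0⟩ := isPt_poly (G := G) p0 3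
  obtain ⟨C1, hC1, hp1⟩ := isPt_poly (G := G) p1 1
  obtain ⟨C2, hC2, hp2⟩ := isPt_poly (G := G) p2 1
  refine ⟨C0 * (C1 * C2), by positivity, fun L hL U hU c => ?_⟩
  set F : Lab G → G → Fin N → PontryaginDual G → ℝ := fun l a k γ =>
    p0.eval (l.val γ) * (p1.eval (w k * ch γ a).im * p2.eval (w k * ch γ a).re) with hFdef
  have hF : ∀ l k γ, Continuous fun a => F l a k γ := fun l k γ =>
    continuous_const.mul
      ((p1.continuous.comp (Complex.continuous_im.comp (continuous_const.mul (continuous_ch γ)))).mul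
        (p2.continuous.comp (Complex.continuous_re.comp (continuous_const.mul (continuous_ch γ)))))
  have hC : ∀ l ∈ L, ∀ a k, IsPt (C0 * (C1 * C2)) fun γ => (F l a k γ : ℂ) := fun l hl a k => by
    have t : IsPt 1 fun γ => w k * ch γ a := by
      have := (isPt_ch a).smul (w k)
      rwa [hw k, one_mul] at this
    have := (hp0 _ (mult_val_isPt l (hL l hl))).mul ((hp1 _ t.im).mul (hp2 _ t.re))
    simpa only [hFdef, Complex.ofReal_mul] using this
  have hap' : ∀ l ∈ L, ∀ a γ, e ≤ |l.val γ| →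
      ∑ k, ‖Complex.exp (F l a k γ * Complex.I)
        - (if 0 < l.val γ then w k * ch γ a else 1)‖ ^ 2 ≤ ε * N := fun l hl a γ hγ => by
    refine hap (l.val γ) hγ ?_ (ch γ a) (norm_ch γ a)
    have := (mult_val_isPt l (hL l hl)).norm_le γ
    rwa [Complex.norm_real, Real.norm_eq_abs] at this
  obtain ⟨φ, hφ1, hφ2⟩ := mB_extract hN hF (mBP_Lam U) L hC fun j γ => Complex.I ^ j * c γ
  refine ⟨φ, hφ1, hφ2.trans ?_⟩
  have hb : ∀ j ∈ Finset.range 4, mBOpL F L (Lam U) (fun γ => Complex.I ^ j * c γ)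
      ≤ κ ^ L.length * (∑ γ ∈ U, ‖c γ‖ ^ 2) / 2 := fun j _ => by
    have := mB_bound hN hF hw h0 h1 (by linarith) hκ' U L hap' U subset_rfl hU
      (fun γ => Complex.I ^ j * c γ) fun γ hγ hγ' => absurd hγ hγ'
    simpa only [norm_mul, norm_pow, Complex.norm_I, one_pow, one_mul] using this
  refine (Finset.sum_le_sum hb).trans (le_of_eq ?_)
  rw [Finset.sum_const, Finset.card_range, nsmul_eq_mul]
  push_cast
  ring

end Pool.Agent.MP_843cf2_an

end
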