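import Pool.Agent.MP_843cf2_an.Mg.PisierAW
import Pool.Agent.MP_843cf2_an.Mg.Mult

-- part MP_843cf2_an.PisierA
section

set_option autoImplicit false

namespace Pool.Agent.MP_843cf2_an

open MeasureTheory

variable {G : Type*} [CommGroup G] [TopologicalSpace G] [IsTopologicalGroup G] [CompactSpace G]
  [MeasurableSpace G] [BorelSpace G]

/-- a martingale has small mean under the tilted measure -/
lemma rho_mart {n : ℕ} {C τ : ℝ} (h0 : 0 < τ) (h1 : τ < 1) (γ : Fin n → PontryaginDual G)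
    (h : ∀ J : ℝ, 0 < J → J ≤ 1 → ∀ T : Finset (Fin n),
      Real.log (∫ x, Real.exp (J * ∑ i ∈ T, (ch (γ i) x).re) ∂hp G) ≤ C * J ^ 2 * T.card)
    (hC : 0 ≤ C) {d : ℕ → (Fin n → Circle) → ℝ} (hc : ∀ k, Continuous (d k))
    (hinv : ∀ k j, k < j → ∀ z u, d k (z * ee n j u) = d k z)
    (hz : ∀ k z, ∫ u, d k (z * ee n k u) ∂hp Circle = 0) (hb : ∀ k z, |d k z| ≤ 2)
    {m : ℕ} (hm : m ≤ n) :
    ∑ k ∈ Finset.range m, ∫ z, rho τ γ n z * d k z ∂hp (Fin n → Circle)
      ≤ (C / 4 + 8) * τ ^ 2 * m := by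
  have cM : Continuous fun z => ∑ k ∈ Finset.range m, d k z :=
    continuous_finsetSum _ fun k _ => hc k
  have i1 : ∀ k, Integrable (fun z => rho τ γ n z * d k z) (hp (Fin n → Circle)) := fun k =>
    cint ((cont_rho τ γ n).mul (hc k))
  rw [← integral_finsetSum _ fun k _ => i1 k]
  simp only [← Finset.mul_sum]
  rw [rho_red τ γ cM (m := m) (fun j hj z u => Finset.sum_congr rfl fun k hk =>
    hinv k j (lt_of_lt_of_le (Finset.mem_range.1 hk) hj) z u) hm le_rfl]
  have cF : Continuous fun z => τ ^ 2 * ∑ k ∈ Finset.range m, d k z := continuous_const.mul cM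
  have h2 := jensen_log (cont_rho τ γ m) cF (fun z => (rho_pos h0 h1 γ m z).le) (rho_one τ γ hm)
  have h3 := rho_sq h0 h1 γ h hC m
  have h4 := mart_exp hc hinv hz hb (2 * τ ^ 2) m
  have c1 : Continuous fun z => rho τ γ m z * Real.exp (τ ^ 2 * ∑ k ∈ Finset.range m, d k z) :=
    (cont_rho τ γ m).mul (Real.continuous_exp.comp cF)
  have c2 : Continuous fun z => rho τ γ m z * rho τ γ m z := (cont_rho τ γ m).mul (cont_rho τ γ m)
  have c3 : Continuous fun z => Real.exp (2 * τ ^ 2 * ∑ k ∈ Finset.range m, d k z) :=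
    Real.continuous_exp.comp (continuous_const.mul cM)
  have h5 : ∫ z, rho τ γ m z * Real.exp (τ ^ 2 * ∑ k ∈ Finset.range m, d k z) ∂hp (Fin n → Circle)
      ≤ ∫ z, (rho τ γ m z * rho τ γ m z + Real.exp (2 * τ ^ 2 * ∑ k ∈ Finset.range m, d k z)) / 2
        ∂hp (Fin n → Circle) := by
    refine integral_mono (cint c1) (cint ((c2.add c3).div_const 2)) fun z => ?_
    have e : Real.exp (2 * τ ^ 2 * ∑ k ∈ Finset.range m, d k z)
        = Real.exp (τ ^ 2 * ∑ k ∈ Finset.range m, d k z) ^ 2 := by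
      rw [← Real.exp_nat_mul]; congr 1; push_cast; ring
    simp only [e]
    nlinarith [sq_nonneg (rho τ γ m z - Real.exp (τ ^ 2 * ∑ k ∈ Finset.range m, d k z))]
  rw [integral_div, integral_add (cint c2) (cint c3)] at h5
  have hm0 : (0 : ℝ) ≤ m := Nat.cast_nonneg m
  have p1 : 0 ≤ C * (τ ^ 2 / 2) ^ 2 * m := by positivity
  have p2 : 0 ≤ 2 * (2 * τ ^ 2) ^ 2 * m := by positivity
  have h6 : ∫ z, rho τ γ m z * Real.exp (τ ^ 2 * ∑ k ∈ Finset.range m, d k z) ∂hp (Fin n → Circle)
      ≤ Real.exp (C * (τ ^ 2 / 2) ^ 2 * m + 2 * (2 * τ ^ 2) ^ 2 * m) := by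
    have a1 := Real.exp_le_exp.2 (le_add_of_nonneg_right (a := C * (τ ^ 2 / 2) ^ 2 * m) p2)
    have a2 := Real.exp_le_exp.2 (le_add_of_nonneg_left (a := 2 * (2 * τ ^ 2) ^ 2 * m) p1)
    linarith
  have h7 := h2.trans ((Real.log_le_iff_le_exp (int_pos c1 fun z =>
    mul_pos (rho_pos h0 h1 γ m z) (Real.exp_pos _))).2 h6)
  have e : ∀ z, rho τ γ m z * (τ ^ 2 * ∑ k ∈ Finset.range m, d k z)
      = τ ^ 2 * (rho τ γ m z * ∑ k ∈ Finset.range m, d k z) := fun z => by ring
  simp only [e] at h7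
  rw [integral_const_mul] at h7
  have t2 : 0 < τ ^ 2 := by positivity
  refine le_of_mul_le_mul_left (h7.trans (le_of_eq ?_)) t2
  ring

lemma log_int_le {f g : G → ℝ} (hf : Continuous f) (hg : Continuous g) {r : ℝ}
    (h : ∀ x, f x ≤ g x + r) :
    Real.log (∫ x, Real.exp (f x) ∂hp G) ≤ Real.log (∫ x, Real.exp (g x) ∂hp G) + r := by
  have cf : Continuous fun x => Real.exp (f x) := Real.continuous_exp.comp hf
  have cg : Continuous fun x => Real.exp (g x) := Real.continuous_exp.comp hg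
  have h1 : ∫ x, Real.exp (f x) ∂hp G ≤ ∫ x, Real.exp (g x) * Real.exp r ∂hp G :=
    integral_mono (cint cf) ((cint cg).mul_const _) fun x => by
      simp only
      rw [← Real.exp_add]
      exact Real.exp_le_exp.2 (h x)
  rw [integral_mul_const] at h1
  have p1 := int_pos cf fun _ => Real.exp_pos _
  have p2 := int_pos cg fun _ => Real.exp_pos _
  have h2 := Real.log_le_log p1 h1
  rwa [Real.log_mul p2.ne' (Real.exp_pos _).ne', Real.log_exp] at h2

/-- subgaussian on flat sums implies a lower bound for random Fourier series -/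
theorem pisierA {C : ℝ} (hC : 0 < C) : ∃ c : ℝ, 0 < c ∧ c ≤ 1 ∧
    ∀ (n : ℕ) (γ : Fin n → PontryaginDual G),
      (∀ J : ℝ, 0 < J → J ≤ 1 → ∀ T : Finset (Fin n),
        Real.log (∫ x, Real.exp (J * ∑ i ∈ T, (ch (γ i) x).re) ∂hp G) ≤ C * J ^ 2 * T.card) →
      ∀ a : Fin n → ℝ, Antitone a → (∀ i, 0 ≤ a i) → ∃ s : ℝ, 0 < s ∧
        c * ∑ i, a i ≤ ∫ z : Fin n → Circle,
          Real.log (∫ x, Real.exp (s * (∑ i, (a i : ℂ) * (z i : ℂ) * ch (γ i) x).re) ∂hp G) / s
            ∂hp (Fin n → Circle) := by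
  set τ : ℝ := 1 / (2 * C + 64) with hτ
  have h0 : 0 < τ := by positivity
  have h1 : τ < 1 := by
    rw [hτ, div_lt_one (by positivity)]; linarith
  have hK : (C / 4 + 8) * τ ^ 2 = τ / 8 := by
    rw [hτ]; field_simp; ring
  refine ⟨τ / 4, by positivity, by linarith, fun n γ h a ha ha0 => ?_⟩
  rcases (Finset.sum_nonneg fun i (_ : i ∈ Finset.univ) => ha0 i).eq_or_lt with hs | hs
  · have : ∀ i, a i = 0 := fun i =>
      (Finset.sum_eq_zero_iff_of_nonneg fun i _ => ha0 i).1 hs.symm i (Finset.mem_univ i)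
    exact ⟨1, one_pos, by simp [this]⟩
  have eF : ∀ (z : Fin n → Circle) (x : G), (∑ i, (a i : ℂ) * (z i : ℂ) * ch (γ i) x).re
      = ∑ i, a i * ((z i : ℂ) * ch (γ i) x).re := by
    intro z x
    rw [Complex.re_sum]
    refine Finset.sum_congr rfl fun i _ => ?_
    rw [mul_assoc, Complex.re_ofReal_mul]
  simp only [eF]
  set F : (Fin n → Circle) → G → ℝ := fun z x => ∑ i, a i * ((z i : ℂ) * ch (γ i) x).re with hF
  have cR : ∀ i, Continuous fun p : (Fin n → Circle) × G => ((p.1 i : ℂ) * ch (γ i) p.2).re :=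
    fun i => Complex.continuous_re.comp
      ((continuous_subtype_val.comp ((continuous_apply i).comp continuous_fst)).mul
        ((continuous_ch _).comp continuous_snd))
  have cF : Continuous fun p : (Fin n → Circle) × G => F p.1 p.2 :=
    continuous_finsetSum _ fun i _ => continuous_const.mul (cR i)
  have cF' : ∀ z, Continuous (F z) := fun z => cF.comp (Continuous.prodMk_right z)
  have cW : Continuous fun p : (Fin n → Circle) × G => rW τ γ n p.1 p.2 :=
    cont_rW τ γ n continuous_fst continuous_snd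
  have cp : Continuous fun p : (Fin n → Circle) × G => rW τ γ n p.1 p.2 / rho τ γ n p.1 :=
    cW.div ((cont_rho τ γ n).comp continuous_fst) fun p => (rho_pos h0 h1 γ n p.1).ne'
  obtain ⟨B, hB⟩ := isCompact_univ.exists_bound_of_continuousOn cp.continuousOn
  have hB' : ∀ z x, rW τ γ n z x / rho τ γ n z ≤ Real.exp |B| := fun z x =>
    (le_abs_self _).trans ((hB (z, x) (Set.mem_univ _)).trans
      ((le_abs_self B).trans ((le_add_of_nonneg_right zero_le_one).trans (Real.add_one_le_exp _))))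
  set s : ℝ := (|B| + 1) / (τ / 8 * ∑ i, a i) with hs'
  have s0 : 0 < s := by positivity
  have hBs : |B| / s ≤ τ / 8 * ∑ i, a i := by
    rw [div_le_iff₀ s0, hs', mul_div_cancel₀ _ (by positivity)]
    linarith
  clear_value s
  refine ⟨s, s0, ?_⟩
  have cS : ∀ z, Continuous fun x => s * F z x := fun z => continuous_const.mul (cF' z)
  set Φ : (Fin n → Circle) → ℝ := fun z => Real.log (∫ x, Real.exp (s * F z x) ∂hp G) / s with hΦ
  have cE : Continuous fun p : (Fin n → Circle) × G => Real.exp (s * F p.1 p.2) :=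
    Real.continuous_exp.comp (continuous_const.mul cF)
  have cE' : ∀ z, Continuous fun x => Real.exp (s * F z x) := fun z =>
    Real.continuous_exp.comp (continuous_const.mul (cF' z))
  have cΦ : Continuous Φ :=
    ((cont_int (f := fun z x => Real.exp (s * F z x)) cE).log fun z =>
      (int_pos (cE' z) fun _ => Real.exp_pos _).ne').div_const s
  set b : ℕ → ℝ := fun k => if h : k < n then a ⟨k, h⟩ else 0 with hb
  have hb0 : ∀ k, 0 ≤ b k := fun k => by
    simp only [hb]
    split_ifs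
    · exact ha0 _
    · exact le_rfl
  have hba : Antitone b := fun k j hkj => by
    simp only [hb]
    split_ifs with h2 h3 h3
    · exact ha hkj
    · omega
    · exact ha0 _
    · exact le_rfl
  have hbs : ∑ k ∈ Finset.range n, b k = ∑ i, a i := by
    rw [Finset.sum_range]
    simp [hb]
  have hFl : ∀ k z u x, |F (z * ee n k u) x - F z x| ≤ 2 * b k := by
    intro k z u x
    simp only [hF, ← Finset.sum_sub_distrib]
    by_cases hk : k < n
    · rw [Finset.sum_eq_single ⟨k, hk⟩]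
      · simp only [hb, dif_pos hk]
        rw [← mul_sub, abs_mul, abs_of_nonneg (ha0 _), mul_comm]
        refine mul_le_mul_of_nonneg_right ((abs_sub _ _).trans ?_) (ha0 _)
        linarith [abs_re_zch ((z * ee n k u) ⟨k, hk⟩) (γ ⟨k, hk⟩) x,
          abs_re_zch (z ⟨k, hk⟩) (γ ⟨k, hk⟩) x]
      · intro i _ hi
        have : ¬ i.val = k := fun e => hi (Fin.ext e)
        simp [ee, this]
      · simp
    · rw [Finset.sum_eq_zero, abs_zero]
      · linarith [hb0 k]
      · intro i _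
        have : ¬ i.val = k := fun e => hk (e ▸ i.2)
        simp [ee, this]
  have hΦl : ∀ k z u, |Φ (z * ee n k u) - Φ z| ≤ 2 * b k := by
    intro k z u
    have a1 := log_int_le (cS (z * ee n k u)) (cS z) (r := s * (2 * b k)) fun x => by
        have := mul_le_mul_of_nonneg_left (abs_le.1 (hFl k z u x)).2 s0.le
        linarith
    have a2 := log_int_le (cS z) (cS (z * ee n k u)) (r := s * (2 * b k)) fun x => by
        have := mul_le_mul_of_nonneg_left (abs_le.1 (hFl k z u x)).1 s0.le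
        linarith
    simp only [hΦ]
    rw [← sub_div, abs_div, abs_of_pos s0, div_le_iff₀ s0, abs_le]
    constructor <;> linarith
  obtain ⟨d, hc, hinv, hz, hd, hdec⟩ := mart_dec cΦ hb0 hΦl
  have i1 : ∀ k, Integrable (fun z => rho τ γ n z * d k z) (hp (Fin n → Circle)) := fun k =>
    cint ((cont_rho τ γ n).mul (hc k))
  have up : ∫ z, rho τ γ n z * Φ z ∂hp (Fin n → Circle)
      ≤ ∫ z, Φ z ∂hp (Fin n → Circle) + τ / 8 * ∑ i, a i := by
    have e : ∀ z, rho τ γ n z * Φ z = rho τ γ n z * ∫ w, Φ w ∂hp (Fin n → Circle)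
        + ∑ k ∈ Finset.range n, b k * (rho τ γ n z * d k z) := by
      intro z
      rw [hdec z, mul_add, Finset.mul_sum]
      congr 1
      exact Finset.sum_congr rfl fun k _ => by ring
    rw [integral_congr_ae (Filter.Eventually.of_forall e),
      integral_add ((cint (cont_rho τ γ n)).mul_const _)
        (integrable_finsetSum _ fun k _ => (i1 k).const_mul _),
      integral_mul_const, rho_one τ γ le_rfl, one_mul,
      integral_finsetSum _ fun k _ => (i1 k).const_mul _]
    simp only [integral_const_mul]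
    have := abel_le (K := (C / 4 + 8) * τ ^ 2) hba hb0 n
      fun m hm => rho_mart h0 h1 γ h hC.le hc hinv hz hd hm
    rw [hK, hbs] at this
    linarith
  have cWF : Continuous fun p : (Fin n → Circle) × G => rW τ γ n p.1 p.2 * F p.1 p.2 := cW.mul cF
  have cI : Continuous fun z => ∫ x, rW τ γ n z x * F z x ∂hp G :=
    cont_int (f := fun z x => rW τ γ n z x * F z x) cWF
  have low : ∀ z, ∫ x, rW τ γ n z x * F z x ∂hp G - rho τ γ n z * (|B| / s)
      ≤ rho τ γ n z * Φ z := by
    intro z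
    have r0 := rho_pos h0 h1 γ n z
    have cp' : Continuous fun x => rW τ γ n z x / rho τ γ n z :=
      (cont_rW τ γ n continuous_const continuous_id).div_const _
    have a1 := jensen_log cp' (cS z)
      (fun x => (div_pos (rW_pos h0 h1 γ n z x) r0).le)
      (by rw [integral_div]; exact div_self r0.ne')
    have c2 : Continuous fun x => rW τ γ n z x / rho τ γ n z * Real.exp (s * F z x) :=
      cp'.mul (cE' z)
    have a2 : ∫ x, rW τ γ n z x / rho τ γ n z * Real.exp (s * F z x) ∂hp G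
        ≤ ∫ x, Real.exp |B| * Real.exp (s * F z x) ∂hp G :=
      integral_mono (cint c2) ((cint (cE' z)).const_mul _) fun x =>
        mul_le_mul_of_nonneg_right (hB' z x) (Real.exp_pos _).le
    rw [integral_const_mul] at a2
    have p2 := int_pos (cE' z) fun _ => Real.exp_pos _
    have a3 := Real.log_le_log (int_pos c2 fun x =>
      mul_pos (div_pos (rW_pos h0 h1 γ n z x) r0) (Real.exp_pos _)) a2
    rw [Real.log_mul (Real.exp_pos _).ne' p2.ne', Real.log_exp] at a3
    have e : ∀ x, rW τ γ n z x / rho τ γ n z * (s * F z x)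
        = s / rho τ γ n z * (rW τ γ n z x * F z x) := fun x => by ring
    simp only [e] at a1
    rw [integral_const_mul] at a1
    have a4 := mul_le_mul_of_nonneg_left (a1.trans a3) (div_pos r0 s0).le
    have e2 : rho τ γ n z / s * (s / rho τ γ n z * ∫ x, rW τ γ n z x * F z x ∂hp G)
        = ∫ x, rW τ γ n z x * F z x ∂hp G := by field_simp
    rw [e2] at a4
    simp only [hΦ]
    have e3 : rho τ γ n z / s * (|B| + Real.log (∫ x, Real.exp (s * F z x) ∂hp G))
        = rho τ γ n z * (|B| / s)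
          + rho τ γ n z * (Real.log (∫ x, Real.exp (s * F z x) ∂hp G) / s) := by ring
    linarith
  have low2 := integral_mono ((cint cI).sub ((cint (cont_rho τ γ n)).mul_const (|B| / s)))
    (cint ((cont_rho τ γ n).mul cΦ)) low
  have e4 : ∫ z, (∫ x, rW τ γ n z x * F z x ∂hp G) ∂hp (Fin n → Circle) = τ / 2 * ∑ i, a i := by
    rw [int_swap (f := fun z x => rW τ γ n z x * F z x) cWF]
    have e : ∀ x, ∫ z, rW τ γ n z x * F z x ∂hp (Fin n → Circle) = τ / 2 * ∑ i, a i := by
      intro x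
      have e5 : ∀ z, rW τ γ n z x * F z x
          = ∑ i, a i * (rW τ γ n z x * ((z i : ℂ) * ch (γ i) x).re) := by
        intro z
        simp only [hF, Finset.mul_sum]
        exact Finset.sum_congr rfl fun i _ => by ring
      have i2 : ∀ i, Integrable (fun z : Fin n → Circle =>
          rW τ γ n z x * ((z i : ℂ) * ch (γ i) x).re) (hp (Fin n → Circle)) := fun i =>
        cint ((cont_rW τ γ n continuous_id continuous_const).mul
          ((cont_re _).comp (continuous_apply i)))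
      simp only [e5]
      rw [integral_finsetSum _ fun i _ => (i2 i).const_mul _]
      simp only [integral_const_mul, rW_lin, Finset.mul_sum]
      exact Finset.sum_congr rfl fun i _ => by ring
    simp only [e]
    simp
  have e6 : ∫ z, (∫ x, rW τ γ n z x * F z x ∂hp G - rho τ γ n z * (|B| / s)) ∂hp (Fin n → Circle)
      = τ / 2 * ∑ i, a i - |B| / s := by
    rw [integral_sub (cint cI) ((cint (cont_rho τ γ n)).mul_const _), e4, integral_mul_const,
      rho_one τ γ le_rfl, one_mul]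
  have low3 : τ / 2 * ∑ i, a i - |B| / s ≤ ∫ z, rho τ γ n z * Φ z ∂hp (Fin n → Circle) :=
    e6 ▸ low2
  show τ / 4 * ∑ i, a i ≤ ∫ z, Φ z ∂hp (Fin n → Circle)
  linarith

end Pool.Agent.MP_843cf2_an

end

-- part MP_843cf2_an.PisierBA
section

set_option autoImplicit false

namespace Pool.Agent.MP_843cf2_an

open MeasureTheory

section Dens

variable {G : Type*} [CommGroup G] [TopologicalSpace G] [IsTopologicalGroup G] [CompactSpace G]
  [MeasurableSpace G] [BorelSpace G]

/-- averages against a probability density do not increase the supremum -/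
lemma norm_int_dens {p : G → ℝ} {φ : G → ℂ} {M : ℝ} (hp' : Continuous p) (h0 : ∀ x, 0 ≤ p x)
    (h1 : ∫ x, p x ∂hp G = 1) (hM : ∀ x, ‖φ x‖ ≤ M) : ‖∫ x, (p x : ℂ) * φ x ∂hp G‖ ≤ M := by
  refine (norm_integral_le_of_norm_le (g := fun x => p x * M) (cint (by fun_prop))
    (Filter.Eventually.of_forall fun x => ?_)).trans ?_
  · rw [norm_mul, Complex.norm_real, Real.norm_eq_abs, abs_of_nonneg (h0 x)]
    exact mul_le_mul_of_nonneg_left (hM x) (h0 x)
  · rw [integral_mul_const, h1, one_mul]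

lemma norm_int_le {φ : G → ℂ} {M : ℝ} (hM : ∀ x, ‖φ x‖ ≤ M) : ‖∫ x, φ x ∂hp G‖ ≤ M := by
  have := norm_integral_le_of_norm_le_const (μ := hp G) (C := M) (f := φ)
    (Filter.Eventually.of_forall hM)
  simpa using this

/-- autocorrelation -/
noncomputable def acor (h : G → ℂ) (z : G) : ℂ :=
  ∫ w, h (w * z) * (starRingEnd ℂ) (h w) ∂hp G

lemma continuous_acor {h : G → ℂ} (hh : Continuous h) : Continuous (acor h) :=
  cont_int (f := fun z w => h (w * z) * (starRingEnd ℂ) (h w))
    ((hh.comp (continuous_snd.mul continuous_fst)).mul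
      (Complex.continuous_conj.comp (hh.comp continuous_snd)))

lemma int_mul_acor {h e : G → ℂ} (hh : Continuous h) (he : Continuous e)
    (hm : ∀ w z, e (w * z) = e w * e z) (hu : ∀ w, (starRingEnd ℂ) (e w) * e w = 1) :
    ∫ z, e z * acor h z ∂hp G = ((‖∫ z, e z * h z ∂hp G‖ ^ 2 : ℝ) : ℂ) := by
  have h1 : ∀ z, e z * acor h z = ∫ w, e z * (h (w * z) * (starRingEnd ℂ) (h w)) ∂hp G :=
    fun z => by rw [acor, integral_const_mul]
  simp only [h1]
  rw [int_swap (f := fun z w => e z * (h (w * z) * (starRingEnd ℂ) (h w)))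
    ((he.comp continuous_fst).mul ((hh.comp (continuous_snd.mul continuous_fst)).mul
      (Complex.continuous_conj.comp (hh.comp continuous_snd))))]
  have h2 : ∀ w, ∫ z, e z * (h (w * z) * (starRingEnd ℂ) (h w)) ∂hp G
      = (starRingEnd ℂ) (e w * h w) * ∫ z, e z * h z ∂hp G := by
    intro w
    rw [← int_mul_left (fun z => e z * h z) w, ← integral_const_mul]
    congr 1
    funext z
    rw [hm, map_mul]
    linear_combination (-(e z * h (w * z) * (starRingEnd ℂ) (h w))) * hu w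
  simp only [h2]
  rw [integral_mul_const, integral_conj, Complex.conj_mul']
  push_cast
  rfl

end Dens

section Torus

variable {n : ℕ}

lemma continuous_coord (j : Fin n) : Continuous fun z : Fin n → Circle => (z j : ℂ) :=
  continuous_subtype_val.comp (continuous_apply j)

/-- monomials on the torus -/
noncomputable def mono (P N : Finset (Fin n)) (z : Fin n → Circle) : ℂ :=
  (∏ j ∈ P, (z j : ℂ)) * ∏ j ∈ N, (starRingEnd ℂ) (z j : ℂ)

lemma continuous_mono (P N : Finset (Fin n)) : Continuous (mono P N) :=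
  (continuous_finsetProd _ fun j _ => continuous_coord j).mul
    (continuous_finsetProd _ fun j _ => Complex.continuous_conj.comp (continuous_coord j))

lemma mono_mul (P N : Finset (Fin n)) (w z : Fin n → Circle) :
    mono P N (w * z) = mono P N w * mono P N z := by
  simp only [mono, Pi.mul_apply, Circle.coe_mul, map_mul, Finset.prod_mul_distrib]
  ring

lemma norm_mono (P N : Finset (Fin n)) (z : Fin n → Circle) : ‖mono P N z‖ = 1 := by
  simp [mono, norm_prod, Circle.norm_coe]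

lemma conj_mono (P N : Finset (Fin n)) (z : Fin n → Circle) :
    (starRingEnd ℂ) (mono P N z) * mono P N z = 1 := by
  rw [Complex.conj_mul', norm_mono]
  simp

/-- Riesz products on the torus -/
noncomputable def rp (S : Finset (Fin n)) (u : Fin n → ℂ) (z : Fin n → Circle) : ℝ :=
  ∏ j ∈ S, (1 + 2 * (u j * (z j : ℂ)).re)

lemma continuous_rp (S : Finset (Fin n)) (u : Fin n → ℂ) : Continuous (rp S u) :=
  continuous_finsetProd _ fun j _ => continuous_const.add (continuous_const.mul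
    (Complex.continuous_re.comp (continuous_const.mul (continuous_coord j))))

lemma rp_nonneg (S : Finset (Fin n)) {u : Fin n → ℂ} (hu : ∀ j, ‖u j‖ ≤ 1 / 2)
    (z : Fin n → Circle) : 0 ≤ rp S u z := by
  refine Finset.prod_nonneg fun j _ => ?_
  have h1 := Complex.abs_re_le_norm (u j * (z j : ℂ))
  rw [norm_mul, Circle.norm_coe, mul_one] at h1
  have h2 := neg_abs_le (u j * (z j : ℂ)).re
  have h3 := hu j
  linarith

lemma int_rp (S : Finset (Fin n)) (u : Fin n → ℂ) :
    ∫ z, rp S u z ∂hp (Fin n → Circle) = 1 := by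
  induction S using Finset.induction_on with
  | empty => simp [rp]
  | insert j S hj ih =>
    let σ : Fin n → Circle := Pi.mulSingle j (-1)
    have c1 : Continuous fun z : Fin n → Circle => 2 * (u j * (z j : ℂ)).re * rp S u z :=
      (continuous_const.mul
        (Complex.continuous_re.comp (continuous_const.mul (continuous_coord j)))).mul
        (continuous_rp S u)
    have h1 := int_mul_left (fun z : Fin n → Circle => 2 * (u j * (z j : ℂ)).re * rp S u z) σ
    have h2 : ∀ z : Fin n → Circle, 2 * (u j * ((σ * z) j : ℂ)).re * rp S u (σ * z)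
        = -(2 * (u j * (z j : ℂ)).re * rp S u z) := by
      intro z
      have e1 : rp S u (σ * z) = rp S u z := by
        refine Finset.prod_congr rfl fun i hi => ?_
        have : i ≠ j := fun e => hj (e ▸ hi)
        simp [σ, Pi.mulSingle_eq_of_ne this]
      have e2 : ((σ * z) j : ℂ) = -(z j : ℂ) := by simp [σ]
      rw [e1, e2, mul_neg, Complex.neg_re]
      ring
    simp only [h2, integral_neg] at h1
    have h3 : ∀ z : Fin n → Circle,
        rp (insert j S) u z = rp S u z + 2 * (u j * (z j : ℂ)).re * rp S u z := by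
      intro z
      unfold rp
      rw [Finset.prod_insert hj]
      ring
    simp only [h3]
    rw [integral_add (cint (continuous_rp S u)) (cint c1), ih]
    linarith

lemma rp_expand (u : Fin n → ℂ) (z : Fin n → Circle) :
    (rp Finset.univ u z : ℂ) = ∑ P ∈ (Finset.univ : Finset (Fin n)).powerset,
      ∑ N ∈ (Finset.univ \ P).powerset,
        ((∏ j ∈ P, u j) * ∏ j ∈ N, (starRingEnd ℂ) (u j)) * mono P N z := by
  have e : (rp Finset.univ u z : ℂ)
      = ∏ j, (1 + u j * (z j : ℂ) + (starRingEnd ℂ) (u j) * (starRingEnd ℂ) (z j : ℂ)) := by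
    unfold rp
    rw [Complex.ofReal_prod]
    refine Finset.prod_congr rfl fun j _ => ?_
    rw [← map_mul, add_assoc, Complex.add_conj]
    push_cast
    rfl
  rw [e, prod_expand]
  refine Finset.sum_congr rfl fun P _ => Finset.sum_congr rfl fun N _ => ?_
  simp only [mono, Finset.prod_mul_distrib]
  ring

/-- squared Fourier coefficients -/
noncomputable def wt (h : (Fin n → Circle) → ℂ) (P N : Finset (Fin n)) : ℝ :=
  ‖∫ z, mono P N z * h z ∂hp (Fin n → Circle)‖ ^ 2

lemma int_rp_acor {h : (Fin n → Circle) → ℂ} (hh : Continuous h) (u : Fin n → ℂ) :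
    ∫ z, (rp Finset.univ u z : ℂ) * acor h z ∂hp (Fin n → Circle)
      = ∑ P ∈ (Finset.univ : Finset (Fin n)).powerset, ∑ N ∈ (Finset.univ \ P).powerset,
        ((∏ j ∈ P, u j) * ∏ j ∈ N, (starRingEnd ℂ) (u j)) * (wt h P N : ℂ) := by
  have c : ∀ (P N : Finset (Fin n)) (a : ℂ),
      Continuous fun z => a * mono P N z * acor h z := fun P N a =>
    (continuous_const.mul (continuous_mono P N)).mul (continuous_acor hh)
  simp only [rp_expand, Finset.sum_mul]
  rw [integral_finsetSum _ fun P _ => cint (continuous_finsetSum _ fun N _ => c P N _)]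
  refine Finset.sum_congr rfl fun P _ => ?_
  rw [integral_finsetSum _ fun N _ => cint (c P N _)]
  refine Finset.sum_congr rfl fun N _ => ?_
  simp only [mul_assoc, integral_const_mul]
  rw [int_mul_acor hh (continuous_mono P N) (mono_mul P N) (conj_mono P N)]
  rfl

/-- the averaged Riesz functional -/
noncomputable def rf (δ : ℝ) (θ : Fin n → ℂ) (φ : (Fin n → Circle) → ℂ) : ℂ :=
  (1 / 4 : ℂ) * ∑ k ∈ Finset.range 4, (-Complex.I) ^ k *
    ∫ z, (rp Finset.univ (fun j => (δ / 2 : ℂ) * (Complex.I ^ k * θ j)) z : ℂ) * φ z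
      ∂hp (Fin n → Circle)

lemma norm_rf_le {δ : ℝ} {θ : Fin n → ℂ} (hθ : ∀ i, ‖θ i‖ ≤ 1) (hδ0 : 0 ≤ δ) (hδ1 : δ ≤ 1)
    {φ : (Fin n → Circle) → ℂ} {M : ℝ} (hM : ∀ z, ‖φ z‖ ≤ M) : ‖rf δ θ φ‖ ≤ M := by
  have h1 : ∀ k ∈ Finset.range 4, ‖(-Complex.I) ^ k *
      ∫ z, (rp Finset.univ (fun j => (δ / 2 : ℂ) * (Complex.I ^ k * θ j)) z : ℂ) * φ z
        ∂hp (Fin n → Circle)‖ ≤ M := by
    intro k _
    rw [norm_mul, norm_pow, norm_neg, Complex.norm_I, one_pow, one_mul]
    refine norm_int_dens (continuous_rp _ _) (rp_nonneg _ fun j => ?_) (int_rp _ _) hM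
    rw [norm_mul, norm_mul, norm_pow, Complex.norm_I, one_pow, one_mul, norm_div,
      Complex.norm_real, Real.norm_eq_abs, abs_of_nonneg hδ0, Complex.norm_two]
    have := hθ j
    have := norm_nonneg (θ j)
    nlinarith
  have h2 := (norm_sum_le _ _).trans (Finset.sum_le_card_nsmul _ _ M h1)
  rw [rf, norm_mul]
  simp only [Finset.card_range, nsmul_eq_mul, Nat.cast_ofNat] at h2
  have h3 : ‖(1 / 4 : ℂ)‖ = 1 / 4 := by simp
  rw [h3]
  linarith

lemma rf_sum (δ : ℝ) (θ : Fin n → ℂ) {ι : Type*} [Fintype ι] (b : ι → ℂ)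
    {φ : ι → (Fin n → Circle) → ℂ} (hφ : ∀ i, Continuous (φ i)) :
    rf δ θ (fun z => ∑ i, b i * φ i z) = ∑ i, b i * rf δ θ (φ i) := by
  have h1 : ∀ u : Fin n → ℂ,
      ∫ z, (rp Finset.univ u z : ℂ) * ∑ i, b i * φ i z ∂hp (Fin n → Circle)
        = ∑ i, b i * ∫ z, (rp Finset.univ u z : ℂ) * φ i z ∂hp (Fin n → Circle) := by
    intro u
    simp only [Finset.mul_sum]
    rw [integral_finsetSum (f := fun i z => (rp Finset.univ u z : ℂ) * (b i * φ i z)) _
      fun i _ => cint ((Complex.continuous_ofReal.comp (continuous_rp _ _)).mul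
        (continuous_const.mul (hφ i)))]
    refine Finset.sum_congr rfl fun i _ => ?_
    rw [← integral_const_mul]
    congr 1
    funext z
    ring
  simp only [rf, h1]
  simp only [Finset.mul_sum]
  rw [Finset.sum_comm]
  refine Finset.sum_congr rfl fun i _ => Finset.sum_congr rfl fun k _ => ?_
  ring

lemma rf_acor {h : (Fin n → Circle) → ℂ} (hh : Continuous h) (h1 : ∀ z, ‖h z‖ ≤ 1)
    {δ : ℝ} {θ : Fin n → ℂ} (hθ : ∀ i, ‖θ i‖ ≤ 1) (hδ0 : 0 ≤ δ) (hδ1 : δ ≤ 1) :
    ‖rf δ θ (acor h) - (δ / 2 : ℂ) * ∑ i, θ i * (wt h {i} ∅ : ℂ)‖ ≤ δ ^ 2 := by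
  have ha : ∀ z, ‖acor h z‖ ≤ 1 := fun z => norm_int_le fun w => by
    rw [norm_mul, Complex.norm_conj]
    exact mul_le_one₀ (h1 _) (norm_nonneg _) (h1 _)
  have h2 : ∑ P ∈ (Finset.univ : Finset (Fin n)).powerset, ∑ N ∈ (Finset.univ \ P).powerset,
      (1 / 2 : ℝ) ^ (P.card + N.card) * wt h P N ≤ 1 := by
    have h3 := norm_int_dens (continuous_rp Finset.univ fun _ : Fin n => (1 / 2 : ℂ))
      (rp_nonneg _ fun j => by simp) (int_rp _ _) ha
    rw [int_rp_acor hh] at h3
    refine le_trans ?_ ((Complex.re_le_norm _).trans h3)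
    have e : ∀ P N : Finset (Fin n),
        ((∏ _j ∈ P, (1 / 2 : ℂ)) * ∏ _j ∈ N, (starRingEnd ℂ) (1 / 2 : ℂ)) * (wt h P N : ℂ)
          = (((1 / 2 : ℝ) ^ (P.card + N.card) * wt h P N : ℝ) : ℂ) := by
      intro P N
      have : (starRingEnd ℂ) (1 / 2 : ℂ) = 1 / 2 := by
        rw [map_div₀, map_one, map_ofNat]
      rw [this, Finset.prod_const, Finset.prod_const, pow_add]
      push_cast
      rfl
    simp only [e, Complex.re_sum, Complex.ofReal_re, le_refl]
  have h4 := first_order Finset.univ (wt h) (fun P N => by unfold wt; positivity) h2 θ hθ hδ0 hδ1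
  have e2 : ∀ w : ℂ, (starRingEnd ℂ) ((δ / 2 : ℂ) * w) = (δ / 2 : ℂ) * (starRingEnd ℂ) w := by
    intro w
    rw [map_mul, map_div₀, Complex.conj_ofReal, map_ofNat]
  simp only [rf, int_rp_acor hh, e2]
  exact h4

end Torus

end Pool.Agent.MP_843cf2_an

end

-- part MP_843cf2_an.PisierB
section

set_option autoImplicit false

namespace Pool.Agent.MP_843cf2_an

open MeasureTheory

variable {G : Type*} [CommGroup G] [TopologicalSpace G] [IsTopologicalGroup G] [CompactSpace G]
  [MeasurableSpace G] [BorelSpace G]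

section Gibbs

variable {n : ℕ} (γ : Fin n → PontryaginDual G) (a : Fin n → ℝ) (s : ℝ)

/-- the random polynomial -/
noncomputable def rH (z : Fin n → Circle) (x : G) : ℝ :=
  s * (∑ i, (a i : ℂ) * (z i : ℂ) * ch (γ i) x).re

/-- the Gibbs density -/
noncomputable def rP (z : Fin n → Circle) (x : G) : ℝ :=
  Real.exp (rH γ a s z x) / ∫ y, Real.exp (rH γ a s z y) ∂hp G

/-- its Fourier coefficients -/
noncomputable def rC (i : Fin n) (z : Fin n → Circle) : ℂ :=
  ∫ x, (rP γ a s z x : ℂ) * ch (γ i) x ∂hp G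

omit [IsTopologicalGroup G] [CompactSpace G] [MeasurableSpace G] [BorelSpace G] in
lemma continuous_rH : Continuous fun p : (Fin n → Circle) × G => rH γ a s p.1 p.2 :=
  continuous_const.mul (Complex.continuous_re.comp (continuous_finsetSum _ fun i _ =>
    (continuous_const.mul ((continuous_coord i).comp continuous_fst)).mul
      ((continuous_ch _).comp continuous_snd)))

omit [IsTopologicalGroup G] [CompactSpace G] [MeasurableSpace G] [BorelSpace G] in
lemma continuous_rH₂ (z : Fin n → Circle) : Continuous (rH γ a s z) :=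
  continuous_const.mul (Complex.continuous_re.comp (continuous_finsetSum _ fun _ _ =>
    continuous_const.mul (continuous_ch _)))

lemma rWb_pos (z : Fin n → Circle) : 0 < ∫ y, Real.exp (rH γ a s z y) ∂hp G :=
  int_pos (Real.continuous_exp.comp (continuous_rH₂ γ a s z)) fun _ => Real.exp_pos _

lemma continuous_rW : Continuous fun z => ∫ y, Real.exp (rH γ a s z y) ∂hp G :=
  cont_int (f := fun z y => Real.exp (rH γ a s z y)) (Real.continuous_exp.comp (continuous_rH γ a s))

lemma continuous_rP : Continuous fun p : (Fin n → Circle) × G => rP γ a s p.1 p.2 :=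
  (Real.continuous_exp.comp (continuous_rH γ a s)).div
    ((continuous_rW γ a s).comp continuous_fst) fun p => (rWb_pos γ a s p.1).ne'

lemma continuous_rP₂ (z : Fin n → Circle) : Continuous (rP γ a s z) :=
  (Real.continuous_exp.comp (continuous_rH₂ γ a s z)).div_const _

lemma rP_nonneg (z : Fin n → Circle) (x : G) : 0 ≤ rP γ a s z x :=
  div_nonneg (Real.exp_pos _).le (rWb_pos γ a s z).le

lemma int_rP (z : Fin n → Circle) : ∫ x, rP γ a s z x ∂hp G = 1 := by
  unfold rP
  rw [integral_div]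
  exact div_self (rWb_pos γ a s z).ne'

lemma continuous_rC (i : Fin n) : Continuous (rC γ a s i) :=
  cont_int (f := fun z x => (rP γ a s z x : ℂ) * ch (γ i) x)
    ((Complex.continuous_ofReal.comp (continuous_rP γ a s)).mul
      ((continuous_ch _).comp continuous_snd))

lemma norm_rC (i : Fin n) (z : Fin n → Circle) : ‖rC γ a s i z‖ ≤ 1 :=
  norm_int_dens (continuous_rP₂ γ a s z) (rP_nonneg γ a s z) (int_rP γ a s z)
    fun x => (norm_ch _ x).le

lemma sum_rC (z : Fin n → Circle) (b : Fin n → ℂ) :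
    ∑ i, b i * rC γ a s i z = ∫ x, (rP γ a s z x : ℂ) * ∑ i, b i * ch (γ i) x ∂hp G := by
  simp only [Finset.mul_sum]
  rw [integral_finsetSum (f := fun i x => (rP γ a s z x : ℂ) * (b i * ch (γ i) x)) _
    fun i _ => cint ((Complex.continuous_ofReal.comp (continuous_rP₂ γ a s z)).mul
      (continuous_const.mul (continuous_ch _)))]
  refine Finset.sum_congr rfl fun i _ => ?_
  rw [rC, ← integral_const_mul]
  congr 1
  funext x
  ring

lemma log_rW_le (z : Fin n → Circle) :
    Real.log (∫ y, Real.exp (rH γ a s z y) ∂hp G)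
      ≤ s * (∑ i, (a i : ℂ) * (z i : ℂ) * rC γ a s i z).re := by
  have h1 := gibbs (F := fun _ : G => (0 : ℝ)) (continuous_rH₂ γ a s z) continuous_const
  have h2 : ∫ _x : G, Real.exp 0 ∂hp G = 1 := by simp
  rw [h2, Real.log_one] at h1
  have c : Continuous fun x => (rP γ a s z x : ℂ) * ∑ i, (a i : ℂ) * (z i : ℂ) * ch (γ i) x :=
    (Complex.continuous_ofReal.comp (continuous_rP₂ γ a s z)).mul
      (continuous_finsetSum _ fun i _ => continuous_const.mul (continuous_ch _))
  have h3 := integral_re (cint c)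
  simp only [RCLike.re_to_complex, Complex.re_ofReal_mul] at h3
  rw [sum_rC γ a s z fun i => (a i : ℂ) * (z i : ℂ), ← h3, ← integral_const_mul]
  have h4 : ∀ x, Real.exp (rH γ a s z x) / (∫ y, Real.exp (rH γ a s z y) ∂hp G)
      * (0 - rH γ a s z x)
        = -(s * (rP γ a s z x * (∑ i, (a i : ℂ) * (z i : ℂ) * ch (γ i) x).re)) := by
    intro x
    change rP γ a s z x * (0 - s * (∑ i, (a i : ℂ) * (z i : ℂ) * ch (γ i) x).re) = _
    ring
  simp only [h4, integral_neg] at h1
  linarith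

lemma norm_sum_rC {b : Fin n → ℂ} {M : ℝ} (hM : ∀ x, ‖∑ i, b i * ch (γ i) x‖ ≤ M)
    (z w : Fin n → Circle) :
    ‖∑ i, b i * (rC γ a s i z * (starRingEnd ℂ) (rC γ a s i w))‖ ≤ M := by
  have h1 := sum_rC γ a s z fun i => b i * (starRingEnd ℂ) (rC γ a s i w)
  have e1 : ∑ i, b i * (rC γ a s i z * (starRingEnd ℂ) (rC γ a s i w))
      = ∑ i, b i * (starRingEnd ℂ) (rC γ a s i w) * rC γ a s i z :=
    Finset.sum_congr rfl fun i _ => by ring
  rw [e1, h1]
  refine norm_int_dens (continuous_rP₂ γ a s z) (rP_nonneg γ a s z) (int_rP γ a s z) fun x => ?_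
  have h2 := sum_rC γ a s w fun i => (starRingEnd ℂ) (b i * ch (γ i) x)
  have e2 : ∑ i, b i * (starRingEnd ℂ) (rC γ a s i w) * ch (γ i) x
      = (starRingEnd ℂ) (∑ i, (starRingEnd ℂ) (b i * ch (γ i) x) * rC γ a s i w) := by
    rw [map_sum]
    refine Finset.sum_congr rfl fun i _ => ?_
    rw [map_mul, Complex.conj_conj]
    ring
  rw [e2, Complex.norm_conj, h2]
  refine norm_int_dens (continuous_rP₂ γ a s w) (rP_nonneg γ a s w) (int_rP γ a s w) fun y => ?_
  have e3 : ∑ i, (starRingEnd ℂ) (b i * ch (γ i) x) * ch (γ i) y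
      = (starRingEnd ℂ) (∑ i, b i * ch (γ i) (x * y⁻¹)) := by
    rw [map_sum]
    refine Finset.sum_congr rfl fun i _ => ?_
    rw [ch_mul, ch_inv, map_mul, map_mul, map_mul, Complex.conj_conj]
    ring
  rw [e3, Complex.norm_conj]
  exact hM _

lemma norm_sum_acor {b : Fin n → ℂ} {M : ℝ} (hM : ∀ x, ‖∑ i, b i * ch (γ i) x‖ ≤ M)
    (z : Fin n → Circle) : ‖∑ i, b i * acor (rC γ a s i) z‖ ≤ M := by
  have e : ∑ i, b i * acor (rC γ a s i) z
      = ∫ w, ∑ i, b i * (rC γ a s i (w * z) * (starRingEnd ℂ) (rC γ a s i w))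
        ∂hp (Fin n → Circle) := by
    rw [integral_finsetSum
      (f := fun i w => b i * (rC γ a s i (w * z) * (starRingEnd ℂ) (rC γ a s i w))) _
      fun i _ => cint (continuous_const.mul
        (((continuous_rC γ a s i).comp (continuous_mul_const z)).mul
          (Complex.continuous_conj.comp (continuous_rC γ a s i))))]
    refine Finset.sum_congr rfl fun i _ => ?_
    rw [integral_const_mul, acor]
  rw [e]
  exact norm_int_le fun w => norm_sum_rC γ a s hM _ _

omit [IsTopologicalGroup G] [CompactSpace G] [MeasurableSpace G] [BorelSpace G] in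
lemma rH_shift (z : Fin n → Circle) (x y : G) :
    rH γ a s (z * fun j => γ j y) x = rH γ a s z (x * y) := by
  unfold rH
  congr 2
  refine Finset.sum_congr rfl fun i _ => ?_
  rw [ch_mul, Pi.mul_apply, Circle.coe_mul]
  unfold ch
  ring

lemma rP_shift (z : Fin n → Circle) (x y : G) :
    rP γ a s (z * fun j => γ j y) x = rP γ a s z (x * y) := by
  unfold rP
  simp only [rH_shift]
  rw [int_mul_right (fun x => Real.exp (rH γ a s z x)) y]

lemma rC_shift (i : Fin n) (z : Fin n → Circle) (y : G) :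
    ch (γ i) y * rC γ a s i (z * fun j => γ j y) = rC γ a s i z := by
  unfold rC
  rw [← int_mul_right (fun x => (rP γ a s z x : ℂ) * ch (γ i) x) y, ← integral_const_mul]
  congr 1
  funext x
  rw [rP_shift, ch_mul]
  ring

lemma wt_off (hγ : Function.Injective γ) {i j : Fin n} (hij : j ≠ i) :
    wt (rC γ a s i) {j} ∅ = 0 := by
  obtain ⟨y, hy⟩ : ∃ y, γ j y ≠ γ i y := by
    by_contra hc
    push Not at hc
    exact hij (hγ (PontryaginDual.ext hc))
  have h1 := int_mul_right (fun z : Fin n → Circle => (z j : ℂ) * rC γ a s i z) fun j => γ j y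
  have h2 : ch (γ i) y * ∫ z : Fin n → Circle, (z j : ℂ) * rC γ a s i z ∂hp (Fin n → Circle)
      = ch (γ j) y * ∫ z : Fin n → Circle, (z j : ℂ) * rC γ a s i z ∂hp (Fin n → Circle) := by
    conv_lhs => rw [← h1]
    rw [← integral_const_mul, ← integral_const_mul]
    congr 1
    funext z
    rw [← rC_shift γ a s i z y, Pi.mul_apply, Circle.coe_mul]
    unfold ch
    ring
  have h3 : ch (γ i) y ≠ ch (γ j) y := fun e => hy (Circle.ext e).symm
  have h4 : ∫ z : Fin n → Circle, (z j : ℂ) * rC γ a s i z ∂hp (Fin n → Circle) = 0 := by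
    by_contra hc
    exact h3 (mul_right_cancel₀ hc h2)
  simp [wt, mono, h4]

end Gibbs

/-- Rider's theorem, by Drury's convolution device -/
theorem pisierB {c : ℝ} (hc : 0 < c) (hc1 : c ≤ 1) (n : ℕ) (γ : Fin n → PontryaginDual G)
    (hγ : Function.Injective γ) (b : Fin n → ℂ) {s : ℝ} (hs : 0 < s)
    (h : c * ∑ i, ‖b i‖ ≤ ∫ z : Fin n → Circle,
      Real.log (∫ x, Real.exp (s * (∑ i, (‖b i‖ : ℂ) * (z i : ℂ) * ch (γ i) x).re) ∂hp G) / s
        ∂hp (Fin n → Circle))
    {M : ℝ} (hM : ∀ x, ‖∑ i, b i * ch (γ i) x‖ ≤ M) : c ^ 4 / 16 * ∑ i, ‖b i‖ ≤ M := by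
  obtain ⟨a, ha⟩ : ∃ a : Fin n → ℝ, a = fun i => ‖b i‖ := ⟨_, rfl⟩
  obtain ⟨q, hq⟩ : ∃ q : Fin n → ℂ, q = fun i =>
    ∫ z : Fin n → Circle, (z i : ℂ) * rC γ a s i z ∂hp (Fin n → Circle) := ⟨_, rfl⟩
  have hw : ∀ i, wt (rC γ a s i) {i} ∅ = ‖q i‖ ^ 2 := fun i => by simp [wt, mono, hq]
  have cz : ∀ i, Continuous fun z : Fin n → Circle => (a i : ℂ) * (z i : ℂ) * rC γ a s i z :=
    fun i => (continuous_const.mul (continuous_coord i)).mul (continuous_rC γ a s i)
  have h1 : c * ∑ i, ‖b i‖ ≤ ∑ i, ‖b i‖ * (q i).re := by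
    refine h.trans ?_
    have c1 : Continuous fun z : Fin n → Circle =>
        Real.log (∫ y, Real.exp (rH γ a s z y) ∂hp G) / s :=
      ((continuous_rW γ a s).log fun z => (rWb_pos γ a s z).ne').div_const s
    have c2 : Continuous fun z : Fin n → Circle => ∑ i, (a i : ℂ) * (z i : ℂ) * rC γ a s i z :=
      continuous_finsetSum _ fun i _ => cz i
    have h2 := integral_mono (cint c1) (cint (Complex.continuous_re.comp c2)) fun z => by
      have := log_rW_le γ a s z
      simp only [Function.comp]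
      rw [div_le_iff₀ hs]
      linarith
    have h3 := integral_re (cint c2)
    simp only [RCLike.re_to_complex] at h3
    simp only [Function.comp_def] at h2
    rw [h3, integral_finsetSum _ fun i _ => cint (cz i), Complex.re_sum] at h2
    simp only [mul_assoc, integral_const_mul, Complex.re_ofReal_mul] at h2
    subst ha
    subst hq
    exact h2
  have h2 : c ^ 2 * ∑ i, ‖b i‖ ≤ ∑ i, ‖b i‖ * ‖q i‖ ^ 2 := by
    have h3 : ∑ i, ‖b i‖ * (2 * c * (q i).re - c ^ 2) ≤ ∑ i, ‖b i‖ * ‖q i‖ ^ 2 := by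
      refine Finset.sum_le_sum fun i _ => mul_le_mul_of_nonneg_left ?_ (norm_nonneg _)
      have h4 := Complex.re_le_norm (q i)
      nlinarith [sq_nonneg (‖q i‖ - c)]
    have h5 : ∑ i, ‖b i‖ * (2 * c * (q i).re - c ^ 2)
        = 2 * c * ∑ i, ‖b i‖ * (q i).re - c ^ 2 * ∑ i, ‖b i‖ := by
      rw [Finset.mul_sum, Finset.mul_sum, ← Finset.sum_sub_distrib]
      exact Finset.sum_congr rfl fun i _ => by ring
    nlinarith
  obtain ⟨δ, hδ⟩ : ∃ δ : ℝ, δ = c ^ 2 / 4 := ⟨_, rfl⟩
  have hδ0 : 0 ≤ δ := by rw [hδ]; positivity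
  have hδ1 : δ ≤ 1 := by rw [hδ]; nlinarith
  obtain ⟨θ, hθ⟩ : ∃ θ : Fin n → ℂ, θ = fun i => (starRingEnd ℂ) (b i) / (‖b i‖ : ℂ) := ⟨_, rfl⟩
  have hθ1 : ∀ i, ‖θ i‖ ≤ 1 := fun i => by
    rw [hθ]
    simp only [norm_div, Complex.norm_conj, Complex.norm_real, norm_norm]
    exact div_self_le_one _
  have hθ2 : ∀ i, b i * θ i = (‖b i‖ : ℂ) := fun i => by
    rw [hθ]
    simp only
    by_cases h0 : b i = 0
    · simp [h0]
    · have : (‖b i‖ : ℂ) ≠ 0 := by exact_mod_cast norm_ne_zero_iff.2 h0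
      rw [← mul_div_assoc, Complex.mul_conj', div_eq_iff this]
      ring
  have h3 := norm_rf_le hθ1 hδ0 hδ1 (norm_sum_acor γ a s hM)
  rw [rf_sum δ θ b fun i => continuous_acor (continuous_rC γ a s i)] at h3
  have h4 : ∀ i, ‖b i‖ * (δ / 2 * ‖q i‖ ^ 2 - δ ^ 2) ≤ (b i * rf δ θ (acor (rC γ a s i))).re := by
    intro i
    have h5 := rf_acor (continuous_rC γ a s i) (norm_rC γ a s i) hθ1 hδ0 hδ1
    rw [Finset.sum_eq_single i (fun j _ hj => by rw [wt_off γ a s hγ hj]; simp)
      (fun hh => absurd (Finset.mem_univ i) hh), hw] at h5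
    obtain ⟨r, hr⟩ : ∃ r, r = rf δ θ (acor (rC γ a s i))
      - (δ / 2 : ℂ) * (θ i * ((‖q i‖ ^ 2 : ℝ) : ℂ)) := ⟨_, rfl⟩
    have e : b i * rf δ θ (acor (rC γ a s i))
        = b i * r + ((‖b i‖ * (δ / 2 * ‖q i‖ ^ 2) : ℝ) : ℂ) := by
      rw [hr]
      push_cast
      rw [← hθ2 i]
      ring
    rw [← hr] at h5
    have h6 := Complex.abs_re_le_norm (b i * r)
    rw [norm_mul] at h6
    have h7 := neg_abs_le (b i * r).re
    have h8 := mul_le_mul_of_nonneg_left h5 (norm_nonneg (b i))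
    rw [e, Complex.add_re, Complex.ofReal_re]
    linarith
  have h5 := (Finset.sum_le_sum fun i (_ : i ∈ Finset.univ) => h4 i)
  rw [← Complex.re_sum] at h5
  have h6 := h5.trans ((Complex.re_le_norm _).trans h3)
  have h7 : ∑ i, ‖b i‖ * (δ / 2 * ‖q i‖ ^ 2 - δ ^ 2)
      = δ / 2 * ∑ i, ‖b i‖ * ‖q i‖ ^ 2 - δ ^ 2 * ∑ i, ‖b i‖ := by
    rw [Finset.mul_sum, Finset.mul_sum, ← Finset.sum_sub_distrib]
    exact Finset.sum_congr rfl fun i _ => by ring
  rw [h7] at h6
  have h8 := mul_le_mul_of_nonneg_left h2 (by positivity : 0 ≤ δ / 2)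
  have h9 : c ^ 4 / 16 * ∑ i, ‖b i‖ = δ / 2 * (c ^ 2 * ∑ i, ‖b i‖) - δ ^ 2 * ∑ i, ‖b i‖ := by
    rw [hδ]; ring
  linarith

end Pool.Agent.MP_843cf2_an

end

-- part MP_843cf2_an.Pisier
section

set_option autoImplicit false

namespace Pool.Agent.MP_843cf2_an

open MeasureTheory

variable {G : Type*} [CommGroup G] [TopologicalSpace G] [IsTopologicalGroup G] [CompactSpace G]
  [MeasurableSpace G] [BorelSpace G]

lemma Lam_of_tp {S T : Finset (PontryaginDual G)} {c d : PontryaginDual G → ℂ}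
    (h : ∀ x, tp S c x = tp T d x) : Lam S c = Lam T d := by
  unfold Lam
  simp only [h]

lemma psi_subgauss {Λ : Set (PontryaginDual G)} {δ : ℝ} (hδ : 0 < δ)
    (h : ∀ A : Finset (PontryaginDual G), (↑A : Set (PontryaginDual G)) ⊆ Λ →
      ∃ B ⊆ A, QI B ∧ δ * A.card ≤ B.card) (A : Finset (PontryaginDual G)) :
    (↑A : Set (PontryaginDual G)) ⊆ Λ → ∀ J : ℝ, psi J A ≤ 2 / δ * J ^ 2 * A.card := by
  classical
  induction A using Finset.strongInduction with
  | H A ih =>
    intro hA J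
    rcases A.eq_empty_or_nonempty with rfl | hne
    · simp [psi_empty]
    obtain ⟨B, hBA, hQ, hc⟩ := h A hA
    have hApos : (0 : ℝ) < A.card := by exact_mod_cast hne.card_pos
    have hBle : (B.card : ℝ) ≤ A.card := by exact_mod_cast Finset.card_le_card hBA
    have hδ1 : δ ≤ 1 := by nlinarith
    have hBpos : (0 : ℝ) < B.card := lt_of_lt_of_le (mul_pos hδ hApos) hc
    have hBne : B.Nonempty := by
      rw [← Finset.card_pos]; exact_mod_cast hBpos
    have hss : A \ B ⊂ A := Finset.sdiff_ssubset hBA hBne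
    obtain ⟨θ, hθ⟩ : ∃ θ : ℝ, θ = δ / 2 := ⟨_, rfl⟩
    have hθ0 : 0 < θ := by rw [hθ]; positivity
    have hθ1 : 0 < 1 - θ := by linarith
    have i1 := ih _ hss ((Finset.coe_subset.2 hss.subset).trans hA) (J / (1 - θ))
    have i2 := hQ.Lam_le (fun _ => ((J / θ : ℝ) : ℂ))
    let c1 : PontryaginDual G → ℂ := fun g => if g ∈ B then 0 else ((J / (1 - θ) : ℝ) : ℂ)
    let c2 : PontryaginDual G → ℂ := fun g => if g ∈ B then ((J / θ : ℝ) : ℂ) else 0
    have hcv := (convexOn_Lam A).2 (Set.mem_univ c1) (Set.mem_univ c2) hθ1.le hθ0.le (by ring)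
    have e0 : (1 - θ) • c1 + θ • c2 = fun _ => (J : ℂ) := by
      funext g
      have a1 : ((1 - θ : ℝ) : ℂ) ≠ 0 := by exact_mod_cast hθ1.ne'
      have a2 : ((θ : ℝ) : ℂ) ≠ 0 := by exact_mod_cast hθ0.ne'
      simp only [Pi.add_apply, Pi.smul_apply, c1, c2, Complex.real_smul]
      split_ifs
      · rw [mul_zero, zero_add, Complex.ofReal_div, mul_div_cancel₀ _ a2]
      · rw [mul_zero, add_zero, Complex.ofReal_div, mul_div_cancel₀ _ a1]
    have e1 : Lam A c1 = psi (J / (1 - θ)) (A \ B) := by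
      unfold psi
      refine Lam_of_tp fun x => ?_
      unfold tp
      rw [← Finset.sum_sdiff hBA, Finset.sum_eq_zero (s := B) fun g hg => by simp [c1, hg],
        add_zero]
      exact Finset.sum_congr rfl fun g hg => by
        simp only [c1, if_neg (Finset.mem_sdiff.1 hg).2]
    have e2 : Lam A c2 = Lam B (fun _ => ((J / θ : ℝ) : ℂ)) := by
      refine Lam_of_tp fun x => ?_
      unfold tp
      rw [← Finset.sum_sdiff hBA, Finset.sum_eq_zero (s := A \ B) fun g hg => by
        simp [c2, (Finset.mem_sdiff.1 hg).2], zero_add]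
      exact Finset.sum_congr rfl fun g hg => by simp only [c2, if_pos hg]
    rw [e0, e1, e2, smul_eq_mul, smul_eq_mul] at hcv
    have e3 : ((A \ B).card : ℝ) = A.card - B.card := by
      rw [Finset.card_sdiff_of_subset hBA, Nat.cast_sub (Finset.card_le_card hBA)]
    rw [e3] at i1
    simp only [Finset.sum_const, nsmul_eq_mul, Complex.norm_real, Real.norm_eq_abs, sq_abs] at i2
    have j1 : (1 - θ) * psi (J / (1 - θ)) (A \ B)
        ≤ 2 / δ * J ^ 2 * ((A.card - B.card) / (1 - θ)) := by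
      refine (mul_le_mul_of_nonneg_left i1 hθ1.le).trans (le_of_eq ?_)
      field_simp
    have j2 : θ * Lam B (fun _ => ((J / θ : ℝ) : ℂ)) ≤ 2 / δ * J ^ 2 * (B.card / 2) := by
      refine (mul_le_mul_of_nonneg_left i2 hθ0.le).trans (le_of_eq ?_)
      rw [hθ]
      field_simp
    have j3 : (A.card - B.card) / (1 - θ) + B.card / 2 ≤ (A.card : ℝ) := by
      have : (A.card - B.card : ℝ) / (1 - θ) ≤ A.card - B.card / 2 := by
        rw [div_le_iff₀ hθ1]
        nlinarith
      linarith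
    have j4 : 0 ≤ 2 / δ * J ^ 2 := by positivity
    have j5 := mul_le_mul_of_nonneg_left j3 j4
    change Lam A (fun _ => (J : ℂ)) ≤ _
    nlinarith

/-- Pisier's theorem: proportionally quasi-independent sets are Sidon -/
theorem pisier {Λ : Set (PontryaginDual G)} {δ : ℝ} (hδ : 0 < δ)
    (h : ∀ A : Finset (PontryaginDual G), (↑A : Set (PontryaginDual G)) ⊆ Λ →
      ∃ B ⊆ A, QI B ∧ δ * A.card ≤ B.card) : Sidon Λ := by
  classical
  obtain ⟨c, hc0, hc1, hA⟩ := pisierA (G := G) (C := 2 / δ) (by positivity)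
  refine ⟨16 / c ^ 4, fun s hs a M hM => ?_⟩
  let e : Fin s.card ≃ s := s.equivFin.symm
  let f : Fin s.card → ℝ := fun i => -‖a (e i)‖
  let σ := Tuple.sort f
  let γ : Fin s.card → PontryaginDual G := fun i => e (σ i)
  have hγ : Function.Injective γ := fun i j hij =>
    σ.injective (e.injective (Subtype.ext hij))
  have hsum : ∀ {M : Type} [AddCommMonoid M] (φ : PontryaginDual G → M),
      ∑ i, φ (γ i) = ∑ g ∈ s, φ g := by
    intro M _ φ
    rw [← Finset.sum_coe_sort s φ]
    exact Equiv.sum_comp (σ.trans e) fun g : s => φ g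
  have hanti : Antitone fun i => ‖a (γ i)‖ := by
    intro i j hij
    have := Tuple.monotone_sort f hij
    simp only [Function.comp, f] at this
    exact neg_le_neg_iff.1 this
  obtain ⟨t, ht, h1⟩ := hA s.card γ (fun J _ _ T => by
    have h2 := psi_subgauss hδ h (T.image γ) (by
      intro g hg
      obtain ⟨i, _, rfl⟩ := Finset.mem_image.1 (Finset.mem_coe.1 hg)
      exact hs (e (σ i)).2) J
    rw [Finset.card_image_of_injective _ hγ] at h2
    refine le_trans (le_of_eq ?_) h2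
    unfold psi Lam tp
    congr 2
    funext x
    rw [Finset.sum_image fun i _ j _ hij => hγ hij, Complex.re_sum, Finset.mul_sum]
    simp) (fun i => ‖a (γ i)‖) hanti (fun i => norm_nonneg _)
  have h3 := pisierB hc0 hc1 s.card γ hγ (fun i => a (γ i)) ht h1 (M := M) (fun x => by
    rw [hsum fun g => a g * ch g x]
    exact hM x)
  rw [hsum fun g => ‖a g‖] at h3
  have h4 : 0 < c ^ 4 := by positivity
  rw [div_mul_eq_mul_div, le_div_iff₀ h4]
  linarith

lemma coeff_le {s : Finset (PontryaginDual G)} {a : PontryaginDual G → ℂ} {M : ℝ}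
    (hM : ∀ x, ‖tp s a x‖ ≤ M) {g : PontryaginDual G} (hg : g ∈ s) : ‖a g‖ ≤ M := by
  classical
  have e : ∫ x, tp s a x * ch g⁻¹ x ∂hp G = a g := by
    have : ∀ x, tp s a x * ch g⁻¹ x = ∑ η ∈ s, a η * ch (η * g⁻¹) x := by
      intro x
      unfold tp
      rw [Finset.sum_mul]
      exact Finset.sum_congr rfl fun η _ => by rw [mul_ch, mul_assoc]
    simp only [this]
    rw [integral_finsetSum (f := fun η x => a η * ch (η * g⁻¹) x) _ fun η _ => cint (by fun_prop)]
    simp only [integral_const_mul, int_ch, mul_inv_eq_one]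
    rw [Finset.sum_eq_single g (fun η _ hη => by simp [hη]) (fun hh => absurd hg hh)]
    simp
  rw [← e]
  have := norm_integral_le_of_norm_le_const (μ := hp G) (C := M)
    (f := fun x => tp s a x * ch g⁻¹ x) (Filter.Eventually.of_forall fun x => by
      rw [norm_mul, norm_ch, mul_one]; exact hM x)
  simpa using this

/-- adding finitely many characters to a Sidon set -/
theorem Sidon.of_diff {Λ : Set (PontryaginDual G)} (E : Finset (PontryaginDual G))
    (h : Sidon (Λ \ ↑E)) : Sidon Λ := by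
  classical
  obtain ⟨C, hC⟩ := h
  refine ⟨C * (1 + E.card) + E.card, fun s hs a M hM => ?_⟩
  have hM0 : 0 ≤ M := (norm_nonneg _).trans (hM 1)
  have h1 : ∑ g ∈ s ∩ E, ‖a g‖ ≤ E.card * M := by
    refine (Finset.sum_le_card_nsmul _ _ M fun g hg =>
      coeff_le hM (Finset.mem_inter.1 hg).1).trans ?_
    rw [nsmul_eq_mul]
    refine mul_le_mul_of_nonneg_right ?_ hM0
    exact_mod_cast Finset.card_le_card Finset.inter_subset_right
  have h2 := hC (s \ E) (fun g hg => by
    have := Finset.mem_sdiff.1 (Finset.mem_coe.1 hg)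
    exact ⟨hs this.1, this.2⟩) a ((1 + E.card) * M) (fun x => by
    have e : tp (s \ E) a x = tp s a x - tp (s ∩ E) a x := by
      unfold tp
      rw [← Finset.sum_inter_add_sum_sdiff s E]
      ring
    rw [e]
    have := norm_sub_le (tp s a x) (tp (s ∩ E) a x)
    have h3 := norm_tp_le (s ∩ E) a x
    have h4 := hM x
    linarith)
  rw [← Finset.sum_inter_add_sum_sdiff s E]
  linarith

end Pool.Agent.MP_843cf2_an

end

-- part MP_843cf2_an.UnifA
section

set_option autoImplicit false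

namespace Pool.Agent.MP_843cf2_an

open MeasureTheory

variable {G : Type*} [CommGroup G] [TopologicalSpace G] [IsTopologicalGroup G] [CompactSpace G]
  [MeasurableSpace G] [BorelSpace G]

/-- Fourier coefficient -/
noncomputable def hat (f : G → ℂ) (γ : PontryaginDual G) : ℂ :=
  ∫ x, f x * (starRingEnd ℂ) (ch γ x) ∂hp G

omit [IsTopologicalGroup G] [CompactSpace G] [MeasurableSpace G] [BorelSpace G] in
@[fun_prop] lemma continuous_conj_ch (γ : PontryaginDual G) :
    Continuous fun x => (starRingEnd ℂ) (ch γ x) :=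
  Complex.continuous_conj.comp (continuous_ch γ)

open Classical in
lemma hat_ch (η γ : PontryaginDual G) : hat (ch η) γ = if η = γ then 1 else 0 := by
  have h : hat (ch η) γ = ∫ x, ch (η * γ⁻¹) x ∂hp G := by
    simp only [hat, mul_ch, inv_ch]
  rw [h, int_ch]
  simp only [mul_inv_eq_one]

/-- `a` is a finitely supported real function which is the transform of a continuous function of
norm at most `r`. -/
def Pol (a : PontryaginDual G → ℝ) (r : ℝ) : Prop :=
  (Function.support a).Finite ∧ ∃ f : G → ℂ, Continuous f ∧ (∀ γ, hat f γ = a γ) ∧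
    ∫ x, ‖f x‖ ∂hp G ≤ r

lemma Pol.mono {a : PontryaginDual G → ℝ} {r s : ℝ} (h : Pol a r) (hrs : r ≤ s) : Pol a s := by
  obtain ⟨h1, f, h2, h3, h4⟩ := h
  exact ⟨h1, f, h2, h3, h4.trans hrs⟩

lemma Pol.abs_le {a : PontryaginDual G → ℝ} {r : ℝ} (h : Pol a r) (γ : PontryaginDual G) :
    |a γ| ≤ r := by
  obtain ⟨-, f, -, h3, h4⟩ := h
  have h5 : ‖hat f γ‖ ≤ r := (norm_integral_le_integral_norm _).trans (by simpa using h4)
  simpa [h3] using h5

lemma pol_zero : Pol (fun _ : PontryaginDual G => (0 : ℝ)) 0 :=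
  ⟨by simp, fun _ => 0, continuous_const, fun γ => by simp [hat], by simp⟩

lemma Pol.add {a b : PontryaginDual G → ℝ} {r s : ℝ} (h : Pol a r) (h' : Pol b s) :
    Pol (fun γ => a γ + b γ) (r + s) := by
  obtain ⟨h1, f, h2, h3, h4⟩ := h
  obtain ⟨k1, g, k2, k3, k4⟩ := h'
  refine ⟨(h1.union k1).subset (Function.support_add _ _), fun x => f x + g x, h2.add k2,
    fun γ => ?_, ?_⟩
  · simp only [hat, add_mul]
    rw [integral_add (cint (by fun_prop)) (cint (by fun_prop))]
    push_cast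
    rw [← h3, ← k3]; rfl
  · refine le_trans (integral_mono (cint (by fun_prop)) ((cint h2.norm).add (cint k2.norm))
      fun x => norm_add_le _ _) ?_
    rw [integral_add' (cint h2.norm) (cint k2.norm)]
    exact add_le_add h4 k4

open Classical in
lemma pol_single (η : PontryaginDual G) (c : ℝ) :
    Pol (fun γ => if η = γ then c else 0) |c| := by
  refine ⟨(Set.finite_singleton η).subset fun γ hγ => ?_, fun x => c * ch η x, by fun_prop,
    fun γ => ?_, by simp⟩
  · by_contra h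
    exact hγ (if_neg fun e => h e.symm)
  · have h := hat_ch η γ
    simp only [hat, mul_assoc, integral_const_mul] at h ⊢
    rw [h]
    split_ifs <;> simp

lemma pol_sum {ι : Type*} (s : Finset ι) {a : ι → PontryaginDual G → ℝ} {r : ι → ℝ}
    (h : ∀ i ∈ s, Pol (a i) (r i)) : Pol (fun γ => ∑ i ∈ s, a i γ) (∑ i ∈ s, r i) := by
  classical
  induction s using Finset.induction_on with
  | empty => simpa using pol_zero
  | insert i s hi ih =>
    simp only [Finset.sum_insert hi]
    exact (h i (Finset.mem_insert_self _ _)).add (ih fun j hj => h j (Finset.mem_insert_of_mem hj))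

lemma Pol.mulPt {a ψ : PontryaginDual G → ℝ} {r c : ℝ} (h : Pol a r)
    (hψ : IsPt c fun γ => (ψ γ : ℂ)) : Pol (fun γ => ψ γ * a γ) (c * r) := by
  have hc := hψ.nonneg
  obtain ⟨h1, f, h2, h3, h4⟩ := h
  obtain ⟨ι, _, b, y, k1, k2⟩ := hψ
  refine ⟨h1.subset (Function.support_mul_subset_right _ _), fun x => ∑ i, b i * f (x * y i),
    by fun_prop, fun γ => ?_, ?_⟩
  · simp only [hat, Finset.sum_mul]
    rw [integral_finsetSum _ fun i _ => cint (by fun_prop)]
    push_cast
    rw [show (ψ γ : ℂ) = _ from k2 γ, ← h3, Finset.sum_mul]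
    refine Finset.sum_congr rfl fun i _ => ?_
    rw [hat, ← int_mul_right (fun x => f x * (starRingEnd ℂ) (ch γ x)) (y i), ← integral_const_mul]
    congr 1
    funext x
    have := ch_mul_conj γ (y i)
    rw [ch_mul, map_mul]
    linear_combination (-(b i * f (x * y i) * (starRingEnd ℂ) (ch γ x))) * this
  · refine le_trans (integral_mono (cint (by fun_prop))
      (cint (f := fun x => ∑ i, ‖b i‖ * ‖f (x * y i)‖) (by fun_prop))
      fun x => (norm_sum_le _ _).trans (by simp)) ?_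
    rw [integral_finsetSum _ fun i _ => cint (by fun_prop)]
    simp only [integral_const_mul, int_mul_right (fun x => ‖f x‖), ← Finset.sum_mul]
    exact mul_le_mul k1 h4 (integral_nonneg fun _ => norm_nonneg _) hc

lemma Pol.neg {a : PontryaginDual G → ℝ} {r : ℝ} (h : Pol a r) : Pol (fun γ => -a γ) r := by
  have := h.mulPt (ψ := fun _ => -1) (c := 1) (by simpa using isPt_const (G := G) (-1))
  simpa using this

lemma Pol.mul {a b : PontryaginDual G → ℝ} {r s : ℝ} (h : Pol a r) (h' : Pol b s) :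
    Pol (fun γ => a γ * b γ) (r * s) := by
  have hr : 0 ≤ r := (abs_nonneg _).trans (h.abs_le 1)
  obtain ⟨h1, f, h2, h3, h4⟩ := h
  obtain ⟨-, g, k2, k3, k4⟩ := h'
  have hc : Continuous fun x => ∫ y, f (x * y⁻¹) * g y ∂hp G := cont_int (by fun_prop)
  refine ⟨h1.subset (Function.support_mul_subset_left _ _), _, hc, fun γ => ?_, ?_⟩
  · simp only [hat, ← integral_mul_const]
    rw [int_swap (((h2.comp (by fun_prop)).mul (k2.comp continuous_snd)).mul
      ((continuous_conj_ch γ).comp continuous_fst))]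
    push_cast
    rw [← h3, ← k3, hat, hat, ← integral_const_mul]
    congr 1
    funext y
    rw [← integral_mul_const, ← int_mul_right _ y]
    congr 1
    funext x
    rw [mul_inv_cancel_right, ch_mul, map_mul]
    ring
  · have hc2 : Continuous fun p : G × G => ‖f (p.1 * p.2⁻¹)‖ * ‖g p.2‖ := by fun_prop
    refine le_trans (integral_mono (cint hc.norm) (cint (cont_int (f := fun x y => ‖f (x * y⁻¹)‖ * ‖g y‖) hc2)) fun x =>
      (norm_integral_le_integral_norm _).trans (by simp)) ?_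
    rw [int_swap (f := fun x y => ‖f (x * y⁻¹)‖ * ‖g y‖) hc2]
    simp only [integral_mul_const, int_mul_right (fun x => ‖f x‖), integral_const_mul]
    exact mul_le_mul h4 k4 (integral_nonneg fun _ => norm_nonneg _) hr

/-- trigonometric polynomial with real coefficients -/
def RTP (f : G → ℂ) : Prop :=
  ∃ (ι : Type) (_ : Fintype ι) (c : ι → ℝ) (g : ι → PontryaginDual G),
    ∀ x, f x = ∑ i, (c i : ℂ) * ch (g i) x

omit [IsTopologicalGroup G] [CompactSpace G] [MeasurableSpace G] [BorelSpace G] in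
lemma rtp_ch (c : ℝ) (γ : PontryaginDual G) : RTP fun x => (c : ℂ) * ch γ x :=
  ⟨Unit, inferInstance, fun _ => c, fun _ => γ, by simp⟩

omit [IsTopologicalGroup G] [CompactSpace G] [MeasurableSpace G] [BorelSpace G] in
lemma RTP.add {f g : G → ℂ} (h : RTP f) (h' : RTP g) : RTP fun x => f x + g x := by
  obtain ⟨ι, _, a, x, h1⟩ := h
  obtain ⟨κ, _, b, y, h2⟩ := h'
  exact ⟨ι ⊕ κ, inferInstance, Sum.elim a b, Sum.elim x y, fun z => by simp [h1, h2]⟩

omit [IsTopologicalGroup G] [CompactSpace G] [MeasurableSpace G] [BorelSpace G] in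
lemma RTP.mul {f g : G → ℂ} (h : RTP f) (h' : RTP g) : RTP fun x => f x * g x := by
  obtain ⟨ι, _, a, x, h1⟩ := h
  obtain ⟨κ, _, b, y, h2⟩ := h'
  refine ⟨ι × κ, inferInstance, fun p => a p.1 * b p.2, fun p => x p.1 * y p.2, fun z => ?_⟩
  simp only [h1, h2, Fintype.sum_prod_type, Finset.sum_mul_sum, mul_ch]
  refine Finset.sum_congr rfl fun i _ => Finset.sum_congr rfl fun j _ => ?_
  push_cast
  ring

omit [IsTopologicalGroup G] [CompactSpace G] [MeasurableSpace G] [BorelSpace G] in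
lemma rtp_const (c : ℝ) : RTP fun _ : G => (c : ℂ) := by
  simpa using rtp_ch c (1 : PontryaginDual G)

omit [IsTopologicalGroup G] [CompactSpace G] [MeasurableSpace G] [BorelSpace G] in
lemma RTP.pow {f : G → ℂ} (h : RTP f) (n : ℕ) : RTP fun x => f x ^ n := by
  induction n with
  | zero => simpa using rtp_const (G := G) 1
  | succ n ih => simpa only [pow_succ] using ih.mul h

omit [IsTopologicalGroup G] [CompactSpace G] [MeasurableSpace G] [BorelSpace G] in
lemma rtp_sum {ι : Type*} (s : Finset ι) {f : ι → G → ℂ} (h : ∀ i ∈ s, RTP (f i)) :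
    RTP fun x => ∑ i ∈ s, f i x := by
  classical
  induction s using Finset.induction_on with
  | empty => simpa using rtp_const (G := G) 0
  | insert i s hi ih =>
    simp only [Finset.sum_insert hi]
    exact (h i (Finset.mem_insert_self _ _)).add (ih fun j hj => h j (Finset.mem_insert_of_mem hj))

omit [IsTopologicalGroup G] [CompactSpace G] [MeasurableSpace G] [BorelSpace G] in
lemma rtp_re (γ : PontryaginDual G) : RTP fun x => ((ch γ x).re : ℂ) := by
  have := (rtp_ch (1 / 2) γ).add (rtp_ch (1 / 2) γ⁻¹)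
  have e : (fun x => ((ch γ x).re : ℂ)) =
      fun x => ((1 / 2 : ℝ) : ℂ) * ch γ x + ((1 / 2 : ℝ) : ℂ) * ch γ⁻¹ x := by
    funext x
    rw [inv_ch, ← mul_add, Complex.add_conj]; push_cast; ring
  rw [e]; exact this

lemma RTP.pol {f : G → ℂ} (h : RTP f) : Pol (fun γ => (hat f γ).re) (∫ x, ‖f x‖ ∂hp G) := by
  classical
  obtain ⟨ι, _, c, g, h1⟩ := h
  have e : f = fun x => ∑ i, (c i : ℂ) * ch (g i) x := funext h1
  have h2 : ∀ γ, hat f γ = ((∑ i, if g i = γ then c i else 0 : ℝ) : ℂ) := by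
    intro γ
    simp only [e, hat, Finset.sum_mul]
    rw [integral_finsetSum _ fun i _ => cint (by fun_prop)]
    push_cast
    refine Finset.sum_congr rfl fun i _ => ?_
    have h := hat_ch (g i) γ
    simp only [hat, mul_assoc, integral_const_mul] at h ⊢
    rw [h]
    split_ifs <;> simp
  refine ⟨(Set.finite_range g).subset fun γ hγ => ?_, f, by rw [e]; fun_prop, fun γ => ?_, le_rfl⟩
  · by_contra h
    apply hγ
    simp only [h2, Complex.ofReal_re]
    exact Finset.sum_eq_zero fun i _ => if_neg fun e => h ⟨i, e⟩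
  · simp only [h2, Complex.ofReal_re]

lemma exists_pow_conc {P : G → ℝ} (hP : Continuous P) (h0 : ∀ x, 0 < P x) (h2 : P 1 = 1)
    {δ : ℝ} (hδ : 0 < δ) (hδ1 : δ < 1) :
    ∃ m : ℕ, (1 - δ) * ∫ x, P x ^ m ∂hp G ≤ ∫ x, P x ^ (m + 1) ∂hp G := by
  by_contra hc
  push Not at hc
  have h3 : ∀ m : ℕ, ∫ x, P x ^ m ∂hp G ≤ (1 - δ) ^ m := by
    intro m
    induction m with
    | zero => simp
    | succ m ih =>
      rw [pow_succ' (1 - δ)]
      exact (hc m).le.trans (mul_le_mul_of_nonneg_left ih (by linarith))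
  set U := {x | 1 - δ / 2 < P x} with hU
  have hUo : IsOpen U := isOpen_lt continuous_const hP
  have hU0 : 0 < (hp G).real U := by
    rw [measureReal_def, ENNReal.toReal_pos_iff]
    exact ⟨hUo.measure_pos _ ⟨1, by simp [hU, h2, hδ]⟩, measure_lt_top _ _⟩
  have h4 : ∀ m : ℕ, (1 - δ / 2) ^ m * (hp G).real U ≤ ∫ x, P x ^ m ∂hp G := by
    intro m
    refine le_trans ?_ (setIntegral_le_integral (s := U) (cint (hP.pow m))
      (Filter.Eventually.of_forall fun x => (pow_pos (h0 x) m).le))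
    exact setIntegral_ge_of_const_le_real hUo.measurableSet (measure_ne_top _ _)
      (fun x hx => pow_le_pow_left₀ (by linarith) (le_of_lt hx) m) (cint (hP.pow m)).integrableOn
  have h5 : 0 < 1 - δ / 2 := by linarith
  obtain ⟨m, hm⟩ := exists_pow_lt_of_lt_one hU0 (y := (1 - δ) / (1 - δ / 2))
    (by rw [div_lt_one h5]; linarith)
  rw [div_pow, div_lt_iff₀ (pow_pos h5 m)] at hm
  linarith [h3 m, h4 m]

lemma exists_kernel (S : Finset (PontryaginDual G)) {η : ℝ} (hη : 0 < η) :
    ∃ v, Pol v 1 ∧ ∀ γ ∈ S, |v γ - 1| ≤ η := by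
  set N : ℝ := 2 * S.card + 2 with hN
  have hN0 : 0 < N := by positivity
  set P : G → ℝ := fun x => 1 - N⁻¹ * ∑ γ ∈ S, (1 - (ch γ x).re) with hP
  have hPc : Continuous P := by simp only [hP]; fun_prop
  have hre : ∀ (γ : PontryaginDual G) x, 0 ≤ 1 - (ch γ x).re ∧ 1 - (ch γ x).re ≤ 2 := fun γ x => by
    have := abs_le.1 (abs_re_ch γ x)
    constructor <;> linarith
  have h0 : ∀ x, 0 < P x := by
    intro x
    have h1 : ∑ γ ∈ S, (1 - (ch γ x).re) ≤ ∑ _γ ∈ S, (2 : ℝ) :=
      Finset.sum_le_sum fun γ _ => (hre γ x).2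
    rw [Finset.sum_const, nsmul_eq_mul] at h1
    simp only [hP]
    rw [sub_pos, inv_mul_lt_iff₀ hN0]
    linarith
  have hRP : RTP fun x => (P x : ℂ) := by
    have := (rtp_const 1).add ((rtp_const (-N⁻¹)).mul (rtp_sum S fun γ _ =>
      (rtp_const 1).add ((rtp_const (-1)).mul (rtp_re γ))))
    have e : (fun x => (P x : ℂ)) = fun x => ((1 : ℝ) : ℂ) + ((-N⁻¹ : ℝ) : ℂ) *
        ∑ γ ∈ S, (((1 : ℝ) : ℂ) + ((-1 : ℝ) : ℂ) * ((ch γ x).re : ℂ)) := by
      funext x
      simp only [hP]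
      push_cast
      simp only [neg_mul, one_mul, sub_eq_add_neg]
    rw [e]; exact this
  obtain ⟨m, hm⟩ := exists_pow_conc hPc h0 (by simp [hP]) (δ := min (η / N) (1 / 2))
    (by positivity) ((min_le_right _ _).trans_lt (by norm_num))
  set I := ∫ x, P x ^ m ∂hp G with hI
  have hI0 : 0 < I := int_pos (hPc.pow m) fun x => pow_pos (h0 x) m
  have hV := ((rtp_const I⁻¹).mul (hRP.pow m)).pol
  have hV1 : ∫ x, ‖((I⁻¹ : ℝ) : ℂ) * (P x : ℂ) ^ m‖ ∂hp G = 1 := by
    have e : ∀ x, ‖((I⁻¹ : ℝ) : ℂ) * (P x : ℂ) ^ m‖ = I⁻¹ * P x ^ m := fun x => by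
      rw [norm_mul, norm_pow, Complex.norm_real, Complex.norm_real, Real.norm_of_nonneg (h0 x).le,
        Real.norm_of_nonneg (inv_pos.2 hI0).le]
    simp only [e, integral_const_mul, ← hI, inv_mul_cancel₀ hI0.ne']
  rw [hV1] at hV
  refine ⟨_, hV, fun γ hγ => ?_⟩
  have e1 : (hat (fun x => ((I⁻¹ : ℝ) : ℂ) * (P x : ℂ) ^ m) γ).re =
      I⁻¹ * ∫ x, P x ^ m * (ch γ x).re ∂hp G := by
    rw [hat, ← integral_const_mul]
    refine (integral_re (𝕜 := ℂ) (cint (by fun_prop))).symm.trans ?_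
    congr 1
    funext x
    rw [← Complex.ofReal_pow, ← Complex.ofReal_mul, RCLike.re_to_complex, Complex.re_ofReal_mul,
      Complex.conj_re, mul_assoc]
  have e2 : ∫ x, P x ^ m * (1 - (ch γ x).re) ∂hp G = I - ∫ x, P x ^ m * (ch γ x).re ∂hp G := by
    simp only [mul_sub, mul_one]
    exact integral_sub (cint (by fun_prop)) (cint (by fun_prop))
  have e3 : ∫ x, N * (P x ^ m - P x ^ (m + 1)) ∂hp G = N * (I - ∫ x, P x ^ (m + 1) ∂hp G) := by
    rw [integral_const_mul, integral_sub (cint (by fun_prop)) (cint (by fun_prop))]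
  have h5 : 0 ≤ ∫ x, P x ^ m * (1 - (ch γ x).re) ∂hp G :=
    integral_nonneg fun x => mul_nonneg (pow_pos (h0 x) m).le (hre γ x).1
  have h6 : ∫ x, P x ^ m * (1 - (ch γ x).re) ∂hp G ≤ ∫ x, N * (P x ^ m - P x ^ (m + 1)) ∂hp G := by
    refine integral_mono (cint (by fun_prop)) (cint (by fun_prop)) fun x => ?_
    have h7 : 1 - (ch γ x).re ≤ ∑ γ ∈ S, (1 - (ch γ x).re) :=
      Finset.single_le_sum (f := fun γ => 1 - (ch γ x).re) (fun γ _ => (hre γ x).1) hγ
    have h8 : N * (P x ^ m - P x ^ (m + 1)) = P x ^ m * ∑ γ ∈ S, (1 - (ch γ x).re) := by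
      have h9 : N * (1 - P x) = ∑ γ ∈ S, (1 - (ch γ x).re) := by
        simp only [hP]; field_simp; ring
      rw [← h9]; ring
    simp only [h8]
    exact mul_le_mul_of_nonneg_left h7 (pow_pos (h0 x) m).le
  have h7 : N * (min (η / N) (1 / 2) * I) ≤ η * I := by
    rw [← mul_assoc]
    refine mul_le_mul_of_nonneg_right ?_ hI0.le
    rw [mul_comm, ← le_div_iff₀ hN0]
    exact min_le_left _ _
  have h8 : I - ∫ x, P x ^ m * (ch γ x).re ∂hp G ≤ η * I := by
    rw [← e2]
    refine h6.trans (e3.le.trans (le_trans (mul_le_mul_of_nonneg_left ?_ hN0.le) h7))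
    linarith
  rw [e2] at h5
  simp only [e1]
  rw [abs_sub_comm, abs_of_nonneg (by rw [sub_nonneg, inv_mul_le_iff₀ hI0]; linarith),
    sub_le_comm, le_inv_mul_iff₀ hI0]
  linarith

end Pool.Agent.MP_843cf2_an

end

-- part MP_843cf2_an.Unif
section

set_option autoImplicit false

namespace Pool.Agent.MP_843cf2_an

open MeasureTheory Filter Topology

variable {G : Type*} [CommGroup G] [TopologicalSpace G] [IsTopologicalGroup G] [CompactSpace G]
  [MeasurableSpace G] [BorelSpace G]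

omit [IsTopologicalGroup G] [CompactSpace G] [MeasurableSpace G] [BorelSpace G] in
lemma isPt_prod_one {ι : Type*} (s : Finset ι) {φ : ι → PontryaginDual G → ℂ}
    (h : ∀ i ∈ s, IsPt 1 (φ i)) : IsPt 1 fun γ => ∏ i ∈ s, φ i γ := by
  classical
  induction s using Finset.induction_on with
  | empty => simpa using isPt_const (G := G) 1
  | insert a s ha ih =>
    simp only [Finset.prod_insert ha]
    simpa using (h a (Finset.mem_insert_self _ _)).mul
      (ih fun i hi => h i (Finset.mem_insert_of_mem hi))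

lemma norm_half_lt {u : ℂ} (hu : ‖u‖ = 1) (h1 : u ≠ 1) : ‖(1 / 2 : ℂ) * (1 + u)‖ < 1 := by
  have h2 : u.re ^ 2 + u.im ^ 2 = 1 := by
    have := Complex.sq_norm u
    rw [hu, Complex.normSq_apply] at this
    linarith
  have h3 : u.re < 1 := by
    by_contra hc
    have h4 : u.re = 1 := by nlinarith [sq_nonneg u.im]
    have h5 : u.im = 0 := by rw [h4] at h2; nlinarith
    exact h1 (Complex.ext h4 h5)
  have h4 : ‖1 + u‖ ^ 2 < 2 ^ 2 := by
    rw [Complex.sq_norm, Complex.normSq_apply]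
    simp only [Complex.add_re, Complex.one_re, Complex.add_im, Complex.one_im]
    nlinarith
  have h5 := lt_of_pow_lt_pow_left₀ 2 (by norm_num) h4
  rw [norm_mul, norm_div, norm_one, Complex.norm_ofNat]
  linarith

open Classical in
lemma rep_single (S : Finset (PontryaginDual G)) (γ₀ : PontryaginDual G) :
    Rep S 1 fun γ => if γ = γ₀ then 1 else 0 := by
  intro η hη
  have hx : ∀ g : PontryaginDual G, ∃ x : G, g ≠ γ₀ → ch g x ≠ ch γ₀ x := by
    intro g
    by_cases h : g = γ₀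
    · exact ⟨1, fun h' => absurd h h'⟩
    by_contra hc
    push Not at hc
    exact h (PontryaginDual.ext fun a => Circle.ext (hc a).2)
  choose x hx using hx
  set q : PontryaginDual G → PontryaginDual G → ℂ := fun g h =>
    (1 / 2 : ℂ) * (1 + (starRingEnd ℂ) (ch γ₀ (x g)) * ch h (x g)) with hq
  have hq1 : ∀ g, IsPt 1 (q g) := by
    intro g
    have := ((isPt_const 1).add ((isPt_ch (x g)).smul ((starRingEnd ℂ) (ch γ₀ (x g))))).smul (1 / 2)
    refine this.mono (le_of_eq ?_)
    simp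
    norm_num
  have hψ := isPt_prod_one S fun g _ => hq1 g
  have h0 : ∏ g ∈ S, q g γ₀ = 1 := Finset.prod_eq_one fun g _ => by
    simp only [hq]
    rw [mul_comm _ (ch γ₀ (x g)), ch_mul_conj]
    norm_num
  have h1 : ∀ γ ∈ S, γ ≠ γ₀ → ‖∏ g ∈ S, q g γ‖ < 1 := by
    intro γ hγ hne
    rw [← Finset.mul_prod_erase S _ hγ, norm_mul]
    have h2 : ‖q γ γ‖ < 1 := by
      refine norm_half_lt (by simp) fun e => hx γ hne ?_
      have := ch_mul_conj γ₀ (x γ)
      linear_combination ch γ₀ (x γ) * e - ch γ (x γ) * this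
    have h3 := (isPt_prod_one (S.erase γ) fun g _ => hq1 g).norm_le γ
    exact (mul_le_of_le_one_right (norm_nonneg _) h3).trans_lt h2
  have h2 : ∀ᶠ m : ℕ in atTop, ∀ γ ∈ S,
      ‖(∏ g ∈ S, q g γ) ^ m - if γ = γ₀ then 1 else 0‖ ≤ η := by
    rw [eventually_all_finset]
    intro γ hγ
    by_cases hne : γ = γ₀
    · subst hne
      simp [h0, hη.le]
    · simp only [if_neg hne, sub_zero, norm_pow]
      exact (tendsto_pow_atTop_nhds_zero_of_lt_one (norm_nonneg _) (h1 γ hγ hne)).eventually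
        (eventually_le_nhds hη)
  obtain ⟨m, hm⟩ := h2.exists
  exact ⟨_, by simpa using hψ.pow m, hm⟩

lemma Rep.pol {S : Finset (PontryaginDual G)} {r : ℝ} (hr : 0 < r) {φ : PontryaginDual G → ℝ}
    (h : Rep S r fun γ => (φ γ : ℂ)) : ∃ a, Pol a (2 * r) ∧ ∀ γ ∈ S, a γ = φ γ := by
  classical
  set η := r / ((S.card + 1) * (r + 1)) with hη
  have hη0 : 0 < η := by positivity
  obtain ⟨ψ, h1, h2⟩ := h η hη0
  obtain ⟨v, k1, k2⟩ := exists_kernel S hη0
  have h3 := k1.mulPt h1.re
  have h4 := pol_sum S fun g _ => pol_single g (φ g - (ψ g).re * v g)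
  refine ⟨_, (h3.add h4).mono ?_, fun γ hγ => ?_⟩
  · have h5 : ∑ g ∈ S, |φ g - (ψ g).re * v g| ≤ ∑ _g ∈ S, η * (r + 1) := by
      refine Finset.sum_le_sum fun g hg => ?_
      have e : φ g - (ψ g).re * v g = -(ψ g - φ g).re + -((ψ g).re * (v g - 1)) := by
        simp only [Complex.sub_re, Complex.ofReal_re]; ring
      have a1 := (Complex.abs_re_le_norm _).trans (h2 g hg)
      have a2 := (Complex.abs_re_le_norm _).trans (h1.norm_le g)
      have a3 := mul_le_mul a2 (k2 g hg) (abs_nonneg _) hr.le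
      rw [e]
      refine (abs_add_le _ _).trans ?_
      rw [abs_neg, abs_neg, abs_mul]
      linarith
    rw [Finset.sum_const, nsmul_eq_mul] at h5
    have h6 : ((S.card : ℝ) + 1) * (η * (r + 1)) = r := by rw [hη]; field_simp
    have h7 : 0 < η * (r + 1) := by positivity
    linarith
  · simp [hγ]

lemma exists_one (D : Finset (PontryaginDual G)) : ∃ w, Pol w 2 ∧ ∀ γ ∈ D, w γ = 1 := by
  have h : Rep D 1 fun γ => (((fun _ => 1 : PontryaginDual G → ℝ) γ : ℝ) : ℂ) :=
    fun η hη => ⟨_, by simpa using isPt_const (G := G) 1, fun γ _ => by simpa using hη.le⟩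
  simpa using h.pol one_pos

lemma integrable_tsum' {f : ℕ → G → ℂ} (hf : ∀ n, Continuous (f n))
    (hs : Summable fun n => ∫ x, ‖f n x‖ ∂hp G) : Integrable (fun x => ∑' n, f n x) (hp G) := by
  refine ⟨(Measurable.tsum fun n => (hf n).measurable).aestronglyMeasurable, ?_⟩
  refine lt_of_le_of_lt (lintegral_mono fun x => enorm_tsum_le_tsum_enorm) ?_
  rw [lintegral_tsum fun n => (hf n).measurable.enorm.aemeasurable]
  simp only [← ofReal_integral_norm_eq_lintegral_enorm (cint (hf _))]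
  rw [← ENNReal.ofReal_tsum_of_nonneg (fun n => integral_nonneg fun _ => norm_nonneg _) hs]
  exact ENNReal.ofReal_lt_top

lemma InA.bd {Λ : Set (PontryaginDual G)} {h : PontryaginDual G → ℂ} (hh : InA Λ h) :
    ∃ C : ℝ, ∀ S : Finset (PontryaginDual G), (↑S : Set (PontryaginDual G)) ⊆ Λ → Bd S h C := by
  obtain ⟨g, hg, h1⟩ := hh
  refine ⟨∫ x, ‖g x‖ ∂hp G, fun S hS σ M hM => ?_⟩
  have hi : ∀ γ : PontryaginDual G,
      Integrable (fun x => σ γ * (g x * (starRingEnd ℂ) (ch γ x))) (hp G) := fun γ =>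
    (hg.mul_bdd (c := 1) (continuous_conj_ch γ).aestronglyMeasurable
      (Eventually.of_forall fun x => by simp)).const_mul _
  have e : ∑ γ ∈ S, σ γ * h γ = ∫ x, g x * tp S σ x⁻¹ ∂hp G := by
    rw [Finset.sum_congr rfl fun γ hγ => by rw [h1 γ (hS hγ), ← integral_const_mul],
      ← integral_finsetSum _ fun γ _ => hi γ]
    congr 1
    funext x
    simp only [tp, Finset.mul_sum, ch_inv]
    exact Finset.sum_congr rfl fun γ _ => by ring
  rw [e, ← integral_mul_const]
  exact norm_integral_le_of_norm_le (hg.norm.mul_const M) (Eventually.of_forall fun x => by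
    rw [norm_mul]; exact mul_le_mul_of_nonneg_left (hM _) (norm_nonneg _))

/-- uniform boundedness of an operating function, away from a finite set -/
theorem unif {Λ : Set (PontryaginDual G)} {F : ℝ → ℂ} (hF : Operates Λ F) :
    ∃ (E : Finset (PontryaginDual G)) (r C : ℝ), 0 < r ∧
      ∀ S : Finset (PontryaginDual G), (↑S : Set (PontryaginDual G)) ⊆ Λ \ ↑E →
        ∀ φ : PontryaginDual G → ℝ, Rep S r (fun γ => (φ γ : ℂ)) →
          Bd S (fun γ => F (φ γ)) C := by
  classical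
  by_contra hc
  push Not at hc
  have step : ∀ (H : Finset (PontryaginDual G)) (n : ℕ), ∃ (S T : Finset (PontryaginDual G))
      (a : PontryaginDual G → ℝ), (↑S : Set (PontryaginDual G)) ⊆ Λ ∧ (∀ γ ∈ S, γ ∉ H) ∧
      ¬ Bd S (fun γ => F (a γ)) n ∧ Pol a ((1 / 4) * (1 / 2) ^ n) ∧ (∀ γ ∈ H, a γ = 0) ∧
      ∀ γ ∉ T, a γ = 0 := by
    intro H n
    obtain ⟨w, w1, w2⟩ := exists_one H
    have hr : (0 : ℝ) < (1 / 24) * (1 / 2) ^ n := by positivity
    obtain ⟨S, hS, φ, h1, h2⟩ := hc (H ∪ w1.1.toFinset) _ n hr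
    obtain ⟨a, a1, a2⟩ := h1.pol hr
    have h3 := a1.add (a1.mul w1).neg
    have h4 : ∀ γ ∈ S, γ ∉ H ∧ w γ = 0 := fun γ hγ => by simpa using (hS hγ).2
    refine ⟨S, h3.1.toFinset, _, fun γ hγ => (hS hγ).1, fun γ hγ => (h4 γ hγ).1, fun h => h2 ?_,
      h3.mono (le_of_eq (by ring)), fun γ hγ => by simp [w2 γ hγ], fun γ hγ => by simpa using hγ⟩
    intro σ M hM
    rw [← Finset.sum_congr rfl fun γ hγ => by
      show σ γ * F (a γ + -(a γ * w γ)) = σ γ * F (φ γ)
      rw [(h4 γ hγ).2, a2 γ hγ, mul_zero, neg_zero, add_zero]]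
    exact h σ M hM
  choose S T a s1 s2 s3 s4 s5 s6 using step
  let H : ℕ → Finset (PontryaginDual G) := fun n =>
    Nat.rec ∅ (fun k Hk => Hk ∪ S Hk k ∪ T Hk k) n
  have hH : ∀ n, H (n + 1) = H n ∪ S (H n) n ∪ T (H n) n := fun _ => rfl
  have hmono : Monotone H := monotone_nat_of_le_succ fun n => by
    rw [hH]; exact Finset.subset_union_left.trans Finset.subset_union_left
  have hz : ∀ n k, k ≠ n → ∀ γ ∈ S (H n) n, a (H k) k γ = 0 := by
    intro n k hkn γ hγ
    rcases lt_or_gt_of_ne hkn with h | h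
    · refine s6 _ _ _ fun h1 => s2 _ _ _ hγ (hmono (Nat.succ_le_of_lt h) ?_)
      rw [hH]; exact Finset.mem_union_right _ h1
    · refine s5 _ _ _ (hmono (Nat.succ_le_of_lt h) ?_)
      rw [hH]; exact Finset.mem_union_left _ (Finset.mem_union_right _ hγ)
  choose f f1 f2 f3 using fun n => (s4 (H n) n).2
  have hg : HasSum (fun n : ℕ => (1 / 4 : ℝ) * (1 / 2) ^ n) (1 / 4 * 2) :=
    hasSum_geometric_two.mul_left _
  have hs : Summable fun n => ∫ x, ‖f n x‖ ∂hp G :=
    hg.summable.of_nonneg_of_le (fun n => integral_nonneg fun _ => norm_nonneg _) f3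
  have hb : ∀ γ n, ‖a (H n) n γ‖ ≤ 1 / 4 * (1 / 2) ^ n := fun γ n => (s4 (H n) n).abs_le γ
  have h1 := hF (fun γ => ∑' n, a (H n) n γ) (fun γ _ => by
    have := tsum_of_norm_bounded hg (hb γ)
    rw [Real.norm_eq_abs, abs_le] at this
    constructor <;> linarith [this.1, this.2]) ⟨_, integrable_tsum' f1 hs, fun γ _ => by
      have := integral_tsum_of_summable_integral_norm (μ := hp G)
        (F := fun n x => f n x * (starRingEnd ℂ) (ch γ x))
        (fun n => cint ((f1 n).mul (continuous_conj_ch γ))) (by simpa using hs)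
      simp only [tsum_mul_right] at this
      rw [← this]
      exact (Complex.ofReal_tsum _).trans (tsum_congr fun n => (f2 n γ).symm)⟩
  obtain ⟨C, hC⟩ := h1.bd
  obtain ⟨n, hn⟩ := exists_nat_ge C
  refine s3 (H n) n fun σ M hM => ?_
  have h2 := hC _ (s1 (H n) n) σ M hM
  rw [Finset.sum_congr rfl fun γ hγ => by
    show σ γ * F (∑' k, a (H k) k γ) = σ γ * F (a (H n) n γ)
    rw [tsum_eq_single n fun k hk => hz n k hk γ hγ]] at h2
  exact h2.trans (mul_le_mul_of_nonneg_right hn ((norm_nonneg _).trans (hM 1)))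

end Pool.Agent.MP_843cf2_an

end

-- part MP_843cf2_an.HKKRA
section

set_option autoImplicit false

namespace Pool.Agent.MP_843cf2_an

open MeasureTheory

section RepL

variable {G : Type*} [CommGroup G] [TopologicalSpace G]

lemma IsPt.rep {r : ℝ} {φ : PontryaginDual G → ℂ} (h : IsPt r φ) (S : Finset (PontryaginDual G)) :
    Rep S r φ := fun η hη => ⟨φ, h, fun γ _ => by simpa using hη.le⟩

lemma Rep.mono {S : Finset (PontryaginDual G)} {r r' : ℝ} {φ : PontryaginDual G → ℂ}
    (h : Rep S r φ) (hr : r ≤ r') : Rep S r' φ := fun η hη => by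
  obtain ⟨ψ, h1, h2⟩ := h η hη
  exact ⟨ψ, h1.mono hr, h2⟩

lemma Rep.add {S : Finset (PontryaginDual G)} {r r' : ℝ} {φ φ' : PontryaginDual G → ℂ}
    (h : Rep S r φ) (h' : Rep S r' φ') : Rep S (r + r') fun γ => φ γ + φ' γ := fun η hη => by
  obtain ⟨ψ, h1, h2⟩ := h (η / 2) (by positivity)
  obtain ⟨ψ', k1, k2⟩ := h' (η / 2) (by positivity)
  refine ⟨_, h1.add k1, fun γ hγ => ?_⟩
  have e : ψ γ + ψ' γ - (φ γ + φ' γ) = (ψ γ - φ γ) + (ψ' γ - φ' γ) := by ring
  simp only [e]
  linarith [norm_add_le (ψ γ - φ γ) (ψ' γ - φ' γ), h2 γ hγ, k2 γ hγ]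

lemma Rep.smul {S : Finset (PontryaginDual G)} {r : ℝ} {φ : PontryaginDual G → ℂ}
    (h : Rep S r φ) (c : ℂ) : Rep S (‖c‖ * r) fun γ => c * φ γ := fun η hη => by
  obtain ⟨ψ, h1, h2⟩ := h (η / (‖c‖ + 1)) (by positivity)
  refine ⟨_, h1.smul c, fun γ hγ => ?_⟩
  simp only [← mul_sub, norm_mul]
  have h3 : ‖c‖ * ‖ψ γ - φ γ‖ ≤ (‖c‖ + 1) * (η / (‖c‖ + 1)) :=
    mul_le_mul (by linarith) (h2 γ hγ) (norm_nonneg _) (by positivity)
  have h4 : (‖c‖ + 1) * (η / (‖c‖ + 1)) = η := by field_simp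
  linarith

lemma Rep.im {S : Finset (PontryaginDual G)} {r : ℝ} {φ : PontryaginDual G → ℂ}
    (h : Rep S r φ) : Rep S r fun γ => ((φ γ).im : ℂ) := fun η hη => by
  obtain ⟨ψ, h1, h2⟩ := h η hη
  refine ⟨_, h1.im, fun γ hγ => ?_⟩
  have e : (((ψ γ).im : ℂ)) - ((φ γ).im : ℂ) = (((ψ γ - φ γ).im : ℝ) : ℂ) := by simp
  simp only [e, Complex.norm_real, Real.norm_eq_abs]
  exact (Complex.abs_im_le_norm _).trans (h2 γ hγ)

lemma rep_sum {ι : Type*} {S : Finset (PontryaginDual G)} (s : Finset ι) {r : ι → ℝ}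
    {φ : ι → PontryaginDual G → ℂ} (h : ∀ i ∈ s, Rep S (r i) (φ i)) :
    Rep S (∑ i ∈ s, r i) fun γ => ∑ i ∈ s, φ i γ := by
  classical
  induction s using Finset.induction_on with
  | empty => simpa using (isPt_const (G := G) 0).rep S
  | insert a s ha ih =>
    simp only [Finset.sum_insert ha]
    exact (h a (Finset.mem_insert_self _ _)).add (ih fun i hi => h i (Finset.mem_insert_of_mem hi))

lemma rep_exp {φ : PontryaginDual G → ℂ} (h : IsPt 1 φ) (S : Finset (PontryaginDual G)) :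
    Rep S 3 fun γ => Complex.exp (φ γ) := fun η hη => by
  obtain ⟨n, hn⟩ := exists_nat_gt (2 / η)
  have hn0 : (0 : ℝ) < n := lt_trans (by positivity) hn
  have hn1 : 0 < n := by exact_mod_cast hn0
  have h1 := isPt_sum (Finset.range n)
    (fun m _ => (h.pow m).smul ((m.factorial : ℂ)⁻¹))
  refine ⟨_, h1.mono ?_, fun γ _ => ?_⟩
  · have := Real.sum_le_exp_of_nonneg zero_le_one n
    refine le_trans (le_of_eq ?_) (this.trans Real.exp_one_lt_three.le)
    refine Finset.sum_congr rfl fun m _ => by simp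
  · have h2 := Complex.exp_bound (h.norm_le γ) hn1
    rw [norm_sub_rev]
    have e : ∑ m ∈ Finset.range n, (m.factorial : ℂ)⁻¹ * φ γ ^ m
        = ∑ m ∈ Finset.range n, φ γ ^ m / (m.factorial : ℂ) :=
      Finset.sum_congr rfl fun m _ => by ring
    simp only [e]
    refine h2.trans ?_
    have h3 : ‖φ γ‖ ^ n ≤ 1 := pow_le_one₀ (norm_nonneg _) (h.norm_le γ)
    have h4 : (n : ℝ) ≤ n.factorial := by exact_mod_cast n.self_le_factorial
    have h5 : (1 : ℝ) ≤ n := by exact_mod_cast hn1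
    have h6 : ((n.succ : ℕ) : ℝ) * ((n.factorial : ℝ) * n)⁻¹ ≤ η := by
      rw [← div_eq_mul_inv, div_le_iff₀ (by positivity)]
      rw [div_lt_iff₀ hη] at hn
      push_cast
      have h7 : η * ((n : ℝ) * n) ≤ η * (n.factorial * n) := by gcongr
      nlinarith
    calc _ ≤ 1 * η := mul_le_mul h3 h6 (by positivity) zero_le_one
      _ = η := one_mul _

lemma rep_sin {ψ : PontryaginDual G → ℝ} (h : IsPt 1 fun γ => (ψ γ : ℂ))
    (S : Finset (PontryaginDual G)) {ρ : ℝ} (hρ : 0 ≤ ρ) (t : ℝ) :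
    Rep S (ρ * 3) fun γ => ((ρ * Real.sin (ψ γ + t) : ℝ) : ℂ) := by
  have h1 : IsPt 1 fun γ => Complex.I * (ψ γ : ℂ) := by simpa using h.smul Complex.I
  have h2 := (((rep_exp h1 S).smul (Complex.exp (t * Complex.I))).im).smul (ρ : ℂ)
  have e1 : ‖(ρ : ℂ)‖ * (‖Complex.exp (t * Complex.I)‖ * 3) = ρ * 3 := by
    simp [abs_of_nonneg hρ]
  rw [e1] at h2
  have e2 : (fun γ => ((ρ * Real.sin (ψ γ + t) : ℝ) : ℂ)) = fun γ => (ρ : ℂ) *
      ((Complex.exp (t * Complex.I) * Complex.exp (Complex.I * (ψ γ : ℂ))).im : ℂ) := by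
    funext γ
    have : (t : ℂ) * Complex.I + Complex.I * (ψ γ : ℂ) = ((ψ γ + t : ℝ) : ℂ) * Complex.I := by
      push_cast; ring
    rw [← Complex.exp_add, this, Complex.exp_ofReal_mul_I_im, Complex.ofReal_mul]
  rw [e2]; exact h2

end RepL

lemma sum_abs_le_two {ι : Type*} (S : Finset ι) (u : ι → ℝ) {B : ℝ}
    (h : ∀ T ⊆ S, |∑ i ∈ T, u i| ≤ B) : ∑ i ∈ S, |u i| ≤ 2 * B := by
  classical
  rw [← Finset.sum_filter_add_sum_filter_not S (fun i => 0 ≤ u i)]
  have h1 := h _ (Finset.filter_subset (fun i => 0 ≤ u i) S)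
  have h2 := h _ (Finset.filter_subset (fun i => ¬ 0 ≤ u i) S)
  have e1 : ∑ i ∈ S.filter (fun i => 0 ≤ u i), |u i| = ∑ i ∈ S.filter (fun i => 0 ≤ u i), u i :=
    Finset.sum_congr rfl fun i hi => abs_of_nonneg (Finset.mem_filter.1 hi).2
  have e2 : ∑ i ∈ S.filter (fun i => ¬ 0 ≤ u i), |u i|
      = -∑ i ∈ S.filter (fun i => ¬ 0 ≤ u i), u i := by
    rw [← Finset.sum_neg_distrib]
    exact Finset.sum_congr rfl fun i hi => abs_of_neg (not_le.1 (Finset.mem_filter.1 hi).2)
  rw [e1, e2]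
  linarith [le_abs_self (∑ i ∈ S.filter (fun i => 0 ≤ u i), u i),
    neg_le_abs (∑ i ∈ S.filter (fun i => ¬ 0 ≤ u i), u i)]

lemma sum_norm_le_four {ι : Type*} (S : Finset ι) (u : ι → ℂ) {B : ℝ}
    (h : ∀ T ⊆ S, ‖∑ i ∈ T, u i‖ ≤ B) : ∑ i ∈ S, ‖u i‖ ≤ 4 * B := by
  have h1 := sum_abs_le_two S (fun i => (u i).re) (B := B) fun T hT => by
    rw [← Complex.re_sum]; exact (Complex.abs_re_le_norm _).trans (h T hT)
  have h2 := sum_abs_le_two S (fun i => (u i).im) (B := B) fun T hT => by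
    rw [← Complex.im_sum]; exact (Complex.abs_im_le_norm _).trans (h T hT)
  have h3 : ∑ i ∈ S, ‖u i‖ ≤ ∑ i ∈ S, (|(u i).re| + |(u i).im|) :=
    Finset.sum_le_sum fun i _ => Complex.norm_le_abs_re_add_abs_im _
  rw [Finset.sum_add_distrib] at h3
  linarith

lemma le_div_of_big {D M R N K : ℝ} (hM : 0 ≤ M) (hR : 0 < R) (h1 : R * M < N)
    (h2 : D * N ≤ K * M) : D ≤ |K| / R := by
  by_contra hc
  push Not at hc
  rw [div_lt_iff₀ hR] at hc
  have hD : 0 < D := by
    by_contra h3
    push Not at h3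
    nlinarith [abs_nonneg K]
  have h4 := mul_lt_mul_of_pos_left h1 hD
  have h5 := mul_le_mul_of_nonneg_right hc.le hM
  have h6 := mul_le_mul_of_nonneg_right (le_abs_self K) hM
  nlinarith

lemma summable_exp_int {b : ℝ} (hb : 0 < b) : Summable fun n : ℤ => Real.exp (-b * |(n : ℝ)|) := by
  have h : Summable fun n : ℕ => Real.exp (-b * (n : ℝ)) := by
    have := summable_geometric_of_lt_one (Real.exp_pos (-b)).le
      (Real.exp_lt_one_iff.2 (by linarith))
    refine this.congr fun n => ?_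
    rw [← Real.exp_nat_mul, mul_comm]
  refine Summable.of_nat_of_neg ?_ ?_
  · simpa using h
  · simpa using h

instance factTwoPi : Fact (0 < 2 * Real.pi) := ⟨Real.two_pi_pos⟩

lemma fourier_two_pi (n : ℤ) (x : ℝ) :
    fourier n (x : AddCircle (2 * Real.pi)) = Complex.exp (n * x * Complex.I) := by
  rw [fourier_coe_apply]
  congr 1
  have : (Real.pi : ℂ) ≠ 0 := by exact_mod_cast Real.pi_ne_zero
  push_cast
  field_simp

lemma analytic_of_coeff (f : C(AddCircle (2 * Real.pi), ℂ)) {A b : ℝ} (hb : 0 < b)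
    (h : ∀ n : ℤ, ‖fourierCoeff f n‖ ≤ A * Real.exp (-b * |(n : ℝ)|)) :
    AnalyticAt ℝ (fun t : ℝ => f t) 0 := by
  have hA : 0 ≤ A := by
    have := (norm_nonneg _).trans (h 0)
    simpa using this
  have hs : Summable (fourierCoeff f) :=
    Summable.of_norm_bounded ((summable_exp_int hb).mul_left A) h
  have hU : IsOpen {w : ℂ | |w.im| < b / 2} :=
    isOpen_lt (by fun_prop) continuous_const
  have hd := Complex.differentiableOn_tsum_of_summable_norm
    (F := fun (n : ℤ) (w : ℂ) => fourierCoeff f n * Complex.exp (n * w * Complex.I))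
    (U := {w : ℂ | |w.im| < b / 2})
    ((summable_exp_int (half_pos hb)).mul_left A) (fun n => by fun_prop) hU
    (fun n w hw => by
      rw [norm_mul, Complex.norm_exp]
      have h1 : ((n : ℂ) * w * Complex.I).re ≤ b / 2 * |(n : ℝ)| := by
        have e : ((n : ℂ) * w * Complex.I).re = -((n : ℝ) * w.im) := by simp
        rw [e]
        refine (neg_le_abs _).trans ?_
        rw [abs_mul, mul_comm]
        exact mul_le_mul_of_nonneg_right (le_of_lt hw) (abs_nonneg _)
      calc _ ≤ A * Real.exp (-b * |(n : ℝ)|) * Real.exp (b / 2 * |(n : ℝ)|) :=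
            mul_le_mul (h n) (Real.exp_le_exp.2 h1) (Real.exp_pos _).le (by positivity)
        _ = _ := by rw [mul_assoc, ← Real.exp_add]; ring_nf)
  have ha := hd.analyticAt (hU.mem_nhds (show (0 : ℂ) ∈ _ by simpa using hb))
  have ha2 : AnalyticAt ℝ (fun t : ℝ => ∑' n : ℤ,
      fourierCoeff f n * Complex.exp (n * (t : ℂ) * Complex.I)) 0 :=
    AnalyticAt.comp_of_eq (ha.restrictScalars (𝕜 := ℝ)) (Complex.ofRealCLM.analyticAt 0) (by simp)
  have e : (fun t : ℝ => f t) = fun t : ℝ => ∑' n : ℤ,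
      fourierCoeff f n * Complex.exp (n * (t : ℂ) * Complex.I) := by
    funext t
    rw [← (has_pointwise_sum_fourier_series_of_summable hs (t : AddCircle (2 * Real.pi))).tsum_eq]
    simp only [fourier_two_pi, smul_eq_mul]
  rw [e]; exact ha2

lemma fourier_add_arg (n : ℤ) (a t : AddCircle (2 * Real.pi)) :
    fourier n (a + t) = fourier n a * fourier n t := by
  simp only [fourier_apply, smul_add, AddCircle.toCircle_add, Circle.coe_mul]

lemma coeff_shift (f : C(AddCircle (2 * Real.pi), ℂ)) (n : ℤ) (a : AddCircle (2 * Real.pi)) :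
    fourierCoeff f n * fourier n a
      = ∫ t, fourier (-n) t * f (a + t) ∂AddCircle.haarAddCircle := by
  unfold fourierCoeff
  rw [← integral_add_left_eq_self _ a, ← integral_mul_const]
  refine integral_congr_ae (Filter.Eventually.of_forall fun t => ?_)
  have h1 : fourier (-n) a * fourier n a = 1 := by rw [← fourier_add]; simp
  simp only [fourier_add_arg, smul_eq_mul]
  linear_combination (fourier (-n) t * f (a + t)) * h1

lemma coeff_bound {ι : Type*} (S : Finset ι) (f : C(AddCircle (2 * Real.pi), ℂ)) (n : ℤ)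
    (σ : ι → ℂ) (ψ : ι → ℝ) {B : ℝ}
    (h : ∀ t : ℝ, ‖∑ i ∈ S, σ i * f ((ψ i + t : ℝ) : AddCircle (2 * Real.pi))‖ ≤ B) :
    ‖fourierCoeff f n‖ * ‖∑ i ∈ S, σ i * Complex.exp (n * ψ i * Complex.I)‖ ≤ B := by
  have hi : ∀ i, Integrable (fun t => σ i * (fourier (-n) t * f ((ψ i : AddCircle (2 * Real.pi)) + t)))
      AddCircle.haarAddCircle := fun i =>
    Continuous.integrable_of_hasCompactSupport (by fun_prop) (HasCompactSupport.of_compactSpace _)
  have e : fourierCoeff f n * ∑ i ∈ S, σ i * Complex.exp (n * ψ i * Complex.I)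
      = ∫ t, ∑ i ∈ S, σ i * (fourier (-n) t * f ((ψ i : AddCircle (2 * Real.pi)) + t))
        ∂AddCircle.haarAddCircle := by
    rw [integral_finsetSum _ fun i _ => hi i, Finset.mul_sum]
    refine Finset.sum_congr rfl fun i _ => ?_
    rw [integral_const_mul, ← coeff_shift, fourier_two_pi]
    ring
  rw [← norm_mul, e]
  have := norm_integral_le_of_norm_le_const (μ := AddCircle.haarAddCircle) (C := B)
    (f := fun t => ∑ i ∈ S, σ i * (fourier (-n) t * f ((ψ i : AddCircle (2 * Real.pi)) + t)))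
    (Filter.Eventually.of_forall fun t => by
      obtain ⟨s, rfl⟩ := QuotientAddGroup.mk_surjective t
      have e2 : ∑ i ∈ S, σ i * (fourier (-n) (s : AddCircle (2 * Real.pi))
          * f ((ψ i : AddCircle (2 * Real.pi)) + s)) = fourier (-n) (s : AddCircle (2 * Real.pi))
          * ∑ i ∈ S, σ i * f ((ψ i + s : ℝ) : AddCircle (2 * Real.pi)) := by
        rw [Finset.mul_sum]
        refine Finset.sum_congr rfl fun i _ => ?_
        rw [AddCircle.coe_add]; ring
      rw [e2, norm_mul, fourier_apply, Circle.norm_coe, one_mul]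
      exact h s)
  simpa using this

lemma coeff_le_norm (f : C(AddCircle (2 * Real.pi), ℂ)) (n : ℤ) : ‖fourierCoeff f n‖ ≤ ‖f‖ := by
  have := coeff_bound (Finset.univ : Finset Unit) f n (fun _ => 1) (fun _ => 0) (B := ‖f‖)
    (fun t => by simpa using f.norm_coe_le_norm _)
  simpa using this

end Pool.Agent.MP_843cf2_an

end

-- part MP_843cf2_an.HKKR
section

set_option autoImplicit false

namespace Pool.Agent.MP_843cf2_an

open MeasureTheory

variable {G : Type*} [CommGroup G] [TopologicalSpace G] [IsTopologicalGroup G] [CompactSpace G]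
  [MeasurableSpace G] [BorelSpace G]

lemma diff_bound {S : Finset (PontryaginDual G)} {F : ℝ → ℂ} {r K : ℝ}
    (hU : ∀ φ : PontryaginDual G → ℝ, Rep S r (fun γ => (φ γ : ℂ)) → Bd S (fun γ => F (φ γ)) K)
    {σ : PontryaginDual G → ℂ} {M : ℝ} (hM : ∀ x, ‖tp S σ x‖ ≤ M) {x y : ℝ}
    (hx : |x| ≤ r / 2) (hy : |y - x| * S.card ≤ r / 2) :
    ‖F y - F x‖ * ∑ γ ∈ S, ‖σ γ‖ ≤ 8 * K * M := by
  classical
  have hr : 0 ≤ r / 2 := (abs_nonneg _).trans hx
  have h0 : Rep S |x| fun _ => (x : ℂ) := by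
    simpa using (isPt_const (G := G) (x : ℂ)).rep S
  have hb0 := hU (fun _ => x) (h0.mono (by linarith)) σ M hM
  have h1 := sum_norm_le_four S (fun γ => (F y - F x) * σ γ) (B := 2 * (K * M)) fun T hT => by
    have h2 := h0.add (rep_sum T fun η _ => (rep_single S η).smul ((y - x : ℝ) : ℂ))
    have h3 : |x| + ∑ η ∈ T, ‖((y - x : ℝ) : ℂ)‖ * 1 ≤ r := by
      rw [Finset.sum_const, Complex.norm_real, Real.norm_eq_abs, nsmul_eq_mul, mul_one]
      have h4 : (T.card : ℝ) ≤ S.card := by exact_mod_cast Finset.card_le_card hT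
      nlinarith [abs_nonneg (y - x)]
    have h4 : Rep S r fun γ => (((if γ ∈ T then y else x : ℝ)) : ℂ) := by
      have e : (fun γ => (((if γ ∈ T then y else x : ℝ)) : ℂ)) = fun γ => (x : ℂ) +
          ∑ η ∈ T, ((y - x : ℝ) : ℂ) * (if γ = η then 1 else 0) := by
        funext γ
        simp only [mul_ite, mul_one, mul_zero, Finset.sum_ite_eq]
        split_ifs <;> simp
      rw [e]; exact h2.mono h3
    have hb := hU (fun γ => if γ ∈ T then y else x) h4 σ M hM
    have e : ∑ γ ∈ T, (F y - F x) * σ γ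
        = ∑ γ ∈ S, σ γ * F (if γ ∈ T then y else x) - ∑ γ ∈ S, σ γ * F x := by
      rw [← Finset.sum_sub_distrib, ← Finset.sum_subset hT]
      · refine Finset.sum_congr rfl fun γ hγ => ?_
        rw [if_pos hγ]; ring
      · intro γ _ hγ
        rw [if_neg hγ]; ring
    rw [e]
    linarith [norm_sub_le (∑ γ ∈ S, σ γ * F (if γ ∈ T then y else x)) (∑ γ ∈ S, σ γ * F x)]
  simp only [norm_mul, ← Finset.mul_sum] at h1
  linarith

lemma cont_of_big {Λ : Set (PontryaginDual G)} {F : ℝ → ℂ} {r K : ℝ} (hr : 0 < r)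
    (hU : ∀ S : Finset (PontryaginDual G), (↑S : Set (PontryaginDual G)) ⊆ Λ →
      ∀ φ : PontryaginDual G → ℝ, Rep S r (fun γ => (φ γ : ℂ)) → Bd S (fun γ => F (φ γ)) K)
    {c : ℕ → ℝ} (h : ∀ j : ℕ, Big Λ (c j) (2 ^ j)) {x : ℝ} (hx : |x| ≤ r / 2) :
    ContinuousAt F x := by
  rw [Metric.continuousAt_iff]
  intro ε hε
  obtain ⟨j, hj⟩ := pow_unbounded_of_one_lt (|8 * K| / ε) (one_lt_two (α := ℝ))
  obtain ⟨S, φ, σ, M, h1, -, h3, h4⟩ := h j
  refine ⟨r / 2 / (S.card + 1), by positivity, fun y hy => ?_⟩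
  rw [Real.dist_eq, lt_div_iff₀ (by positivity)] at hy
  have h5 := diff_bound (hU S h1) h3 hx (y := y) (by nlinarith [abs_nonneg (y - x)])
  have h6 : 2 ^ j * M < ∑ γ ∈ S, ‖σ γ‖ :=
    h4.trans_le ((norm_sum_le _ _).trans (le_of_eq (by simp)))
  have h7 := le_div_of_big ((norm_nonneg _).trans (h3 1)) (by positivity) h6 h5
  rw [dist_eq_norm]
  refine h7.trans_lt ?_
  rw [div_lt_iff₀ hε] at hj
  rw [div_lt_iff₀ (by positivity)]
  linarith

omit [IsTopologicalGroup G] [CompactSpace G] [MeasurableSpace G] [BorelSpace G] in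
lemma coeff_of_big {Λ : Set (PontryaginDual G)} {F : ℝ → ℂ} {ρ K : ℝ} (hρ : 0 ≤ ρ)
    (hU : ∀ S : Finset (PontryaginDual G), (↑S : Set (PontryaginDual G)) ⊆ Λ →
      ∀ φ : PontryaginDual G → ℝ, Rep S (ρ * 3) (fun γ => (φ γ : ℂ)) →
        Bd S (fun γ => F (φ γ)) K)
    (f : C(AddCircle (2 * Real.pi), ℂ)) (hf : ∀ t : ℝ, f t = F (ρ * Real.sin t))
    {n : ℤ} (hn : n ≠ 0) {R : ℝ} (hR : 0 < R) (h : Big Λ |(n : ℝ)| R) :
    ‖fourierCoeff f n‖ ≤ |K| / R := by
  obtain ⟨S, φ, σ, M, h1, h2, h3, h4⟩ := h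
  have hn' : (n : ℝ) ≠ 0 := by exact_mod_cast hn
  have hn'' : (n : ℂ) ≠ 0 := by exact_mod_cast hn
  have h5 : IsPt 1 fun γ => ((φ γ / n : ℝ) : ℂ) := by
    have := h2.smul ((n : ℂ)⁻¹)
    have e1 : ‖(n : ℂ)⁻¹‖ * |(n : ℝ)| = 1 := by
      rw [norm_inv, Complex.norm_intCast]
      exact inv_mul_cancel₀ (abs_ne_zero.2 hn')
    rw [e1] at this
    have e2 : (fun γ => ((φ γ / n : ℝ) : ℂ)) = fun γ => (n : ℂ)⁻¹ * (φ γ : ℂ) := by
      funext γ; push_cast; ring
    rw [e2]; exact this
  have h6 := coeff_bound S f n σ (fun γ => φ γ / n) (B := K * M) fun t => by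
    simp only [hf]
    exact hU S h1 _ (rep_sin h5 S hρ t) σ M h3
  have e : ∀ γ, (n : ℂ) * ((φ γ / n : ℝ) : ℂ) = φ γ := fun γ => by
    push_cast; field_simp
  simp only [e] at h6
  exact le_div_of_big ((norm_nonneg _).trans (h3 1)) hR h4 h6

omit [IsTopologicalGroup G] [CompactSpace G] [MeasurableSpace G] [BorelSpace G] in
lemma Big.mono_left {Λ : Set (PontryaginDual G)} {r r' R : ℝ} (h : Big Λ r R) (hr : r ≤ r') :
    Big Λ r' R := by
  obtain ⟨S, φ, σ, M, h1, h2, h3, h4⟩ := h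
  exact ⟨S, φ, σ, M, h1, h2.mono hr, h3, h4⟩

lemma analyticAt_arcsin_zero : AnalyticAt ℝ Real.arcsin 0 :=
  (Real.contDiffAt_arcsin (x := 0) (n := ⊤) (by norm_num) (by norm_num)).analyticAt

/-- exponential growth of the exponentials forces operating functions to be analytic -/
theorem hkkr {Λ : Set (PontryaginDual G)} {C : ℝ}
    (h : ∀ (j : ℕ) (E : Finset (PontryaginDual G)), Big (Λ \ ↑E) (C * (j + 1)) (2 ^ j))
    {F : ℝ → ℂ} (hF : Operates Λ F) : AnalyticAt ℝ F 0 := by
  obtain ⟨E, r, K, hr, hU⟩ := unif hF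
  have hc : ∀ x : ℝ, |x| ≤ r / 2 → ContinuousAt F x := fun x hx =>
    cont_of_big hr hU (c := fun j => C * (j + 1)) (fun j => h j E) hx
  set ρ := r / 3 / 2 with hρ
  have hρ0 : 0 < ρ := by positivity
  have hfc : Continuous fun t : AddCircle (2 * Real.pi) => F (ρ * (fourier 1 t).im) := by
    rw [continuous_iff_continuousAt]
    intro t
    refine ContinuousAt.comp (f := fun t : AddCircle (2 * Real.pi) => ρ * (fourier 1 t).im)
      (hc _ ?_) (by fun_prop)
    have h1 : |(fourier 1 t).im| ≤ 1 := by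
      refine (Complex.abs_im_le_norm _).trans ?_
      rw [fourier_apply, Circle.norm_coe]
    rw [abs_mul, abs_of_pos hρ0]
    nlinarith
  set f : C(AddCircle (2 * Real.pi), ℂ) := ⟨_, hfc⟩ with hfd
  have hf : ∀ t : ℝ, f t = F (ρ * Real.sin t) := fun t => by
    have e : (fourier 1 (t : AddCircle (2 * Real.pi))).im = Real.sin t := by
      rw [fourier_two_pi, Int.cast_one, one_mul, Complex.exp_ofReal_mul_I_im]
    rw [← e]; rfl
  set C1 := max C 1 with hC1
  have hC0 : 0 < C1 := lt_max_of_lt_right one_pos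
  have hl : 0 < Real.log 2 := Real.log_pos one_lt_two
  have hb : 0 < Real.log 2 / C1 := by positivity
  have hcoef : ∀ n : ℤ, ‖fourierCoeff f n‖
      ≤ (4 * |K| + 2 * ‖f‖) * Real.exp (-(Real.log 2 / C1) * |(n : ℝ)|) := by
    intro n
    have hex := Real.exp_pos (-(Real.log 2 / C1) * |(n : ℝ)|)
    have key : ∀ m : ℕ, |(n : ℝ)| / C1 ≤ m →
        1 / 2 ^ m ≤ Real.exp (-(Real.log 2 / C1) * |(n : ℝ)|) := by
      intro m hm
      have e : (1 / 2 ^ m : ℝ) = Real.exp (-(Real.log 2 * m)) := by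
        rw [Real.exp_neg, mul_comm, Real.exp_nat_mul, Real.exp_log two_pos, one_div]
      rw [e, Real.exp_le_exp]
      have e2 : -(Real.log 2 / C1) * |(n : ℝ)| = -(Real.log 2 * (|(n : ℝ)| / C1)) := by ring
      rw [e2]
      exact neg_le_neg (mul_le_mul_of_nonneg_left hm hl.le)
    rcases Nat.eq_zero_or_pos ⌊|(n : ℝ)| / C1⌋₊ with h0 | h0
    · have h1 := key 1 (by
        have := Nat.lt_floor_add_one (|(n : ℝ)| / C1)
        rw [h0] at this
        simpa using this.le)
      have h2 := coeff_le_norm f n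
      nlinarith [norm_nonneg f, abs_nonneg K]
    · obtain ⟨j, hj⟩ := Nat.exists_eq_succ_of_ne_zero h0.ne'
      have h1 := Nat.lt_floor_add_one (|(n : ℝ)| / C1)
      have h2 := Nat.floor_le (show 0 ≤ |(n : ℝ)| / C1 by positivity)
      rw [hj] at h1 h2
      push_cast at h1 h2
      rw [le_div_iff₀ hC0] at h2
      have hj0 : (0 : ℝ) ≤ j := Nat.cast_nonneg j
      have h3 : C * (j + 1) ≤ |(n : ℝ)| := by
        have := le_max_left C 1
        nlinarith
      have hn : n ≠ 0 := by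
        rintro rfl
        simp only [Int.cast_zero, abs_zero] at h2
        nlinarith
      have h4 := coeff_of_big hρ0.le (K := K) (Λ := Λ \ ↑E)
        (fun S hS φ hφ => hU S hS φ (hφ.mono (by rw [hρ]; linarith))) f hf hn
        (by positivity) ((h j E).mono_left h3)
      have h5 := key (j + 2) (by push_cast; linarith)
      have e : |K| / 2 ^ j = 4 * |K| * (1 / 2 ^ (j + 2)) := by
        field_simp; ring
      rw [e] at h4
      have h6 := mul_le_mul_of_nonneg_left h5 (show 0 ≤ 4 * |K| by positivity)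
      nlinarith [norm_nonneg f]
  have ha := analytic_of_coeff f hb hcoef
  have h1 : AnalyticAt ℝ (fun x : ℝ => Real.arcsin (x / ρ)) 0 :=
    AnalyticAt.comp_of_eq (f := fun x : ℝ => x / ρ) analyticAt_arcsin_zero (by fun_prop) (by simp)
  have h2 : AnalyticAt ℝ (fun x : ℝ => f (Real.arcsin (x / ρ) : ℝ)) 0 :=
    AnalyticAt.comp_of_eq (g := fun t : ℝ => f t) (f := fun x : ℝ => Real.arcsin (x / ρ)) ha h1
      (by simp)
  refine h2.congr ?_
  filter_upwards [Ioo_mem_nhds (neg_lt_zero.2 hρ0) hρ0] with x hx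
  rw [hf, Real.sin_arcsin, mul_div_cancel₀ _ hρ0.ne']
  · rw [le_div_iff₀ hρ0]; linarith [hx.1]
  · rw [div_le_iff₀ hρ0]; linarith [hx.2]

end Pool.Agent.MP_843cf2_an

end

-- part MP_843cf2_an.Main
section

set_option autoImplicit false

namespace Pool.Agent.MP_843cf2_an

open MeasureTheory

variable {G : Type*} [CommGroup G] [TopologicalSpace G] [IsTopologicalGroup G] [CompactSpace G]
  [MeasurableSpace G] [BorelSpace G]

theorem dichotomy (Λ : Set (PontryaginDual G)) :
    Sidon Λ ∨ ∀ F : ℝ → ℂ, Operates Λ F → AnalyticAt ℝ F 0 := by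
  refine or_iff_not_imp_left.2 fun hΛ F hF => ?_
  obtain ⟨C, hC⟩ := core (G := G)
  refine hkkr (C := C) (fun j E => ?_) hF
  obtain ⟨δ, hδ, hcore⟩ := hC j
  by_contra hB
  classical
  refine hΛ (Sidon.of_diff (insert 1 E) (pisier hδ fun A hA' => ?_))
  have h1A : 1 ∉ A := fun h => (hA' h).2 (by simp)
  have hA : (↑A : Set (PontryaginDual G)) ⊆ Λ \ ↑E :=
    fun γ h => ⟨(hA' h).1, fun h' => (hA' h).2 (by simp [h'])⟩
  by_contra hne
  push Not at hne
  have h0 := hne ∅ (Finset.empty_subset _) QI_empty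
  have hA0 : A.Nonempty := by
    rw [Finset.nonempty_iff_ne_empty]
    rintro rfl
    simp at h0
  obtain ⟨S, φ, σ, M, h1, h2⟩ := hcore A hA0 h1A fun B hB hq => (hne B hB hq).le
  exact hB ⟨S, φ, σ, M, h1.trans hA, h2⟩

lemma inA_iff (Λ : Set (PontryaginDual G)) (φ : PontryaginDual G → ℂ) :
    InA Λ φ ↔ ∃ f : G → ℂ, Integrable f (Measure.haar : Measure G) ∧ ∀ γ ∈ Λ, φ γ =
      ∫ x, f x * (starRingEnd ℂ) ((γ x : Circle) : ℂ) ∂(Measure.haar : Measure G) := by
  have hfin : (Measure.haar : Measure G) Set.univ ≠ ⊤ := isCompact_univ.measure_lt_top.ne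
  have hpos : (Measure.haar : Measure G) Set.univ ≠ 0 :=
    (isOpen_univ.measure_pos _ Set.univ_nonempty).ne'
  set c := (Measure.haar : Measure G) Set.univ with hc
  have hinv : c⁻¹ ≠ 0 := ENNReal.inv_ne_zero.2 hfin
  have hinv' : c⁻¹ ≠ ⊤ := ENNReal.inv_ne_top.2 hpos
  have h1 : IsProbabilityMeasure (c⁻¹ • (Measure.haar : Measure G)) :=
    ⟨by rw [Measure.smul_apply, smul_eq_mul, ← hc, ENNReal.inv_mul_cancel hpos hfin]⟩
  have h2 : (c⁻¹ • (Measure.haar : Measure G)).IsHaarMeasure :=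
    Measure.IsHaarMeasure.smul _ hinv hinv'
  have h3 : hp G = c⁻¹ • (Measure.haar : Measure G) :=
    Measure.isHaarMeasure_eq_of_isProbabilityMeasure _ _
  have hr : (c⁻¹).toReal ≠ 0 := ENNReal.toReal_ne_zero.2 ⟨hinv, hinv'⟩
  unfold InA
  rw [h3]
  simp only [integrable_smul_measure hinv hinv', integral_smul_measure, ch]
  constructor
  · rintro ⟨f, hf, h⟩
    refine ⟨fun x => ((c⁻¹).toReal : ℂ) * f x, hf.const_mul _, fun γ hγ => ?_⟩
    rw [h γ hγ]
    simp only [mul_assoc, integral_const_mul, Complex.real_smul]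
  · rintro ⟨f, hf, h⟩
    refine ⟨fun x => ((c⁻¹).toReal : ℂ)⁻¹ * f x, hf.const_mul _, fun γ hγ => ?_⟩
    rw [h γ hγ]
    simp only [mul_assoc, integral_const_mul, Complex.real_smul]
    rw [← mul_assoc, mul_inv_cancel₀ (Complex.ofReal_ne_zero.2 hr), one_mul]

end Pool.Agent.MP_843cf2_an

end
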