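import Pool.Agent.MP_843cf2_an.Mg.Main
import Pool.Agent.MP_843cf2_an.Defs

set_option autoImplicit false

namespace Pool.Agent.MP_843cf2_an.Own

open MeasureTheory

variable {G : Type*} [CommGroup G] [TopologicalSpace G] [IsTopologicalGroup G] [CompactSpace G]
  [MeasurableSpace G] [BorelSpace G]

lemma inA_iff_haar (μ : Measure G) [μ.IsHaarMeasure] (Λ : Set (PontryaginDual G))
    (φ : PontryaginDual G → ℂ) : InA Λ φ ↔ (fun γ : Λ => φ γ) ∈ restrAlg μ Λ := by
  have hfin : μ Set.univ ≠ ⊤ := isCompact_univ.measure_lt_top.ne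
  have hpos : μ Set.univ ≠ 0 := (isOpen_univ.measure_pos _ Set.univ_nonempty).ne'
  set c := μ Set.univ with hc
  have hinv : c⁻¹ ≠ 0 := ENNReal.inv_ne_zero.2 hfin
  have hinv' : c⁻¹ ≠ ⊤ := ENNReal.inv_ne_top.2 hpos
  have h1 : IsProbabilityMeasure (c⁻¹ • μ) :=
    ⟨by rw [Measure.smul_apply, smul_eq_mul, ← hc, ENNReal.inv_mul_cancel hpos hfin]⟩
  have h2 : (c⁻¹ • μ).IsHaarMeasure := Measure.IsHaarMeasure.smul _ hinv hinv'
  have h3 : hp G = c⁻¹ • μ := Measure.isHaarMeasure_eq_of_isProbabilityMeasure _ _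
  have hr : (c⁻¹).toReal ≠ 0 := ENNReal.toReal_ne_zero.2 ⟨hinv, hinv'⟩
  unfold InA restrAlg
  rw [h3]
  simp only [integrable_smul_measure hinv hinv', integral_smul_measure, ch, Set.mem_ofPred_eq]
  constructor
  · rintro ⟨f, hf, h⟩
    refine ⟨fun x => ((c⁻¹).toReal : ℂ) * f x, hf.const_mul _, fun γ => ?_⟩
    rw [h γ γ.2]
    simp only [mul_assoc, integral_const_mul, Complex.real_smul]
  · rintro ⟨f, hf, h⟩
    refine ⟨fun x => ((c⁻¹).toReal : ℂ)⁻¹ * f x, hf.const_mul _, fun γ hγ => ?_⟩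
    rw [h ⟨γ, hγ⟩]
    simp only [mul_assoc, integral_const_mul, Complex.real_smul]
    rw [← mul_assoc, mul_inv_cancel₀ (Complex.ofReal_ne_zero.2 hr), one_mul]

omit [IsTopologicalGroup G] [CompactSpace G] [MeasurableSpace G] [BorelSpace G] in
lemma isSidon_of_sidon {Λ : Set (PontryaginDual G)} (h : Sidon Λ) : IsSidon Λ := by
  classical
  obtain ⟨C, hC⟩ := h
  refine ⟨max C 1, lt_max_of_lt_right one_pos, fun a => ?_⟩
  set M := ⨆ x : G, ‖∑ γ ∈ a.support, a γ * ((γ.1 x : Circle) : ℂ)‖ with hM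
  have hb : BddAbove (Set.range fun x : G =>
      ‖∑ γ ∈ a.support, a γ * ((γ.1 x : Circle) : ℂ)‖) := by
    refine ⟨∑ γ ∈ a.support, ‖a γ‖, ?_⟩
    rintro _ ⟨x, rfl⟩
    refine (norm_sum_le _ _).trans (le_of_eq (Finset.sum_congr rfl fun γ _ => ?_))
    rw [norm_mul, Circle.norm_coe, mul_one]
  have hM0 : 0 ≤ M := (norm_nonneg _).trans (le_ciSup hb (1 : G))
  let b : PontryaginDual G → ℂ := fun γ => if hγ : γ ∈ Λ then a ⟨γ, hγ⟩ else 0
  have hb' : ∀ γ : Λ, b γ = a γ := fun γ => by simp [b, γ.2]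
  have hinj : ∀ x ∈ a.support, ∀ y ∈ a.support, (x : PontryaginDual G) = y → x = y :=
    fun x _ y _ hxy => Subtype.ext hxy
  have key := hC (a.support.image Subtype.val) (fun γ hγ => by
      obtain ⟨δ, -, rfl⟩ := Finset.mem_image.1 (Finset.mem_coe.1 hγ)
      exact δ.2) b M (fun x => by
      unfold tp
      rw [Finset.sum_image hinj]
      simp only [hb', ch]
      exact le_ciSup hb x)
  rw [Finset.sum_image hinj] at key
  simp only [hb'] at key
  exact key.trans (mul_le_mul_of_nonneg_right (le_max_left _ _) hM0)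

lemma analyticNearZero_of {F : Set.Icc (-1 : ℝ) 1 → ℂ}
    (h : AnalyticAt ℝ (fun t : ℝ => F (Set.projIcc (-1 : ℝ) 1 (by norm_num) t)) 0) :
    AnalyticNearZero F := by
  obtain ⟨p, r, hp⟩ := h
  obtain ⟨s, hs0, hsr⟩ := ENNReal.lt_iff_exists_nnreal_btwn.1 hp.r_pos
  have hs : (0 : ℝ) < s := by exact_mod_cast hs0
  refine ⟨s, hs, fun n => p n fun _ => 1, fun x hx => ?_⟩
  have hmem : (x : ℝ) ∈ Metric.eball (0 : ℝ) r := by
    rw [Metric.mem_eball, edist_zero_right]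
    refine lt_trans ?_ hsr
    rw [← ofReal_norm, Real.norm_eq_abs, ENNReal.ofReal_lt_coe_iff (abs_nonneg _)]
    exact hx
  have hsum := hp.hasSum hmem
  rw [zero_add, Set.projIcc_val] at hsum
  have heq : (fun n : ℕ => (p n fun _ => (1 : ℝ)) * ((x : ℝ) : ℂ) ^ n)
      = fun n : ℕ => p n fun _ => (x : ℝ) := by
    funext n
    have := (p n).map_smul_univ (fun _ => (x : ℝ)) (fun _ => (1 : ℝ))
    simp only [smul_eq_mul, mul_one, Finset.prod_const, Finset.card_univ,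
      Fintype.card_fin] at this
    rw [this, Complex.real_smul, Complex.ofReal_pow, mul_comm]
  rw [heq]
  exact hsum

theorem dichotomy_own (μ : Measure G) [μ.IsHaarMeasure] (Λ : Set (PontryaginDual G)) :
    IsSidon Λ ∨ ∀ F : Set.Icc (-1 : ℝ) 1 → ℂ, OperatesOn μ Λ F → AnalyticNearZero F := by
  rcases dichotomy Λ with h | h
  · exact Or.inl (isSidon_of_sidon h)
  · refine Or.inr fun F hF => analyticNearZero_of (h _ fun φ h1 h2 => ?_)
    rw [inA_iff_haar μ] at h2 ⊢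
    have h3 := hF (fun γ => ⟨φ γ, Set.Ioo_subset_Icc_self (h1 γ γ.2)⟩) (fun γ => h1 γ γ.2) h2
    convert h3 using 3 with γ
    exact Set.projIcc_of_mem _ _

end Pool.Agent.MP_843cf2_an.Own
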