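import Pool.Agent.MP_843cf2_an.Mg.Mult

-- part MP_843cf2_an.Window
section

set_option autoImplicit false

namespace Pool.Agent.MP_843cf2_an

open MeasureTheory

variable {G : Type*} [CommGroup G] [TopologicalSpace G]

lemma exists_max_QI (S : Finset (PontryaginDual G)) :
    ∃ B ⊆ S, QI B ∧ ∀ B' ⊆ S, QI B' → B'.card ≤ B.card := by
  classical
  obtain ⟨B, hB, hmax⟩ := Finset.exists_max_image (S.powerset.filter QI) Finset.card
    ⟨∅, by simp [QI_empty]⟩
  simp only [Finset.mem_filter, Finset.mem_powerset] at hB hmax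
  exact ⟨B, hB.1, hB.2, fun B' h1 h2 => hmax B' ⟨h1, h2⟩⟩

lemma QI_singleton {γ : PontryaginDual G} (h : γ ≠ 1) : QI {γ} := by
  intro P hP N hN e
  rcases Finset.subset_singleton_iff.1 hP with rfl | rfl <;>
    rcases Finset.subset_singleton_iff.1 hN with rfl | rfl
  · rfl
  · simp at e; exact absurd e.symm h
  · simp at e; exact absurd e h
  · rfl

lemma Cov.mono {k : ℕ} {S T : Finset (PontryaginDual G)} (h : Cov k T) (hST : S ⊆ T) :
    Cov k S := by
  obtain ⟨col, h1, h2⟩ := h
  exact ⟨col, fun γ hγ => h1 γ (hST hγ), fun i =>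
    (h2 i).mono (Finset.filter_subset_filter _ hST)⟩

lemma cov_empty (k : ℕ) : Cov k (∅ : Finset (PontryaginDual G)) :=
  ⟨fun _ => 0, by simp, fun i => by simpa using QI_empty⟩

open Classical in
lemma Cov.union {k k' : ℕ} {S T : Finset (PontryaginDual G)} (h : Cov k S) (h' : Cov k' T) :
    Cov (k + k') (S ∪ T) := by
  obtain ⟨col, h1, h2⟩ := h
  obtain ⟨col', h3, h4⟩ := h'
  refine ⟨fun γ => if γ ∈ S then col γ else k + col' γ, fun γ hγ => ?_, fun i => ?_⟩
  · by_cases hS : γ ∈ S
    · simp only [hS, if_true]; have := h1 γ hS; omega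
    · simp only [hS, if_false]
      have := h3 γ ((Finset.mem_union.1 hγ).resolve_left hS); omega
  · by_cases hi : i < k
    · refine (h2 i).mono fun γ hγ => ?_
      simp only [Finset.mem_filter] at hγ ⊢
      by_cases hS : γ ∈ S
      · simp only [hS, if_true] at hγ; exact ⟨hS, hγ.2⟩
      · simp only [hS, if_false] at hγ; omega
    · refine (h4 (i - k)).mono fun γ hγ => ?_
      simp only [Finset.mem_filter] at hγ ⊢
      by_cases hS : γ ∈ S
      · simp only [hS, if_true] at hγ; have := h1 γ hS; omega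
      · simp only [hS, if_false] at hγ
        exact ⟨(Finset.mem_union.1 hγ.1).resolve_left hS, by omega⟩

lemma QI.cov {S : Finset (PontryaginDual G)} (h : QI S) : Cov 1 S :=
  ⟨fun _ => 0, by simp, fun _ => h.mono (Finset.filter_subset _ _)⟩

lemma Cov.qi {S : Finset (PontryaginDual G)} (h : Cov 1 S) : QI S := by
  obtain ⟨col, h1, h2⟩ := h
  refine (h2 0).mono fun γ hγ => ?_
  have := h1 γ hγ
  simp only [Finset.mem_filter]
  exact ⟨hγ, by omega⟩

open Classical in
lemma greedy_block (S : Finset (PontryaginDual G)) (m : ℕ)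
    (hm : ∀ B ⊆ S, QI B → B.card ≤ m) (k : ℕ) :
    ∃ A ⊆ S, Cov k A ∧ A.card ≤ k * m ∧ ∀ B ⊆ S \ A, QI B → k * B.card ≤ A.card := by
  induction k with
  | zero => exact ⟨∅, by simp, cov_empty 0, by simp, by simp⟩
  | succ k ih =>
    obtain ⟨A, hA, hc, h1, h2⟩ := ih
    obtain ⟨B, hB, hq, hmax⟩ := exists_max_QI (S \ A)
    have hd : Disjoint A B := Finset.disjoint_of_subset_right hB Finset.disjoint_sdiff
    have hBS : B ⊆ S := hB.trans Finset.sdiff_subset
    refine ⟨A ∪ B, Finset.union_subset hA hBS, hc.union hq.cov, ?_, fun B' hB' hq' => ?_⟩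
    · rw [Finset.card_union_of_disjoint hd]
      have := hm B hBS hq
      nlinarith
    · rw [Finset.card_union_of_disjoint hd]
      have h3 : B' ⊆ S \ A :=
        hB'.trans (Finset.sdiff_subset_sdiff subset_rfl Finset.subset_union_left)
      have h4 := hmax B' h3 hq'
      have h5 := h2 B' h3 hq'
      nlinarith

open Classical in
lemma window_aux (k : ℕ) (m : ℕ) : ∀ S : Finset (PontryaginDual G), 1 ∉ S →
    (∀ B ⊆ S, QI B → B.card ≤ m) →
    (∃ A ⊆ S, ∃ m' : ℕ, 1 ≤ m' ∧ Cov k A ∧ k * m' ≤ 2 * A.card ∧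
      ∀ B ⊆ A, QI B → B.card ≤ m') ∨ S.card ≤ 2 * k * m ∨ k = 0 := by
  induction m using Nat.strong_induction_on with
  | _ m ih =>
    intro S h1 hm
    rcases Nat.eq_zero_or_pos m with rfl | hpos
    · refine Or.inr (Or.inl ?_)
      have : S = ∅ := by
        by_contra hne
        obtain ⟨γ, hγ⟩ := Finset.nonempty_iff_ne_empty.2 hne
        have := hm {γ} (by simpa using hγ) (QI_singleton fun e => h1 (e ▸ hγ))
        simp at this
      simp [this]
    obtain ⟨A, hA, hc, h2, h3⟩ := greedy_block S m hm k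
    obtain ⟨B, hB, hq, hmax⟩ := exists_max_QI (S \ A)
    by_cases hb : m ≤ 2 * B.card
    · refine Or.inl ⟨A, hA, m, hpos, hc, ?_, fun B' hB' hq' => hm B' (hB'.trans hA) hq'⟩
      have := h3 B hB hq
      nlinarith
    · have hlt : B.card < m := by omega
      rcases ih B.card hlt (S \ A) (fun h => h1 (Finset.sdiff_subset h)) hmax with
        ⟨A', hA', h⟩ | h | h
      · exact Or.inl ⟨A', hA'.trans Finset.sdiff_subset, h⟩
      · refine Or.inr (Or.inl ?_)
        have h4 := Finset.card_sdiff_add_card_eq_card hA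
        have h5 : k * (2 * B.card) ≤ k * m := Nat.mul_le_mul_left _ (by omega)
        nlinarith
      · exact Or.inr (Or.inr h)

lemma window {k : ℕ} (hk : 1 ≤ k) {S : Finset (PontryaginDual G)} (h1 : 1 ∉ S) (hne : S.Nonempty)
    (h : ∀ B ⊆ S, QI B → (B.card : ℝ) ≤ 1 / (4 * k) * S.card) :
    ∃ A ⊆ S, ∃ m : ℕ, 1 ≤ m ∧ Cov k A ∧ k * m ≤ 2 * A.card ∧ ∀ B ⊆ A, QI B → B.card ≤ m := by
  obtain ⟨B, hB, hq, hmax⟩ := exists_max_QI S
  rcases window_aux k B.card S h1 hmax with h2 | h2 | h2
  · exact h2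
  · exfalso
    have h3 := h B hB hq
    have h4 : (S.card : ℝ) ≤ 2 * k * B.card := by exact_mod_cast h2
    have h5 : (0 : ℝ) < S.card := by exact_mod_cast hne.card_pos
    have h6 : (0 : ℝ) < k := by exact_mod_cast hk
    have h7 : 2 * (k : ℝ) * B.card ≤ 2 * k * (1 / (4 * k) * S.card) := by gcongr
    have h8 : 2 * (k : ℝ) * (1 / (4 * k) * S.card) = S.card / 2 := by field_simp; ring
    linarith
  · omega

end Pool.Agent.MP_843cf2_an

end

-- part MP_843cf2_an.Ginibre
section

set_option autoImplicit false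

namespace Pool.Agent.MP_843cf2_an

open MeasureTheory Filter Topology

section Cone

variable {K : Type*} [CommGroup K] [TopologicalSpace K]

/-- finite sums of kernels `f (X * Y) * f (X * Y⁻¹)` -/
inductive Pz : (K → K → ℝ) → Prop
  | base (f : K → ℝ) (hf : Continuous f) : Pz fun X Y => f (X * Y) * f (X * Y⁻¹)
  | add {a b : K → K → ℝ} (ha : Pz a) (hb : Pz b) : Pz fun X Y => a X Y + b X Y

lemma Pz.of_eq {a b : K → K → ℝ} (h : Pz a) (e : ∀ X Y, b X Y = a X Y) : Pz b := by
  have : b = a := funext fun X => funext fun Y => e X Y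
  rw [this]; exact h

lemma Pz.const {c : ℝ} (hc : 0 ≤ c) : Pz fun _ _ : K => c :=
  (Pz.base (fun _ => √c) continuous_const).of_eq fun _ _ => (Real.mul_self_sqrt hc).symm

lemma Pz.mul {a b : K → K → ℝ} (ha : Pz a) (hb : Pz b) : Pz fun X Y => a X Y * b X Y := by
  induction ha with
  | base f hf =>
    induction hb with
    | base g hg => exact (Pz.base (fun X => f X * g X) (hf.mul hg)).of_eq fun X Y => by ring
    | add _ _ h1 h2 => exact (h1.add h2).of_eq fun X Y => by ring
  | add _ _ h1 h2 => exact (h1.add h2).of_eq fun X Y => by ring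

lemma Pz.pow {a : K → K → ℝ} (ha : Pz a) (n : ℕ) : Pz fun X Y => a X Y ^ n := by
  induction n with
  | zero => exact (Pz.const zero_le_one).of_eq fun X Y => pow_zero _
  | succ n ih => exact (ih.mul ha).of_eq fun X Y => pow_succ _ _

lemma Pz.sum {ι : Type*} (s : Finset ι) {a : ι → K → K → ℝ} (ha : ∀ i, Pz (a i)) :
    Pz fun X Y => ∑ i ∈ s, a i X Y := by
  classical
  induction s using Finset.induction_on with
  | empty => exact (Pz.const le_rfl).of_eq fun X Y => Finset.sum_empty
  | insert i s hi ih => exact ((ha i).add ih).of_eq fun X Y => Finset.sum_insert hi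

/-- bounded pointwise limits of sequences in the cone -/
def Pc (k : K → K → ℝ) : Prop :=
  ∃ (s : ℕ → K → K → ℝ) (M : ℝ), (∀ n, Pz (s n)) ∧ (∀ n X Y, |s n X Y| ≤ M) ∧
    ∀ X Y, Tendsto (fun n => s n X Y) atTop (𝓝 (k X Y))

lemma Pc.mul {a b : K → K → ℝ} (ha : Pc a) (hb : Pc b) : Pc fun X Y => a X Y * b X Y := by
  obtain ⟨s, M, h1, h2, h3⟩ := ha
  obtain ⟨t, N, g1, g2, g3⟩ := hb
  refine ⟨fun n X Y => s n X Y * t n X Y, M * N, fun n => (h1 n).mul (g1 n), fun n X Y => ?_,
    fun X Y => (h3 X Y).mul (g3 X Y)⟩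
  rw [abs_mul]
  exact mul_le_mul (h2 n X Y) (g2 n X Y) (abs_nonneg _) ((abs_nonneg _).trans (h2 n X Y))

variable [IsTopologicalGroup K]

lemma Pz.cont {a : K → K → ℝ} (ha : Pz a) : Continuous fun p : K × K => a p.1 p.2 := by
  induction ha with
  | base f hf =>
    exact (hf.comp (continuous_fst.mul continuous_snd)).mul
      (hf.comp (continuous_fst.mul continuous_snd.inv))
  | add _ _ h1 h2 => exact h1.add h2

variable [CompactSpace K]

lemma Pz.bdd {a : K → K → ℝ} (ha : Pz a) : ∃ M, ∀ X Y, |a X Y| ≤ M := by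
  obtain ⟨M, hM⟩ := isCompact_univ.exists_bound_of_continuousOn ha.cont.continuousOn
  exact ⟨M, fun X Y => hM (X, Y) (Set.mem_univ _)⟩

lemma Pz.series {u : K → K → ℝ} (hu : Pz u) {c : ℕ → ℝ} {e : ℕ → ℕ} {F : ℝ → ℝ}
    (hc : ∀ n, 0 ≤ c n) (hF : ∀ t, HasSum (fun n => c n * t ^ e n) (F t)) :
    Pc fun X Y => F (u X Y) := by
  obtain ⟨M, hM⟩ := hu.bdd
  refine ⟨fun n X Y => ∑ j ∈ Finset.range n, c j * u X Y ^ e j, F M,
    fun n => Pz.sum _ fun j => (Pz.const (hc j)).mul (hu.pow _), fun n X Y => ?_,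
    fun X Y => (hF _).tendsto_sum_nat⟩
  have h0 : 0 ≤ M := (abs_nonneg _).trans (hM X Y)
  refine (Finset.abs_sum_le_sum_abs _ _).trans (le_trans (Finset.sum_le_sum fun j _ => ?_)
    (sum_le_hasSum (Finset.range n) (fun j _ => mul_nonneg (hc j) (pow_nonneg h0 _)) (hF M)))
  rw [abs_mul, abs_of_nonneg (hc j), abs_pow]
  exact mul_le_mul_of_nonneg_left (pow_le_pow_left₀ (abs_nonneg _) (hM X Y) _) (hc j)

lemma Pz.exp {u : K → K → ℝ} (hu : Pz u) : Pc fun X Y => Real.exp (u X Y) := by
  refine hu.series (c := fun n => ((n.factorial : ℝ))⁻¹) (e := fun n => n) (fun n => by positivity)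
    fun t => ?_
  have := NormedSpace.expSeries_div_hasSum_exp (𝔸 := ℝ) t
  rw [← Real.exp_eq_exp_ℝ] at this
  simpa only [div_eq_inv_mul] using this

lemma Pz.sinh {u : K → K → ℝ} (hu : Pz u) : Pc fun X Y => Real.sinh (u X Y) := by
  refine hu.series (c := fun n => (((2 * n + 1).factorial : ℝ))⁻¹) (e := fun n => 2 * n + 1)
    (fun n => by positivity) fun t => ?_
  simpa only [div_eq_inv_mul] using Real.hasSum_sinh t

variable [MeasurableSpace K] [BorelSpace K]

lemma base_nonneg {f : K → ℝ} (hf : Continuous f) :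
    0 ≤ ∫ X, (∫ Y, f (X * Y) * f (X * Y⁻¹) ∂hp K) ∂hp K := by
  have c1 : Continuous fun p : K × K => f (p.1 * (p.2 * p.2)) :=
    hf.comp (continuous_fst.mul (continuous_snd.mul continuous_snd))
  have hg : Continuous fun U => ∫ Y, f (U * (Y * Y)) ∂hp K :=
    cont_int (f := fun U Y => f (U * (Y * Y))) c1
  set g : K → ℝ := fun U => ∫ Y, f (U * (Y * Y)) ∂hp K with hgd
  have ginv : ∀ U Y, g (U * (Y * Y)) = g U := fun U Y => by
    have := int_mul_left (fun Y' => f (U * (Y' * Y'))) Y
    simp only [hgd]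
    rw [← this]
    congr 1
    funext Y'
    congr 1
    simp only [mul_assoc, mul_left_comm]
  have h1 : ∫ X, (∫ Y, f (X * Y) * f (X * Y⁻¹) ∂hp K) ∂hp K = ∫ U, g U * f U ∂hp K := by
    rw [int_swap (f := fun X Y => f (X * Y) * f (X * Y⁻¹)) (Pz.base f hf).cont]
    have e1 : ∀ Y, ∫ X, f (X * Y) * f (X * Y⁻¹) ∂hp K = ∫ U, f (U * (Y * Y)) * f U ∂hp K :=
      fun Y => by
        rw [← int_mul_right (fun X => f (X * Y) * f (X * Y⁻¹)) Y]
        simp only [mul_assoc, mul_inv_cancel, mul_one]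
    simp only [e1]
    rw [← int_swap (f := fun U Y => f (U * (Y * Y)) * f U) (c1.mul (hf.comp continuous_fst))]
    simp only [integral_mul_const, hgd]
  have h2 : ∫ U, g U * g U ∂hp K = ∫ U, g U * f U ∂hp K := by
    have e1 : ∀ U, g U * g U = ∫ Y, g U * f (U * (Y * Y)) ∂hp K := fun U => by
      rw [integral_const_mul]
    simp only [e1]
    rw [int_swap (f := fun U Y => g U * f (U * (Y * Y))) ((hg.comp continuous_fst).mul c1)]
    have e2 : ∀ Y, ∫ U, g U * f (U * (Y * Y)) ∂hp K = ∫ U, g U * f U ∂hp K := fun Y => by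
      rw [← int_mul_right (fun U => g U * f U) (Y * Y)]
      simp only [ginv]
    simp only [e2]
    simp
  rw [h1, ← h2]
  exact integral_nonneg fun U => mul_self_nonneg _

lemma Pz.nonneg {a : K → K → ℝ} (ha : Pz a) : 0 ≤ ∫ X, (∫ Y, a X Y ∂hp K) ∂hp K := by
  induction ha with
  | base f hf => exact base_nonneg hf
  | @add a b ha hb h1 h2 =>
    have e : ∀ X, ∫ Y, a X Y + b X Y ∂hp K = ∫ Y, a X Y ∂hp K + ∫ Y, b X Y ∂hp K := fun X =>
      integral_add (cint (ha.cont.comp (Continuous.prodMk_right X)))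
        (cint (hb.cont.comp (Continuous.prodMk_right X)))
    simp only [e]
    rw [integral_add (cint (cont_int ha.cont)) (cint (cont_int hb.cont))]
    exact add_nonneg h1 h2

lemma Pc.nonneg {k : K → K → ℝ} (hk : Pc k) : 0 ≤ ∫ X, (∫ Y, k X Y ∂hp K) ∂hp K := by
  obtain ⟨s, M, h1, h2, h3⟩ := hk
  refine ge_of_tendsto' (f := fun n => ∫ X, (∫ Y, s n X Y ∂hp K) ∂hp K) (x := atTop) ?_
    fun n => (h1 n).nonneg
  refine tendsto_integral_of_dominated_convergence (fun _ => M)
    (fun n => (cint (cont_int (h1 n).cont)).aestronglyMeasurable) (integrable_const _)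
    (fun n => Eventually.of_forall fun X => ?_) (Eventually.of_forall fun X => ?_)
  · have := norm_integral_le_of_norm_le_const (μ := hp K) (f := fun Y => s n X Y) (C := M)
      (Eventually.of_forall fun Y => h2 n X Y)
    simpa using this
  · exact tendsto_integral_of_dominated_convergence (fun _ => M)
      (fun n => (cint ((h1 n).cont.comp (Continuous.prodMk_right X))).aestronglyMeasurable)
      (integrable_const _) (fun n => Eventually.of_forall fun Y => h2 n X Y)
      (Eventually.of_forall fun Y => h3 X Y)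

end Cone

variable {G : Type*} [CommGroup G] [TopologicalSpace G] [IsTopologicalGroup G] [CompactSpace G]
  [MeasurableSpace G] [BorelSpace G]

lemma int_four {P Q R W : G → ℝ} (hP : Continuous P) (hQ : Continuous Q) (hR : Continuous R)
    (hW : Continuous W) :
    ∫ x, (∫ y, (P x * Q y + Q x * P y - R x * W y - W x * R y) ∂hp G) ∂hp G =
      2 * ((∫ x, P x ∂hp G) * ∫ x, Q x ∂hp G) - 2 * ((∫ x, R x ∂hp G) * ∫ x, W x ∂hp G) := by
  have iP := cint hP
  have iQ := cint hQ
  have iR := cint hR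
  have iW := cint hW
  have e : ∀ x, ∫ y, (P x * Q y + Q x * P y - R x * W y - W x * R y) ∂hp G =
      P x * (∫ y, Q y ∂hp G) + Q x * (∫ y, P y ∂hp G) - R x * (∫ y, W y ∂hp G)
        - W x * ∫ y, R y ∂hp G := fun x => by
    have a1 : Integrable (fun y => P x * Q y + Q x * P y) (hp G) :=
      (iQ.const_mul _).add (iP.const_mul _)
    have a2 : Integrable (fun y => P x * Q y + Q x * P y - R x * W y) (hp G) :=
      a1.sub (iW.const_mul _)
    rw [integral_sub a2 (iR.const_mul _), integral_sub a1 (iW.const_mul _),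
      integral_add (iQ.const_mul _) (iP.const_mul _)]
    simp only [integral_const_mul]
  simp only [e]
  have a1 : Integrable (fun x => P x * (∫ y, Q y ∂hp G) + Q x * ∫ y, P y ∂hp G) (hp G) :=
    (iP.mul_const _).add (iQ.mul_const _)
  have a2 : Integrable (fun x => P x * (∫ y, Q y ∂hp G) + Q x * (∫ y, P y ∂hp G)
      - R x * ∫ y, W y ∂hp G) (hp G) := a1.sub (iR.mul_const _)
  rw [integral_sub a2 (iW.mul_const _), integral_sub a1 (iR.mul_const _),
    integral_add (iP.mul_const _) (iQ.mul_const _)]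
  simp only [integral_mul_const]
  ring

lemma ginibre_core {K : Type*} [CommGroup K] [TopologicalSpace K] [IsTopologicalGroup K]
    [CompactSpace K] [MeasurableSpace K] [BorelSpace K] (π : K →* G) (hc : Continuous π)
    (hs : Function.Surjective π) {ι : Type*} (h : ι → G → ℝ) (hh : ∀ i, Continuous (h i))
    (u v : ι → K → K → ℝ) (hu : ∀ i, Pz (u i)) (hv : ∀ i, Pz (v i))
    (e1 : ∀ i X Y, h i (π X) = u i X Y - v i X Y) (e2 : ∀ i X Y, h i (π Y) = u i X Y + v i X Y)
    (A B C : ι) :
    (∫ x, Real.exp (h A x + h B x) ∂hp G) * ∫ x, Real.exp (h A x + h C x) ∂hp G ≤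
      (∫ x, Real.exp (h A x + h B x + h C x) ∂hp G) * ∫ x, Real.exp (h A x) ∂hp G := by
  have cP : Continuous fun x => Real.exp (h A x + h B x + h C x) :=
    Real.continuous_exp.comp (((hh A).add (hh B)).add (hh C))
  have cQ : Continuous fun x => Real.exp (h A x) := Real.continuous_exp.comp (hh A)
  have cR : Continuous fun x => Real.exp (h A x + h B x) :=
    Real.continuous_exp.comp ((hh A).add (hh B))
  have cW : Continuous fun x => Real.exp (h A x + h C x) :=
    Real.continuous_exp.comp ((hh A).add (hh C))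
  have h1 := int_four cP cQ cR cW
  let Φ : G → G → ℝ := fun x y => Real.exp (h A x + h B x + h C x) * Real.exp (h A y) +
    Real.exp (h A x) * Real.exp (h A y + h B y + h C y) -
    Real.exp (h A x + h B x) * Real.exp (h A y + h C y) -
    Real.exp (h A x + h C x) * Real.exp (h A y + h B y)
  have cΦ : Continuous fun p : G × G => Φ p.1 p.2 :=
    ((((cP.comp continuous_fst).mul (cQ.comp continuous_snd)).add
      ((cQ.comp continuous_fst).mul (cP.comp continuous_snd))).sub
      ((cR.comp continuous_fst).mul (cW.comp continuous_snd))).sub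
      ((cW.comp continuous_fst).mul (cR.comp continuous_snd))
  have h2 : ∫ X, (∫ Y, Φ (π X) (π Y) ∂hp K) ∂hp K = ∫ x, (∫ y, Φ x y ∂hp G) ∂hp G := by
    have e : ∀ X, ∫ Y, Φ (π X) (π Y) ∂hp K = ∫ y, Φ (π X) y ∂hp G := fun X =>
      int_comp_hom π hc hs (cΦ.comp (Continuous.prodMk_right (π X)))
    simp only [e]
    exact int_comp_hom π hc hs (cont_int cΦ)
  have h3 := (((((((hu A).add (hu A)).add (hu B)).add (hu C)).exp.mul (hv B).sinh).mul
    (hv C).sinh)).nonneg
  have h4 : ∀ X Y, Φ (π X) (π Y) = 4 * (Real.exp (u A X Y + u A X Y + u B X Y + u C X Y) *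
      Real.sinh (v B X Y) * Real.sinh (v C X Y)) := fun X Y => by
    simp only [Φ, e1 _ X Y, e2 _ X Y, Real.sinh_eq, Real.exp_add, Real.exp_sub, Real.exp_neg]
    have := Real.exp_ne_zero
    field_simp
    ring
  simp only [h4, integral_const_mul] at h2
  have h5 : ∫ x, (∫ y, Φ x y ∂hp G) ∂hp G = _ := h1
  linarith

variable (G) in
/-- points of `G` together with square roots of all the character values -/
def sqG : Subgroup (G × (PontryaginDual G → Circle)) where
  carrier := {p | ∀ γ, p.2 γ * p.2 γ = γ p.1}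
  one_mem' := fun γ => by simp
  mul_mem' := fun {a b} ha hb γ => by
    simp only [Prod.snd_mul, Pi.mul_apply, Prod.fst_mul, map_mul]
    rw [← ha γ, ← hb γ, mul_mul_mul_comm]
  inv_mem' := fun {a} ha γ => by
    simp only [Prod.snd_inv, Pi.inv_apply, Prod.fst_inv, map_inv]
    rw [← ha γ, mul_inv]

omit [MeasurableSpace G] [BorelSpace G] [IsTopologicalGroup G] in
lemma sqG_compact : CompactSpace (sqG G) := by
  have : IsClosed (sqG G : Set (G × (PontryaginDual G → Circle))) := by
    have e : (sqG G : Set (G × (PontryaginDual G → Circle))) =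
        ⋂ γ, {p | p.2 γ * p.2 γ = γ p.1} := by
      ext p; simp only [Set.mem_iInter]; rfl
    rw [e]
    refine isClosed_iInter fun γ => isClosed_eq ?_ ((map_continuous γ).comp continuous_fst)
    exact ((continuous_apply γ).comp continuous_snd).mul ((continuous_apply γ).comp continuous_snd)
  exact isCompact_iff_compactSpace.1 this.isCompact

lemma circle_sqrt (z : Circle) : ∃ w : Circle, w * w = z := by
  obtain ⟨t, rfl⟩ := Circle.exp_surjective z
  exact ⟨Circle.exp (t / 2), by rw [← Circle.exp_add, add_halves]⟩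

omit [MeasurableSpace G] [BorelSpace G] [IsTopologicalGroup G] [CompactSpace G] in
lemma re_tp (J : ℝ) (S : Finset (PontryaginDual G)) (x : G) :
    (tp S (fun _ => (J : ℂ)) x).re = ∑ γ ∈ S, J * (ch γ x).re := by
  simp [tp]

open Classical in
/-- Ginibre's inequality: the free energy is supermodular. -/
theorem psi_supermod {J : ℝ} (hJ : 0 ≤ J) (S T : Finset (PontryaginDual G)) :
    psi J S + psi J T ≤ psi J (S ∪ T) + psi J (S ∩ T) := by
  have := sqG_compact (G := G)
  let _ : MeasurableSpace (sqG G) := borel _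
  have : BorelSpace (sqG G) := ⟨rfl⟩
  let π : sqG G →* G := (MonoidHom.fst _ _).comp (sqG G).subtype
  have hc : Continuous π := continuous_fst.comp continuous_subtype_val
  have hs : Function.Surjective π := fun x => by
    choose w hw using circle_sqrt
    exact ⟨⟨(x, fun γ => w (γ x)), fun γ => hw _⟩, rfl⟩
  let e : PontryaginDual G → sqG G → ℂ := fun γ X => ((X.1.2 γ : Circle) : ℂ)
  have ce : ∀ γ, Continuous (e γ) := fun γ => continuous_subtype_val.comp
    ((continuous_apply γ).comp (continuous_snd.comp continuous_subtype_val))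
  have m1 : ∀ γ X Y, ch γ (π X) = e γ (X * Y) * e γ (X * Y⁻¹) := fun γ X Y => by
    have h1 : γ (π X) = (X * Y).1.2 γ * (X * Y⁻¹).1.2 γ := by
      have h2 : X.1.2 γ * X.1.2 γ = γ (π X) := X.2 γ
      rw [← h2]
      show _ = (X.1.2 γ * Y.1.2 γ) * (X.1.2 γ * (Y.1.2 γ)⁻¹)
      rw [mul_mul_mul_comm, mul_inv_cancel, mul_one]
    simp only [ch, e, h1, Circle.coe_mul]
  have m2 : ∀ γ X Y, ch γ (π Y) = e γ (X * Y) * (starRingEnd ℂ) (e γ (X * Y⁻¹)) := fun γ X Y => by
    have h1 : γ (π Y) = (X * Y).1.2 γ * ((X * Y⁻¹).1.2 γ)⁻¹ := by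
      have h2 : Y.1.2 γ * Y.1.2 γ = γ (π Y) := Y.2 γ
      rw [← h2]
      show _ = (X.1.2 γ * Y.1.2 γ) * (X.1.2 γ * (Y.1.2 γ)⁻¹)⁻¹
      rw [mul_inv, inv_inv, mul_mul_mul_comm, mul_inv_cancel, one_mul]
    simp only [ch, e, h1, Circle.coe_mul, Circle.coe_inv_eq_conj]
  have ct : ∀ V : Finset (PontryaginDual G), Continuous fun x => (tp V (fun _ => (J : ℂ)) x).re :=
    fun V => Complex.continuous_re.comp (continuous_tp V _)
  have key := ginibre_core π hc hs (fun V x => (tp V (fun _ => (J : ℂ)) x).re) ct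
    (fun V X Y => ∑ γ ∈ V, J * ((e γ (X * Y)).re * (e γ (X * Y⁻¹)).re))
    (fun V X Y => ∑ γ ∈ V, J * ((e γ (X * Y)).im * (e γ (X * Y⁻¹)).im))
    (fun V => Pz.sum V fun γ => (Pz.const hJ).mul
      (Pz.base (fun X => (e γ X).re) (Complex.continuous_re.comp (ce γ))))
    (fun V => Pz.sum V fun γ => (Pz.const hJ).mul
      (Pz.base (fun X => (e γ X).im) (Complex.continuous_im.comp (ce γ))))
    (fun V X Y => by
      simp only [re_tp, m1 _ X Y, Complex.mul_re, mul_sub, Finset.sum_sub_distrib])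
    (fun V X Y => by
      simp only [re_tp, m2 _ X Y, Complex.mul_re, Complex.conj_re, Complex.conj_im, mul_neg,
        sub_neg_eq_add, mul_add, Finset.sum_add_distrib])
    (S ∩ T) (S \ T) (T \ S)
  have s1 : ∀ x, (tp (S ∩ T) (fun _ => (J : ℂ)) x).re + (tp (S \ T) (fun _ => (J : ℂ)) x).re =
      (tp S (fun _ => (J : ℂ)) x).re := fun x => by
    simp only [re_tp]; exact Finset.sum_inter_add_sum_sdiff _ _ _
  have s2 : ∀ x, (tp (S ∩ T) (fun _ => (J : ℂ)) x).re + (tp (T \ S) (fun _ => (J : ℂ)) x).re =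
      (tp T (fun _ => (J : ℂ)) x).re := fun x => by
    simp only [re_tp]; rw [Finset.inter_comm]; exact Finset.sum_inter_add_sum_sdiff _ _ _
  have s3 : ∀ x, (tp S (fun _ => (J : ℂ)) x).re + (tp (T \ S) (fun _ => (J : ℂ)) x).re =
      (tp (S ∪ T) (fun _ => (J : ℂ)) x).re := fun x => by
    simp only [re_tp]
    rw [← Finset.sum_union Finset.disjoint_sdiff, Finset.union_sdiff_self_eq_union]
  simp only [s1, s2, s3] at key
  have pos : ∀ V : Finset (PontryaginDual G),
      0 < ∫ x, Real.exp (tp V (fun _ => (J : ℂ)) x).re ∂hp G :=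
    fun V => int_pos (Real.continuous_exp.comp (ct V)) fun _ => Real.exp_pos _
  simp only [psi, Lam]
  rw [← Real.log_mul (pos _).ne' (pos _).ne', ← Real.log_mul (pos _).ne' (pos _).ne']
  exact Real.log_le_log (mul_pos (pos _) (pos _)) key

end Pool.Agent.MP_843cf2_an

end

-- part MP_843cf2_an.Kappa
section

set_option autoImplicit false

namespace Pool.Agent.MP_843cf2_an

open MeasureTheory Classical

variable {G : Type*} [CommGroup G] [TopologicalSpace G] [IsTopologicalGroup G] [CompactSpace G]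
  [MeasurableSpace G] [BorelSpace G] {J : ℝ}

lemma psi_mono (hJ : 0 ≤ J) {S T : Finset (PontryaginDual G)} (h : S ⊆ T) :
    psi J S ≤ psi J T := by
  have h1 := psi_supermod hJ S (T \ S)
  rw [Finset.union_sdiff_of_subset h, Finset.inter_sdiff_self, psi_empty] at h1
  have := psi_nonneg hJ (T \ S)
  linarith

lemma psi_lip (hJ : 0 ≤ J) (A B : Finset (PontryaginDual G)) :
    psi J A ≤ psi J B + J * (A \ B).card := by
  have h1 : psi J (A ∩ B) ≤ psi J B := psi_mono hJ Finset.inter_subset_right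
  have h2 : psi J A ≤ psi J (A ∩ B) + J * (A \ B).card := by
    unfold psi Lam
    have hc : ∀ S : Finset (PontryaginDual G),
        Continuous fun x => Real.exp (tp S (fun _ => (J : ℂ)) x).re := fun S => by fun_prop
    have hp0 : ∀ S : Finset (PontryaginDual G),
        0 < ∫ x, Real.exp (tp S (fun _ => (J : ℂ)) x).re ∂hp G :=
      fun S => int_pos (hc S) fun _ => Real.exp_pos _
    rw [← Real.log_exp (J * (A \ B).card), ← Real.log_mul (hp0 _).ne' (Real.exp_pos _).ne',
      ← integral_mul_const]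
    refine Real.log_le_log (hp0 _) (integral_mono (cint (hc _)) ((cint (hc _)).mul_const _)
      fun x => ?_)
    simp only
    rw [← Real.exp_add, Real.exp_le_exp]
    have e : tp A (fun _ => (J : ℂ)) x
        = tp (A ∩ B) (fun _ => (J : ℂ)) x + tp (A \ B) (fun _ => (J : ℂ)) x := by
      unfold tp
      rw [Finset.sum_inter_add_sum_sdiff]
    rw [e, Complex.add_re]
    have h3 := (Complex.re_le_norm _).trans (norm_tp_le (A \ B) (fun _ => (J : ℂ)) x)
    simp only [Complex.norm_real, Real.norm_eq_abs, abs_of_nonneg hJ, Finset.sum_const,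
      nsmul_eq_mul] at h3
    linarith
  linarith

/-- the cut function -/
noncomputable def kap (J : ℝ) (S : Finset (PontryaginDual G)) (T : PontryaginDual G → Prop) : ℝ :=
  psi J S - psi J (S.filter T) - psi J (S.filter fun γ => ¬ T γ)

variable {S : Finset (PontryaginDual G)}

lemma kap_congr {T T' : PontryaginDual G → Prop} (h : ∀ γ ∈ S, T γ ↔ T' γ) :
    kap J S T = kap J S T' := by
  unfold kap
  rw [Finset.filter_congr h, Finset.filter_congr fun γ hγ => not_congr (h γ hγ)]

lemma kap_eq (T : PontryaginDual G → Prop) {A B : Finset (PontryaginDual G)}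
    (hA : ∀ γ, γ ∈ A ↔ γ ∈ S ∧ T γ) (hB : ∀ γ, γ ∈ B ↔ γ ∈ S ∧ ¬ T γ) :
    kap J S T = psi J S - psi J A - psi J B := by
  unfold kap
  congr 3
  · ext γ; simp [hA]
  · ext γ; simp [hB]

lemma kap_not (T : PontryaginDual G → Prop) : kap J S (fun γ => ¬ T γ) = kap J S T := by
  rw [kap_eq (fun γ => ¬ T γ) (A := S.filter fun γ => ¬ T γ) (B := S.filter T) (by simp) (by simp)]
  unfold kap
  ring

lemma kap_nonneg (hJ : 0 ≤ J) (T : PontryaginDual G → Prop) : 0 ≤ kap J S T := by
  have h := psi_supermod hJ (S.filter T) (S.filter fun γ => ¬ T γ)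
  rw [Finset.filter_union_filter_not_eq, Finset.disjoint_iff_inter_eq_empty.1
    (Finset.disjoint_filter_filter_not S S T), psi_empty] at h
  unfold kap
  linarith

lemma kap_and_or (hJ : 0 ≤ J) (T T' : PontryaginDual G → Prop) :
    kap J S (fun γ => T γ ∧ T' γ) + kap J S (fun γ => T γ ∨ T' γ) ≤ kap J S T + kap J S T' := by
  have h1 := psi_supermod hJ (S.filter T) (S.filter T')
  have h2 := psi_supermod hJ (S.filter fun γ => ¬ T γ) (S.filter fun γ => ¬ T' γ)
  have e1 : S.filter T ∪ S.filter T' = S.filter fun γ => T γ ∨ T' γ := by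
    ext γ; simp only [Finset.mem_union, Finset.mem_filter]; tauto
  have e2 : S.filter T ∩ S.filter T' = S.filter fun γ => T γ ∧ T' γ := by
    ext γ; simp only [Finset.mem_inter, Finset.mem_filter]; tauto
  have e3 : (S.filter fun γ => ¬ T γ) ∪ (S.filter fun γ => ¬ T' γ)
      = S.filter fun γ => ¬ (T γ ∧ T' γ) := by
    ext γ; simp only [Finset.mem_union, Finset.mem_filter]; tauto
  have e4 : (S.filter fun γ => ¬ T γ) ∩ (S.filter fun γ => ¬ T' γ)
      = S.filter fun γ => ¬ (T γ ∨ T' γ) := by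
    ext γ; simp only [Finset.mem_inter, Finset.mem_filter]; tauto
  rw [e1, e2] at h1
  rw [e3, e4] at h2
  have a1 : kap J S (fun γ => T γ ∧ T' γ) = psi J S - psi J (S.filter fun γ => T γ ∧ T' γ)
      - psi J (S.filter fun γ => ¬ (T γ ∧ T' γ)) := by
    unfold kap; congr
  have a2 : kap J S (fun γ => T γ ∨ T' γ) = psi J S - psi J (S.filter fun γ => T γ ∨ T' γ)
      - psi J (S.filter fun γ => ¬ (T γ ∨ T' γ)) := by
    unfold kap; congr
  rw [a1, a2]
  unfold kap
  linarith

lemma kap_false : kap J S (fun _ => False) = 0 := by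
  simp [kap, psi_empty]

lemma kap_exists (hJ : 0 ≤ J) {ι : Type*} (V : Finset ι) (T : ι → PontryaginDual G → Prop) :
    kap J S (fun γ => ∃ v ∈ V, T v γ) ≤ ∑ v ∈ V, kap J S (T v) := by
  induction V using Finset.induction_on with
  | empty => rw [kap_congr (T' := fun _ => False) (by simp), kap_false]; simp
  | insert a s ha ih =>
    rw [Finset.sum_insert ha, kap_congr (T' := fun γ => T a γ ∨ ∃ v ∈ s, T v γ) (by simp)]
    have h1 := kap_and_or (S := S) hJ (T a) fun γ => ∃ v ∈ s, T v γ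
    have h2 := kap_nonneg (S := S) hJ fun γ => T a γ ∧ ∃ v ∈ s, T v γ
    linarith

lemma kap_bool (hJ : 0 ≤ J) {ι : Type*} [Fintype ι] (T : ι → PontryaginDual G → Prop)
    (T' : PontryaginDual G → Prop)
    (h : ∀ γ ∈ S, ∀ γ' ∈ S, (∀ i, T i γ ↔ T i γ') → T' γ → T' γ') :
    kap J S T' ≤ 2 ^ Fintype.card ι * ∑ i, kap J S (T i) := by
  let atom : (ι → Prop) → PontryaginDual G → Prop := fun v γ => ∀ i, T i γ ↔ v i
  have h1 : ∀ v, kap J S (atom v) ≤ ∑ i, kap J S (T i) := by
    intro v
    rw [← kap_not, kap_congr (T' := fun γ => ∃ i ∈ Finset.univ, ¬ (T i γ ↔ v i))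
      (by simp [atom])]
    refine (kap_exists hJ _ _).trans (Finset.sum_le_sum fun i _ => le_of_eq ?_)
    rw [kap_not]
    by_cases hv : v i
    · exact kap_congr (by simp [hv])
    · rw [← kap_not (T i)]; exact kap_congr (by simp [hv])
  let V : Finset (ι → Prop) := Finset.univ.filter fun v => ∃ γ ∈ S, T' γ ∧ atom v γ
  rw [kap_congr (T' := fun γ => ∃ v ∈ V, atom v γ)]
  · refine (kap_exists hJ _ _).trans ((Finset.sum_le_card_nsmul _ _ _ fun v _ => h1 v).trans ?_)
    rw [nsmul_eq_mul]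
    refine mul_le_mul_of_nonneg_right ?_ (Finset.sum_nonneg fun i _ => kap_nonneg hJ _)
    have : V.card ≤ 2 ^ Fintype.card ι := by
      refine (Finset.card_filter_le _ _).trans (le_of_eq ?_)
      simp
    exact_mod_cast this
  · intro γ hγ
    constructor
    · intro hT
      refine ⟨fun i => T i γ, ?_, fun i => Iff.rfl⟩
      simp only [V, Finset.mem_filter, Finset.mem_univ, true_and]
      exact ⟨γ, hγ, hT, fun i => Iff.rfl⟩
    · rintro ⟨v, hv, ha⟩
      simp only [V, Finset.mem_filter, Finset.mem_univ, true_and] at hv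
      obtain ⟨γ', hγ', hT, ha'⟩ := hv
      exact h γ' hγ' γ hγ (fun i => (ha' i).trans (ha i).symm) hT

lemma kap_lip (hJ : 0 ≤ J) (T T' : PontryaginDual G → Prop) (D : Finset (PontryaginDual G))
    (h : ∀ γ ∈ S, γ ∉ D → (T γ ↔ T' γ)) : kap J S T ≤ kap J S T' + 2 * J * D.card := by
  have h1 := psi_lip hJ (S.filter T') (S.filter T)
  have h2 := psi_lip hJ (S.filter fun γ => ¬ T' γ) (S.filter fun γ => ¬ T γ)
  have c1 : ((S.filter T' \ S.filter T).card : ℝ) ≤ D.card := by
    refine Nat.cast_le.2 (Finset.card_le_card fun γ hγ => ?_)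
    simp only [Finset.mem_sdiff, Finset.mem_filter] at hγ
    by_contra hD
    have := h γ hγ.1.1 hD
    tauto
  have c2 : (((S.filter fun γ => ¬ T' γ) \ S.filter fun γ => ¬ T γ).card : ℝ) ≤ D.card := by
    refine Nat.cast_le.2 (Finset.card_le_card fun γ hγ => ?_)
    simp only [Finset.mem_sdiff, Finset.mem_filter] at hγ
    by_contra hD
    have := h γ hγ.1.1 hD
    tauto
  have c3 := mul_le_mul_of_nonneg_left c1 hJ
  have c4 := mul_le_mul_of_nonneg_left c2 hJ
  unfold kap
  linarith

lemma QI.psi_le {I : Finset (PontryaginDual G)} (hI : QI I) : psi J I ≤ J ^ 2 * I.card / 2 := by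
  refine (hI.Lam_le _).trans (le_of_eq ?_)
  simp [mul_comm]

lemma excess (hJ : 0 ≤ J) {K : ℕ} (col : PontryaginDual G → ℕ) (h1 : ∀ γ ∈ S, col γ < K)
    (h2 : ∀ i, QI (S.filter fun γ => col γ = i)) :
    psi J S ≤ J ^ 2 * S.card / 2 + ∑ i ∈ Finset.range K, kap J S fun γ => col γ = i := by
  have key : ∀ k, psi J S - psi J (S.filter fun γ => k ≤ col γ)
      ≤ ∑ i ∈ Finset.range k, (psi J (S.filter fun γ => col γ = i)
        + kap J S fun γ => col γ = i) := by
    intro k
    induction k with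
    | zero => simp
    | succ k ih =>
      rw [Finset.sum_range_succ]
      have h := psi_supermod hJ (S.filter fun γ => k ≤ col γ) (S.filter fun γ => ¬ col γ = k)
      have e1 : (S.filter fun γ => k ≤ col γ) ∪ (S.filter fun γ => ¬ col γ = k) = S := by
        ext γ; simp only [Finset.mem_union, Finset.mem_filter]
        constructor
        · tauto
        · intro hγ; by_cases hk : col γ = k
          · exact Or.inl ⟨hγ, hk.ge⟩
          · exact Or.inr ⟨hγ, hk⟩
      have e2 : (S.filter fun γ => k ≤ col γ) ∩ (S.filter fun γ => ¬ col γ = k)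
          = S.filter fun γ => k + 1 ≤ col γ := by
        ext γ; simp only [Finset.mem_inter, Finset.mem_filter]
        constructor
        · rintro ⟨⟨a, b⟩, -, c⟩; exact ⟨a, by omega⟩
        · rintro ⟨a, b⟩; exact ⟨⟨a, by omega⟩, a, by omega⟩
      rw [e1, e2] at h
      have a1 : kap J S (fun γ => col γ = k) = psi J S - psi J (S.filter fun γ => col γ = k)
          - psi J (S.filter fun γ => ¬ col γ = k) := by
        unfold kap; congr
      linarith
  have h3 := key K
  rw [Finset.filter_false_of_mem (fun γ hγ => by have := h1 γ hγ; omega), psi_empty,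
    Finset.sum_add_distrib] at h3
  have h4 : ∑ i ∈ Finset.range K, psi J (S.filter fun γ => col γ = i) ≤ J ^ 2 * S.card / 2 := by
    refine (Finset.sum_le_sum fun i _ => (h2 i).psi_le).trans (le_of_eq ?_)
    rw [← Finset.sum_div, ← Finset.mul_sum, Finset.card_eq_sum_card_fiberwise (f := col)
      (t := Finset.range K) fun γ hγ => by simpa using h1 γ hγ]
    push_cast
    rfl
  linarith

end Pool.Agent.MP_843cf2_an

end

-- part MP_843cf2_an.Sep
section

set_option autoImplicit false

namespace Pool.Agent.MP_843cf2_an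

open MeasureTheory Classical

variable {G : Type*} [CommGroup G] [TopologicalSpace G] [IsTopologicalGroup G] [CompactSpace G]
  [MeasurableSpace G] [BorelSpace G]

/-- Riesz product with a common phase -/
noncomputable def rz (I : Finset (PontryaginDual G)) (δ : ℝ) (k : ℕ) (x : G) : ℝ :=
  ∏ η ∈ I, (1 + δ * (Complex.I ^ k * (starRingEnd ℂ) (ch η x)).re)

omit [IsTopologicalGroup G] [CompactSpace G] [MeasurableSpace G] [BorelSpace G] in
lemma rz_nonneg (I : Finset (PontryaginDual G)) {δ : ℝ} (h0 : 0 ≤ δ) (h1 : δ ≤ 1) (k : ℕ) (x : G) :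
    0 ≤ rz I δ k x := by
  refine Finset.prod_nonneg fun η _ => ?_
  have h : |(Complex.I ^ k * (starRingEnd ℂ) (ch η x)).re| ≤ 1 :=
    (Complex.abs_re_le_norm _).trans (by simp)
  have := abs_le.1 h
  nlinarith

omit [IsTopologicalGroup G] [CompactSpace G] [MeasurableSpace G] [BorelSpace G] in
lemma continuous_rz (I : Finset (PontryaginDual G)) (δ : ℝ) (k : ℕ) : Continuous (rz I δ k) := by
  unfold rz
  fun_prop

omit [IsTopologicalGroup G] [CompactSpace G] [MeasurableSpace G] [BorelSpace G] in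
lemma rz_coe (I : Finset (PontryaginDual G)) (δ : ℝ) (k : ℕ) (x : G) :
    (rz I δ k x : ℂ) = ∏ η ∈ I, (1 + (δ / 2 : ℂ) * (Complex.I ^ k * 1) * (starRingEnd ℂ) (ch η x)
      + (δ / 2 : ℂ) * (starRingEnd ℂ) (Complex.I ^ k * 1) * ch η x) := by
  unfold rz
  push_cast
  refine Finset.prod_congr rfl fun η _ => ?_
  rw [Complex.re_eq_add_conj]
  simp only [map_mul, Complex.conj_conj, mul_one]
  ring

lemma int_rz {I : Finset (PontryaginDual G)} (hI : QI I) (δ : ℝ) (k : ℕ) :
    ∫ x, rz I δ k x ∂hp G = 1 := by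
  have h := hI.int_riesz (fun _ => (δ / 2 : ℂ) * (starRingEnd ℂ) (Complex.I ^ k * 1))
    (fun _ => (δ / 2 : ℂ) * (Complex.I ^ k * 1))
  have h2 : ∫ x, (rz I δ k x : ℂ) ∂hp G = 1 := by
    rw [← h]
    congr 1; funext x; rw [rz_coe]
    exact Finset.prod_congr rfl fun η _ => by ring
  rw [integral_complex_ofReal] at h2
  exact_mod_cast h2

lemma int_rz_ch (I : Finset (PontryaginDual G)) (δ : ℝ) (k : ℕ) (γ : PontryaginDual G) :
    ∫ x, (rz I δ k x : ℂ) * ch γ x ∂hp G = ∑ P ∈ I.powerset, ∑ N ∈ (I \ P).powerset,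
      ((∏ _i ∈ P, ((δ / 2 : ℂ) * (Complex.I ^ k * 1))) *
        ∏ _i ∈ N, ((δ / 2 : ℂ) * (starRingEnd ℂ) (Complex.I ^ k * 1))) *
        ((if γ * ∏ η ∈ N, η = ∏ η ∈ P, η then 1 else 0 : ℝ) : ℂ) := by
  simp only [rz_coe, prod_expand, Finset.sum_mul]
  rw [integral_finsetSum _ fun P _ => cint (by fun_prop)]
  refine Finset.sum_congr rfl fun P _ => ?_
  rw [integral_finsetSum _ fun N _ => cint (by fun_prop)]
  refine Finset.sum_congr rfl fun N _ => ?_
  have e : ∀ x, (∏ η ∈ P, (δ / 2 : ℂ) * (Complex.I ^ k * 1) * (starRingEnd ℂ) (ch η x)) *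
      (∏ η ∈ N, (δ / 2 : ℂ) * (starRingEnd ℂ) (Complex.I ^ k * 1) * ch η x) * ch γ x
      = ((∏ _i ∈ P, ((δ / 2 : ℂ) * (Complex.I ^ k * 1))) *
        ∏ _i ∈ N, ((δ / 2 : ℂ) * (starRingEnd ℂ) (Complex.I ^ k * 1))) *
        ch ((γ * ∏ η ∈ N, η) * (∏ η ∈ P, η)⁻¹) x := by
    intro x
    rw [mul_ch, mul_ch, inv_ch, prod_ch, prod_ch, map_prod,
      Finset.prod_mul_distrib (s := P) (g := fun η => (starRingEnd ℂ) (ch η x)),
      Finset.prod_mul_distrib (s := N) (g := fun η => ch η x)]
    ring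
  simp only [e]
  rw [integral_const_mul, int_ch]
  congr 1
  simp only [mul_inv_eq_one]
  split_ifs <;> simp

/-- the mean of the statistic -/
noncomputable def mu (I : Finset (PontryaginDual G)) (γ : PontryaginDual G) : ℝ :=
  (1 / 4) * ∑ k ∈ Finset.range 4,
    ∫ x, rz I (1 / 10) k x * ((-Complex.I) ^ k * ch γ x).re ∂hp G

lemma mu_bound {I : Finset (PontryaginDual G)} (hI : QI I) (γ : PontryaginDual G) :
    |mu I γ - (if γ ∈ I then 1 / 20 else 0)| ≤ 1 / 100 := by
  have h1 : ∑ P ∈ I.powerset, ∑ N ∈ (I \ P).powerset, (1 / 2 : ℝ) ^ (P.card + N.card) *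
      (if γ * ∏ η ∈ N, η = ∏ η ∈ P, η then 1 else 0 : ℝ) ≤ 1 := by
    have a1 := int_rz_ch I 1 0 γ
    have a2 : ‖∫ x, (rz I 1 0 x : ℂ) * ch γ x ∂hp G‖ ≤ 1 := by
      refine (norm_integral_le_integral_norm _).trans (le_of_eq (Eq.trans ?_ (int_rz hI 1 0)))
      congr 1; funext x
      simp [abs_of_nonneg (rz_nonneg I zero_le_one le_rfl 0 x)]
    have a3 : ((∑ P ∈ I.powerset, ∑ N ∈ (I \ P).powerset, (1 / 2 : ℝ) ^ (P.card + N.card) *
        (if γ * ∏ η ∈ N, η = ∏ η ∈ P, η then 1 else 0 : ℝ) : ℝ) : ℂ)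
        = ∫ x, (rz I 1 0 x : ℂ) * ch γ x ∂hp G := by
      rw [a1]
      push_cast
      refine Finset.sum_congr rfl fun P _ => Finset.sum_congr rfl fun N _ => ?_
      simp [pow_add]
    rw [← a3, Complex.norm_real] at a2
    exact (le_abs_self _).trans a2
  have h2 := first_order I (fun P N => if γ * ∏ η ∈ N, η = ∏ η ∈ P, η then 1 else 0)
    (fun P N => by split_ifs <;> norm_num) h1 (fun _ => 1) (by simp) (δ := 1 / 10) (by norm_num)
    (by norm_num)
  simp only [← int_rz_ch] at h2
  have h3 := (Complex.abs_re_le_norm _).trans h2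
  refine le_trans (le_of_eq ?_) (h3.trans (by norm_num))
  congr 1
  rw [Complex.sub_re]
  congr 1
  · unfold mu
    have : (1 / 4 : ℂ) = ((1 / 4 : ℝ) : ℂ) := by push_cast; rfl
    rw [this, Complex.re_ofReal_mul, Complex.re_sum]
    congr 1
    refine Finset.sum_congr rfl fun k _ => ?_
    have hc := Complex.continuous_ofReal.comp (continuous_rz I (1 / 10) k)
    have e2 := integral_re (cint (f := fun x => (-Complex.I) ^ k *
      ((rz I (1 / 10) k x : ℂ) * ch γ x)) (continuous_const.mul (hc.mul (continuous_ch γ))))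
    simp only [RCLike.re_to_complex] at e2
    rw [← integral_const_mul, ← e2]
    congr 1; funext x
    rw [mul_left_comm, Complex.re_ofReal_mul]
  · simp only [Finset.prod_empty, mul_one, Finset.prod_singleton, one_mul]
    have : ∑ i ∈ I, ((if γ = i then 1 else 0 : ℝ) : ℂ) = ((if γ ∈ I then 1 else 0 : ℝ) : ℂ) := by
      rw [← Complex.ofReal_sum, Finset.sum_ite_eq]
    rw [this]
    split_ifs <;> simp <;> norm_num

lemma sep_step {I : Finset (PontryaginDual G)} (hI : QI I) (S : Finset (PontryaginDual G))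
    (v : PontryaginDual G → ℝ) : ∃ (x : G) (u : ℂ), ‖u‖ ≤ 1 ∧
      ∑ γ ∈ S, (v γ + ((u * ch γ x).re - mu I γ)) ^ 2 ≤ ∑ γ ∈ S, v γ ^ 2 + S.card := by
  let f : ℕ → G → ℝ := fun k x => ∑ γ ∈ S, (v γ + (((-Complex.I) ^ k * ch γ x).re - mu I γ)) ^ 2
  have hf : ∀ k, Continuous (f k) := fun k => by fun_prop
  have hmin : ∀ k, ∃ x, f k x ≤ ∫ y, rz I (1 / 10) k y * f k y ∂hp G := by
    intro k
    obtain ⟨x, -, hx⟩ := isCompact_univ.exists_isMinOn Set.univ_nonempty (hf k).continuousOn
    refine ⟨x, ?_⟩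
    calc f k x = ∫ y, rz I (1 / 10) k y * f k x ∂hp G := by
          rw [integral_mul_const, int_rz hI, one_mul]
      _ ≤ _ := integral_mono (cint ((continuous_rz _ _ _).mul continuous_const))
          (cint ((continuous_rz _ _ _).mul (hf k))) fun y =>
          mul_le_mul_of_nonneg_left (hx (Set.mem_univ y))
            (rz_nonneg I (by norm_num) (by norm_num) k y)
  choose x hx using hmin
  have hb : ∀ k, ∫ y, rz I (1 / 10) k y * f k y ∂hp G ≤ ∑ γ ∈ S, ((v γ - mu I γ) ^ 2 + 1 +
      2 * (v γ - mu I γ) * ∫ y, rz I (1 / 10) k y * ((-Complex.I) ^ k * ch γ y).re ∂hp G) := by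
    intro k
    have hr := continuous_rz I (1 / 10) k
    simp only [f, Finset.mul_sum]
    rw [integral_finsetSum _ fun γ _ => cint (by fun_prop)]
    refine Finset.sum_le_sum fun γ _ => ?_
    calc _ ≤ ∫ y, (((v γ - mu I γ) ^ 2 + 1) * rz I (1 / 10) k y + 2 * (v γ - mu I γ) *
          (rz I (1 / 10) k y * ((-Complex.I) ^ k * ch γ y).re)) ∂hp G := by
          refine integral_mono (cint (by fun_prop)) (cint (by fun_prop)) fun y => ?_
          have h0 := rz_nonneg I (δ := 1 / 10) (by norm_num) (by norm_num) k y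
          have h : |((-Complex.I) ^ k * ch γ y).re| ≤ 1 :=
            (Complex.abs_re_le_norm _).trans (by simp)
          have h2 : ((-Complex.I) ^ k * ch γ y).re ^ 2 ≤ 1 := by
            rw [← sq_abs]; nlinarith [abs_nonneg ((-Complex.I) ^ k * ch γ y).re]
          have h3 := mul_le_mul_of_nonneg_left h2 h0
          simp only
          nlinarith
      _ = _ := by
          rw [integral_add (cint (by fun_prop)) (cint (by fun_prop)), integral_const_mul,
            integral_const_mul, int_rz hI, mul_one]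
  have hs : ∑ k ∈ Finset.range 4, f k (x k)
      ≤ ∑ _k ∈ Finset.range 4, (∑ γ ∈ S, v γ ^ 2 + S.card) := by
    refine (Finset.sum_le_sum fun k _ => (hx k).trans (hb k)).trans ?_
    rw [Finset.sum_comm, Finset.sum_const, Finset.card_range, Finset.card_eq_sum_ones S]
    push_cast
    rw [← Finset.sum_add_distrib, nsmul_eq_mul, Finset.mul_sum]
    refine Finset.sum_le_sum fun γ _ => ?_
    rw [Finset.sum_add_distrib, ← Finset.mul_sum]
    have : ∑ k ∈ Finset.range 4, ∫ y, rz I (1 / 10) k y * ((-Complex.I) ^ k * ch γ y).re ∂hp G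
        = 4 * mu I γ := by unfold mu; ring
    rw [this]
    simp only [Finset.sum_const, Finset.card_range, nsmul_eq_mul]
    push_cast
    nlinarith [sq_nonneg (mu I γ)]
  obtain ⟨k, -, hk⟩ := Finset.exists_le_of_sum_le (by simp) hs
  exact ⟨x k, (-Complex.I) ^ k, by simp, hk⟩

lemma sep {I : Finset (PontryaginDual G)} (hI : QI I) (S : Finset (PontryaginDual G)) (L : ℕ) :
    ∃ (x : Fin L → G) (u : Fin L → ℂ), (∀ l, ‖u l‖ ≤ 1) ∧
      ∑ γ ∈ S, (∑ l, ((u l * ch γ (x l)).re - mu I γ)) ^ 2 ≤ L * S.card := by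
  induction L with
  | zero => exact ⟨Fin.elim0, Fin.elim0, fun l => l.elim0, by simp⟩
  | succ L ih =>
    obtain ⟨x, u, hu, h⟩ := ih
    obtain ⟨y, w, hw, h2⟩ := sep_step hI S fun γ => ∑ l, ((u l * ch γ (x l)).re - mu I γ)
    refine ⟨Fin.cons y x, Fin.cons w u, fun l => Fin.cases (by simpa using hw) (by simpa using hu) l,
      ?_⟩
    simp only [Fin.sum_univ_succ, Fin.cons_zero, Fin.cons_succ]
    push_cast
    calc _ = ∑ γ ∈ S, (∑ l, ((u l * ch γ (x l)).re - mu I γ) + ((w * ch γ y).re - mu I γ)) ^ 2 :=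
          Finset.sum_congr rfl fun γ _ => by ring
      _ ≤ _ := by linarith

end Pool.Agent.MP_843cf2_an

end

-- part MP_843cf2_an.Gain
section

set_option autoImplicit false

namespace Pool.Agent.MP_843cf2_an

open MeasureTheory Classical

variable {G : Type*} [CommGroup G] [TopologicalSpace G] [IsTopologicalGroup G] [CompactSpace G]
  [MeasurableSpace G] [BorelSpace G]

/-- the family of labels -/
noncomputable def lab (Q : ℕ) (b : G) (t : Fin Q × Bool × Fin 1600) : Lab G :=
  ⟨b, t.2.1, ((t.2.2 : ℕ) * Q + (t.1 : ℕ) : ℝ) / (400 * Q) - 2⟩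

omit [CommGroup G] [TopologicalSpace G] [IsTopologicalGroup G] [CompactSpace G]
  [MeasurableSpace G] [BorelSpace G] in
lemma lab_tau {Q : ℕ} (b : G) (t : Fin Q × Bool × Fin 1600) : |(lab Q b t).τ| ≤ 2 := by
  have hQ : (0 : ℝ) < Q := by exact_mod_cast t.1.pos
  have h1 : ((t.2.2 : ℕ) : ℝ) + 1 ≤ 1600 := by exact_mod_cast t.2.2.2
  have h2 : ((t.1 : ℕ) : ℝ) ≤ Q := by exact_mod_cast t.1.2.le
  have h3 : (((t.2.2 : ℕ) * Q + (t.1 : ℕ) : ℝ)) / (400 * Q) ≤ 4 := by
    rw [div_le_iff₀ (by positivity)]; nlinarith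
  have h4 : 0 ≤ (((t.2.2 : ℕ) * Q + (t.1 : ℕ) : ℝ)) / (400 * Q) := by positivity
  simp only [lab]
  exact abs_le.2 ⟨by linarith, by linarith⟩

lemma grid {Q : ℕ} (r : Fin Q) {y y' : ℝ} (hy : |y| ≤ 1) (hy' : |y'| ≤ 1)
    (h : ∀ k : Fin 1600, 0 < y' - (((k : ℕ) * Q + (r : ℕ) : ℝ) / (400 * Q) - 2) →
      0 < y - (((k : ℕ) * Q + (r : ℕ) : ℝ) / (400 * Q) - 2)) : y' - y ≤ 1 / 400 := by
  by_contra hc
  push Not at hc
  have hQ : (0 : ℝ) < Q := by exact_mod_cast r.pos
  have h2 : ((r : ℕ) : ℝ) ≤ Q := by exact_mod_cast r.2.le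
  have h0 : (0 : ℝ) ≤ (r : ℕ) / Q := by positivity
  have h1 : ((r : ℕ) : ℝ) / Q ≤ 1 := (div_le_one hQ).2 h2
  obtain ⟨a1, a2⟩ := abs_le.1 hy
  obtain ⟨a3, a4⟩ := abs_le.1 hy'
  set z : ℝ := 400 * (y + 2) - (r : ℕ) / Q with hz
  have hz0 : 0 ≤ z := by linarith
  have b1 := Nat.le_ceil z
  have b2 := Nat.ceil_lt_add_one hz0
  have b3 : ⌈z⌉₊ < 1600 := by
    have : (⌈z⌉₊ : ℝ) < 1600 := by linarith
    exact_mod_cast this
  have e : ((⌈z⌉₊ * Q + (r : ℕ) : ℝ)) / (400 * Q) = (⌈z⌉₊ + (r : ℕ) / Q) / 400 := by field_simp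
  have := h ⟨⌈z⌉₊, b3⟩
  simp only [e] at this
  have := this (by linarith)
  linarith

omit [IsTopologicalGroup G] [CompactSpace G] [MeasurableSpace G] [BorelSpace G] in
lemma close_of_same {Q : ℕ} (r : Fin Q) (b : G) {γ γ' : PontryaginDual G}
    (h : ∀ (i : Bool) (k : Fin 1600),
      0 < (lab Q b (r, i, k)).val γ ↔ 0 < (lab Q b (r, i, k)).val γ') :
    ‖ch γ b - ch γ' b‖ ≤ 1 / 200 := by
  have r1 := grid r (abs_re_ch γ b) (abs_re_ch γ' b) fun k => (h false k).2
  have r2 := grid r (abs_re_ch γ' b) (abs_re_ch γ b) fun k => (h false k).1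
  have r3 := grid r (abs_im_ch γ b) (abs_im_ch γ' b) fun k => (h true k).2
  have r4 := grid r (abs_im_ch γ' b) (abs_im_ch γ b) fun k => (h true k).1
  refine (Complex.norm_le_abs_re_add_abs_im _).trans ?_
  have a1 : |(ch γ b - ch γ' b).re| ≤ 1 / 400 := by
    rw [Complex.sub_re]; exact abs_le.2 ⟨by linarith, by linarith⟩
  have a2 : |(ch γ b - ch γ' b).im| ≤ 1 / 400 := by
    rw [Complex.sub_im]; exact abs_le.2 ⟨by linarith, by linarith⟩
  linarith

omit [IsTopologicalGroup G] [CompactSpace G] [MeasurableSpace G] [BorelSpace G] in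
lemma bad_count {Q : ℕ} (b : G) (γ : PontryaginDual G) :
    (Finset.univ.filter fun t : Fin Q × Bool × Fin 1600 =>
      |(lab Q b t).val γ| < 1 / (800 * Q)).card ≤ 2 := by
  have : (Finset.univ : Finset Bool).card = 2 := rfl
  rw [← this]
  refine Finset.card_le_card_of_injOn (fun t => t.2.1) (fun _ _ => Finset.mem_univ _) ?_
  rintro ⟨r, i, k⟩ h ⟨r', i', k'⟩ h' e
  simp only at e
  subst e
  replace h := (Finset.mem_filter.1 (Finset.mem_coe.1 h)).2
  replace h' := (Finset.mem_filter.1 (Finset.mem_coe.1 h')).2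
  simp only [lab, Lab.val] at h h'
  have hQ : (0 : ℝ) < Q := by exact_mod_cast r.pos
  obtain ⟨a1, a3⟩ := abs_lt.1 h
  obtain ⟨a2, a4⟩ := abs_lt.1 h'
  have hw : (0 : ℝ) < 400 * Q := by positivity
  have b1 : ((k : ℕ) * Q + (r : ℕ) : ℝ) < (k' : ℕ) * Q + (r' : ℕ) + 1 := by
    have : ((k : ℕ) * Q + (r : ℕ) : ℝ) / (400 * Q) < ((k' : ℕ) * Q + (r' : ℕ) + 1) / (400 * Q) := by
      rw [add_div _ (1 : ℝ)]
      have : (1 : ℝ) / (400 * Q) = 2 * (1 / (800 * Q)) := by field_simp; ring
      linarith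
    exact (div_lt_div_iff_of_pos_right hw).1 this
  have b2 : ((k' : ℕ) * Q + (r' : ℕ) : ℝ) < (k : ℕ) * Q + (r : ℕ) + 1 := by
    have : ((k' : ℕ) * Q + (r' : ℕ) : ℝ) / (400 * Q) < ((k : ℕ) * Q + (r : ℕ) + 1) / (400 * Q) := by
      rw [add_div _ (1 : ℝ)]
      have : (1 : ℝ) / (400 * Q) = 2 * (1 / (800 * Q)) := by field_simp; ring
      linarith
    exact (div_lt_div_iff_of_pos_right hw).1 this
  have c1 : (k : ℕ) * Q + (r : ℕ) < (k' : ℕ) * Q + (r' : ℕ) + 1 := by exact_mod_cast b1
  have c2 : (k' : ℕ) * Q + (r' : ℕ) < (k : ℕ) * Q + (r : ℕ) + 1 := by exact_mod_cast b2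
  have c3 : (k : ℕ) * Q + (r : ℕ) = (k' : ℕ) * Q + (r' : ℕ) := by omega
  have d1 : (r : ℕ) = r' := by
    have := congrArg (· % Q) c3
    simpa [Nat.mul_add_mod', Nat.mod_eq_of_lt r.2, Nat.mod_eq_of_lt r'.2] using this
  have d2 : (k : ℕ) = k' := by
    rw [d1] at c3
    exact Nat.eq_of_mul_eq_mul_right r.pos (by omega)
  rw [Fin.ext d1, Fin.ext d2]

lemma integrable_filter (S : Finset (PontryaginDual G)) (g : Finset (PontryaginDual G) → ℝ)
    (p : G → PontryaginDual G → Prop) (hp' : ∀ γ, MeasurableSet {b | p b γ}) :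
    Integrable (fun b => g (S.filter (p b))) (hp G) := by
  have e : (fun b => g (S.filter (p b))) = fun b => ∑ T ∈ S.powerset,
      Set.indicator {b | S.filter (p b) = T} (fun _ => g T) b := by
    funext b
    simp only [Set.indicator, Set.mem_ofPred_eq]
    rw [Finset.sum_ite_eq]
    simp
  rw [e]
  refine integrable_finsetSum _ fun T hT => (integrable_const _).indicator ?_
  have : {b | S.filter (p b) = T} = ⋂ γ ∈ S, if γ ∈ T then {b | p b γ} else {b | p b γ}ᶜ := by
    ext b
    simp only [Set.mem_ofPred_eq, Set.mem_iInter]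
    constructor
    · rintro rfl γ hγ
      by_cases h : p b γ <;> simp [hγ, h]
    · intro h
      ext γ
      simp only [Finset.mem_filter]
      constructor
      · rintro ⟨h1, h2⟩
        by_contra h3
        have := h γ h1
        simp [h3, h2] at this
      · intro h1
        have h2 := Finset.mem_powerset.1 hT h1
        have := h γ h2
        simp only [h1, if_true] at this
        exact ⟨h2, this⟩
  rw [this]
  refine Finset.measurableSet_biInter _ fun γ _ => ?_
  split_ifs
  · exact hp' γ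
  · exact (hp' γ).compl

lemma integrable_kap (J : ℝ) (S : Finset (PontryaginDual G)) {Q : ℕ} (t : Fin Q × Bool × Fin 1600)
    {f : G → G} (hf : Continuous f) :
    Integrable (fun b => kap J S fun γ => 0 < (lab Q (f b) t).val γ) (hp G) := by
  have hm : ∀ γ : PontryaginDual G, MeasurableSet {b | 0 < (lab Q (f b) t).val γ} := by
    intro γ
    refine (isOpen_lt continuous_const ?_).measurableSet
    obtain ⟨r, i, k⟩ := t
    cases i
    · simp only [lab, Lab.val, Bool.false_eq_true, if_false]; fun_prop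
    · simp only [lab, Lab.val, if_true]; fun_prop
  have h := integrable_filter S (fun T => psi J S - psi J T - psi J (S \ T))
    (fun b γ => 0 < (lab Q (f b) t).val γ) hm
  refine h.congr (Filter.Eventually.of_forall fun b => ?_)
  refine (kap_eq _ (by simp) fun γ => ?_).symm
  simp only [Finset.mem_sdiff, Finset.mem_filter]
  tauto

lemma gain_one {J : ℝ} (hJ : 0 ≤ J) {L : ℕ} (hL : 1 ≤ L) {Q : ℕ} (r : Fin Q)
    (S : Finset (PontryaginDual G)) (T : PontryaginDual G → Prop) (hT : QI (S.filter T)) :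
    kap J S T ≤ 2 * J * (40000 * S.card / L) + 2 ^ (L * 6400) * (2 * L) *
      ∑ t : Bool × Fin 1600, ∫ b, kap J S (fun γ => 0 < (lab Q b (r, t)).val γ) ∂hp G := by
  obtain ⟨x, u, hu, hvar⟩ := sep hT S L
  have hL0 : (0 : ℝ) < L := by exact_mod_cast hL
  set st : PontryaginDual G → ℝ := fun γ => ∑ l, (u l * ch γ (x l)).re with hst
  set D := S.filter fun γ => (L : ℝ) / 200 ≤ |st γ - L * mu (S.filter T) γ| with hD
  have hDc : (D.card : ℝ) ≤ 40000 * S.card / L := by
    have h1 : (D.card : ℝ) * ((L : ℝ) / 200) ^ 2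
        ≤ ∑ γ ∈ S, (∑ l, ((u l * ch γ (x l)).re - mu (S.filter T) γ)) ^ 2 := by
      rw [← nsmul_eq_mul]
      refine le_trans (Finset.card_nsmul_le_sum _ _ _ fun γ hγ => ?_)
        (Finset.sum_le_sum_of_subset_of_nonneg (Finset.filter_subset _ _) fun _ _ _ => sq_nonneg _)
      have h2 := (Finset.mem_filter.1 hγ).2
      have h3 : ∑ l, ((u l * ch γ (x l)).re - mu (S.filter T) γ)
          = st γ - L * mu (S.filter T) γ := by
        rw [Finset.sum_sub_distrib]; simp [hst]
      rw [h3, ← sq_abs (st γ - _)]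
      gcongr
    rw [le_div_iff₀ hL0]
    have h4 := h1.trans hvar
    have h5 : (D.card : ℝ) * L * L ≤ 40000 * S.card * L := by nlinarith
    exact le_of_mul_le_mul_right h5 hL0
  let pt : G → Fin L × Bool → G := fun b w => if w.2 then b else x w.1 * b⁻¹
  have hpt : ∀ w, Continuous fun b => pt b w := by
    rintro ⟨l, i⟩
    cases i
    · simp only [pt, Bool.false_eq_true, if_false]; fun_prop
    · simp only [pt, if_true]; fun_prop
  have key : ∀ b, kap J S T ≤ 2 * J * (40000 * S.card / L) + 2 ^ (L * 6400) *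
      ∑ i : (Fin L × Bool) × Bool × Fin 1600,
        kap J S fun γ => 0 < (lab Q (pt b i.1) (r, i.2)).val γ := by
    intro b
    let C : (Fin L × Bool) × Bool × Fin 1600 → PontryaginDual G → Prop :=
      fun i γ => 0 < (lab Q (pt b i.1) (r, i.2)).val γ
    let T' : PontryaginDual G → Prop :=
      fun γ => ∃ γ' ∈ S, (∀ i, C i γ ↔ C i γ') ∧ 3 / 100 * L ≤ st γ'
    have h1 := kap_bool (S := S) hJ C T' (by
      rintro γ - γ' - h ⟨η, h1, h2, h3⟩
      exact ⟨η, h1, fun i => (h i).symm.trans (h2 i), h3⟩)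
    have hcard : Fintype.card ((Fin L × Bool) × Bool × Fin 1600) = L * 6400 := by
      simp only [Fintype.card_prod, Fintype.card_fin, Fintype.card_bool]; ring
    rw [hcard] at h1
    have hclose : ∀ γ γ', (∀ i, C i γ ↔ C i γ') → st γ' - st γ ≤ L / 100 := by
      intro γ γ' h
      have a1 : ∀ l, (u l * ch γ' (x l)).re - (u l * ch γ (x l)).re ≤ 1 / 100 := by
        intro l
        have b1 := close_of_same r (pt b (l, true)) fun i k => h ((l, true), i, k)
        have b2 := close_of_same r (pt b (l, false)) fun i k => h ((l, false), i, k)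
        simp only [pt, if_true, Bool.false_eq_true, if_false] at b1 b2
        have b3 : ∀ η : PontryaginDual G, ch η (x l) = ch η (x l * b⁻¹) * ch η b := fun η => by
          rw [← ch_mul, inv_mul_cancel_right]
        have b4 : u l * ch γ' (x l) - u l * ch γ (x l) = -(u l *
            ((ch γ (x l * b⁻¹) - ch γ' (x l * b⁻¹)) * ch γ b
              + ch γ' (x l * b⁻¹) * (ch γ b - ch γ' b))) := by
          rw [b3 γ, b3 γ']; ring
        rw [← Complex.sub_re]
        refine (Complex.re_le_norm _).trans ?_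
        rw [b4, norm_neg, norm_mul]
        have b5 := norm_add_le ((ch γ (x l * b⁻¹) - ch γ' (x l * b⁻¹)) * ch γ b)
          (ch γ' (x l * b⁻¹) * (ch γ b - ch γ' b))
        rw [norm_mul, norm_mul, norm_ch, norm_ch] at b5
        have b6 := mul_le_mul (hu l) b5 (norm_nonneg _) zero_le_one
        linarith
      rw [hst]
      simp only
      rw [← Finset.sum_sub_distrib]
      refine (Finset.sum_le_sum fun l _ => a1 l).trans (le_of_eq ?_)
      simp; ring
    have h2 := kap_lip (S := S) hJ T T' D (by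
      intro γ hγ hγD
      have a1 : |st γ - L * mu (S.filter T) γ| < L / 200 := by
        by_contra hc
        exact hγD (Finset.mem_filter.2 ⟨hγ, not_lt.1 hc⟩)
      obtain ⟨a2, a3⟩ := abs_lt.1 a1
      have a4 := mu_bound hT γ
      constructor
      · intro h
        rw [if_pos (Finset.mem_filter.2 ⟨hγ, h⟩)] at a4
        obtain ⟨a5, a6⟩ := abs_le.1 a4
        exact ⟨γ, hγ, fun _ => Iff.rfl, by nlinarith⟩
      · rintro ⟨γ', -, h1, h2⟩
        by_contra h
        rw [if_neg fun h' => h (Finset.mem_filter.1 h').2] at a4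
        obtain ⟨a5, a6⟩ := abs_le.1 a4
        have := hclose γ γ' h1
        nlinarith)
    have h3 : 2 * J * D.card ≤ 2 * J * (40000 * S.card / L) := by gcongr
    linarith
  have hint : ∀ i : (Fin L × Bool) × Bool × Fin 1600, Integrable
      (fun b => kap J S fun γ => 0 < (lab Q (pt b i.1) (r, i.2)).val γ) (hp G) :=
    fun i => integrable_kap J S (r, i.2) (hpt i.1)
  have h4 := integral_mono (μ := hp G) (integrable_const (kap J S T))
    ((integrable_const _).add ((integrable_finsetSum Finset.univ fun i _ => hint i).const_mul _)) key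
  simp only [Pi.add_apply] at h4
  rw [integral_add (integrable_const _)
    ((integrable_finsetSum Finset.univ fun i _ => hint i).const_mul _), integral_const_mul (2 ^ (L * 6400)),
    integral_finsetSum _ fun i _ => hint i] at h4
  simp only [integral_const, probReal_univ, smul_eq_mul, one_mul] at h4
  refine h4.trans (le_of_eq ?_)
  rw [mul_assoc (2 ^ _ : ℝ), Fintype.sum_prod_type]
  congr 2
  have h5 : ∀ (w : Fin L × Bool) (t : Bool × Fin 1600),
      ∫ b, kap J S (fun γ => 0 < (lab Q (pt b w) (r, t)).val γ) ∂hp G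
        = ∫ b, kap J S (fun γ => 0 < (lab Q b (r, t)).val γ) ∂hp G := by
    rintro ⟨l, i⟩ t
    cases i
    · exact int_mul_inv (fun b => kap J S fun γ => 0 < (lab Q b (r, t)).val γ) (x l)
    · rfl
  simp only [h5, Finset.sum_const, Finset.card_univ, Fintype.card_prod, Fintype.card_fin,
    Fintype.card_bool, nsmul_eq_mul]
  push_cast
  ring

lemma gain {J : ℝ} (hJ : 0 < J) (K : ℕ) : ∃ c : ℝ, 0 < c ∧ c ≤ 1 ∧ ∀ (Q : ℕ)
    (S : Finset (PontryaginDual G)), Cov K S → 3200 * Q * c * (psi J S - J ^ 2 * S.card)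
      ≤ ∑ t : Fin Q × Bool × Fin 1600, ∫ b, kap J S (fun γ => 0 < (lab Q b t).val γ) ∂hp G := by
  obtain ⟨L, hL⟩ := exists_nat_ge (160000 * K / J + 1)
  have hL1 : (1 : ℝ) ≤ L := by
    have : 0 ≤ 160000 * K / J := by positivity
    linarith
  have hL1' : 1 ≤ L := by exact_mod_cast hL1
  set E : ℝ := 2 ^ (L * 6400) * (2 * L) with hE
  have hE1 : 1 ≤ E := by
    have : (1 : ℝ) ≤ 2 ^ (L * 6400) := one_le_pow₀ (by norm_num)
    nlinarith
  have hK0 : (0 : ℝ) ≤ K := by positivity
  refine ⟨1 / (3200 * ((K + 1) * E)), by positivity, ?_, fun Q S hS => ?_⟩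
  · rw [div_le_one (by positivity)]; nlinarith
  obtain ⟨col, h1, h2⟩ := hS
  have h3 := excess hJ.le col h1 h2
  set A : Fin Q → ℝ := fun r =>
    ∑ t : Bool × Fin 1600, ∫ b, kap J S (fun γ => 0 < (lab Q b (r, t)).val γ) ∂hp G with hA
  have hA0 : ∀ r, 0 ≤ A r := fun r =>
    Finset.sum_nonneg fun t _ => integral_nonneg fun b => kap_nonneg hJ.le _
  have h4 : ∀ r, psi J S - J ^ 2 * S.card ≤ (K + 1) * E * A r := by
    intro r
    have a1 : ∑ i ∈ Finset.range K, kap J S (fun γ => col γ = i)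
        ≤ ∑ _i ∈ Finset.range K, (2 * J * (40000 * S.card / L) + E * A r) :=
      Finset.sum_le_sum fun i _ => gain_one hJ.le hL1' r S _ (by
        refine (h2 i).mono fun γ hγ => ?_
        simpa using hγ)
    rw [Finset.sum_const, Finset.card_range, nsmul_eq_mul] at a1
    have a2 : (K : ℝ) * (2 * J * (40000 * S.card / L)) ≤ J ^ 2 * S.card / 2 := by
      have b1 : 160000 * K ≤ J * L := by
        have : 160000 * K / J ≤ L := by linarith
        rw [div_le_iff₀ hJ] at this; linarith
      have b2 : (K : ℝ) * (2 * J * (40000 * S.card / L)) = J * S.card / 2 * (160000 * K / L) := by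
        field_simp; ring
      have b3 : 160000 * K / (L : ℝ) ≤ J := by rw [div_le_iff₀ (by linarith)]; exact b1
      rw [b2]
      calc _ ≤ J * S.card / 2 * J := by gcongr
        _ = _ := by ring
    have a3 : 0 ≤ E * A r := mul_nonneg (by linarith) (hA0 r)
    nlinarith
  rw [Fintype.sum_prod_type]
  have h5 : ∑ _r : Fin Q, (psi J S - J ^ 2 * S.card) ≤ ∑ r, (K + 1) * E * A r :=
    Finset.sum_le_sum fun r _ => h4 r
  rw [← Finset.mul_sum, Finset.sum_const, Finset.card_univ, Fintype.card_fin, nsmul_eq_mul] at h5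
  have h6 : (0 : ℝ) < (K + 1) * E := by positivity
  have h7 : 3200 * (Q : ℝ) * (1 / (3200 * ((K + 1) * E))) * (psi J S - J ^ 2 * S.card)
      = Q * (psi J S - J ^ 2 * S.card) / ((K + 1) * E) := by field_simp
  rw [h7, div_le_iff₀ h6]
  linarith

end Pool.Agent.MP_843cf2_an

end

-- part MP_843cf2_an.Split
section

set_option autoImplicit false

namespace Pool.Agent.MP_843cf2_an

open MeasureTheory Classical

section
variable {G : Type*} [CommGroup G] [TopologicalSpace G] {e : ℝ}

lemma Good.mono {L : List (Lab G)} {k : ℕ} : ∀ {S T : Finset (PontryaginDual G)},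
    Good e L k T → S ⊆ T → Good e L k S := by
  induction L with
  | nil => exact fun h hST => Cov.mono h hST
  | cons l L ih =>
    exact fun h hST => ⟨fun γ hγ => h.1 γ (hST hγ), ih h.2.1 (Finset.filter_subset_filter _ hST),
      ih h.2.2 (Finset.filter_subset_filter _ hST)⟩

lemma good_empty (L : List (Lab G)) (k : ℕ) : Good e L k (∅ : Finset (PontryaginDual G)) := by
  induction L with
  | nil => exact cov_empty k
  | cons l L ih => exact ⟨by simp, by simpa using ih, by simpa using ih⟩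

lemma Good.union {L : List (Lab G)} {k k' : ℕ} : ∀ {S T : Finset (PontryaginDual G)},
    Good e L k S → Good e L k' T → Good e L (k + k') (S ∪ T) := by
  induction L with
  | nil => exact fun h h' => Cov.union h h'
  | cons l L ih =>
    refine fun h h' => ⟨fun γ hγ => (Finset.mem_union.1 hγ).elim (h.1 γ) (h'.1 γ), ?_, ?_⟩
    · rw [Finset.filter_union]; exact ih h.2.1 h'.2.1
    · rw [Finset.filter_union]; exact ih h.2.2 h'.2.2

lemma good_biUnion {ι : Type*} {L : List (Lab G)} (s : Finset ι) (U : ι → Finset (PontryaginDual G))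
    (h : ∀ i, Good e L 1 (U i)) : Good e L s.card (s.biUnion U) := by
  induction s using Finset.induction_on with
  | empty => simpa using good_empty L 0
  | insert a s ha ih =>
    rw [Finset.biUnion_insert, Finset.card_insert_of_notMem ha, add_comm]
    exact (h a).union ih

/-- the two halves of a block -/
noncomputable def half (l : Lab G) (S : Finset (PontryaginDual G)) (w : Bool) :
    Finset (PontryaginDual G) :=
  if w then S.filter fun γ => 0 < l.val γ else S.filter fun γ => ¬ 0 < l.val γ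

lemma half_subset (l : Lab G) (S : Finset (PontryaginDual G)) (w : Bool) : half l S w ⊆ S := by
  unfold half; split_ifs <;> exact Finset.filter_subset _ _

lemma half_card (l : Lab G) (S : Finset (PontryaginDual G)) :
    ((half l S true).card : ℝ) + (half l S false).card = S.card := by
  have := Finset.card_filter_add_card_filter_not (s := S) fun γ => 0 < l.val γ
  simp only [half, if_true, Bool.false_eq_true, if_false]
  exact_mod_cast this

lemma good_combine {ι : Type*} [Fintype ι] (l : Lab G) (B : ι → Finset (PontryaginDual G))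
    (hB : ∀ i, ∀ γ ∈ B i, e ≤ |l.val γ|) {L : List (Lab G)} {k : ℕ}
    (V : ι × Bool → Finset (PontryaginDual G)) (h1 : ∀ p, V p ⊆ half l (B p.1) p.2)
    (h2 : ∀ p, Good e L k (V p)) : ∃ U : ι → Finset (PontryaginDual G), (∀ i, U i ⊆ B i) ∧
      (∀ i, Good e (l :: L) k (U i)) ∧ ∑ i, ((U i).card : ℝ) = ∑ p, ((V p).card : ℝ) := by
  have ht : ∀ i, ∀ γ ∈ V (i, true), 0 < l.val γ := fun i γ hγ => by
    have := h1 _ hγ
    simp only [half, if_true, Finset.mem_filter] at this
    exact this.2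
  have hf : ∀ i, ∀ γ ∈ V (i, false), ¬ 0 < l.val γ := fun i γ hγ => by
    have := h1 _ hγ
    simp only [half, Bool.false_eq_true, if_false, Finset.mem_filter] at this
    exact this.2
  have hsub : ∀ i, V (i, true) ∪ V (i, false) ⊆ B i := fun i =>
    Finset.union_subset ((h1 _).trans (half_subset _ _ _)) ((h1 _).trans (half_subset _ _ _))
  refine ⟨fun i => V (i, true) ∪ V (i, false), hsub, fun i => ⟨fun γ hγ => hB i γ (hsub i hγ),
    (h2 (i, true)).mono fun γ hγ => ?_, (h2 (i, false)).mono fun γ hγ => ?_⟩, ?_⟩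
  · obtain ⟨a, b⟩ := Finset.mem_filter.1 hγ
    exact (Finset.mem_union.1 a).resolve_right fun h => hf i γ h b
  · obtain ⟨a, b⟩ := Finset.mem_filter.1 hγ
    exact (Finset.mem_union.1 a).resolve_left fun h => b (ht i γ h)
  · rw [Fintype.sum_prod_type]
    refine Finset.sum_congr rfl fun i _ => ?_
    rw [Finset.card_union_of_disjoint (Finset.disjoint_left.2 fun γ a b => hf i γ b (ht i γ a))]
    simp

end

variable {G : Type*} [CommGroup G] [TopologicalSpace G] [IsTopologicalGroup G] [CompactSpace G]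
  [MeasurableSpace G] [BorelSpace G]

lemma choose_label {J c w lam : ℝ} {K Q : ℕ} (hQ : 1 ≤ Q) (hw : 0 ≤ w) (hlam : 0 ≤ lam)
    (hc : ∀ S : Finset (PontryaginDual G), Cov K S → 3200 * Q * c * (psi J S - J ^ 2 * S.card)
      ≤ ∑ t : Fin Q × Bool × Fin 1600, ∫ b, kap J S (fun γ => 0 < (lab Q b t).val γ) ∂hp G)
    {ι : Type*} [Fintype ι] (B : ι → Finset (PontryaginDual G)) (hB : ∀ i, Cov K (B i)) :
    ∃ l : Lab G, |l.τ| ≤ 2 ∧
      w * ∑ i, (((B i).filter fun γ => |l.val γ| < 1 / (800 * Q)).card : ℝ)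
        - lam * ∑ i, kap J (B i) (fun γ => 0 < l.val γ)
      ≤ w * (1 / (1600 * Q)) * ∑ i, ((B i).card : ℝ)
        - lam * c * ∑ i, (psi J (B i) - J ^ 2 * (B i).card) := by
  have hint : ∀ (i : ι) (t : Fin Q × Bool × Fin 1600),
      Integrable (fun b => kap J (B i) fun γ => 0 < (lab Q b t).val γ) (hp G) :=
    fun i t => integrable_kap J (B i) t continuous_id
  obtain ⟨b, hb⟩ := exists_integral_le (μ := hp G) (integrable_finsetSum Finset.univ fun i _ =>
    integrable_finsetSum Finset.univ fun t _ => hint i t)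
  rw [integral_finsetSum _ fun i _ => integrable_finsetSum Finset.univ fun t _ => hint i t] at hb
  simp only [integral_finsetSum _ fun t _ => hint _ t] at hb
  have h1 := (Finset.sum_le_sum fun i (_ : i ∈ Finset.univ) => hc (B i) (hB i)).trans hb
  rw [← Finset.mul_sum, Finset.sum_comm] at h1
  have h2 : ∑ t : Fin Q × Bool × Fin 1600, ∑ i,
      (((B i).filter fun γ => |(lab Q b t).val γ| < 1 / (800 * Q)).card : ℝ)
      ≤ 2 * ∑ i, ((B i).card : ℝ) := by
    rw [Finset.sum_comm, Finset.mul_sum]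
    refine Finset.sum_le_sum fun i _ => ?_
    have : ∑ t : Fin Q × Bool × Fin 1600,
        ((B i).filter fun γ => |(lab Q b t).val γ| < 1 / (800 * Q)).card ≤ 2 * (B i).card := by
      simp only [Finset.card_filter]
      rw [Finset.sum_comm]
      refine (Finset.sum_le_card_nsmul (B i) _ 2 fun γ _ => ?_).trans (by simp [mul_comm])
      rw [← Finset.card_filter]
      exact bad_count b γ
    exact_mod_cast this
  have hQ0 : (0 : ℝ) < Q := by exact_mod_cast hQ
  have hne : (Finset.univ : Finset (Fin Q × Bool × Fin 1600)).Nonempty :=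
    ⟨(⟨0, hQ⟩, true, 0), Finset.mem_univ _⟩
  obtain ⟨t, -, ht⟩ := Finset.exists_le_of_sum_le hne
    (f := fun t => w * ∑ i, (((B i).filter fun γ => |(lab Q b t).val γ| < 1 / (800 * Q)).card : ℝ)
        - lam * ∑ i, kap J (B i) (fun γ => 0 < (lab Q b t).val γ))
    (g := fun _ => w * (1 / (1600 * Q)) * ∑ i, ((B i).card : ℝ)
        - lam * c * ∑ i, (psi J (B i) - J ^ 2 * (B i).card)) (by
      rw [Finset.sum_sub_distrib, ← Finset.mul_sum, ← Finset.mul_sum, Finset.sum_const,
        Finset.card_univ, nsmul_eq_mul]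
      simp only [Fintype.card_prod, Fintype.card_fin, Fintype.card_bool]
      push_cast
      have a1 := mul_le_mul_of_nonneg_left h1 hlam
      have a2 := mul_le_mul_of_nonneg_left h2 hw
      have a3 : (Q : ℝ) * 3200 * (w * (1 / (1600 * Q)) * ∑ i, ((B i).card : ℝ))
          = w * (2 * ∑ i, ((B i).card : ℝ)) := by field_simp; ring
      linarith)
  exact ⟨lab Q b t, lab_tau b t, ht⟩

lemma phase_ind {J c : ℝ} {K Q : ℕ} (hJ0 : 0 < J) (hJ1 : J ≤ 1) (hc0 : 0 < c) (hc1 : c ≤ 1)
    (hQ : 1 ≤ Q)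
    (hc : ∀ S : Finset (PontryaginDual G), Cov K S → 3200 * Q * c * (psi J S - J ^ 2 * S.card)
      ≤ ∑ t : Fin Q × Bool × Fin 1600, ∫ b, kap J S (fun γ => 0 < (lab Q b t).val γ) ∂hp G)
    (s : ℕ) : ∀ (ι : Type) [Fintype ι] (B : ι → Finset (PontryaginDual G)), (∀ i, Cov K (B i)) →
      ∃ L : List (Lab G), L.length = s ∧ (∀ l ∈ L, |l.τ| ≤ 2) ∧
        ∃ U : ι → Finset (PontryaginDual G), (∀ i, U i ⊆ B i) ∧
          (∀ i, Good (1 / (800 * Q)) L 1 (U i)) ∧
          (J / 8 - s * (J / 8 * (1 / (1600 * Q))) - J ^ 2 * (1 - (1 - c) ^ s)) *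
            ∑ i, ((B i).card : ℝ) - (1 - c) ^ s * ∑ i, psi J (B i) ≤ ∑ i, ((U i).card : ℝ) := by
  induction s with
  | zero =>
    intro ι _ B _
    choose U h1 h2 h3 using fun i => extract (B i) hJ0.le hJ1
    refine ⟨[], rfl, by simp, U, h1, fun i => (h2 i).cov, ?_⟩
    refine le_trans (le_of_eq ?_) (Finset.sum_le_sum fun i _ => h3 i)
    rw [Finset.sum_sub_distrib, ← Finset.sum_div, ← Finset.mul_sum]
    simp
    ring
  | succ s ih =>
    intro ι _ B hB
    have hlam : 0 ≤ (1 - c) ^ s := pow_nonneg (by linarith) _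
    have hlam1 : (1 - c) ^ s ≤ 1 := pow_le_one₀ (by linarith) (by linarith)
    obtain ⟨l, hτ, hl⟩ := choose_label (w := J / 8) hQ (by positivity) hlam hc B hB
    set B' : ι → Finset (PontryaginDual G) :=
      fun i => (B i).filter fun γ => ¬ |l.val γ| < 1 / (800 * Q) with hB'
    have hsub : ∀ i, B' i ⊆ B i := fun i => Finset.filter_subset _ _
    obtain ⟨L, hlen, hL, V, h1, h2, h3⟩ := ih (ι × Bool) (fun p => half l (B' p.1) p.2)
      fun p => (hB p.1).mono ((half_subset _ _ _).trans (hsub _))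
    obtain ⟨U, h4, h5, h6⟩ := good_combine l B'
      (fun i γ hγ => not_lt.1 (Finset.mem_filter.1 hγ).2) V h1 h2
    refine ⟨l :: L, by simp [hlen], ?_, U, fun i => (h4 i).trans (hsub i), h5, ?_⟩
    · intro l' hl'
      rcases List.mem_cons.1 hl' with rfl | h
      · exact hτ
      · exact hL _ h
    rw [h6]
    refine le_trans ?_ h3
    have a1 : ∑ p : ι × Bool, ((half l (B' p.1) p.2).card : ℝ) = ∑ i, ((B i).card : ℝ)
        - ∑ i, (((B i).filter fun γ => |l.val γ| < 1 / (800 * Q)).card : ℝ) := by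
      rw [Fintype.sum_prod_type, ← Finset.sum_sub_distrib]
      refine Finset.sum_congr rfl fun i _ => ?_
      rw [Fintype.sum_bool, half_card]
      have := Finset.card_filter_add_card_filter_not (s := B i)
        fun γ => |l.val γ| < 1 / (800 * Q)
      have h' : (((B i).filter fun γ => |l.val γ| < 1 / (800 * Q)).card : ℝ) + (B' i).card
          = (B i).card := by rw [← this]; push_cast; rfl
      linarith
    have a2 : ∑ p : ι × Bool, psi J (half l (B' p.1) p.2) ≤ ∑ i, psi J (B i)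
        - ∑ i, kap J (B i) (fun γ => 0 < l.val γ) := by
      rw [Fintype.sum_prod_type, ← Finset.sum_sub_distrib]
      refine Finset.sum_le_sum fun i _ => ?_
      rw [Fintype.sum_bool, kap_eq (fun γ => 0 < l.val γ) (A := half l (B i) true)
        (B := half l (B i) false) (by simp [half]) (by simp [half])]
      have b1 : ∀ w, psi J (half l (B' i) w) ≤ psi J (half l (B i) w) := fun w =>
        psi_mono hJ0.le (by
          unfold half; split_ifs <;> exact Finset.filter_subset_filter _ (hsub i))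
      have := b1 true
      have := b1 false
      linarith
    rw [a1]
    rw [Finset.sum_sub_distrib, ← Finset.mul_sum] at hl
    have a3 : 0 ≤ ∑ i, (((B i).filter fun γ => |l.val γ| < 1 / (800 * Q)).card : ℝ) :=
      Finset.sum_nonneg fun _ _ => Nat.cast_nonneg _
    generalize ∑ i, (((B i).filter fun γ => |l.val γ| < 1 / (800 * Q)).card : ℝ) = bad at *
    generalize ∑ i, kap J (B i) (fun γ => 0 < l.val γ) = gn at *
    generalize ∑ i, psi J (B i) = Φ at *
    generalize ∑ p : ι × Bool, psi J (half l (B' p.1) p.2) = Φ' at *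
    generalize ∑ i, ((B i).card : ℝ) = n at *
    have a4 := mul_le_mul_of_nonneg_left a2 hlam
    have a5 : 0 ≤ s * (J / 8 * (1 / (1600 * Q))) + J ^ 2 * (1 - (1 - c) ^ s) := by
      have : 0 ≤ 1 - (1 - c) ^ s := by linarith
      positivity
    have a6 := mul_nonneg a5 a3
    push_cast
    rw [pow_succ (1 - c)]
    linarith

lemma phase : ∃ (s : ℕ) (e : ℝ), 0 < e ∧
    ∀ (ι : Type) [Fintype ι] (B : ι → Finset (PontryaginDual G)), (∀ i, Cov 4096 (B i)) →
      ∃ L : List (Lab G), L.length = s ∧ (∀ l ∈ L, |l.τ| ≤ 2) ∧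
        ∃ U : ι → Finset (PontryaginDual G), (∀ i, U i ⊆ B i) ∧ (∀ i, Good e L 1 (U i)) ∧
          1 / 2048 * ∑ i, ((B i).card : ℝ) ≤ ∑ i, ((U i).card : ℝ) := by
  obtain ⟨c, hc0, hc1, hc⟩ := gain (G := G) (J := 1 / 64) (by norm_num) 4096
  obtain ⟨s, hs⟩ := exists_pow_lt_of_lt_one (x := (1 / 64 : ℝ)) (y := 1 - c) (by norm_num)
    (by linarith)
  refine ⟨s, 1 / (800 * (s + 1 : ℕ)), by positivity, fun ι _ B hB => ?_⟩
  obtain ⟨L, h1, h2, U, h3, h4, h5⟩ := phase_ind (Q := s + 1) (by norm_num) (by norm_num) hc0 hc1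
    (by omega) (hc (s + 1)) s ι B hB
  refine ⟨L, h1, h2, U, h3, h4, le_trans ?_ h5⟩
  have hlam : 0 ≤ (1 - c) ^ s := pow_nonneg (by linarith) _
  have a1 : ∑ i, psi (1 / 64) (B i) ≤ 1 / 64 * ∑ i, ((B i).card : ℝ) := by
    rw [Finset.mul_sum]
    exact Finset.sum_le_sum fun i _ => psi_le (by norm_num) _
  have a2 : 0 ≤ ∑ i, ((B i).card : ℝ) := by positivity
  have a3 : (s : ℝ) * (1 / 64 / 8 * (1 / (1600 * (s + 1 : ℕ)))) ≤ 1 / 1024 := by
    have : (s : ℝ) * (1 / (1600 * (s + 1 : ℕ))) ≤ 1 / 2 := by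
      rw [mul_one_div, div_le_iff₀ (by positivity)]
      push_cast
      have : (0 : ℝ) ≤ s := by positivity
      linarith
    nlinarith
  have a4 := mul_le_mul_of_nonneg_left a1 hlam
  have a5 := mul_le_mul_of_nonneg_right hs.le a2
  have a6 := mul_le_mul_of_nonneg_right a3 a2
  have a7 := mul_nonneg hlam a2
  nlinarith

lemma phase_lift {s : ℕ} {e : ℝ}
    (h : ∀ (ι : Type) [Fintype ι] (B : ι → Finset (PontryaginDual G)), (∀ i, Cov 4096 (B i)) →
      ∃ L : List (Lab G), L.length = s ∧ (∀ l ∈ L, |l.τ| ≤ 2) ∧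
        ∃ U : ι → Finset (PontryaginDual G), (∀ i, U i ⊆ B i) ∧ (∀ i, Good e L 1 (U i)) ∧
          1 / 2048 * ∑ i, ((B i).card : ℝ) ≤ ∑ i, ((U i).card : ℝ)) (k : ℕ) (L₀ : List (Lab G)) :
    ∀ (ι : Type) [Fintype ι] (B : ι → Finset (PontryaginDual G)),
      (∀ i, Good e L₀ (4096 * k) (B i)) →
      ∃ L : List (Lab G), L.length = s ∧ (∀ l ∈ L, |l.τ| ≤ 2) ∧
        ∃ U : ι → Finset (PontryaginDual G), (∀ i, U i ⊆ B i) ∧ (∀ i, Good e (L₀ ++ L) k (U i)) ∧
          1 / 2048 * ∑ i, ((B i).card : ℝ) ≤ ∑ i, ((U i).card : ℝ) := by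
  induction L₀ with
  | nil =>
    intro ι _ B hB
    choose col h1 h2 using hB
    obtain ⟨L, a1, a2, V, a3, a4, a5⟩ := h (ι × Fin k)
      (fun p => (B p.1).filter fun γ => col p.1 γ / 4096 = p.2) (by
        rintro ⟨i, g⟩
        refine ⟨fun γ => col i γ % 4096, fun γ _ => Nat.mod_lt _ (by norm_num), fun r => ?_⟩
        refine (h2 i (4096 * g + r)).mono fun γ hγ => ?_
        simp only [Finset.mem_filter] at hγ ⊢
        exact ⟨hγ.1.1, by omega⟩)
    refine ⟨L, a1, a2, fun i => Finset.univ.biUnion fun g => V (i, g), fun i => ?_, fun i => ?_, ?_⟩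
    · exact Finset.biUnion_subset.2 fun g _ => (a3 _).trans (Finset.filter_subset _ _)
    · simpa using good_biUnion Finset.univ (fun g => V (i, g)) fun g => a4 _
    · rw [Fintype.sum_prod_type, Fintype.sum_prod_type] at a5
      refine le_trans (le_of_eq ?_) (a5.trans (le_of_eq ?_))
      · congr 1
        refine Finset.sum_congr rfl fun i _ => ?_
        have : (B i).card = ∑ g : Fin k, ((B i).filter fun γ => col i γ / 4096 = g).card := by
          rw [Fin.sum_univ_eq_sum_range
            (fun g => ((B i).filter fun γ => col i γ / 4096 = g).card) k]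
          refine Finset.card_eq_sum_card_fiberwise fun γ hγ => ?_
          have := h1 i γ hγ
          simp only [Finset.coe_range, Set.mem_Iio]
          omega
        exact_mod_cast this
      · refine Finset.sum_congr rfl fun i _ => ?_
        rw [Finset.card_biUnion]
        · push_cast; rfl
        · intro g _ g' _ hne
          refine Finset.disjoint_left.2 fun γ x1 x2 => hne (Fin.ext ?_)
          have y1 := (Finset.mem_filter.1 (a3 _ x1)).2
          have y2 := (Finset.mem_filter.1 (a3 _ x2)).2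
          exact y1.symm.trans y2
  | cons l L₀ ih =>
    intro ι _ B hB
    obtain ⟨L, a1, a2, V, a3, a4, a5⟩ := ih (ι × Bool) (fun p => half l (B p.1) p.2) (by
      rintro ⟨i, w⟩
      cases w
      · exact (hB i).2.2
      · exact (hB i).2.1)
    obtain ⟨U, b1, b2, b3⟩ := good_combine l B (fun i => (hB i).1) V a3 a4
    refine ⟨L, a1, a2, U, b1, b2, ?_⟩
    rw [b3]
    refine le_trans (le_of_eq ?_) a5
    rw [Fintype.sum_prod_type]
    simp only [Fintype.sum_bool, half_card]

theorem split : ∃ (K s : ℕ) (e : ℝ), 1 ≤ K ∧ 0 < e ∧ ∀ (j : ℕ) (A : Finset (PontryaginDual G)),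
    Cov (K ^ j) A → ∃ L : List (Lab G), L.length = j * s ∧ (∀ l ∈ L, |l.τ| ≤ 2) ∧
      ∃ U ⊆ A, Good e L 1 U ∧ (2 : ℝ) ^ j * A.card ≤ (K : ℝ) ^ j * U.card := by
  obtain ⟨s, e, he, h⟩ := phase (G := G)
  refine ⟨4096, s, e, by norm_num, he, fun j => ?_⟩
  suffices H : ∀ (L₀ : List (Lab G)) (A : Finset (PontryaginDual G)), Good e L₀ (4096 ^ j) A →
      ∃ L : List (Lab G), L.length = j * s ∧ (∀ l ∈ L, |l.τ| ≤ 2) ∧
        ∃ U ⊆ A, Good e (L₀ ++ L) 1 U ∧ (2 : ℝ) ^ j * A.card ≤ (4096 : ℝ) ^ j * U.card by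
    intro A hA
    simpa using H [] A hA
  induction j with
  | zero => exact fun L₀ A hA => ⟨[], by simp, by simp, A, subset_rfl, by simpa using hA, by simp⟩
  | succ j ih =>
    intro L₀ A hA
    obtain ⟨L, a1, a2, V, a3, a4, a5⟩ := phase_lift h (4096 ^ j) L₀ Unit (fun _ => A)
      fun _ => by rwa [pow_succ'] at hA
    obtain ⟨L', b1, b2, U, b3, b4, b5⟩ := ih _ _ (a4 ())
    refine ⟨L ++ L', by simp [a1, b1]; ring, fun l hl => (List.mem_append.1 hl).elim (a2 l) (b2 l),
      U, b3.trans (a3 ()), by rwa [← List.append_assoc], ?_⟩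
    simp only [Finset.univ_unique, Finset.sum_singleton] at a5
    have c1 : (0 : ℝ) ≤ 2 ^ j := by positivity
    have c2 := mul_le_mul_of_nonneg_left a5 c1
    rw [pow_succ, pow_succ]
    have c3 : (default : Unit) = () := rfl
    rw [c3] at c2
    linarith

end Pool.Agent.MP_843cf2_an

end

-- part MP_843cf2_an.Core
section

set_option autoImplicit false

namespace Pool.Agent.MP_843cf2_an

open MeasureTheory

variable {G : Type*} [CommGroup G] [TopologicalSpace G] [IsTopologicalGroup G] [CompactSpace G]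
  [MeasurableSpace G] [BorelSpace G]

lemma int_tp {U : Finset (PontryaginDual G)} (h1 : 1 ∉ U) (c : PontryaginDual G → ℂ) :
    ∫ x, tp U c x ∂hp G = 0 := by
  unfold tp
  rw [integral_finsetSum _ fun γ _ => cint (f := fun x => c γ * ch γ x) (by fun_prop)]
  refine Finset.sum_eq_zero fun γ hγ => ?_
  rw [integral_const_mul, int_ch, if_neg (fun e : γ = 1 => h1 (e ▸ hγ)), mul_zero]

lemma Lam_nonneg {U : Finset (PontryaginDual G)} (h1 : 1 ∉ U) (c : PontryaginDual G → ℂ) :
    0 ≤ Lam U c := by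
  have h := int_le_log (F := fun x => (tp U c x).re)
    (Complex.continuous_re.comp (continuous_tp U c))
  have h2 : ∫ x, (tp U c x).re ∂hp G = 0 := by
    have := integral_re (cint (continuous_tp U c))
    simp only [RCLike.re_to_complex] at this
    rw [this, int_tp h1]; simp
  rw [h2] at h
  exact h

lemma Lam_translate (U : Finset (PontryaginDual G)) (c : PontryaginDual G → ℂ) (x : G) :
    Real.log (∫ y, Real.exp (tp U c (x * y)).re ∂hp G) = Lam U c := by
  unfold Lam
  rw [int_mul_left (fun y => Real.exp (tp U c y).re)]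

/-- smoothing by the Gibbs measure -/
lemma gibbs_smooth {U : Finset (PontryaginDual G)} {J : ℝ} (hJ : 0 < J) :
    ∃ β : PontryaginDual G → ℂ, psi J U / J ≤ (∑ γ ∈ U, β γ).re ∧
      ∀ (c : PontryaginDual G → ℂ) (x : G),
        (tp U (fun γ => c γ * β γ) x).re ≤ Lam U c + J * U.card := by
  set H : G → ℝ := fun y => (tp U (fun _ => (J : ℂ)) y).re with hH
  have hHc : Continuous H := Complex.continuous_re.comp (continuous_tp U _)
  set Z := ∫ y, Real.exp (H y) ∂hp G with hZ
  have hZ0 : 0 < Z := int_pos (Real.continuous_exp.comp hHc) fun _ => Real.exp_pos _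
  have hpsi : psi J U = Real.log Z := rfl
  set p : G → ℝ := fun y => Real.exp (H y) / Z with hp'
  have hpc : Continuous p := (Real.continuous_exp.comp hHc).div_const _
  have hp0 : ∀ y, 0 ≤ p y := fun y => by positivity
  have hp1 : ∫ y, p y ∂hp G = 1 := by rw [hp', integral_div]; exact div_self hZ0.ne'
  have hpC : Continuous fun y => (p y : ℂ) := Complex.continuous_ofReal.comp hpc
  have key : ∀ (c : PontryaginDual G → ℂ) (x : G),
      (tp U (fun γ => c γ * ∫ y, (p y : ℂ) * ch γ y ∂hp G) x).re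
        = ∫ y, p y * (tp U c (x * y)).re ∂hp G := by
    intro c x
    have e1 : tp U (fun γ => c γ * ∫ y, (p y : ℂ) * ch γ y ∂hp G) x
        = ∫ y, (p y : ℂ) * tp U c (x * y) ∂hp G := by
      unfold tp
      simp only [Finset.mul_sum]
      rw [integral_finsetSum _ fun γ _ => cint (by fun_prop)]
      refine Finset.sum_congr rfl fun γ _ => ?_
      rw [← integral_const_mul, ← integral_mul_const]
      congr 1; funext y; rw [ch_mul]; ring
    have e2 := integral_re (cint (f := fun y => (p y : ℂ) * tp U c (x * y)) (by fun_prop))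
    simp only [RCLike.re_to_complex] at e2
    rw [e1, ← e2]
    simp
  have hHle : ∀ y, H y ≤ J * U.card := fun y => by
    refine (Complex.re_le_norm _).trans ((norm_tp_le _ _ _).trans (le_of_eq ?_))
    simp [abs_of_pos hJ, mul_comm]
  have hE : ∫ y, p y * H y ∂hp G ≤ J * U.card := by
    calc _ ≤ ∫ y, p y * (J * U.card) ∂hp G :=
          integral_mono (cint (hpc.mul hHc)) (cint (hpc.mul continuous_const)) fun y =>
            mul_le_mul_of_nonneg_left (hHle y) (hp0 y)
      _ = _ := by rw [integral_mul_const, hp1, one_mul]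
  refine ⟨fun γ => ∫ y, (p y : ℂ) * ch γ y ∂hp G, ?_, fun c x => ?_⟩
  · have h1 := key (fun _ => (J : ℂ)) 1
    have h2 := gibbs (F := fun _ => 0) hHc continuous_const
    simp only [Real.exp_zero, integral_const, probReal_univ, smul_eq_mul, mul_one, Real.log_one,
      zero_sub, mul_neg, integral_neg] at h2
    simp only [tp, ch_one, mul_one, ← Finset.mul_sum, one_mul, Complex.re_ofReal_mul] at h1
    rw [div_le_iff₀ hJ, mul_comm, h1, hpsi]
    have h3 : ∀ y, J * (∑ γ ∈ U, ch γ y).re = H y := fun y => by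
      simp [hH, tp, ← Finset.mul_sum]
    simp only [h3]
    exact neg_le_neg_iff.1 h2
  · rw [key]
    have hFc : Continuous fun y => (tp U c (x * y)).re := by fun_prop
    have h2 := gibbs hHc hFc
    rw [Lam_translate] at h2
    have h3 : ∫ y, p y * ((tp U c (x * y)).re - H y) ∂hp G
        = ∫ y, p y * (tp U c (x * y)).re ∂hp G - ∫ y, p y * H y ∂hp G := by
      rw [← integral_sub (cint (f := fun y => p y * (tp U c (x * y)).re) (hpc.mul hFc))
        (cint (f := fun y => p y * H y) (hpc.mul hHc))]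
      congr 1; funext y; ring
    have h4 : 0 ≤ Real.log Z := hpsi ▸ psi_nonneg hJ.le U
    have h5 : ∫ y, p y * ((tp U c (x * y)).re - H y) ∂hp G ≤ Lam U c - Real.log Z := h2
    linarith

lemma norm_le_of_four {z : ℂ} {B : ℝ} (h : ∀ k ∈ Finset.range 4, (Complex.I ^ k * z).re ≤ B) :
    ‖z‖ ≤ 2 * B := by
  have h0 := h 0 (by simp)
  have h1 := h 1 (by simp)
  have h2 := h 2 (by simp)
  have h3 := h 3 (by simp)
  simp [pow_succ] at h0 h1 h2 h3
  have := Complex.norm_le_abs_re_add_abs_im z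
  have a1 : |z.re| ≤ B := abs_le.2 ⟨by linarith, by linarith⟩
  have a2 : |z.im| ≤ B := abs_le.2 ⟨by linarith, by linarith⟩
  linarith

theorem core : ∃ C : ℝ, ∀ j : ℕ, ∃ δ : ℝ, 0 < δ ∧ ∀ A : Finset (PontryaginDual G), A.Nonempty →
    1 ∉ A → (∀ B ⊆ A, QI B → (B.card : ℝ) ≤ δ * A.card) →
      Big (↑A : Set (PontryaginDual G)) (C * (j + 1)) (2 ^ j) := by
  obtain ⟨K, s, e, hK, he, hsplit⟩ := split (G := G)
  set κ : ℝ := 1 + 1 / (8 * (s + 1)) with hκ
  have hκ1 : 1 < κ := by
    have : (0 : ℝ) < 1 / (8 * (s + 1)) := by positivity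
    linarith
  have hκ4 : κ ^ (4 * s) ≤ 4 := by
    have h1 : κ ≤ Real.exp (1 / (8 * (s + 1))) := by
      have := Real.add_one_le_exp (1 / (8 * ((s : ℝ) + 1))); linarith
    have h2 : κ ^ (4 * s) ≤ Real.exp (1 / (8 * (s + 1))) ^ (4 * s) := by gcongr
    rw [← Real.exp_nat_mul] at h2
    have h3 : ((4 * s : ℕ) : ℝ) * (1 / (8 * (s + 1))) ≤ 1 := by
      rw [mul_one_div, div_le_one (by positivity)]; push_cast; linarith
    have h4 := Real.exp_le_exp.2 h3
    have h5 := Real.exp_one_lt_three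
    linarith
  obtain ⟨C, hC, hmult⟩ := mult (G := G) he hκ1
  refine ⟨44 * s * C, fun j => ?_⟩
  have hKJ : 1 ≤ K ^ (4 * (j + 11)) := Nat.one_le_pow _ _ hK
  refine ⟨1 / (4 * (K ^ (4 * (j + 11)) : ℕ)), by positivity, fun A hne h1 hA => ?_⟩
  obtain ⟨A', hA', m, hm, hcov, hsz, hqi⟩ := window hKJ h1 hne hA
  obtain ⟨L, hlen, hτ, U, hU, hgood, hcard⟩ := hsplit _ A' hcov
  have h1U : 1 ∉ U := fun h => h1 (hA' (hU h))
  set t : ℝ := 2 ^ (j + 11) with ht
  have ht1 : 2048 ≤ t := by
    rw [ht, pow_add]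
    have : (1 : ℝ) ≤ 2 ^ j := one_le_pow₀ (by norm_num)
    linarith
  have ht0 : 0 < t := by linarith
  have hmR : (1 : ℝ) ≤ m := by exact_mod_cast hm
  set n : ℝ := (U.card : ℝ) with hn
  have hnm : t ^ 4 * m ≤ 2 * n := by
    have a1 : ((K : ℝ) ^ (4 * (j + 11))) * m ≤ 2 * A'.card := by exact_mod_cast hsz
    have a2 : (2 : ℝ) ^ (4 * (j + 11)) = t ^ 4 := by rw [ht, ← pow_mul, mul_comm]
    rw [a2] at hcard
    have a3 : (0 : ℝ) < (K : ℝ) ^ (4 * (j + 11)) := by
      have : (0 : ℝ) < K := by exact_mod_cast hK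
      positivity
    have a4 : (K : ℝ) ^ (4 * (j + 11)) * (t ^ 4 * m) ≤ (K : ℝ) ^ (4 * (j + 11)) * (2 * n) := by
      have := mul_le_mul_of_nonneg_left a1 (by positivity : 0 ≤ t ^ 4)
      nlinarith
    exact le_of_mul_le_mul_left a4 a3
  have ht4 : 32 ≤ t ^ 4 := by
    have : (2048 : ℝ) ^ 4 ≤ t ^ 4 := by gcongr
    linarith
  have hn16 : 16 * m ≤ n := by nlinarith
  have hn0 : 0 < n := by linarith
  have hJ0 : 0 < 16 * m / n := by positivity
  have hJ1 : 16 * m / n ≤ 1 := (div_le_one hn0).2 hn16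
  obtain ⟨B, hB, hq, hext⟩ := extract U hJ0.le hJ1
  have hBm : (B.card : ℝ) ≤ m := by exact_mod_cast hqi B (hB.trans hU) hq
  have hJn : 16 * m / n * n = 16 * m := by field_simp
  have hpsi : (m : ℝ) ≤ psi (16 * m / n) U := by
    rw [← hn, hJn] at hext; linarith
  obtain ⟨β, hβ1, hβ2⟩ := gibbs_smooth (U := U) hJ0
  have hβ3 : n / 16 ≤ (∑ γ ∈ U, β γ).re := by
    refine le_trans ?_ hβ1
    rw [le_div_iff₀ hJ0]
    have : n / 16 * (16 * m / n) = m := by field_simp
    linarith
  obtain ⟨φ, hφ, hL⟩ := hmult L hτ U hgood fun _ => ((t ^ 3)⁻¹ : ℝ)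
  have hκL : κ ^ L.length ≤ t ^ 2 := by
    have a1 : t ^ 2 = 4 ^ (j + 11) := by
      rw [ht, ← pow_mul, mul_comm (j + 11) 2, pow_mul]; norm_num
    rw [hlen, show 4 * (j + 11) * s = 4 * s * (j + 11) by ring, pow_mul, a1]
    gcongr
  have hsum : ∑ _γ ∈ U, ‖(((t ^ 3)⁻¹ : ℝ) : ℂ)‖ ^ 2 = n * ((t ^ 3)⁻¹) ^ 2 := by
    rw [Finset.sum_const, nsmul_eq_mul, Complex.norm_real, Real.norm_eq_abs, sq_abs]
  rw [hsum] at hL
  refine ⟨U, fun γ => -φ γ, fun γ => Complex.exp (φ γ * Complex.I) * β γ, 68 * n / t,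
    fun γ hγ => hA' (hU hγ), ?_, fun x => ?_, ?_⟩
  · have := hφ.neg
    simp only [← Complex.ofReal_neg] at this
    refine this.mono ?_
    rw [hlen]
    push_cast
    have : (0 : ℝ) ≤ C * s * j := by positivity
    nlinarith
  · have h4 : ∀ k ∈ Finset.range 4, (Complex.I ^ k * (((t ^ 3)⁻¹ : ℝ) *
        tp U (fun γ => Complex.exp (φ γ * Complex.I) * β γ) x)).re
          ≤ 2 * t ^ 2 * (n * ((t ^ 3)⁻¹) ^ 2) + 16 * m := by
      intro k hk
      have a1 := hβ2 (fun γ => Complex.I ^ k * (((t ^ 3)⁻¹ : ℝ) : ℂ) *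
        Complex.exp (φ γ * Complex.I)) x
      rw [← hn, hJn] at a1
      have a2 := Finset.single_le_sum (f := fun k => Lam U fun γ => Complex.I ^ k *
        (((t ^ 3)⁻¹ : ℝ) : ℂ) * Complex.exp (φ γ * Complex.I)) (fun k _ => Lam_nonneg h1U _) hk
      have a3 : Complex.I ^ k * (((t ^ 3)⁻¹ : ℝ) *
          tp U (fun γ => Complex.exp (φ γ * Complex.I) * β γ) x)
          = tp U (fun γ => Complex.I ^ k * (((t ^ 3)⁻¹ : ℝ) : ℂ) *
            Complex.exp (φ γ * Complex.I) * β γ) x := by
        simp only [tp, Finset.mul_sum]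
        exact Finset.sum_congr rfl fun γ _ => by ring
      rw [a3]
      have a4 : 2 * κ ^ L.length * (n * ((t ^ 3)⁻¹) ^ 2) ≤ 2 * t ^ 2 * (n * ((t ^ 3)⁻¹) ^ 2) := by
        gcongr
      linarith
    have h5 := norm_le_of_four h4
    rw [norm_mul, Complex.norm_real, Real.norm_eq_abs, abs_of_pos (by positivity),
      inv_mul_le_iff₀ (by positivity)] at h5
    refine h5.trans ?_
    have a1 : (m : ℝ) ≤ 2 * n / t ^ 4 := by rw [le_div_iff₀ (by positivity)]; linarith
    calc t ^ 3 * (2 * (2 * t ^ 2 * (n * (t ^ 3)⁻¹ ^ 2) + 16 * m))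
        ≤ t ^ 3 * (2 * (2 * t ^ 2 * (n * (t ^ 3)⁻¹ ^ 2) + 16 * (2 * n / t ^ 4))) := by gcongr
      _ = 68 * n / t := by field_simp; ring
  · have a1 : ∑ γ ∈ U, Complex.exp (φ γ * Complex.I) * β γ *
        Complex.exp (((-φ γ : ℝ) : ℂ) * Complex.I) = ∑ γ ∈ U, β γ := by
      refine Finset.sum_congr rfl fun γ _ => ?_
      rw [mul_right_comm, ← Complex.exp_add]
      simp
    rw [a1]
    refine lt_of_lt_of_le ?_ (hβ3.trans (Complex.re_le_norm _))
    have a2 : (2 : ℝ) ^ j * (68 * n / t) = 68 * n / 2048 := by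
      rw [ht, pow_add]; field_simp; norm_num
    rw [a2]
    linarith

end Pool.Agent.MP_843cf2_an

end

-- part MP_843cf2_an.Circ
section

set_option autoImplicit false

namespace Pool.Agent.MP_843cf2_an

noncomputable instance circMeas : MeasurableSpace Circle := borel _
instance circBorel : BorelSpace Circle := ⟨rfl⟩

end Pool.Agent.MP_843cf2_an

end

-- part MP_843cf2_an.PisierAMart
section

set_option autoImplicit false

namespace Pool.Agent.MP_843cf2_an

open MeasureTheory

/-- the point of the torus with `u` in coordinate `k` and `1` elsewhere -/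
noncomputable def ee (n k : ℕ) (u : Circle) : Fin n → Circle :=
  fun i => if i.val = k then u else 1

/-- forget the coordinates below `k` -/
noncomputable def mask (n k : ℕ) (w : Fin n → Circle) : Fin n → Circle :=
  fun i => if i.val < k then 1 else w i

lemma continuous_ee (n k : ℕ) : Continuous (ee n k) := by
  refine continuous_pi fun i => ?_
  unfold ee
  split_ifs
  · exact continuous_id
  · exact continuous_const

lemma continuous_mask (n k : ℕ) : Continuous (mask n k) := by
  refine continuous_pi fun i => ?_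
  unfold mask
  split_ifs
  · exact continuous_const
  · exact continuous_apply i

variable {n : ℕ}

lemma cont_ee {f : (Fin n → Circle) → ℝ} (hf : Continuous f) (k : ℕ) :
    Continuous fun p : (Fin n → Circle) × Circle => f (p.1 * ee n k p.2) :=
  hf.comp (continuous_fst.mul ((continuous_ee n k).comp continuous_snd))

lemma int_avg {f : (Fin n → Circle) → ℝ} (hf : Continuous f) (k : ℕ) :
    ∫ z, f z ∂hp (Fin n → Circle)
      = ∫ z, (∫ u, f (z * ee n k u) ∂hp Circle) ∂hp (Fin n → Circle) := by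
  rw [int_swap (f := fun z u => f (z * ee n k u)) (cont_ee hf k)]
  simp only [int_mul_right f]
  simp

/-- exponential moments of a sum of bounded martingale differences -/
lemma mart_exp {d : ℕ → (Fin n → Circle) → ℝ} (hc : ∀ k, Continuous (d k))
    (hinv : ∀ k j, k < j → ∀ z u, d k (z * ee n j u) = d k z)
    (h0 : ∀ k z, ∫ u, d k (z * ee n k u) ∂hp Circle = 0) (hb : ∀ k z, |d k z| ≤ 2)
    (t : ℝ) (m : ℕ) :
    ∫ z, Real.exp (t * ∑ k ∈ Finset.range m, d k z) ∂hp (Fin n → Circle)
      ≤ Real.exp (2 * t ^ 2 * m) := by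
  induction m with
  | zero => simp
  | succ m ih =>
    have hM : ∀ m, Continuous fun z => Real.exp (t * ∑ k ∈ Finset.range m, d k z) := fun m =>
      Real.continuous_exp.comp (continuous_const.mul (continuous_finsetSum _ fun k _ => hc k))
    rw [int_avg (hM (m + 1)) m]
    have key : ∀ z, ∫ u, Real.exp (t * ∑ k ∈ Finset.range (m + 1), d k (z * ee n m u)) ∂hp Circle
        ≤ Real.exp (2 * t ^ 2) * Real.exp (t * ∑ k ∈ Finset.range m, d k z) := by
      intro z
      have e1 : ∀ u, Real.exp (t * ∑ k ∈ Finset.range (m + 1), d k (z * ee n m u))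
          = Real.exp (t * ∑ k ∈ Finset.range m, d k z) * Real.exp (t * d m (z * ee n m u)) := by
        intro u
        rw [Finset.sum_range_succ, mul_add, Real.exp_add,
          Finset.sum_congr rfl fun k hk => hinv k m (Finset.mem_range.1 hk) z u]
      simp only [e1]
      rw [integral_const_mul, mul_comm]
      refine mul_le_mul_of_nonneg_right ?_ (Real.exp_pos _).le
      have c1 : Continuous fun u => d m (z * ee n m u) :=
        (hc m).comp (continuous_const.mul (continuous_ee n m))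
      have h1 : ∫ u, Real.exp (t * d m (z * ee n m u)) ∂hp Circle
          ≤ ∫ u, (Real.cosh (2 * t) + d m (z * ee n m u) * (Real.sinh (2 * t) / 2)) ∂hp Circle := by
        refine integral_mono (cint (Real.continuous_exp.comp (continuous_const.mul c1)))
          (cint (continuous_const.add (c1.mul continuous_const))) fun u => ?_
        have h2 : |d m (z * ee n m u) / 2| ≤ 1 := by
          rw [abs_div, abs_two]
          linarith [hb m (z * ee n m u)]
        have h3 := Real.exp_mul_le_cosh_add_mul_sinh h2 (2 * t)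
        simp only
        rw [show t * d m (z * ee n m u) = d m (z * ee n m u) / 2 * (2 * t) by ring]
        linarith
      rw [integral_add (integrable_const _) ((cint c1).mul_const _), integral_mul_const,
        h0] at h1
      simp only [integral_const, probReal_univ, smul_eq_mul, one_mul, zero_mul, add_zero] at h1
      refine h1.trans ((Real.cosh_le_exp_half_sq _).trans (le_of_eq ?_))
      congr 1
      ring
    have h4 : ∫ z, (∫ u, Real.exp (t * ∑ k ∈ Finset.range (m + 1), d k (z * ee n m u)) ∂hp Circle)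
          ∂hp (Fin n → Circle)
        ≤ ∫ z, Real.exp (2 * t ^ 2) * Real.exp (t * ∑ k ∈ Finset.range m, d k z)
          ∂hp (Fin n → Circle) :=
      integral_mono (cint (cont_int (cont_ee (hM (m + 1)) m)))
        (cint (continuous_const.mul (hM m))) key
    refine h4.trans ?_
    rw [integral_const_mul]
    refine (mul_le_mul_of_nonneg_left ih (Real.exp_pos _).le).trans (le_of_eq ?_)
    rw [← Real.exp_add]
    congr 1
    push_cast
    ring

/-- conditional expectation on the coordinates below `k` -/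
noncomputable def cexp (Φ : (Fin n → Circle) → ℝ) (k : ℕ) (z : Fin n → Circle) : ℝ :=
  ∫ w, Φ (z * mask n k w) ∂hp (Fin n → Circle)

lemma cont_mask {Φ : (Fin n → Circle) → ℝ} (hΦ : Continuous Φ) (k : ℕ) :
    Continuous fun p : (Fin n → Circle) × (Fin n → Circle) => Φ (p.1 * mask n k p.2) :=
  hΦ.comp (continuous_fst.mul ((continuous_mask n k).comp continuous_snd))

lemma continuous_cexp {Φ : (Fin n → Circle) → ℝ} (hΦ : Continuous Φ) (k : ℕ) :
    Continuous (cexp Φ k) := cont_int (cont_mask hΦ k)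

lemma cexp_top (Φ : (Fin n → Circle) → ℝ) (z : Fin n → Circle) : cexp Φ n z = Φ z := by
  have : ∀ w, mask n n w = 1 := fun w => funext fun i => by simp [mask]
  simp [cexp, this]

lemma cexp_zero (Φ : (Fin n → Circle) → ℝ) (z : Fin n → Circle) :
    cexp Φ 0 z = ∫ w, Φ w ∂hp (Fin n → Circle) := by
  have : ∀ w, mask n 0 w = w := fun w => funext fun i => by simp [mask]
  simp only [cexp, this]
  exact int_mul_left Φ z

lemma cexp_inv (Φ : (Fin n → Circle) → ℝ) {k j : ℕ} (h : k ≤ j) (z : Fin n → Circle)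
    (u : Circle) : cexp Φ k (z * ee n j u) = cexp Φ k z := by
  have e : ∀ w, z * ee n j u * mask n k w = z * mask n k (ee n j u * w) := by
    intro w
    funext i
    simp only [Pi.mul_apply, mask, ee]
    split_ifs with h1 h2
    · omega
    · rw [mul_assoc]
    · simp
    · simp
  simp only [cexp, e]
  exact int_mul_left (fun w => Φ (z * mask n k w)) _

lemma cexp_avg {Φ : (Fin n → Circle) → ℝ} (hΦ : Continuous Φ) (k : ℕ) (z : Fin n → Circle) :
    ∫ u, cexp Φ (k + 1) (z * ee n k u) ∂hp Circle = cexp Φ k z := by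
  have c1 : Continuous fun w => Φ (z * mask n k w) :=
    hΦ.comp (continuous_const.mul (continuous_mask n k))
  unfold cexp
  rw [int_avg c1 k, int_swap (f := fun u w => Φ (z * ee n k u * mask n (k + 1) w))
    (hΦ.comp ((continuous_const.mul ((continuous_ee n k).comp continuous_fst)).mul
      ((continuous_mask n (k + 1)).comp continuous_snd)))]
  congr 1
  funext w
  have e : ∀ u, z * mask n k (w * ee n k u)
      = z * ee n k ((if h : k < n then w ⟨k, h⟩ else 1) * u) * mask n (k + 1) w := by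
    intro u
    funext i
    simp only [Pi.mul_apply, mask, ee]
    by_cases h1 : i.val = k
    · have h2 : k < n := h1 ▸ i.2
      have h3 : (⟨k, h2⟩ : Fin n) = i := Fin.ext h1.symm
      simp [h1, h2, h3]
    · by_cases h2 : i.val < k
      · have h3 : i.val < k + 1 := by omega
        simp [h1, h2, h3]
      · have h3 : ¬ i.val < k + 1 := by omega
        simp [h1, h2, h3]
  simp only [e]
  exact (int_mul_left (fun u => Φ (z * ee n k u * mask n (k + 1) w)) _).symm

lemma cexp_lip {Φ : (Fin n → Circle) → ℝ} (hΦ : Continuous Φ) {k : ℕ} {b : ℝ}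
    (hb : ∀ z u, |Φ (z * ee n k u) - Φ z| ≤ b) (j : ℕ) (z : Fin n → Circle) (u : Circle) :
    |cexp Φ j (z * ee n k u) - cexp Φ j z| ≤ b := by
  have c1 : ∀ z, Continuous fun w => Φ (z * mask n j w) := fun z =>
    hΦ.comp (continuous_const.mul (continuous_mask n j))
  unfold cexp
  rw [← integral_sub (cint (c1 _)) (cint (c1 _))]
  have := norm_integral_le_of_norm_le_const (μ := hp (Fin n → Circle))
    (f := fun w => Φ (z * ee n k u * mask n j w) - Φ (z * mask n j w)) (C := b)
    (Filter.Eventually.of_forall fun w => by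
      rw [mul_right_comm]; exact hb _ _)
  simpa using this

/-- martingale decomposition of a function with bounded differences -/
lemma mart_dec {Φ : (Fin n → Circle) → ℝ} (hΦ : Continuous Φ) {b : ℕ → ℝ} (hb0 : ∀ k, 0 ≤ b k)
    (hb : ∀ k z u, |Φ (z * ee n k u) - Φ z| ≤ 2 * b k) :
    ∃ d : ℕ → (Fin n → Circle) → ℝ, (∀ k, Continuous (d k)) ∧
      (∀ k j, k < j → ∀ z u, d k (z * ee n j u) = d k z) ∧
      (∀ k z, ∫ u, d k (z * ee n k u) ∂hp Circle = 0) ∧ (∀ k z, |d k z| ≤ 2) ∧
      ∀ z, Φ z = ∫ w, Φ w ∂hp (Fin n → Circle) + ∑ k ∈ Finset.range n, b k * d k z := by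
  have hD : ∀ k z, |cexp Φ (k + 1) z - cexp Φ k z| ≤ 2 * b k := by
    intro k z
    have c1 : Continuous fun u => cexp Φ (k + 1) (z * ee n k u) :=
      (continuous_cexp hΦ _).comp (continuous_const.mul (continuous_ee n k))
    have h1 := norm_integral_le_of_norm_le_const (μ := hp Circle)
      (f := fun u => cexp Φ (k + 1) (z * ee n k u) - cexp Φ (k + 1) z) (C := 2 * b k)
      (Filter.Eventually.of_forall fun u => cexp_lip hΦ (hb k) _ _ _)
    rw [integral_sub (cint c1) (integrable_const _), cexp_avg hΦ] at h1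
    rw [abs_sub_comm]
    simpa using h1
  refine ⟨fun k z => (cexp Φ (k + 1) z - cexp Φ k z) / b k, fun k => ?_, fun k j h z u => ?_,
    fun k z => ?_, fun k z => ?_, fun z => ?_⟩
  · exact ((continuous_cexp hΦ _).sub (continuous_cexp hΦ _)).div_const _
  · simp only
    rw [cexp_inv Φ (show k + 1 ≤ j from h), cexp_inv Φ h.le]
  · have c1 : Continuous fun u => cexp Φ (k + 1) (z * ee n k u) :=
      (continuous_cexp hΦ _).comp (continuous_const.mul (continuous_ee n k))
    simp only [cexp_inv Φ le_rfl]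
    rw [integral_div, integral_sub (cint c1) (integrable_const _), cexp_avg hΦ]
    simp
  · simp only
    rcases (hb0 k).eq_or_lt with h | h
    · rw [← h]; simp
    · rw [abs_div, abs_of_pos h, div_le_iff₀ h]
      exact hD k z
  · have e : ∀ k, b k * ((cexp Φ (k + 1) z - cexp Φ k z) / b k)
        = cexp Φ (k + 1) z - cexp Φ k z := by
      intro k
      rcases (hb0 k).eq_or_lt with h | h
      · have := hD k z
        rw [← h] at this ⊢
        have h2 : cexp Φ (k + 1) z - cexp Φ k z = 0 := abs_nonpos_iff.1 (by simpa using this)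
        simp [h2]
      · field_simp
    simp only [e]
    rw [Finset.sum_range_sub (fun k => cexp Φ k z), cexp_top, cexp_zero]
    ring

/-- Abel summation -/
lemma abel_le {b q : ℕ → ℝ} {K : ℝ} (hb : Antitone b) (hb0 : ∀ k, 0 ≤ b k) (N : ℕ)
    (hq : ∀ m ≤ N, ∑ k ∈ Finset.range m, q k ≤ K * m) :
    ∑ k ∈ Finset.range N, b k * q k ≤ K * ∑ k ∈ Finset.range N, b k := by
  have key : ∀ m ≤ N, b m * (K * m - ∑ k ∈ Finset.range m, q k)
      ≤ K * ∑ k ∈ Finset.range m, b k - ∑ k ∈ Finset.range m, b k * q k := by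
    intro m
    induction m with
    | zero => simp
    | succ m ih =>
      intro hm
      have h1 := ih (by omega)
      have h2 := hq (m + 1) hm
      have h3 := mul_le_mul_of_nonneg_right (hb (Nat.le_succ m)) (sub_nonneg.2 h2)
      refine h3.trans ?_
      simp only [Finset.sum_range_succ]
      push_cast
      nlinarith
  have h1 := key N le_rfl
  have h2 := mul_nonneg (hb0 N) (sub_nonneg.2 (hq N le_rfl))
  linarith

end Pool.Agent.MP_843cf2_an

end

-- part MP_843cf2_an.PisierAW
section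

set_option autoImplicit false

namespace Pool.Agent.MP_843cf2_an

open MeasureTheory

/-- the imaginary unit as a point of the circle -/
noncomputable def iC : Circle := Circle.exp (Real.pi / 2)

lemma coe_iC : (iC : ℂ) = Complex.I := by
  simp [iC, Circle.coe_exp, Complex.exp_mul_I]

lemma cont_re (w : ℂ) : Continuous fun u : Circle => ((u : ℂ) * w).re :=
  Complex.continuous_re.comp (continuous_subtype_val.mul continuous_const)

lemma circ_re (w : ℂ) : ∫ u : Circle, ((u : ℂ) * w).re ∂hp Circle = 0 := by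
  have h := int_mul_left (fun u : Circle => ((u : ℂ) * w).re) (iC * iC)
  have e : ∀ u : Circle, (((iC * iC * u : Circle) : ℂ) * w).re = -((u : ℂ) * w).re := by
    intro u
    simp only [Circle.coe_mul, coe_iC, Complex.I_mul_I]
    simp
  simp only [e, integral_neg] at h
  linarith

lemma circ_re_re (w w' : ℂ) : ∫ u : Circle, ((u : ℂ) * w).re * ((u : ℂ) * w').re ∂hp Circle
    = (w * (starRingEnd ℂ) w').re / 2 := by
  have c : Continuous fun u : Circle => ((u : ℂ) * w).re * ((u : ℂ) * w').re :=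
    (cont_re w).mul (cont_re w')
  have h := int_mul_left (fun u : Circle => ((u : ℂ) * w).re * ((u : ℂ) * w').re) iC
  have h2 : ∫ u : Circle, (((u : ℂ) * w).re * ((u : ℂ) * w').re
      + (((iC * u : Circle) : ℂ) * w).re * (((iC * u : Circle) : ℂ) * w').re) ∂hp Circle
      = (w * (starRingEnd ℂ) w').re := by
    have e : ∀ u : Circle, ((u : ℂ) * w).re * ((u : ℂ) * w').re
      + (((iC * u : Circle) : ℂ) * w).re * (((iC * u : Circle) : ℂ) * w').re
      = (w * (starRingEnd ℂ) w').re := by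
      intro u
      have h1 : (u : ℂ).re * (u : ℂ).re + (u : ℂ).im * (u : ℂ).im = 1 := by
        rw [← Complex.normSq_apply]; exact Circle.normSq_coe u
      simp only [Circle.coe_mul, coe_iC, Complex.mul_re, Complex.mul_im, Complex.I_re,
        Complex.I_im, Complex.conj_re, Complex.conj_im]
      linear_combination (w.re * w'.re + w.im * w'.im) * h1
    simp only [e]
    simp
  have c' : Continuous fun u : Circle =>
      (((iC * u : Circle) : ℂ) * w).re * (((iC * u : Circle) : ℂ) * w').re :=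
    c.comp (continuous_const.mul continuous_id)
  rw [integral_add (cint c) (cint c'), h] at h2
  linarith

lemma int_prod {n : ℕ} (f : Fin n → Circle → ℝ) :
    ∫ z : Fin n → Circle, ∏ i, f i (z i) ∂hp (Fin n → Circle) = ∏ i, ∫ u, f i u ∂hp Circle := by
  have h : hp (Fin n → Circle) = Measure.pi fun _ => hp Circle :=
    Measure.isHaarMeasure_eq_of_isProbabilityMeasure _ _
  rw [h]
  exact integral_fintype_prod_eq_prod f

variable {G : Type*} [CommGroup G] [TopologicalSpace G] [IsTopologicalGroup G] [CompactSpace G]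
  [MeasurableSpace G] [BorelSpace G] {n : ℕ}

/-- partial random Riesz product -/
noncomputable def rW (τ : ℝ) (γ : Fin n → PontryaginDual G) (m : ℕ) (z : Fin n → Circle) (x : G) :
    ℝ :=
  ∏ i : Fin n, if i.val < m then 1 + τ * ((z i : ℂ) * ch (γ i) x).re else 1

/-- mass of the partial random Riesz product -/
noncomputable def rho (τ : ℝ) (γ : Fin n → PontryaginDual G) (m : ℕ) (z : Fin n → Circle) : ℝ :=
  ∫ x, rW τ γ m z x ∂hp G

omit [IsTopologicalGroup G] [CompactSpace G] [MeasurableSpace G] [BorelSpace G] in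
lemma cont_rW (τ : ℝ) (γ : Fin n → PontryaginDual G) (m : ℕ) {X : Type*} [TopologicalSpace X]
    {z : X → Fin n → Circle} {x : X → G} (hz : Continuous z) (hx : Continuous x) :
    Continuous fun p => rW τ γ m (z p) (x p) := by
  refine continuous_finsetProd _ fun i _ => ?_
  split_ifs
  · exact continuous_const.add (continuous_const.mul (Complex.continuous_re.comp
      ((continuous_subtype_val.comp ((continuous_apply i).comp hz)).mul
        ((continuous_ch _).comp hx))))
  · exact continuous_const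

lemma cont_rho (τ : ℝ) (γ : Fin n → PontryaginDual G) (m : ℕ) : Continuous (rho τ γ m) :=
  cont_int (cont_rW τ γ m continuous_fst continuous_snd)

omit [IsTopologicalGroup G] [CompactSpace G] [MeasurableSpace G] [BorelSpace G] in
lemma abs_re_zch (u : Circle) (γ : PontryaginDual G) (x : G) : |((u : ℂ) * ch γ x).re| ≤ 1 :=
  (Complex.abs_re_le_norm _).trans (by rw [norm_mul, norm_ch, Circle.norm_coe, one_mul])

omit [IsTopologicalGroup G] [CompactSpace G] [MeasurableSpace G] [BorelSpace G] in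
lemma rW_pos {τ : ℝ} (h0 : 0 < τ) (h1 : τ < 1) (γ : Fin n → PontryaginDual G) (m : ℕ)
    (z : Fin n → Circle) (x : G) : 0 < rW τ γ m z x := by
  refine Finset.prod_pos fun i _ => ?_
  split_ifs
  · have := abs_le.1 (abs_re_zch (z i) (γ i) x)
    nlinarith
  · exact one_pos

lemma rho_pos {τ : ℝ} (h0 : 0 < τ) (h1 : τ < 1) (γ : Fin n → PontryaginDual G) (m : ℕ)
    (z : Fin n → Circle) : 0 < rho τ γ m z :=
  int_pos (cont_rW τ γ m continuous_const continuous_id) (rW_pos h0 h1 γ m z)

lemma circ_one (τ : ℝ) (w : ℂ) : ∫ u : Circle, (1 + τ * ((u : ℂ) * w).re) ∂hp Circle = 1 := by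
  rw [integral_add (integrable_const _) ((cint (cont_re w)).const_mul _), integral_const_mul,
    circ_re]
  simp

lemma circ_two (τ : ℝ) (w w' : ℂ) :
    ∫ u : Circle, (1 + τ * ((u : ℂ) * w).re) * ((u : ℂ) * w').re ∂hp Circle
      = τ * ((w * (starRingEnd ℂ) w').re / 2) := by
  have e : ∀ u : Circle, (1 + τ * ((u : ℂ) * w).re) * ((u : ℂ) * w').re
      = ((u : ℂ) * w').re + τ * (((u : ℂ) * w).re * ((u : ℂ) * w').re) := fun u => by ring
  have c : Continuous fun u : Circle => ((u : ℂ) * w).re * ((u : ℂ) * w').re :=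
    (cont_re w).mul (cont_re w')
  simp only [e]
  rw [integral_add (cint (cont_re w')) ((cint c).const_mul _),
    integral_const_mul, circ_re, circ_re_re, zero_add]

lemma circ_three (τ : ℝ) (w w' : ℂ) :
    ∫ u : Circle, (1 + τ * ((u : ℂ) * w).re) * (1 + τ * ((u : ℂ) * w').re) ∂hp Circle
      = 1 + τ ^ 2 / 2 * (w * (starRingEnd ℂ) w').re := by
  have e : ∀ u : Circle, (1 + τ * ((u : ℂ) * w).re) * (1 + τ * ((u : ℂ) * w').re)
      = (1 + τ * ((u : ℂ) * w).re) + τ * ((1 + τ * ((u : ℂ) * w).re) * ((u : ℂ) * w').re) :=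
    fun u => by ring
  have c : Continuous fun u : Circle => 1 + τ * ((u : ℂ) * w).re :=
    continuous_const.add (continuous_const.mul (cont_re w))
  have c2 : Continuous fun u : Circle => (1 + τ * ((u : ℂ) * w).re) * ((u : ℂ) * w').re :=
    c.mul (cont_re w')
  simp only [e]
  rw [integral_add (cint c) ((cint c2).const_mul _),
    integral_const_mul, circ_one, circ_two]
  ring

lemma rho_avg (τ : ℝ) (γ : Fin n → PontryaginDual G) {k : ℕ} (hk : k < n) (z : Fin n → Circle) :
    ∫ u, rho τ γ (k + 1) (z * ee n k u) ∂hp Circle = rho τ γ k z := by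
  unfold rho
  rw [int_swap (f := fun u x => rW τ γ (k + 1) (z * ee n k u) x)
    (cont_rW τ γ _ (continuous_const.mul ((continuous_ee n k).comp continuous_fst))
      continuous_snd)]
  congr 1
  funext x
  have e : ∀ u, rW τ γ (k + 1) (z * ee n k u) x
      = rW τ γ k z x * (1 + τ * ((u : ℂ) * ((z ⟨k, hk⟩ : ℂ) * ch (γ ⟨k, hk⟩) x)).re) := by
    intro u
    have e2 : (1 + τ * ((u : ℂ) * ((z ⟨k, hk⟩ : ℂ) * ch (γ ⟨k, hk⟩) x)).re)
        = ∏ i : Fin n, if i = ⟨k, hk⟩ then 1 + τ * ((u : ℂ) * ((z i : ℂ) * ch (γ i) x)).re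
          else 1 := by
      rw [Finset.prod_ite_eq']
      simp
    rw [e2, rW, rW, ← Finset.prod_mul_distrib]
    refine Finset.prod_congr rfl fun i _ => ?_
    by_cases h1 : i.val = k
    · have h3 : i = ⟨k, hk⟩ := Fin.ext h1
      have h4 : i.val < k + 1 := by omega
      have h5 : ¬ i.val < k := by omega
      rw [if_pos h4, if_neg h5, if_pos h3, one_mul]
      simp only [Pi.mul_apply, ee, if_pos h1, Circle.coe_mul]
      ring_nf
    · have h3 : i ≠ ⟨k, hk⟩ := fun h => h1 (by rw [h])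
      rw [if_neg h3, mul_one]
      simp only [Pi.mul_apply, ee, if_neg h1, mul_one]
      by_cases h2 : i.val < k
      · rw [if_pos h2, if_pos (by omega)]
      · rw [if_neg h2, if_neg (by omega)]
  simp only [e]
  rw [integral_const_mul, circ_one, mul_one]

lemma rho_red (τ : ℝ) (γ : Fin n → PontryaginDual G) {g : (Fin n → Circle) → ℝ}
    (hg : Continuous g) {m : ℕ} (hinv : ∀ j, m ≤ j → ∀ z u, g (z * ee n j u) = g z) {k : ℕ}
    (hmk : m ≤ k) (hk : k ≤ n) :
    ∫ z, rho τ γ k z * g z ∂hp (Fin n → Circle) = ∫ z, rho τ γ m z * g z ∂hp (Fin n → Circle) := by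
  induction k, hmk using Nat.le_induction with
  | base => rfl
  | succ k hmk ih =>
    rw [← ih (by omega), int_avg (f := fun z => rho τ γ (k + 1) z * g z)
      ((cont_rho τ γ _).mul hg) k]
    simp only [hinv k hmk, integral_mul_const, rho_avg τ γ (show k < n from hk)]

lemma rho_one (τ : ℝ) (γ : Fin n → PontryaginDual G) {k : ℕ} (hk : k ≤ n) :
    ∫ z, rho τ γ k z ∂hp (Fin n → Circle) = 1 := by
  have := rho_red τ γ (g := fun _ => 1) continuous_const (m := 0) (fun _ _ _ _ => rfl)
    (Nat.zero_le k) hk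
  simpa [rho, rW] using this

lemma rho_sq {C τ : ℝ} (h0 : 0 < τ) (h1 : τ < 1) (γ : Fin n → PontryaginDual G)
    (h : ∀ J : ℝ, 0 < J → J ≤ 1 → ∀ T : Finset (Fin n),
      Real.log (∫ x, Real.exp (J * ∑ i ∈ T, (ch (γ i) x).re) ∂hp G) ≤ C * J ^ 2 * T.card)
    (hC : 0 ≤ C) (m : ℕ) :
    ∫ z, rho τ γ m z * rho τ γ m z ∂hp (Fin n → Circle) ≤ Real.exp (C * (τ ^ 2 / 2) ^ 2 * m) := by
  set T : Finset (Fin n) := Finset.univ.filter fun i => i.val < m with hT
  have hTm : T.card ≤ m := by
    have := Finset.card_le_card_of_injOn (s := T) (t := Finset.range m) (fun i => i.val)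
      (fun i hi => by simpa [hT] using hi) (fun i _ j _ e => Fin.ext e)
    simpa using this
  have cE : Continuous fun x => Real.exp (τ ^ 2 / 2 * ∑ i ∈ T, (ch (γ i) x).re) := by fun_prop
  have hE : ∫ x, Real.exp (τ ^ 2 / 2 * ∑ i ∈ T, (ch (γ i) x).re) ∂hp G
      ≤ Real.exp (C * (τ ^ 2 / 2) ^ 2 * m) := by
    have h2 := h (τ ^ 2 / 2) (by positivity) (by nlinarith) T
    rw [Real.log_le_iff_le_exp (int_pos cE fun _ => Real.exp_pos _)] at h2
    refine h2.trans (Real.exp_le_exp.2 ?_)
    exact mul_le_mul_of_nonneg_left (by exact_mod_cast hTm) (by positivity)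
  have key : ∀ x y, ∫ z, rW τ γ m z x * rW τ γ m z y ∂hp (Fin n → Circle)
      ≤ Real.exp (τ ^ 2 / 2 * ∑ i ∈ T, (ch (γ i) (x * y⁻¹)).re) := by
    intro x y
    have e : ∀ z : Fin n → Circle, rW τ γ m z x * rW τ γ m z y = ∏ i : Fin n,
        (fun u : Circle => if i.val < m then (1 + τ * ((u : ℂ) * ch (γ i) x).re)
          * (1 + τ * ((u : ℂ) * ch (γ i) y).re) else 1) (z i) := by
      intro z
      rw [rW, rW, ← Finset.prod_mul_distrib]
      refine Finset.prod_congr rfl fun i _ => ?_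
      simp only
      split_ifs <;> simp
    simp only [e]
    rw [int_prod (fun i (u : Circle) => if i.val < m then (1 + τ * ((u : ℂ) * ch (γ i) x).re)
          * (1 + τ * ((u : ℂ) * ch (γ i) y).re) else 1), Finset.mul_sum, Real.exp_sum, hT,
      Finset.prod_filter]
    refine Finset.prod_le_prod (fun i _ => ?_) fun i _ => ?_
    · split_ifs
      · rw [circ_three, ← ch_inv, ← ch_mul]
        have := abs_le.1 (abs_re_ch (γ i) (x * y⁻¹))
        nlinarith
      · simp
    · split_ifs
      · rw [circ_three, ← ch_inv, ← ch_mul, add_comm]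
        exact Real.add_one_le_exp _
      · simp
  have e1 : ∀ z, rho τ γ m z * rho τ γ m z
      = ∫ x, rW τ γ m z x * rho τ γ m z ∂hp G := fun z => by
    rw [integral_mul_const]; rfl
  have e2 : ∀ z x, rW τ γ m z x * rho τ γ m z
      = ∫ y, rW τ γ m z x * rW τ γ m z y ∂hp G := fun z x => by
    rw [integral_const_mul]; rfl
  simp only [e1]
  have c1 : Continuous fun p : (Fin n → Circle) × G => rW τ γ m p.1 p.2 * rho τ γ m p.1 :=
    (cont_rW τ γ m continuous_fst continuous_snd).mul ((cont_rho τ γ m).comp continuous_fst)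
  rw [int_swap (f := fun z x => rW τ γ m z x * rho τ γ m z) c1]
  have h3 : ∀ x, ∫ z, rW τ γ m z x * rho τ γ m z ∂hp (Fin n → Circle)
      ≤ Real.exp (C * (τ ^ 2 / 2) ^ 2 * m) := by
    intro x
    simp only [e2]
    have c2 : Continuous fun p : (Fin n → Circle) × G => rW τ γ m p.1 x * rW τ γ m p.1 p.2 :=
      (cont_rW τ γ m continuous_fst continuous_const).mul
        (cont_rW τ γ m continuous_fst continuous_snd)
    rw [int_swap (f := fun z y => rW τ γ m z x * rW τ γ m z y) c2]
    refine le_trans ?_ hE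
    rw [← int_mul_inv (fun y => Real.exp (τ ^ 2 / 2 * ∑ i ∈ T, (ch (γ i) y).re)) x]
    have c3 : Continuous fun p : G × (Fin n → Circle) => rW τ γ m p.2 x * rW τ γ m p.2 p.1 :=
      (cont_rW τ γ m continuous_snd continuous_const).mul
        (cont_rW τ γ m continuous_snd continuous_fst)
    have c4 : Continuous fun y => ∫ z, rW τ γ m z x * rW τ γ m z y ∂hp (Fin n → Circle) :=
      cont_int (f := fun y z => rW τ γ m z x * rW τ γ m z y) c3
    have c5 : Continuous fun y : G =>
        Real.exp (τ ^ 2 / 2 * ∑ i ∈ T, (ch (γ i) (x * y⁻¹)).re) := by fun_prop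
    exact integral_mono (cint c4) (cint c5) (key x)
  have c6 : Continuous fun p : G × (Fin n → Circle) => rW τ γ m p.2 p.1 * rho τ γ m p.2 :=
    (cont_rW τ γ m continuous_snd continuous_fst).mul ((cont_rho τ γ m).comp continuous_snd)
  have c7 : Continuous fun x => ∫ z, rW τ γ m z x * rho τ γ m z ∂hp (Fin n → Circle) :=
    cont_int (f := fun x z => rW τ γ m z x * rho τ γ m z) c6
  have h4 := integral_mono (cint c7) (integrable_const _) h3
  simpa using h4

omit [IsTopologicalGroup G] [CompactSpace G] [MeasurableSpace G] [BorelSpace G] in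
lemma rW_lin (τ : ℝ) (γ : Fin n → PontryaginDual G) (i : Fin n) (x : G) :
    ∫ z, rW τ γ n z x * ((z i : ℂ) * ch (γ i) x).re ∂hp (Fin n → Circle) = τ / 2 := by
  have e : ∀ z : Fin n → Circle, rW τ γ n z x * ((z i : ℂ) * ch (γ i) x).re = ∏ j : Fin n,
      (fun u : Circle => (1 + τ * ((u : ℂ) * ch (γ j) x).re)
        * if j = i then ((u : ℂ) * ch (γ j) x).re else 1) (z j) := by
    intro z
    simp only [Finset.prod_mul_distrib, Finset.prod_ite_eq', Finset.mem_univ, if_true, rW,
      Fin.is_lt]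
  simp only [e]
  rw [int_prod (fun j (u : Circle) => (1 + τ * ((u : ℂ) * ch (γ j) x).re)
        * if j = i then ((u : ℂ) * ch (γ j) x).re else 1), Finset.prod_eq_single i]
  · simp only [if_true]
    rw [circ_two, ch_mul_conj]
    simp
    ring
  · intro j _ hj
    simp only [if_neg hj, mul_one]
    exact circ_one _ _
  · simp

end Pool.Agent.MP_843cf2_an

end
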